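import Mathlib

/-!
Definitions for the proof that there is a Banach space `X` which is not weakly compactly
generated although its bidual is (MP_064b94_an).
-/

set_option autoImplicit false

namespace WCGBd

open Filter Topology Set
open scoped ENNReal

/-- Weakly compactly generated: there is a weakly compact set with dense linear span. -/
def IsWCG (𝕜 Z : Type*) [RCLike 𝕜] [NormedAddCommGroup Z] [NormedSpace 𝕜 Z] : Prop :=
  ∃ K : Set Z, IsCompact (toWeakSpace 𝕜 Z '' K) ∧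
    (Submodule.span 𝕜 K).topologicalClosure = ⊤

/-- `ℓ¹(D)` -/
abbrev L1 (𝕜 D : Type*) [RCLike 𝕜] := lp (fun _ : D => 𝕜) 1

/-- `ℓ^∞(A)` -/
abbrev Li (𝕜 A : Type*) [RCLike 𝕜] := lp (fun _ : A => 𝕜) ∞

/-- The adjoint operator. -/
noncomputable def dmap {𝕜 E F : Type*} [RCLike 𝕜] [NormedAddCommGroup E] [NormedSpace 𝕜 E]
    [NormedAddCommGroup F] [NormedSpace 𝕜 F] (T : E →L[𝕜] F) :
    StrongDual 𝕜 F →L[𝕜] StrongDual 𝕜 E :=
  (ContinuousLinearMap.compL 𝕜 E F 𝕜).flip T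

/-- The second adjoint. -/
noncomputable def bimap {𝕜 E F : Type*} [RCLike 𝕜] [NormedAddCommGroup E] [NormedSpace 𝕜 E]
    [NormedAddCommGroup F] [NormedSpace 𝕜 F] (T : E →L[𝕜] F) :
    StrongDual 𝕜 (StrongDual 𝕜 E) →L[𝕜] StrongDual 𝕜 (StrongDual 𝕜 F) :=
  dmap (dmap T)

/-- A factorization `T = S ι` of `T : G → H` through the interpolation space `X`. -/
structure Fac {𝕜 G H X : Type*} [RCLike 𝕜] [NormedAddCommGroup G] [NormedSpace 𝕜 G]
    [NormedAddCommGroup H] [NormedSpace 𝕜 H] [NormedAddCommGroup X] [NormedSpace 𝕜 X]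
    (T : G →L[𝕜] H) (ι : G →L[𝕜] X) (S : X →L[𝕜] H) : Prop where
  comp : ∀ g, S (ι g) = T g
  inj : Function.Injective S
  dense : DenseRange ι
  upper : ∀ (n : ℕ) (g : G), ‖ι g‖ ≤ max (‖g‖ / 2 ^ n) (2 ^ n * ‖T g‖)
  split : ∀ (x : X) (q : ℕ), ∃ (g : G) (h : H), S x = T g + h ∧
    ‖g‖ ≤ 2 ^ (q + 2) * ‖x‖ ∧ ‖h‖ ≤ 2 / 2 ^ q * ‖x‖
  bidual : DenseRange (bimap ι)

/-- Upper estimates for finite sums of the family `g`. -/
def WU (𝕜 : Type*) {J Z : Type*} [RCLike 𝕜] [NormedAddCommGroup Z] [NormedSpace 𝕜 Z]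
    (a b : ℝ) (g : J → Z) : Prop :=
  ∀ (F : Finset J) (θ : J → 𝕜), (∀ j, ‖θ j‖ ≤ 1) → ∀ n : ℕ,
    ‖∑ j ∈ F, θ j • g j‖ ≤ max ((F.card : ℝ) * a / 2 ^ n) (2 ^ n * b)

/-- `g` is the weak-star limit of the sequence `u`. -/
def WLim (𝕜 : Type*) {X : Type*} [RCLike 𝕜] [NormedAddCommGroup X] [NormedSpace 𝕜 X]
    (u : ℕ → X) (g : StrongDual 𝕜 (StrongDual 𝕜 X)) : Prop :=
  ∀ φ : StrongDual 𝕜 X, Tendsto (fun n => φ (u n)) atTop (𝓝 (g φ))

/-- Multiplication by the indicator function of `U`. -/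
noncomputable def restr (𝕜 : Type*) {A : Type*} [RCLike 𝕜] (U : Set A) : Li 𝕜 A →L[𝕜] Li 𝕜 A := by
  classical
  exact LinearMap.mkContinuous
    { toFun := fun g => ⟨fun a => if a ∈ U then g a else 0, by
        refine memℓp_infty ⟨‖g‖, ?_⟩
        rintro _ ⟨a, rfl⟩
        by_cases h : a ∈ U
        · simpa [h] using lp.norm_apply_le_norm ENNReal.top_ne_zero g a
        · simp [h]⟩
      map_add' := by
        intro g g'
        ext a
        by_cases h : a ∈ U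
        · simp [h]
        · simp [h]
      map_smul' := by
        intro c g
        ext a
        by_cases h : a ∈ U
        · simp [h]
        · simp [h] }
    1 (by
      intro g
      refine lp.norm_le_of_forall_le (by positivity) ?_
      intro a
      by_cases h : a ∈ U
      · simpa [h] using lp.norm_apply_le_norm ENNReal.top_ne_zero g a
      · simp [h])

/-- Restriction of a finitely additive measure to `U`. -/
noncomputable def rs {𝕜 A : Type*} [RCLike 𝕜] (U : Set A) (ψ : StrongDual 𝕜 (Li 𝕜 A)) :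
    StrongDual 𝕜 (Li 𝕜 A) := ψ.comp (restr 𝕜 U)

/-- Evaluation at a point of `A`. -/
noncomputable def evA (𝕜 : Type*) {A : Type*} [RCLike 𝕜] (a : A) : StrongDual 𝕜 (Li 𝕜 A) :=
  LinearMap.mkContinuous
    { toFun := fun g => g a
      map_add' := by intro g g'; simp
      map_smul' := by intro c g; simp }
    1 (by
      intro g
      simpa using lp.norm_apply_le_norm ENNReal.top_ne_zero g a)

/-- `k`-th tree relation: `E k τ m σ` says that `τ` is a predecessor of `σ` with position `m`. -/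
structure TreeData {W : Type} (E : ℕ → W → ℕ → W → Prop) (len : W → ℕ → ℕ) : Prop where
  len_lt : ∀ {k τ m σ}, E k τ m σ → len τ k < len σ k
  uniq : ∀ {k τ m m' σ}, E k τ m σ → E k τ m' σ → m = m'
  tree : ∀ {k τ m τ' m' σ}, E k τ m σ → E k τ' m' σ → τ = τ' ∨ E k τ m τ' ∨ E k τ' m' τ
  trans : ∀ {k τ m τ' m' σ}, E k τ m τ' → E k τ' m' σ → E k τ m σ
  disj : ∀ {k k' τ m m' σ}, E k τ m σ → E k' τ m' σ → k = k'
  pred : ∀ σ k j, j < len σ k → ∃ τ m, len τ k = j ∧ E k τ m σ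

/-- The tree relations on `W` given by a bijection `e : W → (W × ℕ)^{<ω})^ω`. -/
def Erel {W : Type} (e : W ≃ (ℕ → List (W × ℕ))) (k : ℕ) (τ : W) (m : ℕ) (σ : W) : Prop :=
  ∃ (j : ℕ) (a : W), (e σ k)[j]? = some (a, m) ∧
    ∀ i, e τ i = if i < k then e σ i else if i = k then (e σ k).take j else e a i

/-- cylinders -/
def Vc {W : Type} (e : W ≃ (ℕ → List (W × ℕ))) (k : ℕ) (t : ℕ → List (W × ℕ)) : Set W :=
  {σ | ∀ i < k, e σ i = t i}

/-- the blocks of types -/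
def blk (k : ℕ) : ℕ := Nat.log 8 (k + 1)

/-- the finite set of types of a block -/
def Iblk (i : ℕ) : Finset ℕ := Finset.Ico (8 ^ i - 1) (8 ^ (i + 1) - 1)

/-- `inl k'` stands for the set `{k'}` of types and `inr i` for the `i`-th block. -/
def Hm (h : ℕ ⊕ ℕ) (k : ℕ) : Prop :=
  match h with
  | .inl k' => k = k'
  | .inr i => blk k = i

/-- atoms -/
abbrev Dd (W : Type) := W ⊕ (W × (ℕ ⊕ ℕ) × ℕ)

/-- points -/
abbrev Om (W : Type) := W × ℕ × Bool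

open Classical in
/-- the atoms as functions -/
noncomputable def val {W : Type} (E : ℕ → W → ℕ → W → Prop) (d : Dd W) (o : Om W) : ℝ :=
  match d with
  | .inl τ => if (∃ m, E o.2.1 τ m o.1) ∨ (o.2.2 = true ∧ o.1 = τ) then (1 / 2) ^ (blk o.2.1) else 0
  | .inr (τ, h, M) => if Hm h o.2.1 ∧ ∃ m ≤ M, E o.2.1 τ m o.1 then 1 else 0

/-- the node of an atom -/
def nodeD {W : Type} : Dd W → W
  | .inl τ => τ
  | .inr (τ, _, _) => τ

/-- the last index of an atom -/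
def idxD {W : Type} : Dd W → ℕ
  | .inl _ => 0
  | .inr (_, _, M) => M

/-- unit vector of `ℓ¹(D)` -/
noncomputable def dl (𝕜 : Type) {W : Type} [RCLike 𝕜] (d : Dd W) : L1 𝕜 (Dd W) := by
  classical
  exact lp.single 1 d (1 : 𝕜)

/-- `T` maps `dl d` to the function `val d`. -/
def IsT {𝕜 W : Type} [RCLike 𝕜] (E : ℕ → W → ℕ → W → Prop)
    (T : L1 𝕜 (Dd W) →L[𝕜] Li 𝕜 (Om W)) : Prop :=
  ∀ (u : L1 𝕜 (Dd W)) (o : Om W), HasSum (fun d => u d * ((val E d o : ℝ) : 𝕜)) (T u o)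

/-- The setting. -/
structure Setting {𝕜 W X : Type} [RCLike 𝕜] [NormedAddCommGroup X] [NormedSpace 𝕜 X]
    (E : ℕ → W → ℕ → W → Prop) (len : W → ℕ → ℕ)
    (T : L1 𝕜 (Dd W) →L[𝕜] Li 𝕜 (Om W)) (ι : L1 𝕜 (Dd W) →L[𝕜] X) (S : X →L[𝕜] Li 𝕜 (Om W)) :
    Prop where
  tree : TreeData E len
  isT : IsT E T
  fac : Fac T ι S

/-- index set of the single-type vectors, with the limits `M = ⊤` -/
abbrev Aa (W : Type) := ℕ × W × ℕ∞

/-- truncation of the last index -/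
noncomputable def trc (M : ℕ∞) (n : ℕ) : ℕ := (min M (n : ℕ∞)).toNat

/-- the approximating atom -/
noncomputable def apx {W : Type} (a : Aa W) (n : ℕ) : Dd W := Sum.inr (a.2.1, Sum.inl a.1, trc a.2.2 n)

/-- `a'` lies inside `a` -/
def ltA {W : Type} (E : ℕ → W → ℕ → W → Prop) (a a' : Aa W) : Prop :=
  a.1 = a'.1 ∧ ∃ m : ℕ, (m : ℕ∞) ≤ a.2.2 ∧ E a.1 a.2.1 m a'.2.1

/-- compatible indices -/
def cmpA {W : Type} (E : ℕ → W → ℕ → W → Prop) (a a' : Aa W) : Prop :=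
  (a.1 = a'.1 ∧ a.2.1 = a'.2.1) ∨ ltA E a a' ∨ ltA E a' a

/-- chains -/
def ChA {W : Type} (E : ℕ → W → ℕ → W → Prop) (C : Set (Aa W)) : Prop :=
  ∀ a ∈ C, ∀ a' ∈ C, cmpA E a a'

/-- branches of type `k` with their positions -/
def IsBr {W : Type} (E : ℕ → W → ℕ → W → Prop) (len : W → ℕ → ℕ) (k : ℕ) (b : ℕ → W × ℕ) : Prop :=
  ∀ j, len (b j).1 k = j ∧ ∀ j', j < j' → E k (b j).1 (b j).2 (b j').1

/-- The limits of the atoms. -/
structure Lims {𝕜 W X : Type} [RCLike 𝕜] [NormedAddCommGroup X] [NormedSpace 𝕜 X]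
    (E : ℕ → W → ℕ → W → Prop) (len : W → ℕ → ℕ) (ι : L1 𝕜 (Dd W) →L[𝕜] X)
    (v : Aa W → StrongDual 𝕜 (StrongDual 𝕜 X))
    (br : (k : ℕ) → (ℕ → W × ℕ) → StrongDual 𝕜 (StrongDual 𝕜 X))
    (hh : W → StrongDual 𝕜 (StrongDual 𝕜 X)) : Prop where
  v_lim : ∀ a, WLim 𝕜 (fun n => ι (dl 𝕜 (apx a n))) (v a)
  v_norm : ∀ a, ‖v a‖ ≤ 1
  br_lim : ∀ k b, IsBr E len k b →
    WLim 𝕜 (fun j => ι (dl 𝕜 (Sum.inr ((b j).1, Sum.inl k, (b j).2)))) (br k b)
  br_norm : ∀ k b, IsBr E len k b → ‖br k b‖ ≤ 1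
  hh_norm : ∀ σ, ‖hh σ‖ ≤ 3
  blk_norm : ∀ σ i, ‖∑ k ∈ Iblk i, v (k, σ, ⊤)‖ ≤ 1
  hh_sum : ∀ σ, HasSum (fun i : ℕ => (((1 / 2 : ℝ) ^ i : ℝ) : 𝕜) • ∑ k ∈ Iblk i, v (k, σ, ⊤))
    (NormedSpace.inclusionInDoubleDual 𝕜 X (ι (dl 𝕜 (Sum.inl σ))) - hh σ)

/-- closed linear span -/
def cspan (𝕜 : Type*) {Z : Type*} [RCLike 𝕜] [NormedAddCommGroup Z] [NormedSpace 𝕜 Z]
    (s : Set Z) : Submodule 𝕜 Z := (Submodule.span 𝕜 s).topologicalClosure

/-- the closed span of the limits -/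
noncomputable def Nsp {𝕜 W X : Type} [RCLike 𝕜] [NormedAddCommGroup X] [NormedSpace 𝕜 X]
    (E : ℕ → W → ℕ → W → Prop) (len : W → ℕ → ℕ)
    (v : Aa W → StrongDual 𝕜 (StrongDual 𝕜 X))
    (br : (k : ℕ) → (ℕ → W × ℕ) → StrongDual 𝕜 (StrongDual 𝕜 X))
    (hh : W → StrongDual 𝕜 (StrongDual 𝕜 X)) : Submodule 𝕜 (StrongDual 𝕜 (StrongDual 𝕜 X)) :=
  cspan 𝕜 (Set.range v ∪ {z | ∃ k b, IsBr E len k b ∧ z = br k b} ∪ Set.range hh)

end WCGBd
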