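import Pool.Agent.WCGBd.Defs

set_option autoImplicit false

namespace WCGBd

open Filter Topology Set
open scoped ENNReal

/-- A weakly compact set is bounded (uniform boundedness: `inclusionInDoubleDual '' K` is pointwise bounded, and the
inclusion into the bidual is isometric). -/
theorem wk_bdd {𝕜 X : Type*} [RCLike 𝕜] [NormedAddCommGroup X] [NormedSpace 𝕜 X] {K : Set X}
    (hK : IsCompact (toWeakSpace 𝕜 X '' K)) : ∃ C : ℝ, 0 < C ∧ ∀ z ∈ K, ‖z‖ ≤ C := by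
  have hpt : ∀ f : StrongDual 𝕜 X, ∃ C : ℝ, ∀ z : K, ‖NormedSpace.inclusionInDoubleDual 𝕜 X z.1 f‖ ≤ C := by
    intro f
    have hc : Continuous (fun w : WeakSpace 𝕜 X => ‖f ((toWeakSpace 𝕜 X).symm w)‖) := by
      have h1 := WeakBilin.eval_continuous (topDualPairing 𝕜 X).flip f
      exact h1.norm
    obtain ⟨C, hC⟩ := (hK.image hc).isBounded.exists_norm_le
    refine ⟨C, ?_⟩
    rintro ⟨z, hz⟩
    have h2 := hC (‖f z‖) ⟨toWeakSpace 𝕜 X z, ⟨z, hz, rfl⟩, by simp⟩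
    rw [norm_norm] at h2
    simpa using h2
  obtain ⟨C, hC⟩ := banach_steinhaus (𝕜 := 𝕜) (g := fun z : K => NormedSpace.inclusionInDoubleDual 𝕜 X z.1) hpt
  refine ⟨max C 1, by positivity, ?_⟩
  intro z hz
  have h3 := hC ⟨z, hz⟩
  have h4 : ‖NormedSpace.inclusionInDoubleDual 𝕜 X z‖ = ‖z‖ :=
    (NormedSpace.inclusionInDoubleDualLi 𝕜 (E := X)).norm_map z
  exact (h4.symm.le.trans h3).trans (le_max_left _ _)

end WCGBd
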