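import Pool.Agent.WCGBd.Defs

set_option autoImplicit false

namespace WCGBd

open Filter Topology Set
open scoped ENNReal

/-- Grothendieck's double limit argument. Let `𝒰` be `Filter.hyperfilter ℕ`. Along `𝒰`, `z i` converges weakly to some `z₀`
(compactness; `z₀ ∈ K`), and for every `x` the bounded numbers `φ j x` converge to a number `Φ x`; `Φ` is a bounded linear functional
(define it with `LinearMap.mkContinuous`, or take a weak-star cluster point by Banach-Alaoglu). Then `‖φ j z₀‖ ≤ a` for all `j`, so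
`‖Φ z₀‖ ≤ a`; but `‖Φ (z i)‖ ≥ b` for all `i`, so `‖Φ z₀‖ ≥ b`. -/
theorem dbl_limit {𝕜 X : Type*} [RCLike 𝕜] [NormedAddCommGroup X] [NormedSpace 𝕜 X] {K : Set X}
    (hK : IsCompact (toWeakSpace 𝕜 X '' K)) (z : ℕ → X) (hz : ∀ i, z i ∈ K)
    (φ : ℕ → StrongDual 𝕜 X) (C : ℝ) (hφ : ∀ j, ‖φ j‖ ≤ C) (a b : ℝ) (hab : a < b)
    (h1 : ∀ i j, j ≤ i → ‖φ j (z i)‖ ≤ a) (h2 : ∀ i j, i < j → b ≤ ‖φ j (z i)‖) : False := by
  classical
  have hne : (hyperfilter ℕ : Filter ℕ) ≤ atTop := by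
    rw [← Nat.cofinite_eq_atTop]
    exact hyperfilter_le_cofinite
  -- the weak limit of the points
  obtain ⟨w0, hw0, hle⟩ := hK.ultrafilter_le_nhds'
    ((hyperfilter ℕ).map (fun i => toWeakSpace 𝕜 X (z i)))
    (Ultrafilter.mem_map.2 (Filter.univ_mem' (fun i => Set.mem_image_of_mem _ (hz i))))
  obtain ⟨z0, -, rfl⟩ := hw0
  have hzt : ∀ ψ : StrongDual 𝕜 X,
      Tendsto (fun i => ψ (z i)) (hyperfilter ℕ : Filter ℕ) (𝓝 (ψ z0)) := by
    intro ψ
    have hc : Continuous (fun y : WeakSpace 𝕜 X => (topDualPairing 𝕜 X).flip y ψ) :=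
      WeakBilin.eval_continuous (topDualPairing 𝕜 X).flip ψ
    have h := (hc.tendsto (toWeakSpace 𝕜 X z0)).comp
      (show Tendsto (fun i => toWeakSpace 𝕜 X (z i)) (hyperfilter ℕ : Filter ℕ)
        (𝓝 (toWeakSpace 𝕜 X z0)) from hle)
    exact h
  -- the weak star limit of the functionals
  have hcomp := WeakDual.isCompact_closedBall (𝕜 := 𝕜) (E := X) 0 C
  obtain ⟨Φ, -, hΦ⟩ := hcomp.ultrafilter_le_nhds'
    ((hyperfilter ℕ).map (fun j => StrongDual.toWeakDual (φ j)))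
    (Ultrafilter.mem_map.2 (Filter.univ_mem' (fun j => by
      show φ j ∈ Metric.closedBall (0 : StrongDual 𝕜 X) C
      rw [mem_closedBall_zero_iff]
      exact hφ j)))
  have hΦt : ∀ x : X, Tendsto (fun j => φ j x) (hyperfilter ℕ : Filter ℕ) (𝓝 (Φ x)) := by
    intro x
    have h := ((WeakDual.eval_continuous x).tendsto Φ).comp
      (show Tendsto (fun j => StrongDual.toWeakDual (φ j)) (hyperfilter ℕ : Filter ℕ)
        (𝓝 Φ) from hΦ)
    exact h
  have s1 : ∀ j, ‖φ j z0‖ ≤ a := by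
    intro j
    refine le_of_tendsto (hzt (φ j)).norm ?_
    exact hne (eventually_ge_atTop j |>.mono (fun i hi => h1 i j hi))
  have s2 : ‖Φ z0‖ ≤ a := le_of_tendsto (hΦt z0).norm (Filter.Eventually.of_forall s1)
  have s3 : ∀ i, b ≤ ‖Φ (z i)‖ := by
    intro i
    refine ge_of_tendsto (hΦt (z i)).norm ?_
    exact hne (eventually_gt_atTop i |>.mono (fun j hj => h2 i j hj))
  have s4 : b ≤ ‖Φ z0‖ := by
    have h := hzt (WeakDual.toStrongDual Φ)
    exact ge_of_tendsto h.norm (Filter.Eventually.of_forall s3)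
  linarith

end WCGBd
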