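import Pool.Agent.WCGBd.Defs

set_option autoImplicit false

namespace WCGBd

open Filter Topology Set
open scoped ENNReal

private theorem tendsto_weak {𝕜 Z J : Type*} [RCLike 𝕜] [NormedAddCommGroup Z] [NormedSpace 𝕜 Z]
    {l : Filter J} (f : J → Z) (x : Z)
    (h : ∀ φ : StrongDual 𝕜 Z, Tendsto (fun j => φ (f j)) l (𝓝 (φ x))) :
    Tendsto (fun j => toWeakSpace 𝕜 Z (f j)) l (𝓝 (toWeakSpace 𝕜 Z x)) := by
  have h1 : (𝓝 (toWeakSpace 𝕜 Z x) : Filter (WeakSpace 𝕜 Z)) =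
      comap (fun (z : WeakBilin (topDualPairing 𝕜 Z).flip) (φ : StrongDual 𝕜 Z) =>
        (topDualPairing 𝕜 Z).flip z φ)
        (𝓝 (fun φ : StrongDual 𝕜 Z => (topDualPairing 𝕜 Z).flip x φ)) := by
    exact nhds_induced _ _
  rw [h1]
  refine tendsto_comap_iff.2 ?_
  refine tendsto_pi_nhds.2 fun φ => ?_
  exact h φ

/-- Let `c : Λ → ℕ` be injective (`Λ` is countable) and `K = {0} ∪ {(1/2)^(c (lev j)) • g j}`. For every functional `φ` and
`ε > 0` only finitely many `j` have `‖φ ((1/2)^(c (lev j)) • g j)‖ ≥ ε` (for `c (lev j)` large none, and for each of the finitely many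
other values of `lev j` finitely many by `hfin`). So the map `j ↦ toWeakSpace ((1/2)^..• g j)` tends to `0` along `cofinite`
(`WeakSpace`/`tendsto_iff_forall_eval_tendsto_topDualPairing`-type lemma) and `Filter.Tendsto.isCompact_insert_range_of_cofinite`
shows that `K` is weakly compact. Its span is the span of the `g j`. -/
theorem wcg_crit {𝕜 Z J Λ : Type*} [RCLike 𝕜] [NormedAddCommGroup Z] [NormedSpace 𝕜 Z] [Countable Λ]
    (g : J → Z) (lev : J → Λ) (R : ℝ) (hR : ∀ j, ‖g j‖ ≤ R)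
    (hfin : ∀ (l : Λ) (φ : StrongDual 𝕜 Z) (ε : ℝ), 0 < ε →
      {j | lev j = l ∧ ε ≤ ‖φ (g j)‖}.Finite)
    (hd : cspan 𝕜 (Set.range g) = ⊤) : IsWCG 𝕜 Z := by
  classical
  obtain ⟨c, hc⟩ := exists_injective_nat Λ
  obtain ⟨f, hf⟩ : ∃ f : J → Z, f = fun j => ((1 / 2 : 𝕜) ^ (c (lev j))) • g j := ⟨_, rfl⟩
  have hn2 : ∀ n : ℕ, ‖((1 / 2 : 𝕜) ^ n)‖ = (1 / 2 : ℝ) ^ n := by
    intro n
    rw [norm_pow, norm_div, norm_one, RCLike.norm_ofNat]
  have hphi : ∀ (φ : StrongDual 𝕜 Z) j, ‖φ (f j)‖ = (1 / 2 : ℝ) ^ (c (lev j)) * ‖φ (g j)‖ := by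
    intro φ j
    rw [hf]
    simp only
    rw [map_smul, norm_smul, hn2]
  have hlim : ∀ φ : StrongDual 𝕜 Z, Tendsto (fun j => φ (f j)) cofinite (𝓝 (φ 0)) := by
    intro φ
    rw [map_zero, Metric.tendsto_nhds]
    intro ε hε
    rw [Filter.eventually_cofinite]
    obtain ⟨N, hN⟩ : ∃ N : ℕ, (1 / 2 : ℝ) ^ N * (‖φ‖ * |R|) < ε := by
      have h1 : Tendsto (fun n : ℕ => (1 / 2 : ℝ) ^ n * (‖φ‖ * |R|)) atTop
          (𝓝 (0 * (‖φ‖ * |R|))) :=
        (tendsto_pow_atTop_nhds_zero_of_lt_one (by norm_num) (by norm_num)).mul_const _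
      rw [zero_mul] at h1
      exact ((h1.eventually (gt_mem_nhds hε))).exists
    have hsub : {j | ¬ dist (φ (f j)) 0 < ε} ⊆
        ⋃ n ∈ Finset.range N, {j | c (lev j) = n ∧ ε ≤ ‖φ (g j)‖} := by
      intro j hj
      simp only [mem_ofPred_eq, dist_zero_right, not_lt] at hj
      have h1 := hj
      rw [hphi] at h1
      have hle : ‖φ (g j)‖ ≤ ‖φ‖ * |R| :=
        (φ.le_opNorm (g j)).trans (mul_le_mul_of_nonneg_left ((hR j).trans (le_abs_self R))
          (norm_nonneg _))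
      have h2 : c (lev j) < N := by
        by_contra hcon
        push Not at hcon
        have h3 : (1 / 2 : ℝ) ^ (c (lev j)) ≤ (1 / 2 : ℝ) ^ N :=
          pow_le_pow_of_le_one (by norm_num) (by norm_num) hcon
        have h4 : (1 / 2 : ℝ) ^ (c (lev j)) * ‖φ (g j)‖ ≤ (1 / 2 : ℝ) ^ N * (‖φ‖ * |R|) :=
          mul_le_mul h3 hle (norm_nonneg _) (by positivity)
        linarith
      have h5 : ε ≤ ‖φ (g j)‖ := by
        refine h1.trans ?_
        exact mul_le_of_le_one_left (norm_nonneg _) (pow_le_one₀ (by norm_num) (by norm_num))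
      simp only [mem_iUnion, Finset.mem_range, mem_ofPred_eq, exists_prop]
      exact ⟨c (lev j), h2, rfl, h5⟩
    refine Set.Finite.subset ?_ hsub
    refine Set.Finite.biUnion (Finset.finite_toSet _) fun n _ => ?_
    by_cases hex : ∃ l : Λ, c l = n
    · obtain ⟨l, hl⟩ := hex
      refine (hfin l φ ε hε).subset ?_
      rintro j ⟨h1, h2⟩
      exact ⟨hc (h1.trans hl.symm), h2⟩
    · refine Set.Finite.subset Set.finite_empty ?_
      rintro j ⟨h1, h2⟩
      exact (hex ⟨_, h1⟩).elim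
  have hw := tendsto_weak (𝕜 := 𝕜) f 0 hlim
  have hK := hw.isCompact_insert_range_of_cofinite
  refine ⟨insert 0 (Set.range f), ?_, ?_⟩
  · rw [Set.image_insert_eq, ← Set.range_comp]
    exact hK
  · rw [eq_top_iff]
    have h1 : (⊤ : Submodule 𝕜 Z) ≤ (Submodule.span 𝕜 (Set.range g)).topologicalClosure := by
      rw [← hd]
      exact le_rfl
    refine h1.trans (Submodule.topologicalClosure_mono ?_)
    rw [Submodule.span_le]
    rintro _ ⟨j, rfl⟩
    have h2 : f j ∈ Submodule.span 𝕜 (insert 0 (Set.range f)) :=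
      Submodule.subset_span (Set.mem_insert_of_mem _ (Set.mem_range_self j))
    have h3 : g j = ((2 : 𝕜) ^ (c (lev j))) • f j := by
      rw [hf]
      simp only
      rw [smul_smul, ← mul_pow]
      norm_num
    rw [h3]
    exact Submodule.smul_mem _ _ h2

end WCGBd
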