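import Pool.Agent.WCGBd.Defs

set_option autoImplicit false

namespace WCGBd

open Filter Topology Set
open scoped ENNReal

/-- Choose `n` with `2 ^ n * ε > C * max a b` (and `C * |b|`..), and `B = 4 ^ n`. If `F.card > B` take `F' ⊆ F` with `F'.card = 4 ^ n`
and `θ j` unimodular with `θ j * φ (g j) = ‖φ (g j)‖` for `j ∈ F'` (take `θ j = conj (φ (g j)) / ‖φ (g j)‖`, and `0` if `φ (g j) = 0`).
Then `4 ^ n * ε ≤ ‖φ (∑ θ j • g j)‖ ≤ C * max (4 ^ n * a / 2 ^ n) (2 ^ n * b) = C * 2 ^ n * max a b`. (`C ≥ ‖φ‖ ≥ 0` if there is any `φ`.) -/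
theorem wu_card (𝕜 : Type) [RCLike 𝕜] (C ε a b : ℝ) (hε : 0 < ε) : ∃ B : ℕ, ∀ {Z J : Type}
    [NormedAddCommGroup Z] [NormedSpace 𝕜 Z] (g : J → Z) (φ : StrongDual 𝕜 Z) (F : Finset J),
    ‖φ‖ ≤ C → (∀ j ∈ F, ε ≤ ‖φ (g j)‖) →
    (∀ F' ⊆ F, ∀ θ : J → 𝕜, (∀ j, ‖θ j‖ ≤ 1) → ∀ n : ℕ,
      ‖∑ j ∈ F', θ j • g j‖ ≤ max ((F'.card : ℝ) * a / 2 ^ n) (2 ^ n * b)) → F.card ≤ B := by
  obtain ⟨n, hn⟩ := pow_unbounded_of_one_lt (C * max a b / ε) (one_lt_two : (1 : ℝ) < 2)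
  have hn' : C * max a b < 2 ^ n * ε := by rwa [div_lt_iff₀ hε] at hn
  refine ⟨4 ^ n, ?_⟩
  intro Z J _ _ g φ F hφ hge hup
  by_contra hlt
  push Not at hlt
  obtain ⟨F', hF', hcard⟩ := Finset.exists_subset_card_eq hlt.le
  have hC : 0 ≤ C := le_trans (norm_nonneg φ) hφ
  set θ : J → 𝕜 := fun j => (starRingEnd 𝕜) (φ (g j)) / ((‖φ (g j)‖ : ℝ) : 𝕜) with hθ
  have hθ1 : ∀ j, ‖θ j‖ ≤ 1 := by
    intro j
    simp only [hθ, norm_div, RCLike.norm_conj, RCLike.norm_ofReal, abs_norm]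
    exact div_self_le_one _
  have hθ2 : ∀ j, θ j * φ (g j) = ((‖φ (g j)‖ : ℝ) : 𝕜) := by
    intro j
    by_cases h0 : φ (g j) = 0
    · simp [hθ, h0]
    · have hne : ((‖φ (g j)‖ : ℝ) : 𝕜) ≠ 0 := by
        simpa using h0
      simp only [hθ]
      rw [div_mul_eq_mul_div, RCLike.conj_mul, pow_two, mul_div_assoc, div_self hne, mul_one]
  have h1 := hup F' hF' θ hθ1 n
  have h2 : φ (∑ j ∈ F', θ j • g j) = ((∑ j ∈ F', ‖φ (g j)‖ : ℝ) : 𝕜) := by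
    rw [map_sum]
    simp only [map_smul, smul_eq_mul, hθ2]
    push_cast
    rfl
  have h3 : (4 : ℝ) ^ n * ε ≤ ∑ j ∈ F', ‖φ (g j)‖ := by
    have := Finset.card_nsmul_le_sum F' (fun j => ‖φ (g j)‖) ε (fun j hj => hge j (hF' hj))
    rw [hcard, nsmul_eq_mul] at this
    push_cast at this
    exact this
  have h4 : ‖φ (∑ j ∈ F', θ j • g j)‖ = ∑ j ∈ F', ‖φ (g j)‖ := by
    rw [h2, RCLike.norm_ofReal, abs_of_nonneg]
    exact Finset.sum_nonneg (fun j _ => norm_nonneg _)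
  have h5 : ‖φ (∑ j ∈ F', θ j • g j)‖ ≤ C * ‖∑ j ∈ F', θ j • g j‖ :=
    (φ.le_opNorm _).trans (mul_le_mul_of_nonneg_right hφ (norm_nonneg _))
  have h6 : C * ‖∑ j ∈ F', θ j • g j‖ ≤ C * (2 ^ n * max a b) := by
    refine mul_le_mul_of_nonneg_left (h1.trans ?_) hC
    have h42 : (4 : ℝ) ^ n = 2 ^ n * 2 ^ n := by
      rw [← mul_pow]; norm_num
    have hp : (0 : ℝ) < 2 ^ n := by positivity
    rw [hcard]
    push_cast
    rw [h42]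
    have e1 : (2 : ℝ) ^ n * 2 ^ n * a / 2 ^ n = 2 ^ n * a := by
      field_simp
    rw [e1]
    exact max_le (mul_le_mul_of_nonneg_left (le_max_left _ _) hp.le)
      (mul_le_mul_of_nonneg_left (le_max_right _ _) hp.le)
  have h7 : (4 : ℝ) ^ n * ε ≤ C * (2 ^ n * max a b) := by
    calc (4 : ℝ) ^ n * ε ≤ ∑ j ∈ F', ‖φ (g j)‖ := h3
      _ = ‖φ (∑ j ∈ F', θ j • g j)‖ := h4.symm
      _ ≤ _ := h5.trans h6
  have h42 : (4 : ℝ) ^ n = 2 ^ n * 2 ^ n := by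
    rw [← mul_pow]; norm_num
  have hp : (0 : ℝ) < 2 ^ n := by positivity
  rw [h42] at h7
  nlinarith [mul_lt_mul_of_pos_left hn' hp]

end WCGBd
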