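import Pool.Agent.WCGBd.Defs
import Pool.Agent.WCGBd.JA4

set_option autoImplicit false

namespace WCGBd

open Filter Topology Set
open scoped ENNReal

/-- Immediate from `wu_card`: otherwise the set has finite subsets with arbitrarily many elements. -/
theorem wu_finite {𝕜 Z J : Type} [RCLike 𝕜] [NormedAddCommGroup Z] [NormedSpace 𝕜 Z] {a b : ℝ}
    (g : J → Z) (h : WU 𝕜 a b g) (φ : StrongDual 𝕜 Z) (ε : ℝ) (hε : 0 < ε) :
    {j | ε ≤ ‖φ (g j)‖}.Finite := by
  classical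
  obtain ⟨B, hB⟩ := wu_card 𝕜 ‖φ‖ ε a b hε
  by_contra hinf
  have hinf' : {j | ε ≤ ‖φ (g j)‖}.Infinite := hinf
  obtain ⟨F, hF, hcard⟩ := hinf'.exists_subset_card_eq (B + 1)
  have h1 := hB g φ F le_rfl (fun j hj => hF hj) (fun F' _ θ hθ n => h F' θ hθ n)
  omega

end WCGBd
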