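import Pool.Agent.WCGBd.Defs

set_option autoImplicit false

namespace WCGBd

open Filter Topology Set
open scoped ENNReal

private theorem a6a_sum_two {M : Type} [AddCommMonoid M] (f : ℕ → M) (I : ℕ) :
    ∑ j ∈ Finset.range (2 * I), f j = ∑ i ∈ Finset.range I, (f (2 * i) + f (2 * i + 1)) := by
  induction I with
  | zero => simp
  | succ I ih =>
    rw [show 2 * (I + 1) = 2 * I + 1 + 1 by ring, Finset.sum_range_succ, Finset.sum_range_succ, ih,
      Finset.sum_range_succ, add_assoc]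

/-- Suppose not: `‖φ.comp (id - P n)‖ > ε` for all `n`. Then for every `n` there is `x`, `‖x‖ ≤ 1`, with `‖φ (x - P n x)‖ > ε`, and since
`P m x → x` there is `m > n` with `‖φ (P m x - P n x)‖ > ε`. Inductively get `n 0 < n 1 < ...` and `x i`. With unimodular `θ i`,
`I * ε ≤ ‖φ (∑ i < I, θ i • (P (n (i+1)) (x i) - P (n i) (x i)))‖ ≤ ‖φ‖ * √I` by the last property in `hP` (apply it to `θ i • x i`),
a contradiction for large `I`. -/
theorem lp2_tail1 {𝕜 Q : Type} [RCLike 𝕜] [NormedAddCommGroup Q] [NormedSpace 𝕜 Q]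
    (P : ℕ → Q →L[𝕜] Q) (h2 : ∀ x, Tendsto (fun n => P n x) atTop (𝓝 x))
    (h3 : ∀ (n : ℕ → ℕ), Monotone n → ∀ (y : ℕ → Q) (I : ℕ),
      ‖∑ i ∈ Finset.range I, (P (n (i + 1)) (y i) - P (n i) (y i))‖ ^ 2 ≤
        ∑ i ∈ Finset.range I, ‖y i‖ ^ 2) (φ : StrongDual 𝕜 Q) (ε : ℝ) (hε : 0 < ε) :
    ∃ n0, ∀ n ≥ n0, ‖φ - φ.comp (P n)‖ ≤ ε := by
  by_contra hcon
  push Not at hcon
  -- the basic step
  have hstep : ∀ n0 : ℕ, ∃ n m : ℕ, ∃ x : Q, n0 ≤ n ∧ n < m ∧ ‖x‖ ≤ 1 ∧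
      ε < ‖φ (P m x - P n x)‖ := by
    intro n0
    obtain ⟨n, hn, hlt⟩ := hcon n0
    have hx : ∃ x : Q, ‖x‖ ≤ 1 ∧ ε < ‖(φ - φ.comp (P n)) x‖ := by
      by_contra hc
      push Not at hc
      have : ‖φ - φ.comp (P n)‖ ≤ ε := by
        refine ContinuousLinearMap.opNorm_le_of_unit_norm hε.le ?_ |>.trans le_rfl
        intro x hx
        exact hc x hx.le
      exact absurd hlt (not_lt.mpr this)
    obtain ⟨x, hx1, hx2⟩ := hx
    have hx3 : ε < ‖φ (x - P n x)‖ := by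
      simpa [map_sub] using hx2
    have ht : Tendsto (fun m => ‖φ (P m x - P n x)‖) atTop (𝓝 ‖φ (x - P n x)‖) := by
      have h1 : Tendsto (fun m => P m x - P n x) atTop (𝓝 (x - P n x)) := (h2 x).sub_const _
      exact ((φ.continuous.tendsto _).comp h1).norm
    have hev := (ht.eventually (lt_mem_nhds hx3)).and (eventually_gt_atTop n)
    obtain ⟨m, hm1, hm2⟩ := hev.exists
    exact ⟨n, m, x, hn, hm2, hx1, hm1⟩
  choose N M X hN hM hX1 hX2 using hstep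
  obtain ⟨c, hc0, hcs⟩ : ∃ c : ℕ → ℕ, c 0 = 0 ∧ ∀ k, c (k + 1) = M (c k) :=
    ⟨fun k => Nat.rec 0 (fun _ v => M v) k, rfl, fun k => rfl⟩
  obtain ⟨a, ha0, ha1⟩ : ∃ a : ℕ → ℕ, (∀ i, a (2 * i) = N (c i)) ∧ (∀ i, a (2 * i + 1) = M (c i)) := by
    refine ⟨fun j => if j % 2 = 0 then N (c (j / 2)) else M (c (j / 2)), ?_, ?_⟩
    · intro i
      have h1 : (2 * i) % 2 = 0 := by omega
      have h2 : (2 * i) / 2 = i := by omega
      simp only [h1, h2, if_true]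
    · intro i
      have h1 : ¬ ((2 * i + 1) % 2 = 0) := by omega
      have h2 : (2 * i + 1) / 2 = i := by omega
      simp only [h1, h2, if_false]
  have hmono : Monotone a := by
    apply monotone_nat_of_le_succ
    intro j
    rcases Nat.even_or_odd' j with ⟨i, rfl | rfl⟩
    · rw [ha0, ha1]
      exact (hM _).le
    · rw [show 2 * i + 1 + 1 = 2 * (i + 1) by ring, ha0, ha1, hcs]
      exact hN _
  set z : ℕ → 𝕜 := fun i => φ (P (M (c i)) (X (c i)) - P (N (c i)) (X (c i))) with hz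
  have hzpos : ∀ i, ε < ‖z i‖ := fun i => hX2 (c i)
  have hzne : ∀ i, (‖z i‖ : ℝ) ≠ 0 := fun i => ne_of_gt (hε.trans (hzpos i))
  obtain ⟨θ, hθ1, hθ2⟩ : ∃ θ : ℕ → 𝕜, (∀ i, ‖θ i‖ = 1) ∧ ∀ i, θ i * z i = ((‖z i‖ : ℝ) : 𝕜) := by
    refine ⟨fun i => (starRingEnd 𝕜) (z i) / ((‖z i‖ : ℝ) : 𝕜), ?_, ?_⟩
    · intro i
      rw [norm_div, RCLike.norm_conj, RCLike.norm_ofReal, abs_norm, div_self (hzne i)]
    · intro i
      have h1 : ((‖z i‖ : ℝ) : 𝕜) ≠ 0 := by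
        rw [Ne, RCLike.ofReal_eq_zero]; exact hzne i
      rw [div_mul_eq_mul_div, RCLike.conj_mul, sq, mul_div_assoc, div_self h1, mul_one]
  obtain ⟨y, hy0, hy1⟩ : ∃ y : ℕ → Q, (∀ i, y (2 * i) = θ i • X (c i)) ∧ (∀ i, y (2 * i + 1) = 0) := by
    refine ⟨fun j => if j % 2 = 0 then θ (j / 2) • X (c (j / 2)) else 0, ?_, ?_⟩
    · intro i
      have h1 : (2 * i) % 2 = 0 := by omega
      have h2 : (2 * i) / 2 = i := by omega
      simp only [h1, h2, if_true]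
    · intro i
      have h1 : ¬ ((2 * i + 1) % 2 = 0) := by omega
      simp only [h1, if_false]
  have hmain : ∀ I : ℕ, (I : ℝ) * ε ^ 2 ≤ ‖φ‖ ^ 2 := by
    intro I
    rcases Nat.eq_zero_or_pos I with rfl | hI
    · simp
    have hb := h3 a hmono y (2 * I)
    rw [a6a_sum_two, a6a_sum_two] at hb
    have hs1 : ∀ i ∈ Finset.range I, (P (a (2 * i + 1)) (y (2 * i)) - P (a (2 * i)) (y (2 * i)) +
        (P (a (2 * i + 1 + 1)) (y (2 * i + 1)) - P (a (2 * i + 1)) (y (2 * i + 1)))) =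
        θ i • (P (M (c i)) (X (c i)) - P (N (c i)) (X (c i))) := by
      intro i _
      rw [hy0, hy1, ha0, ha1, map_zero, map_zero, sub_zero, add_zero, map_smul, map_smul, smul_sub]
    rw [Finset.sum_congr rfl hs1] at hb
    have hs2 : ∑ i ∈ Finset.range I, (‖y (2 * i)‖ ^ 2 + ‖y (2 * i + 1)‖ ^ 2) ≤ (I : ℝ) := by
      calc ∑ i ∈ Finset.range I, (‖y (2 * i)‖ ^ 2 + ‖y (2 * i + 1)‖ ^ 2)
          ≤ ∑ i ∈ Finset.range I, (1 : ℝ) := by
            apply Finset.sum_le_sum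
            intro i _
            rw [hy0, hy1, norm_zero, norm_smul, hθ1, one_mul]
            have := hX1 (c i)
            have h0 := norm_nonneg (X (c i))
            nlinarith
        _ = (I : ℝ) := by simp
    have hb2 := hb.trans hs2
    set S : Q := ∑ i ∈ Finset.range I, θ i • (P (M (c i)) (X (c i)) - P (N (c i)) (X (c i))) with hS
    have hφS : φ S = ((∑ i ∈ Finset.range I, ‖z i‖ : ℝ) : 𝕜) := by
      rw [hS, map_sum, RCLike.ofReal_sum]
      apply Finset.sum_congr rfl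
      intro i _
      rw [map_smul, smul_eq_mul]
      exact hθ2 i
    have hlow : (I : ℝ) * ε ≤ ‖φ S‖ := by
      rw [hφS, RCLike.norm_ofReal]
      refine le_trans ?_ (le_abs_self _)
      calc (I : ℝ) * ε = ∑ i ∈ Finset.range I, ε := by simp
        _ ≤ ∑ i ∈ Finset.range I, ‖z i‖ := Finset.sum_le_sum (fun i _ => (hzpos i).le)
    have hup : ‖φ S‖ ≤ ‖φ‖ * ‖S‖ := φ.le_opNorm S
    have h5 : (I : ℝ) * ε ≤ ‖φ‖ * ‖S‖ := hlow.trans hup
    have hIpos : (0 : ℝ) < I := by exact_mod_cast hI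
    have h6 : ((I : ℝ) * ε) ^ 2 ≤ (‖φ‖ * ‖S‖) ^ 2 := by
      apply pow_le_pow_left₀ (by positivity) h5
    have h7 : (‖φ‖ * ‖S‖) ^ 2 ≤ ‖φ‖ ^ 2 * I := by
      rw [mul_pow]
      exact mul_le_mul_of_nonneg_left hb2 (by positivity)
    have h8 : (I : ℝ) * ((I : ℝ) * ε ^ 2) ≤ (I : ℝ) * ‖φ‖ ^ 2 := by nlinarith
    exact le_of_mul_le_mul_left h8 hIpos
  obtain ⟨I, hI⟩ := exists_nat_gt (‖φ‖ ^ 2 / ε ^ 2)
  have := hmain I
  rw [div_lt_iff₀ (by positivity)] at hI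
  linarith

end WCGBd
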