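import Pool.Agent.WCGBd.Defs

set_option autoImplicit false

namespace WCGBd

open Filter Topology Set
open scoped ENNReal

/-- The bidual version of `lp2_tail1`. Suppose `‖ξ - bimap (P n) ξ‖ > ε` for arbitrarily large `n` (negate). For such `n` there is `φ` with `‖φ‖ ≤ 1` and
`‖ξ (φ - φ.comp (P n))‖ > ε` (note `bimap (P n) ξ φ = ξ (φ.comp (P n))` by definition), and by `h4` there is a larger `m` (again one of the
bad ones if you like) with `‖ξ (φ.comp (P m) - φ.comp (P n))‖ > ε / 2`. Inductively get `n 0 < n 1 < ...` and `φ i`. For unimodular `θ i`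
the functional `∑ i < I, θ i • (φ i).comp (P (n (i+1)) - P (n i))` has norm `≤ √I` by `h5` and Cauchy-Schwarz, so `I * ε / 2 ≤ ‖ξ‖ * √I`, a contradiction. -/
theorem lp2_tail2 {𝕜 Q : Type} [RCLike 𝕜] [NormedAddCommGroup Q] [NormedSpace 𝕜 Q]
    (P : ℕ → Q →L[𝕜] Q)
    (h4 : ∀ (φ : StrongDual 𝕜 Q) (ε : ℝ), 0 < ε → ∃ n0, ∀ n ≥ n0, ‖φ - φ.comp (P n)‖ ≤ ε)
    (h5 : ∀ (n : ℕ → ℕ), Monotone n → ∀ (x : Q) (I : ℕ),
      ∑ i ∈ Finset.range I, ‖P (n (i + 1)) x - P (n i) x‖ ^ 2 ≤ ‖x‖ ^ 2)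
    (ξ : StrongDual 𝕜 (StrongDual 𝕜 Q)) (ε : ℝ) (hε : 0 < ε) :
    ∃ n, ‖ξ - bimap (P n) ξ‖ ≤ ε := by
  by_contra hcon
  push Not at hcon
  have hξ0 : 0 ≤ ‖ξ‖ := norm_nonneg ξ
  have step : ∀ n : ℕ, ∃ (m : ℕ) (φ : StrongDual 𝕜 Q), n ≤ m ∧ ‖φ‖ ≤ 1 ∧
      ε / 2 < ‖ξ (φ.comp (P m) - φ.comp (P n))‖ := by
    intro n
    have h1 := hcon n
    obtain ⟨φ, hφ1, hφ2⟩ : ∃ φ : StrongDual 𝕜 Q, ‖φ‖ ≤ 1 ∧ ε < ‖(ξ - bimap (P n) ξ) φ‖ := by
      by_contra h2
      push Not at h2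
      refine absurd h1 (not_lt.2 ?_)
      refine ContinuousLinearMap.opNorm_le_bound _ hε.le fun φ => ?_
      by_cases h0 : φ = 0
      · rw [h0, map_zero, norm_zero, norm_zero, mul_zero]
      · have hpos : 0 < ‖φ‖ := norm_pos_iff.2 h0
        have h3 := h2 (((‖φ‖⁻¹ : ℝ) : 𝕜) • φ) (by
          rw [norm_smul, RCLike.norm_ofReal, abs_of_pos (inv_pos.2 hpos),
            inv_mul_cancel₀ hpos.ne'])
        rw [map_smul, norm_smul, RCLike.norm_ofReal, abs_of_pos (inv_pos.2 hpos),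
          inv_mul_le_iff₀ hpos] at h3
        linarith
    have e1 : (ξ - bimap (P n) ξ) φ = ξ (φ - φ.comp (P n)) := by
      rw [map_sub]
      rfl
    rw [e1] at hφ2
    obtain ⟨m0, hm0⟩ := h4 φ (ε / (2 * (‖ξ‖ + 1))) (by positivity)
    refine ⟨max m0 n, φ, le_max_right _ _, hφ1, ?_⟩
    have h3 := hm0 (max m0 n) (le_max_left _ _)
    have h5' : ‖ξ (φ - φ.comp (P (max m0 n)))‖ ≤ ε / 2 := by
      refine (ξ.le_opNorm _).trans ((mul_le_mul_of_nonneg_left h3 hξ0).trans ?_)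
      rw [mul_div_assoc', div_le_div_iff₀ (by positivity) (by norm_num)]
      nlinarith
    have e2 : ξ (φ.comp (P (max m0 n)) - φ.comp (P n)) =
        ξ (φ - φ.comp (P n)) - ξ (φ - φ.comp (P (max m0 n))) := by
      rw [← map_sub]
      congr 1
      abel
    rw [e2]
    have h6 := norm_sub_norm_le (ξ (φ - φ.comp (P n))) (ξ (φ - φ.comp (P (max m0 n))))
    linarith
  choose m φ hm hφ hc using step
  let N : ℕ → ℕ := fun i => Nat.rec 0 (fun _ k => m k) i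
  have hN : ∀ i, N (i + 1) = m (N i) := fun i => rfl
  have hmono : Monotone N := monotone_nat_of_le_succ fun i => by rw [hN]; exact hm _
  set c : ℕ → 𝕜 := fun i => ξ ((φ (N i)).comp (P (N (i + 1))) - (φ (N i)).comp (P (N i))) with hcdef
  have hci : ∀ i, ε / 2 < ‖c i‖ := fun i => hc (N i)
  have hci0 : ∀ i, c i ≠ 0 := fun i h => by
    have := hci i
    rw [h, norm_zero] at this
    linarith
  set θ : ℕ → 𝕜 := fun i => (starRingEnd 𝕜) (c i) / (‖c i‖ : 𝕜) with hθ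
  have hnn : ∀ i, (‖c i‖ : 𝕜) ≠ 0 := fun i => by
    rw [Ne, RCLike.ofReal_eq_zero, norm_eq_zero]; exact hci0 i
  have hθ1 : ∀ i, ‖θ i‖ = 1 := by
    intro i
    rw [hθ]
    simp only [norm_div, RCLike.norm_conj, RCLike.norm_ofReal, abs_norm]
    exact div_self (norm_ne_zero_iff.2 (hci0 i))
  have hθc : ∀ i, θ i * c i = (‖c i‖ : 𝕜) := by
    intro i
    rw [hθ]
    simp only
    rw [div_mul_eq_mul_div, RCLike.conj_mul, pow_two, mul_div_assoc, div_self (hnn i), mul_one]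
  have main : ∀ I : ℕ, (I : ℝ) * (ε / 2) ≤ ‖ξ‖ * Real.sqrt I := by
    intro I
    set F : StrongDual 𝕜 Q := ∑ i ∈ Finset.range I,
      θ i • ((φ (N i)).comp (P (N (i + 1))) - (φ (N i)).comp (P (N i))) with hF
    have hFn : ‖F‖ ≤ Real.sqrt I := by
      refine ContinuousLinearMap.opNorm_le_bound _ (Real.sqrt_nonneg _) fun x => ?_
      have g1 : ‖F x‖ ≤ ∑ i ∈ Finset.range I, ‖P (N (i + 1)) x - P (N i) x‖ := by
        rw [hF, ContinuousLinearMap.sum_apply]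
        refine (norm_sum_le _ _).trans (Finset.sum_le_sum fun i _ => ?_)
        have e3 : (θ i • ((φ (N i)).comp (P (N (i + 1))) - (φ (N i)).comp (P (N i)))) x =
            θ i * (φ (N i)) (P (N (i + 1)) x - P (N i) x) := by
          rw [map_sub]
          rfl
        rw [e3, norm_mul, hθ1, one_mul]
        refine ((φ (N i)).le_opNorm _).trans ?_
        exact mul_le_of_le_one_left (norm_nonneg _) (hφ _)
      have g2 : (∑ i ∈ Finset.range I, ‖P (N (i + 1)) x - P (N i) x‖) ^ 2 ≤ I * ‖x‖ ^ 2 := by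
        have g3 := sq_sum_le_card_mul_sum_sq (s := Finset.range I)
          (f := fun i => ‖P (N (i + 1)) x - P (N i) x‖)
        rw [Finset.card_range] at g3
        exact g3.trans (mul_le_mul_of_nonneg_left (h5 N hmono x I) (Nat.cast_nonneg _))
      refine g1.trans (Real.le_sqrt_of_sq_le g2 |>.trans ?_)
      rw [Real.sqrt_mul (Nat.cast_nonneg _), Real.sqrt_sq (norm_nonneg _)]
    have hξF : ‖ξ F‖ = ∑ i ∈ Finset.range I, ‖c i‖ := by
      have e4 : ξ F = ((∑ i ∈ Finset.range I, ‖c i‖ : ℝ) : 𝕜) := by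
        rw [hF, map_sum, RCLike.ofReal_sum]
        refine Finset.sum_congr rfl fun i _ => ?_
        rw [map_smul, smul_eq_mul]
        exact hθc i
      rw [e4, RCLike.norm_ofReal, abs_of_nonneg (Finset.sum_nonneg fun i _ => norm_nonneg _)]
    have h7 : (I : ℝ) * (ε / 2) ≤ ∑ i ∈ Finset.range I, ‖c i‖ := by
      have h8 : ∑ i ∈ Finset.range I, (ε / 2) ≤ ∑ i ∈ Finset.range I, ‖c i‖ :=
        Finset.sum_le_sum fun i _ => (hci i).le
      rwa [Finset.sum_const, Finset.card_range, nsmul_eq_mul] at h8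
    refine h7.trans ?_
    rw [← hξF]
    exact (ξ.le_opNorm _).trans (mul_le_mul_of_nonneg_left hFn hξ0)
  obtain ⟨k, hk⟩ := exists_nat_gt (‖ξ‖ / (ε / 2))
  have hk' : ‖ξ‖ < k * (ε / 2) := by rwa [div_lt_iff₀ (by positivity)] at hk
  have hkpos : (0 : ℝ) < k := lt_of_le_of_lt (by positivity) hk
  have h9 := main (k ^ 2)
  push_cast at h9
  rw [Real.sqrt_sq hkpos.le] at h9
  nlinarith

end WCGBd
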