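import Pool.Agent.WCGBd.Defs

set_option autoImplicit false

namespace WCGBd

open Filter Topology Set
open scoped ENNReal

section

variable {𝕜 : Type} [RCLike 𝕜] {Ei : ℕ → Type} [∀ i, NormedAddCommGroup (Ei i)]
    [∀ i, NormedSpace 𝕜 (Ei i)]

omit 𝕜 [RCLike 𝕜] [∀ i, NormedSpace 𝕜 (Ei i)] in
private theorem lp2sq (x : lp Ei 2) : ‖x‖ ^ 2 = ∑' i, ‖x i‖ ^ 2 := by
  have h := lp.norm_rpow_eq_tsum (p := 2) (by norm_num) x
  have h2 : (2 : ℝ≥0∞).toReal = 2 := by norm_num
  rw [h2] at h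
  simpa [Real.rpow_two] using h

omit 𝕜 [RCLike 𝕜] [∀ i, NormedSpace 𝕜 (Ei i)] in
private theorem lp2summable (x : lp Ei 2) : Summable fun i => ‖x i‖ ^ 2 := by
  have h := (lp.memℓp x).summable (p := 2) (by norm_num)
  have h2 : (2 : ℝ≥0∞).toReal = 2 := by norm_num
  rw [h2] at h
  simpa [Real.rpow_two] using h

omit 𝕜 [RCLike 𝕜] [∀ i, NormedSpace 𝕜 (Ei i)] in
private theorem lp2mono (x y : lp Ei 2) (h : ∀ i, ‖x i‖ ≤ ‖y i‖) : ‖x‖ ≤ ‖y‖ := by
  have h1 : ‖x‖ ^ 2 ≤ ‖y‖ ^ 2 := by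
    rw [lp2sq, lp2sq]
    exact (lp2summable x).tsum_le_tsum
      (fun i => pow_le_pow_left₀ (norm_nonneg _) (h i) 2) (lp2summable y)
  exact le_of_sq_le_sq h1 (norm_nonneg _)

omit 𝕜 [RCLike 𝕜] [∀ i, NormedSpace 𝕜 (Ei i)] in
private theorem lp2disj (x y : lp Ei 2) (h : ∀ i, x i = 0 ∨ y i = 0) :
    ‖x + y‖ ^ 2 = ‖x‖ ^ 2 + ‖y‖ ^ 2 := by
  rw [lp2sq, lp2sq, lp2sq, ← (lp2summable x).tsum_add (lp2summable y)]
  refine tsum_congr fun i => ?_
  rw [lp.coeFn_add, Pi.add_apply]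
  rcases h i with h | h
  · simp [h]
  · simp [h]

variable (𝕜 Ei) in
private noncomputable def lp2P (n : ℕ) : lp Ei 2 →L[𝕜] lp Ei 2 :=
  LinearMap.mkContinuous
    { toFun := fun x => ∑ i ∈ Finset.range n, lp.single 2 i (x i)
      map_add' := by
        intro x y
        rw [← Finset.sum_add_distrib]
        refine Finset.sum_congr rfl fun i _ => ?_
        exact lp.single_add 2 i (x i) (y i)
      map_smul' := by
        intro c x
        rw [RingHom.id_apply, Finset.smul_sum]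
        refine Finset.sum_congr rfl fun i _ => ?_
        exact lp.single_smul 2 i c (x i) }
    1 (by
      intro x
      rw [one_mul]
      refine lp2mono _ _ fun j => ?_
      simp only [LinearMap.coe_mk, AddHom.coe_mk, lp.coeFn_sum, Finset.sum_apply]
      by_cases hj : j < n
      · rw [Finset.sum_eq_single j]
        · simp
        · intro b _ hb
          simp [hb.symm]
        · intro h
          exact absurd (Finset.mem_range.2 hj) h
      · rw [Finset.sum_eq_zero]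
        · simp
        · intro b hb
          have hb' := Finset.mem_range.1 hb
          have : j ≠ b := by omega
          simp [this])

private theorem lp2P_apply (n : ℕ) (x : lp Ei 2) (j : ℕ) :
    (lp2P 𝕜 Ei n x : ∀ i, Ei i) j = if j < n then x j else 0 := by
  show ((∑ i ∈ Finset.range n, lp.single 2 i (x i) : lp Ei 2) : ∀ i, Ei i) j = _
  simp only [lp.coeFn_sum, Finset.sum_apply]
  by_cases hj : j < n
  · rw [if_pos hj, Finset.sum_eq_single j]
    · simp
    · intro b _ hb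
      simp [hb.symm]
    · intro h
      exact absurd (Finset.mem_range.2 hj) h
  · rw [if_neg hj, Finset.sum_eq_zero]
    intro b hb
    have hb' := Finset.mem_range.1 hb
    have : j ≠ b := by omega
    simp [this]

private theorem lp2P_diff (a b : ℕ) (hab : a ≤ b) (x : lp Ei 2) (j : ℕ) :
    ((lp2P 𝕜 Ei b x - lp2P 𝕜 Ei a x : lp Ei 2) : ∀ i, Ei i) j =
      if a ≤ j ∧ j < b then x j else 0 := by
  rw [lp.coeFn_sub, Pi.sub_apply, lp2P_apply, lp2P_apply]
  by_cases h1 : j < a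
  · rw [if_pos (by omega), if_pos h1, if_neg (by omega), sub_self]
  · by_cases h2 : j < b
    · rw [if_pos h2, if_neg h1, if_pos (by omega), sub_zero]
    · rw [if_neg h2, if_neg h1, if_neg (by omega), sub_zero]

private theorem lp2P_diff_norm (a b : ℕ) (hab : a ≤ b) (x : lp Ei 2) :
    ‖lp2P 𝕜 Ei b x - lp2P 𝕜 Ei a x‖ ≤ ‖x‖ := by
  refine lp2mono _ _ fun j => ?_
  rw [lp2P_diff a b hab x j]
  split_ifs
  · exact le_rfl
  · simp

end

/-- Projections of an `ℓ²`-sum on finitely many coordinates, and some of their properties. -/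
theorem lp2_proj {𝕜 : Type} [RCLike 𝕜] {Ei : ℕ → Type} [∀ i, NormedAddCommGroup (Ei i)]
    [∀ i, NormedSpace 𝕜 (Ei i)] : ∃ P : ℕ → lp Ei 2 →L[𝕜] lp Ei 2,
    (∀ n x i, (P n x : ∀ i, Ei i) i = if i < n then x i else 0) ∧
    (∀ x, Tendsto (fun n => P n x) atTop (𝓝 x)) ∧
    (∀ n x, ‖P n x‖ ≤ ‖x‖) ∧
    (∀ (n : ℕ → ℕ), Monotone n → ∀ (x : lp Ei 2) (I : ℕ),
      ∑ i ∈ Finset.range I, ‖P (n (i + 1)) x - P (n i) x‖ ^ 2 ≤ ‖x‖ ^ 2) ∧
    (∀ (n : ℕ → ℕ), Monotone n → ∀ (y : ℕ → lp Ei 2) (I : ℕ),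
      ‖∑ i ∈ Finset.range I, (P (n (i + 1)) (y i) - P (n i) (y i))‖ ^ 2 ≤
        ∑ i ∈ Finset.range I, ‖y i‖ ^ 2) := by
  refine ⟨fun n => lp2P 𝕜 Ei n, fun n x i => lp2P_apply n x i, ?_, ?_, ?_, ?_⟩
  · intro x
    have h := (lp.hasSum_single (p := 2) (by norm_num) x).tendsto_sum_nat
    exact h
  · intro n x
    refine lp2mono _ _ fun j => ?_
    rw [lp2P_apply]
    split_ifs
    · exact le_rfl
    · simp
  · intro n hn x I
    have key : ∀ I : ℕ, ∑ i ∈ Finset.range I, ‖lp2P 𝕜 Ei (n (i + 1)) x - lp2P 𝕜 Ei (n i) x‖ ^ 2 =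
        ‖lp2P 𝕜 Ei (n I) x - lp2P 𝕜 Ei (n 0) x‖ ^ 2 := by
      intro I
      induction I with
      | zero => simp
      | succ I ih =>
        rw [Finset.sum_range_succ, ih]
        have h0 : n 0 ≤ n I := hn (Nat.zero_le _)
        have h1 : n I ≤ n (I + 1) := hn (Nat.le_succ _)
        have h2 : lp2P 𝕜 Ei (n (I + 1)) x - lp2P 𝕜 Ei (n 0) x =
            (lp2P 𝕜 Ei (n I) x - lp2P 𝕜 Ei (n 0) x) +
              (lp2P 𝕜 Ei (n (I + 1)) x - lp2P 𝕜 Ei (n I) x) := by abel
        rw [h2, lp2disj]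
        intro j
        rw [lp2P_diff _ _ h0, lp2P_diff _ _ h1]
        by_cases hj : j < n I
        · right
          rw [if_neg (by omega)]
        · left
          rw [if_neg (by omega)]
    rw [key I]
    exact pow_le_pow_left₀ (norm_nonneg _) (lp2P_diff_norm _ _ (hn (Nat.zero_le _)) x) 2
  · intro n hn y I
    have key : ∀ I : ℕ, (∀ j, n I ≤ j → ((∑ i ∈ Finset.range I,
        (lp2P 𝕜 Ei (n (i + 1)) (y i) - lp2P 𝕜 Ei (n i) (y i)) : lp Ei 2) : ∀ i, Ei i) j = 0) ∧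
        ‖∑ i ∈ Finset.range I, (lp2P 𝕜 Ei (n (i + 1)) (y i) - lp2P 𝕜 Ei (n i) (y i))‖ ^ 2 ≤
          ∑ i ∈ Finset.range I, ‖y i‖ ^ 2 := by
      intro I
      induction I with
      | zero => simp
      | succ I ih =>
        obtain ⟨ih1, ih2⟩ := ih
        have h1 : n I ≤ n (I + 1) := hn (Nat.le_succ _)
        refine ⟨?_, ?_⟩
        · intro j hj
          rw [Finset.sum_range_succ, lp.coeFn_add, Pi.add_apply, ih1 j (by omega),
            lp2P_diff _ _ h1, if_neg (by omega), add_zero]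
        · rw [Finset.sum_range_succ, Finset.sum_range_succ, lp2disj]
          · have h3 := pow_le_pow_left₀ (norm_nonneg _)
              (lp2P_diff_norm (𝕜 := 𝕜) (Ei := Ei) _ _ h1 (y I)) 2
            linarith
          · intro j
            by_cases hj : j < n I
            · right
              rw [lp2P_diff _ _ h1, if_neg (by omega)]
            · left
              exact ih1 j (by omega)
    exact (key I).2

end WCGBd
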