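import Pool.Agent.WCGBd.Defs
import Pool.Agent.WCGBd.JA6a
import Pool.Agent.WCGBd.JA6b
import Pool.Agent.WCGBd.JA6p

set_option autoImplicit false

namespace WCGBd

open Filter Topology Set
open scoped ENNReal

/-- With `P` from `lp2_proj`: `P n = ∑ i < n, (inc i).comp (pr i)` where `pr i : lp Ei 2 →L[𝕜] Ei i` is the coordinate (norm at most one:
`lp.norm_apply_le_norm`), so `bimap (P n) ξ = ∑ i < n, bimap (inc i) (bimap (pr i) ξ)` lies in the span; and `bimap (P n) ξ` is close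
to `ξ` for some `n` by `lp2_tail1`, `lp2_tail2`. (`bimap` is `dmap (dmap _)` with `dmap T φ = φ.comp T` by `rfl`.) -/
theorem lp2_bidual {𝕜 : Type} [RCLike 𝕜] {Ei : ℕ → Type} [∀ i, NormedAddCommGroup (Ei i)]
    [∀ i, NormedSpace 𝕜 (Ei i)] (inc : ∀ i, Ei i →L[𝕜] lp Ei 2)
    (hinc : ∀ i x, inc i x = lp.single 2 i x) :
    Dense ((Submodule.span 𝕜 (⋃ i, Set.range (bimap (inc i))) :
      Submodule 𝕜 (StrongDual 𝕜 (StrongDual 𝕜 (lp Ei 2)))) :
        Set (StrongDual 𝕜 (StrongDual 𝕜 (lp Ei 2)))) := by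
  classical
  obtain ⟨P, hP1, hP2, hP3, hP4, hP5⟩ := lp2_proj (𝕜 := 𝕜) (Ei := Ei)
  -- coordinates
  have hpr : ∀ i, ∃ pr : lp Ei 2 →L[𝕜] Ei i, ∀ x, pr x = (x : ∀ i, Ei i) i := by
    intro i
    refine ⟨LinearMap.mkContinuous
      { toFun := fun x => (x : ∀ i, Ei i) i
        map_add' := fun x y => by simp
        map_smul' := fun c x => by simp } 1 ?_, ?_⟩
    · intro x
      simp only [LinearMap.coe_mk, AddHom.coe_mk, one_mul]
      exact lp.norm_apply_le_norm (by norm_num) x i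
    · intro x
      rfl
  choose pr hpr using hpr
  have hPn : ∀ n, P n = ∑ i ∈ Finset.range n, (inc i).comp (pr i) := by
    intro n
    ext x j
    rw [hP1 n x j]
    rw [_root_.sum_apply]
    rw [lp.coeFn_sum, Finset.sum_apply]
    simp only [ContinuousLinearMap.comp_apply, hinc, hpr, lp.single_apply]
    split_ifs with h
    · rw [Finset.sum_eq_single j]
      · simp
      · intro b _ hb
        simp [Pi.single_eq_of_ne (Ne.symm hb)]
      · intro h'
        exact absurd (Finset.mem_range.mpr h) h'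
    · rw [Finset.sum_eq_zero]
      intro b hb
      have : j ≠ b := by
        rintro rfl
        exact h (Finset.mem_range.mp hb)
      simp [Pi.single_eq_of_ne this]
  have hbi : ∀ n (ξ : StrongDual 𝕜 (StrongDual 𝕜 (lp Ei 2))),
      bimap (P n) ξ = ∑ i ∈ Finset.range n, bimap (inc i) (bimap (pr i) ξ) := by
    intro n ξ
    ext φ
    rw [_root_.sum_apply]
    have h1 : bimap (P n) ξ φ = ξ (φ.comp (P n)) := rfl
    have h2 : ∀ i, bimap (inc i) (bimap (pr i) ξ) φ = ξ ((φ.comp (inc i)).comp (pr i)) :=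
      fun i => rfl
    rw [h1]
    simp only [h2]
    rw [← map_sum]
    congr 1
    ext x
    rw [ContinuousLinearMap.comp_apply, hPn n, _root_.sum_apply,
      _root_.sum_apply, map_sum]
    rfl
  have htail : ∀ (φ : StrongDual 𝕜 (lp Ei 2)) (ε : ℝ), 0 < ε →
      ∃ n0, ∀ n ≥ n0, ‖φ - φ.comp (P n)‖ ≤ ε :=
    fun φ ε hε => lp2_tail1 P hP2 hP5 φ ε hε
  intro ξ
  refine (Metric.mem_closure_iff (α := StrongDual 𝕜 (StrongDual 𝕜 (lp Ei 2)))).mpr ?_
  intro ε hε
  obtain ⟨n, hn⟩ := lp2_tail2 P htail hP4 ξ (ε / 2) (by positivity)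
  refine ⟨bimap (P n) ξ, ?_, ?_⟩
  · rw [hbi n ξ]
    apply Submodule.sum_mem
    intro i _
    apply Submodule.subset_span
    exact Set.mem_iUnion.mpr ⟨i, ⟨_, rfl⟩⟩
  · have h3 : dist ξ (bimap (P n) ξ) = ‖ξ - bimap (P n) ξ‖ :=
      dist_eq_norm (E := StrongDual 𝕜 (StrongDual 𝕜 (lp Ei 2))) _ _
    refine lt_of_eq_of_lt h3 ?_
    linarith

end WCGBd
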