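import Pool.Agent.WCGBd.Defs

set_option autoImplicit false

namespace WCGBd

open Filter Topology Set
open scoped ENNReal

/-- By the open mapping theorem there is `C` such that every `x` is `q y` with `‖y‖ ≤ C ‖x‖`; so `‖φ‖ ≤ C * ‖φ.comp q‖` for all functionals
`φ` on `X`. Given `η` on `StrongDual 𝕜 X`, the map `φ.comp q ↦ η φ` is a well defined bounded functional on the range of `dmap q`, and
by Hahn-Banach (`exists_extension_norm_eq`) it extends to `ξ` on `StrongDual 𝕜 Q`; then `bimap q ξ = η` (`bimap q ξ φ = ξ (φ.comp q)` by `rfl`). -/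
theorem bimap_surj {𝕜 Q X : Type} [RCLike 𝕜] [NormedAddCommGroup Q] [NormedSpace 𝕜 Q]
    [CompleteSpace Q] [NormedAddCommGroup X] [NormedSpace 𝕜 X] [CompleteSpace X]
    (q : Q →L[𝕜] X) (hq : Function.Surjective q) : Function.Surjective (bimap q) := by
  obtain ⟨C, hC0, hC⟩ := q.exists_preimage_norm_le hq
  have hb : ∀ φ : StrongDual 𝕜 X, ‖φ‖ ≤ C * ‖dmap q φ‖ := by
    intro φ
    refine ContinuousLinearMap.opNorm_le_bound φ (by positivity) (fun x => ?_)
    obtain ⟨y, hy, hyn⟩ := hC x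
    have h1 : φ x = (dmap q φ) y := by
      rw [← hy]
      rfl
    rw [h1]
    calc ‖(dmap q φ) y‖ ≤ ‖dmap q φ‖ * ‖y‖ := (dmap q φ).le_opNorm y
      _ ≤ ‖dmap q φ‖ * (C * ‖x‖) := mul_le_mul_of_nonneg_left hyn (norm_nonneg _)
      _ = C * ‖dmap q φ‖ * ‖x‖ := by ring
  have hinj : ∀ φ ψ : StrongDual 𝕜 X, dmap q φ = dmap q ψ → φ = ψ := by
    intro φ ψ h
    have h1 := hb (φ - ψ)
    rw [map_sub, h, sub_self, norm_zero, mul_zero] at h1
    exact sub_eq_zero.1 (norm_le_zero_iff.1 h1)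
  intro η
  let l : StrongDual 𝕜 X →ₗ[𝕜] StrongDual 𝕜 Q :=
    { toFun := fun φ => dmap q φ
      map_add' := fun φ ψ => map_add _ _ _
      map_smul' := fun c φ => map_smul _ _ _ }
  let p : Submodule 𝕜 (StrongDual 𝕜 Q) := LinearMap.range l
  have hch : ∀ z : p, ∃ φ : StrongDual 𝕜 X, dmap q φ = (z : StrongDual 𝕜 Q) := by
    rintro ⟨z, φ, hφ⟩
    exact ⟨φ, hφ⟩
  choose s hs using hch
  let f0 : p →ₗ[𝕜] 𝕜 :=
    { toFun := fun z => η (s z)
      map_add' := by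
        intro z w
        rw [← map_add]
        congr 1
        apply hinj
        rw [map_add, hs, hs, hs]
        rfl
      map_smul' := by
        intro c z
        rw [RingHom.id_apply, ← map_smul]
        congr 1
        apply hinj
        rw [map_smul, hs, hs]
        rfl }
  have hbd : ∀ z : p, ‖f0 z‖ ≤ ‖η‖ * C * ‖z‖ := by
    intro z
    change ‖η (s z)‖ ≤ _
    calc ‖η (s z)‖ ≤ ‖η‖ * ‖s z‖ := η.le_opNorm _
      _ ≤ ‖η‖ * (C * ‖dmap q (s z)‖) := mul_le_mul_of_nonneg_left (hb _) (norm_nonneg η)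
      _ = ‖η‖ * C * ‖z‖ := by
          rw [hs, mul_assoc]
          rfl
  let f : StrongDual 𝕜 p := LinearMap.mkContinuous (E := p) (F := 𝕜) f0 (‖η‖ * C) hbd
  obtain ⟨g, hg, _⟩ := exists_extension_norm_eq p f
  refine ⟨g, ?_⟩
  apply ContinuousLinearMap.ext
  intro φ
  have hmem : dmap q φ ∈ p := ⟨φ, rfl⟩
  have h1 : bimap q g φ = g (dmap q φ) := rfl
  have h2 : g (dmap q φ) = f ⟨dmap q φ, hmem⟩ := hg ⟨dmap q φ, hmem⟩
  have h3 : f ⟨dmap q φ, hmem⟩ = η (s ⟨dmap q φ, hmem⟩) := rfl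
  have h4 : s ⟨dmap q φ, hmem⟩ = φ := hinj _ _ (hs ⟨dmap q φ, hmem⟩)
  rw [h1, h2, h3, h4]

end WCGBd
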