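import Pool.Agent.WCGBd.Defs
import Pool.Agent.WCGBd.JA6

set_option autoImplicit false

namespace WCGBd

open Filter Topology Set
open scoped ENNReal

private def EE {𝕜 G H : Type} [RCLike 𝕜] [NormedAddCommGroup G] [NormedSpace 𝕜 G]
    [NormedAddCommGroup H] [NormedSpace 𝕜 H] (T : G →L[𝕜] H) (n : ℕ) : Submodule 𝕜 (G × H) where
  carrier := {p | p.2 = (4 : 𝕜) ^ n • T p.1}
  add_mem' := by
    intro a b ha hb
    simp only [Set.mem_setOf_eq] at *
    rw [Prod.snd_add, Prod.fst_add, map_add, smul_add, ha, hb]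
  zero_mem' := by simp
  smul_mem' := by
    intro c a ha
    simp only [Set.mem_setOf_eq] at *
    rw [Prod.smul_snd, Prod.smul_fst, map_smul, ha, smul_comm]

private theorem EE_mem {𝕜 G H : Type} [RCLike 𝕜] [NormedAddCommGroup G] [NormedSpace 𝕜 G]
    [NormedAddCommGroup H] [NormedSpace 𝕜 H] (T : G →L[𝕜] H) (n : ℕ) (p : G × H) :
    p ∈ EE T n ↔ p.2 = (4 : 𝕜) ^ n • T p.1 := Iff.rfl

private theorem EE_closed {𝕜 G H : Type} [RCLike 𝕜] [NormedAddCommGroup G] [NormedSpace 𝕜 G]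
    [NormedAddCommGroup H] [NormedSpace 𝕜 H] (T : G →L[𝕜] H) (n : ℕ) :
    IsClosed ((EE T n : Submodule 𝕜 (G × H)) : Set (G × H)) := by
  have : ((EE T n : Submodule 𝕜 (G × H)) : Set (G × H)) =
      {p | p.2 = (4 : 𝕜) ^ n • T p.1} := rfl
  rw [this]
  exact isClosed_eq continuous_snd ((T.continuous.comp continuous_fst).const_smul _)

private noncomputable def rr {𝕜 G H : Type} [RCLike 𝕜] [NormedAddCommGroup G] [NormedSpace 𝕜 G]
    [NormedAddCommGroup H] [NormedSpace 𝕜 H] (T : G →L[𝕜] H) (n : ℕ) : G →L[𝕜] (EE T n) :=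
  ContinuousLinearMap.codRestrict
    ((((1 / 2 : 𝕜) ^ n) • (ContinuousLinearMap.id 𝕜 G)).prod (((2 : 𝕜) ^ n) • T)) (EE T n) (by
      intro g
      rw [EE_mem]
      simp only [ContinuousLinearMap.prod_apply, ContinuousLinearMap.smul_apply,
        ContinuousLinearMap.id_apply, map_smul, smul_smul]
      congr 1
      rw [← mul_pow]
      congr 1
      norm_num)

private theorem rr_apply {𝕜 G H : Type} [RCLike 𝕜] [NormedAddCommGroup G] [NormedSpace 𝕜 G]
    [NormedAddCommGroup H] [NormedSpace 𝕜 H] (T : G →L[𝕜] H) (n : ℕ) (g : G) :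
    ((rr T n g : EE T n) : G × H) = ((1 / 2 : 𝕜) ^ n • g, (2 : 𝕜) ^ n • T g) := rfl

private noncomputable def ss {𝕜 G H : Type} [RCLike 𝕜] [NormedAddCommGroup G] [NormedSpace 𝕜 G]
    [NormedAddCommGroup H] [NormedSpace 𝕜 H] (T : G →L[𝕜] H) (n : ℕ) : (EE T n) →L[𝕜] G :=
  ((2 : 𝕜) ^ n) • ((ContinuousLinearMap.fst 𝕜 G H).comp (EE T n).subtypeL)

private theorem ss_apply {𝕜 G H : Type} [RCLike 𝕜] [NormedAddCommGroup G] [NormedSpace 𝕜 G]
    [NormedAddCommGroup H] [NormedSpace 𝕜 H] (T : G →L[𝕜] H) (n : ℕ) (x : EE T n) :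
    ss T n x = (2 : 𝕜) ^ n • (x : G × H).1 := rfl

private theorem rr_ss {𝕜 G H : Type} [RCLike 𝕜] [NormedAddCommGroup G] [NormedSpace 𝕜 G]
    [NormedAddCommGroup H] [NormedSpace 𝕜 H] (T : G →L[𝕜] H) (n : ℕ) (x : EE T n) :
    rr T n (ss T n x) = x := by
  apply Subtype.ext
  rw [rr_apply, ss_apply]
  have hx := (EE_mem T n (x : G × H)).1 x.2
  apply Prod.ext
  · show (1 / 2 : 𝕜) ^ n • ((2 : 𝕜) ^ n • (x : G × H).1) = (x : G × H).1
    rw [smul_smul, ← mul_pow]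
    norm_num
  · show (2 : 𝕜) ^ n • T ((2 : 𝕜) ^ n • (x : G × H).1) = (x : G × H).2
    rw [map_smul, smul_smul, ← mul_pow, hx]
    norm_num

private theorem norm_fst_le {𝕜 G H : Type} [RCLike 𝕜] [NormedAddCommGroup G] [NormedSpace 𝕜 G]
    [NormedAddCommGroup H] [NormedSpace 𝕜 H] (T : G →L[𝕜] H) (n : ℕ)
    (x : lp (fun n => ↥(EE T n)) 2) : ‖((x n : EE T n) : G × H).1‖ ≤ ‖x‖ := by
  have h1 : ‖x n‖ ≤ ‖x‖ := lp.norm_apply_le_norm (by norm_num) x n
  have h2 : ‖((x n : EE T n) : G × H)‖ ≤ ‖x‖ := h1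
  exact (_root_.norm_fst_le _).trans h2

private theorem norm_snd_le {𝕜 G H : Type} [RCLike 𝕜] [NormedAddCommGroup G] [NormedSpace 𝕜 G]
    [NormedAddCommGroup H] [NormedSpace 𝕜 H] (T : G →L[𝕜] H) (n : ℕ)
    (x : lp (fun n => ↥(EE T n)) 2) : ‖((x n : EE T n) : G × H).2‖ ≤ ‖x‖ := by
  have h1 : ‖x n‖ ≤ ‖x‖ := lp.norm_apply_le_norm (by norm_num) x n
  have h2 : ‖((x n : EE T n) : G × H)‖ ≤ ‖x‖ := h1
  exact (_root_.norm_snd_le _).trans h2

private theorem term_norm {𝕜 G H : Type} [RCLike 𝕜] [NormedAddCommGroup G] [NormedSpace 𝕜 G]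
    [NormedAddCommGroup H] [NormedSpace 𝕜 H] (T : G →L[𝕜] H) (n : ℕ)
    (x : lp (fun n => ↥(EE T n)) 2) :
    ‖((1 / 2 : 𝕜) ^ n) • ((x n : EE T n) : G × H).2‖ ≤ (1 / 2 : ℝ) ^ n * ‖x‖ := by
  rw [norm_smul, norm_pow]
  have : ‖(1 / 2 : 𝕜)‖ = 1 / 2 := by
    rw [norm_div, norm_one, RCLike.norm_ofNat]
  rw [this]
  exact mul_le_mul_of_nonneg_left (norm_snd_le T n x) (by positivity)

private theorem term_summable {𝕜 G H : Type} [RCLike 𝕜] [NormedAddCommGroup G] [NormedSpace 𝕜 G]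
    [NormedAddCommGroup H] [NormedSpace 𝕜 H] [CompleteSpace H] (T : G →L[𝕜] H)
    (x : lp (fun n => ↥(EE T n)) 2) :
    Summable (fun n => ((1 / 2 : 𝕜) ^ n) • ((x n : EE T n) : G × H).2) := by
  refine Summable.of_norm_bounded (g := fun n => (1 / 2 : ℝ) ^ n * ‖x‖) ?_ (fun n => term_norm T n x)
  exact (summable_geometric_of_lt_one (by norm_num) (by norm_num)).mul_right _

private noncomputable def SS {𝕜 G H : Type} [RCLike 𝕜] [NormedAddCommGroup G] [NormedSpace 𝕜 G]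
    [NormedAddCommGroup H] [NormedSpace 𝕜 H] [CompleteSpace H] (T : G →L[𝕜] H) :
    (lp (fun n => ↥(EE T n)) 2) →L[𝕜] H :=
  LinearMap.mkContinuous
    { toFun := fun x => ∑' n, ((1 / 2 : 𝕜) ^ n) • ((x n : EE T n) : G × H).2
      map_add' := by
        intro x y
        rw [← (term_summable T x).tsum_add (term_summable T y)]
        apply tsum_congr
        intro n
        rw [← smul_add]
        rfl
      map_smul' := by
        intro c x
        rw [RingHom.id_apply, ← (term_summable T x).tsum_const_smul]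
        apply tsum_congr
        intro n
        rw [smul_comm]
        rfl } 2 (by
    intro x
    show ‖∑' n, ((1 / 2 : 𝕜) ^ n) • ((x n : EE T n) : G × H).2‖ ≤ 2 * ‖x‖
    have hg : HasSum (fun n : ℕ => (1 / 2 : ℝ) ^ n * ‖x‖) (2 * ‖x‖) := by
      have := (hasSum_geometric_of_lt_one (r := (1 / 2 : ℝ)) (by norm_num) (by norm_num)).mul_right ‖x‖
      have e : (1 - (1 / 2 : ℝ))⁻¹ = 2 := by norm_num
      rwa [e] at this
    exact tsum_of_norm_bounded hg (fun n => term_norm T n x))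

private theorem SS_apply {𝕜 G H : Type} [RCLike 𝕜] [NormedAddCommGroup G] [NormedSpace 𝕜 G]
    [NormedAddCommGroup H] [NormedSpace 𝕜 H] [CompleteSpace H] (T : G →L[𝕜] H)
    (x : lp (fun n => ↥(EE T n)) 2) :
    SS T x = ∑' n, ((1 / 2 : 𝕜) ^ n) • ((x n : EE T n) : G × H).2 := rfl

/-- Let `Ei n = {(g, h) : G × H | h = 4 ^ n • T g}`, a closed subspace of `G × H` (sup norm), and `Q = lp (fun n => ↥(Ei n)) 2`.
`inc n g = lp.single 2 n ((1/2)^n • g, 2^n • T g)`. `SQ x = ∑' n, (1/2)^n • (x n).2` (converges absolutely; `‖SQ x‖ ≤ 2 ‖x‖`), and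
`SQ x = ∑' n, T (2^n • (x n).1)` since `(x n).2 = 4^n • T (x n).1`. For the splitting take `g = ∑_{n ≤ q} 2^n • (x n).1` and
`h = ∑'_{n > q} (1/2)^n • (x n).2`; `∑_{n ≤ q} 2^n ≤ 2^(q+1)` and `∑_{n>q} (1/2)^n = (1/2)^q`. Density of the span of the ranges of `inc n`: `lp.hasSum_single`
(every element of `Ei n` is `((1/2)^n g, 2^n T g)` with `g = 2^n • x.1`). The last density: `lp2_bidual` for the maps `lp.single 2 n` on `Ei n`, and
`inc n = (lp.single 2 n) ∘ r` with `r : G → Ei n` a bounded bijection with bounded inverse `(g, h) ↦ 2^n • g`, so `bimap (inc n)` and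
`bimap (lp.single 2 n)` have the same range. -/
theorem fac_pre {𝕜 G H : Type} [RCLike 𝕜] [NormedAddCommGroup G] [NormedSpace 𝕜 G]
    [CompleteSpace G] [NormedAddCommGroup H] [NormedSpace 𝕜 H] [CompleteSpace H]
    (T : G →L[𝕜] H) : ∃ (Q : Type) (_ : NormedAddCommGroup Q) (_ : NormedSpace 𝕜 Q)
    (_ : CompleteSpace Q) (inc : ℕ → G →L[𝕜] Q) (SQ : Q →L[𝕜] H),
    (∀ n g, SQ (inc n g) = T g) ∧
    (∀ n g, ‖inc n g‖ ≤ max (‖g‖ / 2 ^ n) (2 ^ n * ‖T g‖)) ∧
    Dense ((Submodule.span 𝕜 (⋃ i, Set.range (inc i)) : Submodule 𝕜 Q) : Set Q) ∧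
    (∀ (x : Q) (q : ℕ), ∃ (g : G) (h : H), SQ x = T g + h ∧
      ‖g‖ ≤ 2 ^ (q + 1) * ‖x‖ ∧ ‖h‖ ≤ 1 / 2 ^ q * ‖x‖) ∧
    Dense ((Submodule.span 𝕜 (⋃ i, Set.range (bimap (inc i))) :
      Submodule 𝕜 (StrongDual 𝕜 (StrongDual 𝕜 Q))) : Set (StrongDual 𝕜 (StrongDual 𝕜 Q))) := by
  haveI : ∀ n, CompleteSpace (EE T n) := fun n => (EE_closed T n).completeSpace_coe
  haveI : Fact ((1 : ℝ≥0∞) ≤ 2) := ⟨by norm_num⟩
  set inc : ℕ → G →L[𝕜] lp (fun n => ↥(EE T n)) 2 := fun n =>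
    (lp.singleContinuousLinearMap 𝕜 (fun n => ↥(EE T n)) 2 n).comp (rr T n) with hinc
  have hincA : ∀ n g, inc n g = lp.single 2 n (rr T n g) := fun n g => rfl
  refine ⟨lp (fun n => ↥(EE T n)) 2, inferInstance, inferInstance, inferInstance, inc, SS T,
    ?_, ?_, ?_, ?_, ?_⟩
  · intro n g
    rw [SS_apply, tsum_eq_single n]
    · rw [hincA, lp.single_apply_self, rr_apply]
      show (1 / 2 : 𝕜) ^ n • ((2 : 𝕜) ^ n • T g) = T g
      rw [smul_smul, ← mul_pow]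
      norm_num
    · intro m hm
      rw [hincA, lp.single_apply_ne _ _ _ hm]
      show (1 / 2 : 𝕜) ^ m • (0 : H) = 0
      rw [smul_zero]
  · intro n g
    rw [hincA, lp.norm_single (by norm_num)]
    show ‖((rr T n g : EE T n) : G × H)‖ ≤ _
    rw [rr_apply, Prod.norm_mk, norm_smul, norm_smul, norm_pow, norm_pow, norm_div, norm_one,
      RCLike.norm_ofNat]
    apply le_of_eq
    congr 1
    rw [one_div, inv_pow, div_eq_inv_mul]
  · intro x
    have hs := lp.hasSum_single (E := fun n => ↥(EE T n)) (p := 2) (by norm_num) x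
    rw [HasSum] at hs
    refine mem_closure_of_tendsto hs (Filter.Eventually.of_forall ?_)
    intro s
    refine Submodule.sum_mem _ (fun i _ => ?_)
    refine Submodule.subset_span (Set.mem_iUnion.2 ⟨i, ss T i (x i), ?_⟩)
    rw [hincA, rr_ss]
  · intro x q
    refine ⟨∑ n ∈ Finset.range (q + 1), (2 : 𝕜) ^ n • ((x n : EE T n) : G × H).1,
      ∑' n, ((1 / 2 : 𝕜) ^ (n + (q + 1))) • ((x (n + (q + 1)) : EE T (n + (q + 1))) : G × H).2,
      ?_, ?_, ?_⟩
    · rw [SS_apply, ← (term_summable T x).sum_add_tsum_nat_add (q + 1), map_sum]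
      congr 1
      apply Finset.sum_congr rfl
      intro n _
      have hx := (EE_mem T n ((x n : EE T n) : G × H)).1 (x n).2
      rw [hx, map_smul, smul_smul, ← mul_pow]
      norm_num
    · have h2 : ∀ n : ℕ, ‖(2 : 𝕜) ^ n • ((x n : EE T n) : G × H).1‖ ≤ 2 ^ n * ‖x‖ := by
        intro n
        rw [norm_smul, norm_pow, RCLike.norm_ofNat]
        exact mul_le_mul_of_nonneg_left (norm_fst_le T n x) (by positivity)
      calc _ ≤ ∑ n ∈ Finset.range (q + 1), ‖(2 : 𝕜) ^ n • ((x n : EE T n) : G × H).1‖ :=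
            norm_sum_le _ _
        _ ≤ ∑ n ∈ Finset.range (q + 1), (2 : ℝ) ^ n * ‖x‖ := Finset.sum_le_sum (fun n _ => h2 n)
        _ = (∑ n ∈ Finset.range (q + 1), (2 : ℝ) ^ n) * ‖x‖ := by rw [Finset.sum_mul]
        _ ≤ 2 ^ (q + 1) * ‖x‖ := by
            apply mul_le_mul_of_nonneg_right _ (norm_nonneg _)
            rw [geom_sum_eq (by norm_num)]
            norm_num
    · have hg : HasSum (fun n : ℕ => (1 / 2 : ℝ) ^ (n + (q + 1)) * ‖x‖) (1 / 2 ^ q * ‖x‖) := by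
        have := (hasSum_geometric_of_lt_one (r := (1 / 2 : ℝ)) (by norm_num)
          (by norm_num)).mul_right ((1 / 2 : ℝ) ^ (q + 1) * ‖x‖)
        have e : (1 - (1 / 2 : ℝ))⁻¹ * ((1 / 2 : ℝ) ^ (q + 1) * ‖x‖) = 1 / 2 ^ q * ‖x‖ := by
          rw [pow_succ, one_div_pow]; ring
        rw [e] at this
        have e2 : (fun n : ℕ => (1 / 2 : ℝ) ^ (n + (q + 1)) * ‖x‖) =
            (fun n : ℕ => (1 / 2 : ℝ) ^ n * ((1 / 2 : ℝ) ^ (q + 1) * ‖x‖)) := by
          funext n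
          rw [pow_add, mul_assoc]
        rw [e2]
        exact this
      exact tsum_of_norm_bounded hg (fun n => term_norm T _ x)
  · have hd := lp2_bidual (𝕜 := 𝕜) (Ei := fun n => ↥(EE T n))
      (fun n => lp.singleContinuousLinearMap 𝕜 (fun n => ↥(EE T n)) 2 n) (fun i x => rfl)
    have hr : ∀ i, Set.range (bimap (inc i)) =
        Set.range (bimap (lp.singleContinuousLinearMap 𝕜 (fun n => ↥(EE T n)) 2 i)) := by
      intro i
      apply Set.Subset.antisymm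
      · rintro _ ⟨z, rfl⟩
        exact ⟨bimap (rr T i) z, rfl⟩
      · rintro _ ⟨z, rfl⟩
        refine ⟨bimap (ss T i) z, ?_⟩
        ext f
        show z ((((f.comp (inc i))).comp (ss T i))) = z (f.comp _)
        congr 1
        ext y
        show f (inc i (ss T i y)) = f (lp.single 2 i y)
        rw [hincA, rr_ss]
    simpa only [hr] using hd

end WCGBd
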