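import Pool.Agent.WCGBd.Defs
import Pool.Agent.WCGBd.JA8
import Pool.Agent.WCGBd.JA9q

set_option autoImplicit false

namespace WCGBd

open Filter Topology Set
open scoped ENNReal

/-- With `fac_pre`: `X = Q ⧸ LinearMap.ker SQ` (closed subspace), `ι = mk ∘ inc 0 = mk ∘ inc n` for all `n` (the differences lie in the kernel), `S` the
map induced by `SQ`. Every `x : X` has a lift of norm `≤ 2 ‖x‖`. Dense range of `ι`: the image under `mk` of the dense span is contained in the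
range of `ι`. Dense range of `bimap ι`: `bimap mk` is surjective (`bimap_surj`) and continuous, and maps the span of the ranges of the `bimap (inc i)` into the
range of `bimap ι` (`bimap mk ∘ bimap (inc i) = bimap (mk ∘ inc i) = bimap ι`). -/
theorem fac_exists {𝕜 G H : Type} [RCLike 𝕜] [NormedAddCommGroup G] [NormedSpace 𝕜 G]
    [CompleteSpace G] [NormedAddCommGroup H] [NormedSpace 𝕜 H] [CompleteSpace H]
    (T : G →L[𝕜] H) : ∃ (X : Type) (_ : NormedAddCommGroup X) (_ : NormedSpace 𝕜 X)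
    (_ : CompleteSpace X) (ι : G →L[𝕜] X) (S : X →L[𝕜] H), Fac T ι S := by
  obtain ⟨Q, i1, i2, i3, inc, SQ, h1, h2, h3, h4, h5⟩ := fac_pre T
  letI := i1
  letI := i2
  letI := i3
  let K : Submodule 𝕜 Q := LinearMap.ker (SQ : Q →ₗ[𝕜] H)
  haveI hK : IsClosed (K : Set Q) := by
    have : (K : Set Q) = SQ ⁻¹' {0} := by
      ext x
      simp [K]
    rw [this]
    exact isClosed_singleton.preimage SQ.continuous
  let mk : Q →L[𝕜] (Q ⧸ K) := K.mkQL
  have hmk : ∀ x, mk x = K.mkQ x := fun x => rfl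
  have hmks : Function.Surjective mk := fun y => by
    obtain ⟨x, hx⟩ := Submodule.mkQ_surjective K y
    exact ⟨x, hx⟩
  let S : (Q ⧸ K) →L[𝕜] H := K.liftQL SQ le_rfl
  have hS : ∀ x, S (mk x) = SQ x := fun x => rfl
  let ι : G →L[𝕜] (Q ⧸ K) := mk.comp (inc 0)
  have hι : ∀ n, mk.comp (inc n) = ι := by
    intro n
    ext g
    show mk (inc n g) = mk (inc 0 g)
    rw [hmk, hmk]
    have : inc n g - inc 0 g ∈ K := by
      show SQ (inc n g - inc 0 g) = 0
      rw [map_sub, h1, h1, sub_self]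
    exact (Submodule.Quotient.eq K).2 this
  refine ⟨Q ⧸ K, inferInstance, inferInstance, inferInstance, ι, S, ?_, ?_, ?_, ?_, ?_, ?_⟩
  · intro g
    show S (mk (inc 0 g)) = T g
    rw [hS, h1]
  · intro x y hxy
    obtain ⟨x, rfl⟩ := hmks x
    obtain ⟨y, rfl⟩ := hmks y
    rw [hS, hS] at hxy
    have : x - y ∈ K := by
      show SQ (x - y) = 0
      rw [map_sub, hxy, sub_self]
    exact (Submodule.Quotient.eq K).2 this
  · have hd := hmks.denseRange.dense_image mk.continuous h3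
    refine hd.mono ?_
    have hle : (Submodule.span 𝕜 (⋃ i, Set.range (inc i)) : Submodule 𝕜 Q) ≤
        (LinearMap.range (ι : G →ₗ[𝕜] (Q ⧸ K))).comap (mk : Q →ₗ[𝕜] (Q ⧸ K)) := by
      refine Submodule.span_le.2 (Set.iUnion_subset fun n => ?_)
      rintro _ ⟨g, rfl⟩
      refine ⟨g, ?_⟩
      exact (congrArg (fun f => f g) (hι n)).symm
    rintro _ ⟨x, hx, rfl⟩
    obtain ⟨g, hg⟩ := hle hx
    exact ⟨g, hg⟩
  · intro n g
    rw [← hι n]
    exact (Submodule.Quotient.norm_mk_le K (inc n g)).trans (h2 n g)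
  · intro x q
    have hl : ∃ y : Q, mk y = x ∧ ‖y‖ ≤ 2 * ‖x‖ := by
      rcases eq_or_ne x 0 with rfl | hx
      · exact ⟨0, by simp, by simp⟩
      · obtain ⟨y, hy, hy2⟩ := Submodule.Quotient.norm_mk_lt x (norm_pos_iff.2 hx)
        exact ⟨y, hy, by linarith⟩
    obtain ⟨y, hy, hy2⟩ := hl
    obtain ⟨g, h, e1, e2, e3⟩ := h4 y q
    refine ⟨g, h, ?_, ?_, ?_⟩
    · rw [← hy, hS, e1]
    · calc ‖g‖ ≤ 2 ^ (q + 1) * ‖y‖ := e2
        _ ≤ 2 ^ (q + 1) * (2 * ‖x‖) := by gcongr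
        _ = 2 ^ (q + 2) * ‖x‖ := by ring
    · calc ‖h‖ ≤ 1 / 2 ^ q * ‖y‖ := e3
        _ ≤ 1 / 2 ^ q * (2 * ‖x‖) := by gcongr
        _ = 2 / 2 ^ q * ‖x‖ := by ring
  · have hs := bimap_surj mk hmks
    have hd := hs.denseRange.dense_image (bimap mk).continuous h5
    refine hd.mono ?_
    have hle : (Submodule.span 𝕜 (⋃ i, Set.range (bimap (inc i))) :
        Submodule 𝕜 (StrongDual 𝕜 (StrongDual 𝕜 Q))) ≤
        (LinearMap.range (bimap ι : StrongDual 𝕜 (StrongDual 𝕜 G) →ₗ[𝕜]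
          StrongDual 𝕜 (StrongDual 𝕜 (Q ⧸ K)))).comap
          (bimap mk : StrongDual 𝕜 (StrongDual 𝕜 Q) →ₗ[𝕜] StrongDual 𝕜 (StrongDual 𝕜 (Q ⧸ K))) := by
      refine Submodule.span_le.2 (Set.iUnion_subset fun n => ?_)
      rintro _ ⟨g, rfl⟩
      refine ⟨g, ?_⟩
      rw [← hι n]
      rfl
    rintro _ ⟨x, hx, rfl⟩
    obtain ⟨g, hg⟩ := hle hx
    exact ⟨g, hg⟩

end WCGBd
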