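import Pool.Agent.WCGBd.Defs

set_option autoImplicit false

namespace WCGBd

open Filter Topology Set
open scoped ENNReal

open Classical in
private theorem restr_val {𝕜 A : Type} [RCLike 𝕜] (U : Set A) (g : Li 𝕜 A) (a : A) :
    (restr 𝕜 U g : A → 𝕜) a = if a ∈ U then (g : A → 𝕜) a else 0 := rfl

private theorem key_unit {𝕜 A : Type} [RCLike 𝕜] (U V : Set A) (h : Disjoint U V)
    (ψ : StrongDual 𝕜 (Li 𝕜 A)) (g g' : Li 𝕜 A) (hg : ‖g‖ ≤ 1) (hg' : ‖g'‖ ≤ 1) :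
    ‖ψ (restr 𝕜 U g)‖ + ‖ψ (restr 𝕜 V g')‖ ≤ ‖rs (U ∪ V) ψ‖ := by
  classical
  obtain ⟨u, hu, hu'⟩ := RCLike.exists_norm_eq_mul_self (ψ (restr 𝕜 U g))
  obtain ⟨v, hv, hv'⟩ := RCLike.exists_norm_eq_mul_self (ψ (restr 𝕜 V g'))
  set x : Li 𝕜 A := u • restr 𝕜 U g + v • restr 𝕜 V g' with hx
  have hxa : ∀ a : A, (x : A → 𝕜) a = u * (if a ∈ U then (g : A → 𝕜) a else 0) +
      v * (if a ∈ V then (g' : A → 𝕜) a else 0) := by
    intro a
    rw [hx]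
    simp only [lp.coeFn_add, lp.coeFn_smul, Pi.add_apply, Pi.smul_apply, smul_eq_mul, restr_val]
  have hx1 : ‖x‖ ≤ 1 := by
    refine lp.norm_le_of_forall_le zero_le_one ?_
    intro a
    rw [hxa a]
    by_cases haU : a ∈ U
    · have haV : a ∉ V := fun hv => (Set.disjoint_left.1 h haU) hv
      rw [if_pos haU, if_neg haV, mul_zero, add_zero, norm_mul, hu, one_mul]
      exact (lp.norm_apply_le_norm ENNReal.top_ne_zero g a).trans hg
    · by_cases haV : a ∈ V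
      · rw [if_neg haU, if_pos haV, mul_zero, zero_add, norm_mul, hv, one_mul]
        exact (lp.norm_apply_le_norm ENNReal.top_ne_zero g' a).trans hg'
      · rw [if_neg haU, if_neg haV, mul_zero, mul_zero, add_zero, norm_zero]
        exact zero_le_one
  have hfix : restr 𝕜 (U ∪ V) x = x := by
    ext a
    rw [restr_val]
    by_cases ha : a ∈ U ∪ V
    · rw [if_pos ha]
    · rw [if_neg ha, hxa a]
      rw [Set.mem_union, not_or] at ha
      rw [if_neg ha.1, if_neg ha.2]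
      simp
  have hval : ψ x = ((‖ψ (restr 𝕜 U g)‖ + ‖ψ (restr 𝕜 V g')‖ : ℝ) : 𝕜) := by
    rw [hx, map_add, map_smul, map_smul, smul_eq_mul, smul_eq_mul, ← hu', ← hv', RCLike.ofReal_add]
  have h1 : ‖rs (U ∪ V) ψ x‖ ≤ ‖rs (U ∪ V) ψ‖ * ‖x‖ := ContinuousLinearMap.le_opNorm _ _
  have h2 : rs (U ∪ V) ψ x = ψ x := by
    show ψ (restr 𝕜 (U ∪ V) x) = ψ x
    rw [hfix]
  rw [h2, hval, RCLike.norm_ofReal, abs_of_nonneg (by positivity)] at h1
  exact h1.trans (mul_le_of_le_one_right (norm_nonneg _) hx1)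

private theorem bound_of_unit {𝕜 E : Type} [RCLike 𝕜] [NormedAddCommGroup E] [NormedSpace 𝕜 E]
    (f : StrongDual 𝕜 E) (C : ℝ) (hC : 0 ≤ C) (h : ∀ x, ‖x‖ ≤ 1 → ‖f x‖ ≤ C) : ‖f‖ ≤ C := by
  refine ContinuousLinearMap.opNorm_le_bound _ hC ?_
  intro x
  by_cases hx : x = 0
  · rw [hx, map_zero, norm_zero, norm_zero, mul_zero]
  · have hx0 : 0 < ‖x‖ := norm_pos_iff.2 hx
    have h1 := h (((‖x‖⁻¹ : ℝ) : 𝕜) • x) (by
      rw [norm_smul, RCLike.norm_ofReal, abs_of_pos (inv_pos.2 hx0), inv_mul_cancel₀ hx0.ne'])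
    rw [map_smul, norm_smul, RCLike.norm_ofReal, abs_of_pos (inv_pos.2 hx0), inv_mul_le_iff₀ hx0] at h1
    linarith

/-- For `η > 0` choose `g`, `g'` in the unit ball with `‖ψ (restr U g)‖ > ‖rs U ψ‖ - η` and similarly for `V`; multiply them with unimodular
scalars so that both values are nonnegative reals; the element `restr U g + restr V g'` is in the unit ball, is fixed by `restr (U ∪ V)`, and its value
is the sum. -/
theorem rs_norm_add {𝕜 A : Type} [RCLike 𝕜] (U V : Set A) (h : Disjoint U V)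
    (ψ : StrongDual 𝕜 (Li 𝕜 A)) : ‖rs U ψ‖ + ‖rs V ψ‖ ≤ ‖rs (U ∪ V) ψ‖ := by
  have h1 : ∀ g : Li 𝕜 A, ‖g‖ ≤ 1 → ‖ψ (restr 𝕜 U g)‖ + ‖rs V ψ‖ ≤ ‖rs (U ∪ V) ψ‖ := by
    intro g hg
    have h0 : ‖ψ (restr 𝕜 U g)‖ ≤ ‖rs (U ∪ V) ψ‖ := by
      have := key_unit U V h ψ g 0 hg (by simp)
      rw [map_zero, map_zero, norm_zero, add_zero] at this
      exact this
    have h2 : ‖rs V ψ‖ ≤ ‖rs (U ∪ V) ψ‖ - ‖ψ (restr 𝕜 U g)‖ := by
      refine bound_of_unit _ _ (by linarith) ?_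
      intro g' hg'
      have := key_unit U V h ψ g g' hg hg'
      show ‖ψ (restr 𝕜 V g')‖ ≤ _
      linarith
    linarith
  have h3 : ‖rs V ψ‖ ≤ ‖rs (U ∪ V) ψ‖ := by
    have := h1 0 (by simp)
    rw [map_zero, map_zero, norm_zero, zero_add] at this
    exact this
  have h4 : ‖rs U ψ‖ ≤ ‖rs (U ∪ V) ψ‖ - ‖rs V ψ‖ := by
    refine bound_of_unit _ _ (by linarith) ?_
    intro g hg
    have := h1 g hg
    show ‖ψ (restr 𝕜 U g)‖ ≤ _
    linarith
  linarith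

end WCGBd
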