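import Pool.Agent.WCGBd.Defs

set_option autoImplicit false

namespace WCGBd

open Filter Topology Set
open scoped ENNReal

private lemma restr_mem {𝕜 A : Type} [RCLike 𝕜] (U : Set A) (g : Li 𝕜 A) (a : A) (h : a ∈ U) :
    (restr 𝕜 U g) a = g a := by
  classical
  simp [restr, LinearMap.mkContinuous_apply, h]

private lemma restr_not_mem {𝕜 A : Type} [RCLike 𝕜] (U : Set A) (g : Li 𝕜 A) (a : A) (h : a ∉ U) :
    (restr 𝕜 U g) a = 0 := by
  classical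
  simp [restr, LinearMap.mkContinuous_apply, h]

private lemma restr_restr {𝕜 A : Type} [RCLike 𝕜] (U V : Set A) (g : Li 𝕜 A) :
    restr 𝕜 V (restr 𝕜 U g) = restr 𝕜 (U ∩ V) g := by
  ext a
  by_cases hV : a ∈ V
  · by_cases hU : a ∈ U
    · rw [restr_mem V _ a hV, restr_mem U _ a hU, restr_mem (U ∩ V) _ a ⟨hU, hV⟩]
    · rw [restr_mem V _ a hV, restr_not_mem U _ a hU, restr_not_mem (U ∩ V) _ a (fun h => hU h.1)]
  · rw [restr_not_mem V _ a hV, restr_not_mem (U ∩ V) _ a (fun h => hV h.2)]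

private lemma restr_union {𝕜 A : Type} [RCLike 𝕜] (U V : Set A) (g : Li 𝕜 A) :
    restr 𝕜 (U ∪ V) g = restr 𝕜 U g + restr 𝕜 (V \ U) g := by
  ext a
  rw [lp.coeFn_add, Pi.add_apply]
  by_cases hU : a ∈ U
  · rw [restr_mem _ _ a (Or.inl hU), restr_mem U _ a hU, restr_not_mem (V \ U) _ a (fun h => h.2 hU),
      add_zero]
  · by_cases hV : a ∈ V
    · rw [restr_mem _ _ a (Or.inr hV), restr_not_mem U _ a hU, restr_mem (V \ U) _ a ⟨hV, hU⟩,
        zero_add]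
    · rw [restr_not_mem _ _ a (fun h => h.elim hU hV), restr_not_mem U _ a hU,
        restr_not_mem (V \ U) _ a (fun h => hV h.1), zero_add]

private lemma restr_univ {𝕜 A : Type} [RCLike 𝕜] (g : Li 𝕜 A) : restr 𝕜 Set.univ g = g := by
  ext a
  rw [restr_mem _ _ a (Set.mem_univ a)]

private lemma restr_empty {𝕜 A : Type} [RCLike 𝕜] (g : Li 𝕜 A) : restr 𝕜 ∅ g = 0 := by
  ext a
  rw [restr_not_mem _ _ a (Set.notMem_empty a)]
  rfl

private lemma restr_norm {𝕜 A : Type} [RCLike 𝕜] (U : Set A) (g : Li 𝕜 A) :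
    ‖restr 𝕜 U g‖ ≤ ‖g‖ := by
  refine lp.norm_le_of_forall_le (norm_nonneg _) ?_
  intro a
  by_cases h : a ∈ U
  · rw [restr_mem U g a h]
    exact lp.norm_apply_le_norm ENNReal.top_ne_zero g a
  · rw [restr_not_mem U g a h]
    simp

private lemma rs_apply {𝕜 A : Type} [RCLike 𝕜] (U : Set A) (ψ : StrongDual 𝕜 (Li 𝕜 A)) (g : Li 𝕜 A) :
    rs U ψ g = ψ (restr 𝕜 U g) := rfl

private lemma rs_rs {𝕜 A : Type} [RCLike 𝕜] (U V : Set A) (ψ : StrongDual 𝕜 (Li 𝕜 A)) :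
    rs U (rs V ψ) = rs (U ∩ V) ψ := by
  ext g
  rw [rs_apply, rs_apply, rs_apply, restr_restr]

private lemma rs_union {𝕜 A : Type} [RCLike 𝕜] (U V : Set A) (ψ : StrongDual 𝕜 (Li 𝕜 A)) :
    rs (U ∪ V) ψ = rs U ψ + rs (V \ U) ψ := by
  ext g
  rw [ContinuousLinearMap.add_apply, rs_apply, rs_apply, rs_apply, restr_union, map_add]

private lemma rs_mono_zero {𝕜 A : Type} [RCLike 𝕜] (U V : Set A) (ψ : StrongDual 𝕜 (Li 𝕜 A))
    (hVU : V ⊆ U) (h : rs U ψ = 0) : rs V ψ = 0 := by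
  have h1 : rs V (rs U ψ) = rs V ψ := by
    rw [rs_rs, Set.inter_eq_left.2 hVU]
  rw [← h1, h]
  ext g
  rw [rs_apply]
  rfl

/-- Elementary properties of the restriction; `(restr 𝕜 U g) a = if a ∈ U then g a else 0`. -/
theorem rs_basic {𝕜 A : Type} [RCLike 𝕜] (ψ : StrongDual 𝕜 (Li 𝕜 A)) :
    (∀ (U : Set A) (g : Li 𝕜 A) (a : A), a ∈ U → (restr 𝕜 U g) a = g a) ∧
    (∀ (U : Set A) (g : Li 𝕜 A) (a : A), a ∉ U → (restr 𝕜 U g) a = 0) ∧
    (∀ U V : Set A, rs U (rs V ψ) = rs (U ∩ V) ψ) ∧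
    (∀ U V : Set A, rs (U ∪ V) ψ = rs U ψ + rs (V \ U) ψ) ∧
    (∀ U : Set A, ‖rs U ψ‖ ≤ ‖ψ‖) ∧
    (rs Set.univ ψ = ψ) ∧ (rs ∅ ψ = 0) ∧
    (∀ U V : Set A, V ⊆ U → rs U ψ = 0 → rs V ψ = 0) ∧
    (∀ U V : Set A, rs U ψ = 0 → rs V ψ = 0 → rs (U ∪ V) ψ = 0) := by
  refine ⟨fun U g a h => restr_mem U g a h, fun U g a h => restr_not_mem U g a h,
    fun U V => rs_rs U V ψ, fun U V => rs_union U V ψ, ?_, ?_, ?_, 
    fun U V hVU h => rs_mono_zero U V ψ hVU h, ?_⟩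
  · intro U
    refine ContinuousLinearMap.opNorm_le_bound _ (norm_nonneg _) ?_
    intro g
    rw [rs_apply]
    exact (ψ.le_opNorm _).trans (mul_le_mul_of_nonneg_left (restr_norm U g) (norm_nonneg _))
  · ext g
    rw [rs_apply, restr_univ]
  · ext g
    rw [rs_apply, restr_empty, map_zero]
    rfl
  · intro U V hU hV
    rw [rs_union, hU, zero_add]
    exact rs_mono_zero V (V \ U) ψ Set.diff_subset hV

end WCGBd
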