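import Pool.Agent.WCGBd.Defs
import Pool.Agent.WCGBd.JB2

set_option autoImplicit false

namespace WCGBd

open Filter Topology Set
open scoped ENNReal

/-- the constant function one -/
private noncomputable def shiftOne (𝕜 A : Type) [RCLike 𝕜] : Li 𝕜 A :=
  ⟨fun _ => (1 : 𝕜), by
    refine memℓp_infty ⟨1, ?_⟩
    rintro _ ⟨a, rfl⟩
    simp⟩

private theorem shiftOne_apply {𝕜 A : Type} [RCLike 𝕜] (a : A) :
    (shiftOne 𝕜 A) a = (1 : 𝕜) := rfl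

/-- `(rs U ψ).comp R φ = ψ (restr U (R φ)) = ψ (R' φ) + ψ (1_U) * e φ`, so `(rs U ψ).comp R = ψ.comp R' + ψ (1_U) • e`, where
`1_U = restr U 1`-type element of `Li 𝕜 A` (the indicator function of `U`). -/
theorem shift_mem {𝕜 A Y : Type} [RCLike 𝕜] [NormedAddCommGroup Y] [NormedSpace 𝕜 Y]
    (R R' : Y →L[𝕜] Li 𝕜 A) (N : Submodule 𝕜 (StrongDual 𝕜 Y)) (U : Set A)
    (e : StrongDual 𝕜 Y) (he : e ∈ N)
    (hR1 : ∀ φ, ∀ a ∈ U, R' φ a = R φ a - e φ) (hR2 : ∀ φ, ∀ a ∉ U, R' φ a = 0)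
    (ψ : StrongDual 𝕜 (Li 𝕜 A)) (h : ψ.comp R' ∈ N) : (rs U ψ).comp R ∈ N := by
  obtain ⟨hin, hout, -⟩ := rs_basic ψ
  have key : (rs U ψ).comp R = ψ.comp R' + (ψ (restr 𝕜 U (shiftOne 𝕜 A))) • e := by
    ext φ
    have h1 : restr 𝕜 U (R φ) = R' φ + e φ • restr 𝕜 U (shiftOne 𝕜 A) := by
      ext a
      by_cases ha : a ∈ U
      · rw [hin U _ a ha, lp.coeFn_add, Pi.add_apply, lp.coeFn_smul, Pi.smul_apply,
          hin U _ a ha, shiftOne_apply, hR1 φ a ha]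
        simp
      · rw [hout U _ a ha, lp.coeFn_add, Pi.add_apply, lp.coeFn_smul, Pi.smul_apply,
          hout U _ a ha, hR2 φ a ha]
        simp
    show ψ (restr 𝕜 U (R φ)) = ψ (R' φ) + (ψ (restr 𝕜 U (shiftOne 𝕜 A))) * e φ
    rw [h1, map_add, map_smul, smul_eq_mul, mul_comm]
  rw [key]
  exact N.add_mem h (N.smul_mem _ he)

end WCGBd
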