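import Pool.Agent.WCGBd.Defs
import Pool.Agent.WCGBd.JB2

set_option autoImplicit false

namespace WCGBd

open Filter Topology Set
open scoped ENNReal

open Classical in
/-- extension by zero along `f` -/
private noncomputable def extZ {𝕜 A B : Type} [RCLike 𝕜] (f : A → B) (hf : Function.Injective f) :
    Li 𝕜 A →L[𝕜] Li 𝕜 B :=
  LinearMap.mkContinuous
    { toFun := fun g => ⟨Function.extend f (fun a => g a) (fun _ => 0), by
        refine memℓp_infty ⟨‖g‖, ?_⟩
        rintro _ ⟨b, rfl⟩
        by_cases h : ∃ a, f a = b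
        · obtain ⟨a, rfl⟩ := h
          simpa [hf.extend_apply] using lp.norm_apply_le_norm ENNReal.top_ne_zero g a
        · simp [Function.extend_apply' _ _ _ h]⟩
      map_add' := by
        intro g g'
        ext b
        by_cases h : ∃ a, f a = b
        · obtain ⟨a, rfl⟩ := h
          simp [hf.extend_apply]
        · simp [Function.extend_apply' _ _ _ h]
      map_smul' := by
        intro c g
        ext b
        by_cases h : ∃ a, f a = b
        · obtain ⟨a, rfl⟩ := h
          simp [hf.extend_apply]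
        · simp [Function.extend_apply' _ _ _ h] }
    1 (by
      intro g
      refine lp.norm_le_of_forall_le (by positivity) ?_
      intro b
      by_cases h : ∃ a, f a = b
      · obtain ⟨a, rfl⟩ := h
        simpa [hf.extend_apply] using lp.norm_apply_le_norm ENNReal.top_ne_zero g a
      · simp [Function.extend_apply' _ _ _ h])

private theorem extZ_apply {𝕜 A B : Type} [RCLike 𝕜] (f : A → B) (hf : Function.Injective f)
    (g : Li 𝕜 A) (a : A) : (extZ (𝕜 := 𝕜) f hf g) (f a) = g a := by
  show Function.extend f (fun a => g a) (fun _ => 0) (f a) = g a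
  rw [hf.extend_apply]

private theorem extZ_apply' {𝕜 A B : Type} [RCLike 𝕜] (f : A → B) (hf : Function.Injective f)
    (g : Li 𝕜 A) (b : B) (hb : ¬ ∃ a, f a = b) : (extZ (𝕜 := 𝕜) f hf g) b = 0 := by
  show Function.extend f (fun a => g a) (fun _ => 0) b = 0
  rw [Function.extend_apply' _ _ _ hb]

/-- For injective `f : A → B`, extension by zero is a bounded operator `Li 𝕜 A → Li 𝕜 B`, so `ψ'' g = ψ (extension of g by zero)`. -/
theorem pull_li {𝕜 A B : Type} [RCLike 𝕜] (f : A → B) (hf : Function.Injective f)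
    (ψ : StrongDual 𝕜 (Li 𝕜 B)) :
    ∃ ψ' : StrongDual 𝕜 (Li 𝕜 A), ∀ (g : Li 𝕜 B) (g' : Li 𝕜 A), (∀ a, g' a = g (f a)) →
      ψ' g' = rs (Set.range f) ψ g := by
  refine ⟨ψ.comp (extZ (𝕜 := 𝕜) f hf), fun g g' hg => ?_⟩
  have key : extZ (𝕜 := 𝕜) f hf g' = restr 𝕜 (Set.range f) g := by
    ext b
    by_cases h : ∃ a, f a = b
    · have h2 := (rs_basic ψ).1 (Set.range f) g b h
      obtain ⟨a, rfl⟩ := h
      rw [extZ_apply, hg]
      exact h2.symm
    · have h2 := (rs_basic ψ).2.1 (Set.range f) g b (fun hb => h hb)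
      rw [extZ_apply' f hf g' b h]
      exact h2.symm
  show ψ (extZ (𝕜 := 𝕜) f hf g') = ψ (restr 𝕜 (Set.range f) g)
  rw [key]

end WCGBd
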