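import Pool.Agent.WCGBd.Defs
import Pool.Agent.WCGBd.JB1
import Pool.Agent.WCGBd.JB2

set_option autoImplicit false

namespace WCGBd

open Filter Topology Set
open scoped ENNReal

private theorem rs_sub' {𝕜 A : Type} [RCLike 𝕜] (U : Set A) (ψ φ : StrongDual 𝕜 (Li 𝕜 A)) :
    rs U (ψ - φ) = rs U ψ - rs U φ := by
  ext g
  rfl

private theorem rs_cont {𝕜 A : Type} [RCLike 𝕜] (U : Set A) :
    Continuous (fun ψ : StrongDual 𝕜 (Li 𝕜 A) => rs U ψ) := by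
  refine continuous_iff_continuousAt.2 fun φ => ?_
  rw [ContinuousAt, tendsto_iff_norm_sub_tendsto_zero]
  have h0 : Tendsto (fun ψ : StrongDual 𝕜 (Li 𝕜 A) => ‖ψ - φ‖) (𝓝 φ) (𝓝 0) :=
    tendsto_iff_norm_sub_tendsto_zero.1 tendsto_id
  refine squeeze_zero (fun _ => norm_nonneg _) (fun ψ => ?_) h0
  rw [← rs_sub']
  exact (rs_basic (ψ - φ)).2.2.2.2.1 U

/-- finite unions -/
private def FU {A : Type} (𝒰 : Set (Set A)) : Set (Set A) :=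
  {U | ∃ F : Set (Set A), F.Finite ∧ F ⊆ 𝒰 ∧ U = ⋃₀ F}

private theorem FU_union {A : Type} {𝒰 : Set (Set A)} {U V : Set A} (hU : U ∈ FU 𝒰)
    (hV : V ∈ FU 𝒰) : U ∪ V ∈ FU 𝒰 := by
  obtain ⟨F, hF, hFU, rfl⟩ := hU
  obtain ⟨G, hG, hGU, rfl⟩ := hV
  exact ⟨F ∪ G, hF.union hG, Set.union_subset hFU hGU, (Set.sUnion_union F G).symm⟩

private theorem FU_single {A : Type} {𝒰 : Set (Set A)} {U : Set A} (hU : U ∈ 𝒰) : U ∈ FU 𝒰 :=
  ⟨{U}, Set.finite_singleton U, by simpa using hU, by simp⟩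

private theorem FU_empty {A : Type} {𝒰 : Set (Set A)} : (∅ : Set A) ∈ FU 𝒰 :=
  ⟨∅, Set.finite_empty, by simp, by simp⟩

private theorem FU_mem {𝕜 A Z : Type} [RCLike 𝕜] [NormedAddCommGroup Z] [NormedSpace 𝕜 Z]
    (𝒰 : Set (Set A)) (N : Submodule 𝕜 Z)
    (Ψ : StrongDual 𝕜 (Li 𝕜 A) →L[𝕜] Z) (h1 : ∀ U ∈ 𝒰, ∀ ψ, Ψ (rs U ψ) ∈ N)
    {U : Set A} (hU : U ∈ FU 𝒰) : ∀ ψ, Ψ (rs U ψ) ∈ N := by
  obtain ⟨F, hF, hFU, rfl⟩ := hU
  induction F, hF using Set.Finite.induction_on with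
  | empty =>
    intro ψ
    rw [Set.sUnion_empty, (rs_basic ψ).2.2.2.2.2.2.1, map_zero]
    exact N.zero_mem
  | @insert V F hVF hF ih =>
    intro ψ
    have hF' : F ⊆ 𝒰 := (Set.subset_insert V F).trans hFU
    have hV : V ∈ 𝒰 := hFU (Set.mem_insert V F)
    rw [Set.sUnion_insert, Set.union_comm, (rs_basic ψ).2.2.2.1, map_add]
    refine N.add_mem (ih hF' ψ) ?_
    have h2 : rs (V \ ⋃₀ F) ψ = rs V (rs (⋃₀ F)ᶜ ψ) := by
      rw [(rs_basic ψ).2.2.1, Set.sdiff_eq]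
    rw [h2]
    exact h1 V hV _

private theorem rs_diff_le {𝕜 A : Type} [RCLike 𝕜] (U C : Set A)
    (ψ : StrongDual 𝕜 (Li 𝕜 A)) : ‖rs (C \ U) ψ‖ ≤ ‖rs (U ∪ C) ψ‖ - ‖rs U ψ‖ := by
  have h := rs_norm_add U (C \ U) Set.disjoint_sdiff_right ψ
  rw [Set.union_sdiff_self] at h
  linarith

/-- Let `α = sup {‖rs U ψ‖ | U finite union of members of 𝒰}` (bounded by `‖ψ‖`). Choose finite unions `U_n` increasing with `‖rs U_n ψ‖ → α`. For `n ≤ m`,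
`‖rs (U_m \ U_n) ψ‖ ≤ ‖rs U_m ψ‖ - ‖rs U_n ψ‖` by `rs_norm_add`, so `rs U_n ψ` is a Cauchy sequence; let `ψ₁` be its limit. Then
`Ψ ψ₁ ∈ N` since `N` is closed (for a finite union `U`, `Ψ (rs U ψ) ∈ N`: split with `rs_basic` into disjoint pieces, `rs (V \ U) ψ = rs V (rs Uᶜ ψ)`). Take
`ψ' = ψ - ψ₁`. For `C ∈ 𝒰`: `‖rs C (ψ - rs U_n ψ)‖ = ‖rs (C \ U_n) ψ‖ ≤ ‖rs (C ∪ U_n) ψ‖ - ‖rs U_n ψ‖ ≤ α - ‖rs U_n ψ‖ → 0`. -/
theorem rs_exhaust {𝕜 A Z : Type} [RCLike 𝕜] [NormedAddCommGroup Z] [NormedSpace 𝕜 Z]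
    (𝒰 : Set (Set A)) (N : Submodule 𝕜 Z) (hN : IsClosed (N : Set Z))
    (Ψ : StrongDual 𝕜 (Li 𝕜 A) →L[𝕜] Z) (h1 : ∀ U ∈ 𝒰, ∀ ψ, Ψ (rs U ψ) ∈ N)
    (ψ : StrongDual 𝕜 (Li 𝕜 A)) :
    ∃ ψ' : StrongDual 𝕜 (Li 𝕜 A), (∀ U ∈ 𝒰, rs U ψ' = 0) ∧ Ψ ψ - Ψ ψ' ∈ N := by
  classical
  set S : Set ℝ := (fun U : Set A => ‖rs U ψ‖) '' FU 𝒰 with hS
  have hSne : S.Nonempty := ⟨_, ∅, FU_empty, rfl⟩
  have hSb : BddAbove S := by
    refine ⟨‖ψ‖, ?_⟩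
    rintro _ ⟨U, -, rfl⟩
    exact (rs_basic ψ).2.2.2.2.1 U
  set α : ℝ := sSup S with hα
  have hle : ∀ U ∈ FU 𝒰, ‖rs U ψ‖ ≤ α := fun U hU => le_csSup hSb ⟨U, hU, rfl⟩
  have hex : ∀ n : ℕ, ∃ U ∈ FU 𝒰, α - 1 / ((n : ℝ) + 1) < ‖rs U ψ‖ := by
    intro n
    have h2 : α - 1 / ((n : ℝ) + 1) < sSup S := by
      have : (0 : ℝ) < 1 / ((n : ℝ) + 1) := by positivity
      linarith
    obtain ⟨_, ⟨U, hU, rfl⟩, h3⟩ := exists_lt_of_lt_csSup hSne h2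
    exact ⟨U, hU, h3⟩
  choose U hUF hUα using hex
  have hstep : ∀ (n : ℕ) (C : Set A), C ∈ FU 𝒰 → ‖rs (C \ U n) ψ‖ ≤ 1 / ((n : ℝ) + 1) := by
    intro n C hC
    have h3 := rs_diff_le (U n) C ψ
    have h4 := hle _ (FU_union (hUF n) hC)
    have h5 := hUα n
    linarith
  have hsplit : ∀ (C V : Set A), rs (V ∪ C) ψ - rs V ψ = rs (C \ V) ψ := by
    intro C V
    rw [(rs_basic ψ).2.2.2.1 V C, add_sub_cancel_left]
  have hcau : CauchySeq (fun n => rs (U n) ψ) := by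
    refine cauchySeq_of_le_tendsto_0 (fun n : ℕ => 2 * (1 / ((n : ℝ) + 1))) ?_ ?_
    · intro n m K hn hm
      have e1 : rs (U n) ψ - rs (U m) ψ
          = rs (U n \ U m) ψ - rs (U m \ U n) ψ := by
        rw [← hsplit (U n) (U m), ← hsplit (U m) (U n), Set.union_comm (U n) (U m)]
        abel
      rw [dist_eq_norm, e1]
      have h1 := hstep m (U n) (hUF n)
      have h2 := hstep n (U m) (hUF m)
      have h3 : 1 / ((m : ℝ) + 1) ≤ 1 / ((K : ℝ) + 1) := by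
        apply one_div_le_one_div_of_le (by positivity)
        have : (K : ℝ) ≤ m := by exact_mod_cast hm
        linarith
      have h4 : 1 / ((n : ℝ) + 1) ≤ 1 / ((K : ℝ) + 1) := by
        apply one_div_le_one_div_of_le (by positivity)
        have : (K : ℝ) ≤ n := by exact_mod_cast hn
        linarith
      have h5 := norm_sub_le (rs (U n \ U m) ψ) (rs (U m \ U n) ψ)
      linarith
    · have := (tendsto_one_div_add_atTop_nhds_zero_nat (𝕜 := ℝ)).const_mul 2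
      simpa using this
  obtain ⟨ψ₁, hlim⟩ := cauchySeq_tendsto_of_complete hcau
  refine ⟨ψ - ψ₁, ?_, ?_⟩
  · intro C hC
    have hl : Tendsto (fun n => rs C (ψ - rs (U n) ψ)) atTop (𝓝 (rs C (ψ - ψ₁))) :=
      ((rs_cont C).tendsto _).comp (tendsto_const_nhds.sub hlim)
    have hz : Tendsto (fun n => rs C (ψ - rs (U n) ψ)) atTop (𝓝 0) := by
      rw [tendsto_zero_iff_norm_tendsto_zero]
      refine squeeze_zero (fun _ => norm_nonneg _) (fun n => ?_)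
        (tendsto_one_div_add_atTop_nhds_zero_nat (𝕜 := ℝ))
      have e2 : rs C (ψ - rs (U n) ψ) = rs (C \ U n) ψ := by
        rw [rs_sub', (rs_basic ψ).2.2.1 C (U n)]
        have := hsplit C (C ∩ U n)
        rw [Set.union_eq_self_of_subset_left Set.inter_subset_left,
          Set.sdiff_self_inter] at this
        exact this
      rw [e2]
      exact hstep n C (FU_single hC)
    exact tendsto_nhds_unique hl hz
  · have e3 : Ψ ψ - Ψ (ψ - ψ₁) = Ψ ψ₁ := by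
      rw [map_sub]
      abel
    rw [e3]
    exact hN.mem_of_tendsto ((Ψ.continuous.tendsto ψ₁).comp hlim)
      (Filter.Eventually.of_forall fun n => FU_mem 𝒰 N Ψ h1 (hUF n) ψ)

end WCGBd
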