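import Pool.Agent.WCGBd.Defs
import Pool.Agent.WCGBd.JB2

set_option autoImplicit false

namespace WCGBd

open Filter Topology Set
open scoped ENNReal

/-- For `φ` and `ε > 0`, with `U = {a | ε ≤ ‖R φ a‖}`: `ψ (R φ) = ψ (restr U (R φ)) + ψ (R φ - restr U (R φ))`, the first term is
`rs U ψ (R φ) = 0` and the second has norm at most `‖ψ‖ * ε`. -/
theorem rs_vanish {𝕜 A Y : Type} [RCLike 𝕜] [NormedAddCommGroup Y] [NormedSpace 𝕜 Y]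
    (R : Y →L[𝕜] Li 𝕜 A) (ψ : StrongDual 𝕜 (Li 𝕜 A))
    (h : ∀ (φ : Y) (ε : ℝ), 0 < ε → rs {a | ε ≤ ‖R φ a‖} ψ = 0) : ψ.comp R = 0 := by
  obtain ⟨hin, hout, -⟩ := rs_basic ψ
  ext φ
  show ψ (R φ) = 0
  have key : ∀ ε : ℝ, 0 < ε → ‖ψ (R φ)‖ ≤ ‖ψ‖ * ε := by
    intro ε hε
    have h1 : ψ (restr 𝕜 {a | ε ≤ ‖R φ a‖} (R φ)) = 0 := by
      have h2 := congrArg (fun f : StrongDual 𝕜 (Li 𝕜 A) => f (R φ)) (h φ ε hε)
      exact h2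
    have h3 : ψ (R φ) = ψ (R φ - restr 𝕜 {a | ε ≤ ‖R φ a‖} (R φ)) := by
      rw [map_sub, h1, sub_zero]
    rw [h3]
    refine (ψ.le_opNorm _).trans (mul_le_mul_of_nonneg_left ?_ (norm_nonneg _))
    refine lp.norm_le_of_forall_le hε.le ?_
    intro a
    rw [lp.coeFn_sub, Pi.sub_apply]
    by_cases ha : a ∈ {a | ε ≤ ‖R φ a‖}
    · rw [hin _ _ a ha, sub_self, norm_zero]
      exact hε.le
    · rw [hout _ _ a ha, sub_zero]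
      exact (not_le.1 ha).le
  by_contra hne
  have hpos : 0 < ‖ψ (R φ)‖ := norm_pos_iff.2 hne
  have hψ : 0 ≤ ‖ψ‖ := norm_nonneg _
  have h5 := key (‖ψ (R φ)‖ / (2 * (‖ψ‖ + 1))) (by positivity)
  have h6 : ‖ψ‖ * (‖ψ (R φ)‖ / (2 * (‖ψ‖ + 1))) ≤ ‖ψ (R φ)‖ / 2 := by
    rw [mul_div_assoc', div_le_div_iff₀ (by positivity) (by norm_num)]
    nlinarith
  linarith

end WCGBd
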