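import Pool.Agent.WCGBd.Defs
import Pool.Agent.WCGBd.JB2
import Pool.Agent.WCGBd.JB3
import Pool.Agent.WCGBd.JB5

set_option autoImplicit false

namespace WCGBd

open Filter Topology Set
open scoped ENNReal

/-- Apply `rs_exhaust` with `Ψ ψ = ψ.comp R`, i.e. `Ψ = dmap R` (a continuous linear map), to get `ψ'`; then `ψ'.comp R = 0` by `h2` and `rs_vanish`. -/
theorem scheme {𝕜 A Y : Type} [RCLike 𝕜] [NormedAddCommGroup Y] [NormedSpace 𝕜 Y]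
    (R : Y →L[𝕜] Li 𝕜 A) (N : Submodule 𝕜 (StrongDual 𝕜 Y))
    (hN : IsClosed (N : Set (StrongDual 𝕜 Y))) (𝒰 : Set (Set A))
    (h1 : ∀ U ∈ 𝒰, ∀ ψ : StrongDual 𝕜 (Li 𝕜 A), (rs U ψ).comp R ∈ N)
    (h2 : ∀ ψ : StrongDual 𝕜 (Li 𝕜 A), (∀ U ∈ 𝒰, rs U ψ = 0) →
      ∀ (φ : Y) (ε : ℝ), 0 < ε → rs {a | ε ≤ ‖R φ a‖} ψ = 0)
    (ψ : StrongDual 𝕜 (Li 𝕜 A)) : ψ.comp R ∈ N := by
  let Ψ : StrongDual 𝕜 (Li 𝕜 A) →L[𝕜] StrongDual 𝕜 Y :=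
    LinearMap.mkContinuous
      { toFun := fun φ => φ.comp R
        map_add' := fun a b => by ext x; simp
        map_smul' := fun c a => by ext x; simp }
      ‖R‖ (by
        intro φ
        simp only [LinearMap.coe_mk, AddHom.coe_mk]
        rw [mul_comm]
        exact ContinuousLinearMap.opNorm_comp_le φ R)
  have hΨ : ∀ φ : StrongDual 𝕜 (Li 𝕜 A), Ψ φ = φ.comp R := fun φ => rfl
  obtain ⟨ψ', hψ', hd⟩ := rs_exhaust 𝒰 N hN Ψ (fun U hU φ => by rw [hΨ]; exact h1 U hU φ) ψ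
  rw [hΨ, hΨ, rs_vanish R ψ' (h2 ψ' hψ'), sub_zero] at hd
  exact hd

end WCGBd
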