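import Pool.Agent.WCGBd.Defs
import Pool.Agent.WCGBd.JB2
import Pool.Agent.WCGBd.JB6

set_option autoImplicit false

namespace WCGBd

open Filter Topology Set
open scoped ENNReal

private theorem restr_single {𝕜 A : Type} [RCLike 𝕜] (a : A) (ψ : StrongDual 𝕜 (Li 𝕜 A)) :
    ∃ c : 𝕜, ∀ g : Li 𝕜 A, rs {a} ψ g = c * g a := by
  let one : Li 𝕜 A := ⟨fun _ => 1, memℓp_infty ⟨1, by rintro _ ⟨b, rfl⟩; simp⟩⟩
  have hone : ∀ b, one b = 1 := fun _ => rfl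
  refine ⟨ψ (restr 𝕜 {a} one), fun g => ?_⟩
  obtain ⟨h1, h2, -⟩ := rs_basic ψ
  have h : restr 𝕜 {a} g = g a • restr 𝕜 {a} one := by
    ext b
    by_cases hb : b = a
    · subst hb
      rw [lp.coeFn_smul, Pi.smul_apply, h1 _ _ _ (mem_singleton b), h1 _ _ _ (mem_singleton b),
        hone, smul_eq_mul, mul_one]
    · have hb' : b ∉ ({a} : Set A) := hb
      rw [lp.coeFn_smul, Pi.smul_apply, h2 _ _ _ hb', h2 _ _ _ hb', smul_zero]
  have h3 : rs {a} ψ g = ψ (restr 𝕜 {a} g) := rfl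
  rw [h3, h, map_smul, smul_eq_mul, mul_comm]

/-- Apply `scheme` with `𝒰 = {{a} | a : A}`: `(rs {a} ψ).comp R` is a multiple of `(evA 𝕜 a).comp R` (`restr {a} g = g a • e_a`), and finite
sets are null for `ψ` vanishing on all singletons (`rs_basic`, induction on finite sets). -/
theorem c0_type {𝕜 A Y : Type} [RCLike 𝕜] [NormedAddCommGroup Y] [NormedSpace 𝕜 Y]
    (R : Y →L[𝕜] Li 𝕜 A) (N : Submodule 𝕜 (StrongDual 𝕜 Y))
    (hN : IsClosed (N : Set (StrongDual 𝕜 Y)))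
    (hfin : ∀ (φ : Y) (ε : ℝ), 0 < ε → {a | ε ≤ ‖R φ a‖}.Finite)
    (hev : ∀ a, (evA 𝕜 a).comp R ∈ N) (ψ : StrongDual 𝕜 (Li 𝕜 A)) : ψ.comp R ∈ N := by
  refine scheme R N hN (Set.range fun a : A => ({a} : Set A)) ?_ ?_ ψ
  · rintro _ ⟨a, rfl⟩ ψ'
    obtain ⟨c, hc⟩ := restr_single a ψ'
    have h : (rs {a} ψ').comp R = c • (evA 𝕜 a).comp R := by
      ext φ
      have h1 : ((rs {a} ψ').comp R) φ = c * (R φ) a := hc (R φ)
      rw [h1]
      rfl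
    change (rs {a} ψ').comp R ∈ N
    rw [h]
    exact N.smul_mem c (hev a)
  · intro ψ' h φ ε hε
    obtain ⟨-, -, -, -, -, -, h0, -, hun⟩ := rs_basic ψ'
    refine Set.Finite.induction_on (motive := fun S _ => rs S ψ' = 0) _ (hfin φ ε hε) h0 ?_
    intro a S _ _ hS
    rw [Set.insert_eq]
    exact hun _ _ (h _ ⟨a, rfl⟩) hS

end WCGBd
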