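import Pool.Agent.WCGBd.Defs

set_option autoImplicit false

namespace WCGBd

open Filter Topology Set
open scoped ENNReal

/-- `R φ = (v a φ)_a`, bounded by `R0 * ‖φ‖`. -/
theorem fam_op {𝕜 A Y : Type} [RCLike 𝕜] [NormedAddCommGroup Y] [NormedSpace 𝕜 Y]
    (v : A → StrongDual 𝕜 Y) (R0 : ℝ) (hv : ∀ a, ‖v a‖ ≤ R0) :
    ∃ R : Y →L[𝕜] Li 𝕜 A, ∀ φ a, R φ a = v a φ := by
  have hbd : ∀ φ : Y, ∀ a, ‖v a φ‖ ≤ max R0 0 * ‖φ‖ := fun φ a =>
    ((v a).le_opNorm φ).trans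
      (mul_le_mul_of_nonneg_right ((hv a).trans (le_max_left _ _)) (norm_nonneg _))
  have hmem : ∀ φ : Y, Memℓp (E := fun _ : A => 𝕜) (fun a => v a φ) ∞ := fun φ =>
    memℓp_infty ⟨max R0 0 * ‖φ‖, by rintro _ ⟨a, rfl⟩; exact hbd φ a⟩
  let L : Y →ₗ[𝕜] Li 𝕜 A :=
    { toFun := fun φ => ⟨fun a => v a φ, hmem φ⟩
      map_add' := fun φ ψ => by
        ext a
        simp
      map_smul' := fun c φ => by
        ext a
        simp }
  refine ⟨L.mkContinuous (max R0 0) fun φ => ?_, fun φ a => rfl⟩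
  exact lp.norm_le_of_forall_le
    (mul_nonneg (le_max_right _ _) (norm_nonneg _)) fun a => hbd φ a

/-- Composition with `f` is a bounded operator `Li 𝕜 B → Li 𝕜 A`. -/
theorem push_li {𝕜 A B : Type} [RCLike 𝕜] (f : A → B) (ψ : StrongDual 𝕜 (Li 𝕜 A)) :
    ∃ ψ' : StrongDual 𝕜 (Li 𝕜 B), ∀ (g : Li 𝕜 B) (g' : Li 𝕜 A), (∀ a, g' a = g (f a)) →
      ψ' g = ψ g' := by
  have hbd : ∀ g : Li 𝕜 B, ∀ a : A, ‖g (f a)‖ ≤ ‖g‖ := fun g a =>
    lp.norm_apply_le_norm ENNReal.top_ne_zero g (f a)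
  have hmem : ∀ g : Li 𝕜 B, Memℓp (E := fun _ : A => 𝕜) (fun a => g (f a)) ∞ := fun g =>
    memℓp_infty ⟨‖g‖, by rintro _ ⟨a, rfl⟩; exact hbd g a⟩
  let L : Li 𝕜 B →ₗ[𝕜] Li 𝕜 A :=
    { toFun := fun g => ⟨fun a => g (f a), hmem g⟩
      map_add' := fun g h => by
        ext a
        simp
      map_smul' := fun c g => by
        ext a
        simp }
  refine ⟨ψ.comp (L.mkContinuous 1 fun g => ?_), fun g g' h => ?_⟩
  · rw [one_mul]
    exact lp.norm_le_of_forall_le (norm_nonneg _) fun a => hbd g a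
  · have : L.mkContinuous 1 (fun g => by
        rw [one_mul]
        exact lp.norm_le_of_forall_le (norm_nonneg _) fun a => hbd g a) g = g' := by
      ext a
      exact (h a).symm
    rw [ContinuousLinearMap.comp_apply, this]

end WCGBd
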