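import Pool.Agent.WCGBd.Defs

set_option autoImplicit false

namespace WCGBd

open Filter Topology Set
open scoped ENNReal

/-- Take `W` of cardinality continuum, e.g. `W = (ℕ → ℕ)` or `ℝ`: `#(ℕ → List (W × ℕ)) = 𝔠`. -/
theorem exists_code : ∃ W : Type, Nonempty (W ≃ (ℕ → List (W × ℕ))) := by
  refine ⟨ℝ, ?_⟩
  rw [← Cardinal.eq]
  have h1 : Cardinal.mk (List (ℝ × ℕ)) = Cardinal.continuum := by
    rw [Cardinal.mk_list_eq_mk, Cardinal.mk_prod]
    simp [Cardinal.mk_real]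
  have h2 : Cardinal.mk (ℕ → List (ℝ × ℕ)) = Cardinal.continuum := by
    rw [← Cardinal.power_def, h1, Cardinal.mk_nat, Cardinal.continuum_power_aleph0]
  rw [h2, Cardinal.mk_real]

end WCGBd
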