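import Pool.Agent.WCGBd.Defs

set_option autoImplicit false

namespace WCGBd

open Filter Topology Set
open scoped ENNReal

private theorem erel_len {W : Type} (e : W ≃ (ℕ → List (W × ℕ))) {k : ℕ} {τ σ : W} {j : ℕ} {p : W × ℕ} {b : ℕ → List (W × ℕ)}
    (h1 : (e σ k)[j]? = some p)
    (h2 : ∀ i, e τ i = if i < k then e σ i else if i = k then (e σ k).take j else b i) :
    j < (e σ k).length ∧ (e τ k).length = j ∧ e τ k = (e σ k).take j := by
  have hj : j < (e σ k).length := by
    by_contra hc
    rw [List.getElem?_eq_none (not_lt.mp hc)] at h1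
    exact absurd h1 (by simp)
  have h3 : e τ k = (e σ k).take j := by
    have := h2 k
    simpa using this
  refine ⟨hj, ?_, h3⟩
  rw [h3, List.length_take]
  exact min_eq_left hj.le

private theorem erel_step {W : Type} (e : W ≃ (ℕ → List (W × ℕ))) {k : ℕ} {τ τ' σ : W} {j j' m : ℕ} {a : W}
    {b : ℕ → List (W × ℕ)} (hjj : j < j')
    (h1 : (e σ k)[j]? = some (a, m))
    (h2 : ∀ i, e τ i = if i < k then e σ i else if i = k then (e σ k).take j else e a i)
    (h2' : ∀ i, e τ' i = if i < k then e σ i else if i = k then (e σ k).take j' else b i) :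
    Erel e k τ m τ' := by
  have h3 : e τ' k = (e σ k).take j' := by
    have := h2' k
    simpa using this
  refine ⟨j, a, ?_, ?_⟩
  · rw [h3, List.getElem?_take_of_lt hjj]
    exact h1
  · intro i
    rw [h2 i]
    by_cases hik : i < k
    · have := h2' i
      rw [if_pos hik] at this
      rw [if_pos hik, if_pos hik, this]
    · rw [if_neg hik, if_neg hik]
      by_cases hik2 : i = k
      · rw [if_pos hik2, if_pos hik2, h3, List.take_take, min_eq_left hjj.le]
      · rw [if_neg hik2, if_neg hik2]

private theorem erel_disj {W : Type} (e : W ≃ (ℕ → List (W × ℕ))) {k k' : ℕ} {τ σ : W} {m m' : ℕ} (hkk : k < k')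
    (h : Erel e k τ m σ) (h' : Erel e k' τ m' σ) : False := by
  obtain ⟨j, a, h1, h2⟩ := h
  obtain ⟨j', a', h1', h2'⟩ := h'
  obtain ⟨hj, hl, -⟩ := erel_len e h1 h2
  have := h2' k
  rw [if_pos hkk] at this
  rw [this] at hl
  omega

/-- In `Erel e k τ m σ` with witnesses `j, a`: `j < length (e σ k)` and `length (e τ k) = j`. For `disj`: if `k < k'` then `e τ k = (e σ k).take j`
from the first and `e τ k = e σ k` from the second, but the lengths differ. For `tree`: compare the indices `j, j'`; if they are equal then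
`τ = τ'` by injectivity of `e`; if `j < j'` then `(e τ' k)[j]? = (e σ k)[j]?` since `e τ' k = (e σ k).take j'`. For `pred`: given `j < length`, let
`(a, m) = (e σ k)[j]` and `τ = e.symm (fun i => if i < k then e σ i else if i = k then (e σ k).take j else e a i)`. -/
theorem treeData_Erel {W : Type} (e : W ≃ (ℕ → List (W × ℕ))) :
    TreeData (Erel e) (fun σ k => (e σ k).length) := by
  refine ⟨?_, ?_, ?_, ?_, ?_, ?_⟩
  · rintro k τ m σ ⟨j, a, h1, h2⟩
    obtain ⟨hj, hl, -⟩ := erel_len e h1 h2
    show (e τ k).length < (e σ k).length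
    omega
  · rintro k τ m m' σ ⟨j, a, h1, h2⟩ ⟨j', a', h1', h2'⟩
    obtain ⟨hj, hl, -⟩ := erel_len e h1 h2
    obtain ⟨hj', hl', -⟩ := erel_len e h1' h2'
    have hjj : j = j' := by omega
    subst hjj
    rw [h1] at h1'
    simp only [Option.some.injEq, Prod.mk.injEq] at h1'
    exact h1'.2
  · rintro k τ m τ' m' σ ⟨j, a, h1, h2⟩ ⟨j', a', h1', h2'⟩
    rcases lt_trichotomy j j' with hjj | hjj | hjj
    · exact Or.inr (Or.inl (erel_step e hjj h1 h2 h2'))
    · subst hjj
      rw [h1] at h1'
      simp only [Option.some.injEq, Prod.mk.injEq] at h1'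
      obtain ⟨rfl, rfl⟩ := h1'
      left
      apply e.injective
      funext i
      rw [h2 i, h2' i]
    · exact Or.inr (Or.inr (erel_step e hjj h1' h2' h2))
  · rintro k τ m τ' m' σ ⟨j, a, h1, h2⟩ ⟨j', a', h1', h2'⟩
    obtain ⟨hj, hl, -⟩ := erel_len e h1 h2
    obtain ⟨hj', hl', he'⟩ := erel_len e h1' h2'
    have hjj : j < j' := by omega
    refine ⟨j, a, ?_, ?_⟩
    · rw [he', List.getElem?_take_of_lt hjj] at h1
      exact h1
    · intro i
      rw [h2 i]
      by_cases hik : i < k
      · have := h2' i
        rw [if_pos hik] at this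
        rw [if_pos hik, if_pos hik, this]
      · rw [if_neg hik, if_neg hik]
        by_cases hik2 : i = k
        · rw [if_pos hik2, if_pos hik2, he', List.take_take, min_eq_left hjj.le]
        · rw [if_neg hik2, if_neg hik2]
  · intro k k' τ m m' σ h h'
    rcases lt_trichotomy k k' with hkk | hkk | hkk
    · exact (erel_disj e hkk h h').elim
    · exact hkk
    · exact (erel_disj e hkk h' h).elim
  · intro σ k j hj
    have hj' : j < (e σ k).length := hj
    refine ⟨e.symm (fun i => if i < k then e σ i else if i = k then (e σ k).take j else e ((e σ k)[j]).1 i),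
      ((e σ k)[j]).2, ?_, j, ((e σ k)[j]).1, ?_, ?_⟩
    · show (e (e.symm _) k).length = j
      rw [Equiv.apply_symm_apply]
      simp only [lt_irrefl, if_false, if_true, List.length_take]
      exact min_eq_left hj'.le
    · rw [List.getElem?_eq_getElem hj']
    · intro i
      rw [Equiv.apply_symm_apply]

end WCGBd
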