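import Pool.Agent.WCGBd.Defs

set_option autoImplicit false

namespace WCGBd

open Filter Topology Set
open scoped ENNReal

/-- By `tree` and `len_lt` the map `τ ↦ len τ k` is injective on this set, with values `< len σ k`. -/
theorem fin_pred {W : Type} {E : ℕ → W → ℕ → W → Prop} {len : W → ℕ → ℕ} (ht : TreeData E len)
    (k : ℕ) (σ : W) : {τ | ∃ m, E k τ m σ}.Finite := by
  apply Set.Finite.of_finite_image (f := fun τ => len τ k)
  · apply (Set.finite_Iio (len σ k)).subset
    rintro n ⟨τ, ⟨m, hm⟩, rfl⟩
    exact ht.len_lt hm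
  · rintro τ ⟨m, hm⟩ τ' ⟨m', hm'⟩ hlen
    have hl : len τ k = len τ' k := hlen
    rcases ht.tree hm hm' with h | h | h
    · exact h
    · have h1 := ht.len_lt h
      omega
    · have h1 := ht.len_lt h
      omega

end WCGBd
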