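import Pool.Agent.WCGBd.Defs

set_option autoImplicit false

namespace WCGBd

open Filter Topology Set
open scoped ENNReal

private theorem val_ne {W : Type} {E : ℕ → W → ℕ → W → Prop} (a : Aa W) (o : Om W) (n : ℕ)
    (h : val E (apx a n) o ≠ 0) :
    o.2.1 = a.1 ∧ ∃ m : ℕ, (m : ℕ∞) ≤ a.2.2 ∧ E a.1 a.2.1 m o.1 := by
  classical
  have h1 : val E (apx a n) o = if Hm (Sum.inl a.1) o.2.1 ∧
    ∃ m ≤ trc a.2.2 n, E o.2.1 a.2.1 m o.1 then 1 else 0 := by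
    unfold val apx
    rfl
  rw [h1] at h
  have h2 : Hm (Sum.inl a.1) o.2.1 ∧ ∃ m ≤ trc a.2.2 n, E o.2.1 a.2.1 m o.1 := by
    by_contra hc
    rw [if_neg hc] at h
    exact h rfl
  obtain ⟨h3, m, hm, hE⟩ := h2
  have h4 : o.2.1 = a.1 := h3
  refine ⟨h4, m, ?_, by rw [h4] at hE; exact hE⟩
  have h5 : (m : ℕ∞) ≤ (trc a.2.2 n : ℕ∞) := by exact_mod_cast hm
  refine h5.trans ?_
  unfold trc
  exact (ENat.natCast_toNat_le_self _).trans (min_le_left _ _)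

/-- If both values are nonzero then the types are equal to `o.2.1 = k` and `E k a.2.1 m o.1`, `E k a'.2.1 m' o.1` with
`m ≤ trc a.2.2 n`, so `(m : ℕ∞) ≤ a.2.2`, similarly for `m'`. By `tree`: `a.2.1 = a'.2.1`, or `E k a.2.1 m a'.2.1`, or `E k a'.2.1 m' a.2.1`; each contradicts `h`. -/
theorem incomp_disj {W : Type} {E : ℕ → W → ℕ → W → Prop} {len : W → ℕ → ℕ} (ht : TreeData E len)
    (a a' : Aa W) (h : ¬ cmpA E a a') (o : Om W) (n : ℕ) :
    val E (apx a n) o = 0 ∨ val E (apx a' n) o = 0 := by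
  by_contra hcon
  push Not at hcon
  obtain ⟨h1, h2⟩ := hcon
  obtain ⟨e1, m, hm, hE⟩ := val_ne a o n h1
  obtain ⟨e2, m', hm', hE'⟩ := val_ne a' o n h2
  apply h
  have e3 : a.1 = a'.1 := e1.symm.trans e2
  have hE2 : E a.1 a'.2.1 m' o.1 := by rw [e3]; exact hE'
  rcases ht.tree hE hE2 with h3 | h3 | h3
  · exact Or.inl ⟨e3, h3⟩
  · exact Or.inr (Or.inl ⟨e3, m, hm, h3⟩)
  · refine Or.inr (Or.inr ⟨e3.symm, m', hm', ?_⟩)
    rw [← e3]
    exact h3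

end WCGBd
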