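import Pool.Agent.WCGBd.Defs
import Pool.Agent.WCGBd.JB2
import Pool.Agent.WCGBd.JC3

set_option autoImplicit false

namespace WCGBd

open Filter Topology Set
open scoped ENNReal

private theorem cmpA_symm' {W : Type} {E : ℕ → W → ℕ → W → Prop} {a a' : Aa W}
    (h : cmpA E a a') : cmpA E a' a := by
  rcases h with ⟨h1, h2⟩ | h | h
  · exact Or.inl ⟨h1.symm, h2.symm⟩
  · exact Or.inr (Or.inr h)
  · exact Or.inr (Or.inl h)

private theorem cmpA_refl' {W : Type} {E : ℕ → W → ℕ → W → Prop} (a : Aa W) : cmpA E a a :=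
  Or.inl ⟨rfl, rfl⟩

private theorem null_finite_union' {𝕜 A ι : Type} [RCLike 𝕜] (ψ : StrongDual 𝕜 (Li 𝕜 A))
    (s : Set ι) (hs : s.Finite) (f : ι → Set A) (h : ∀ i ∈ s, rs (f i) ψ = 0) :
    rs (⋃ i ∈ s, f i) ψ = 0 := by
  obtain ⟨_, _, _, _, _, _, h0, _, hu⟩ := rs_basic ψ
  revert h
  refine Set.Finite.induction_on s hs ?_ ?_
  · intro _
    simpa using h0
  · intro i t _ _ ih h
    rw [Set.biUnion_insert]
    exact hu _ _ (h i (Set.mem_insert _ _)) (ih (fun j hj => h j (Set.mem_insert_of_mem _ hj)))


/-- Induction on `n`. `n = 0`: `S = ∅`. Step: if `S` is a chain use `hch`. Otherwise there are incompatible `a₁ a₂ ∈ S`. The sets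
`Inc i = {a ∈ S | ¬ cmpA E a a_i}` satisfy the hypothesis for `n` (add `a_i`; note `cmpA` is symmetric and reflexive), so they are null. The set
`{a | a.1 = a₁.1 ∧ a.2.1 = σ}` is a chain for each `σ`, so the set `{a | (a.1 = a₁.1 ∧ a.2.1 = a₁.2.1) ∨ ltA E a a₁}` is contained in a
finite union of chains (`fin_pred`), hence null. Every `a ∈ S` lies in one of the three: if `a` is compatible with `a₁` and not in the third set then `ltA E a₁ a`; in this case
`a` is not compatible with `a₂`: `ltA E a₂ a` would give `cmpA E a₁ a₂` by `tree`; `ltA E a a₂` would give `ltA E a₁ a₂` by `trans`; and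
`a, a₂` on the same node would give `ltA E a₁ a₂`. Use `rs_basic` for null sets. -/
theorem null_antichain {𝕜 W : Type} [RCLike 𝕜] {E : ℕ → W → ℕ → W → Prop} {len : W → ℕ → ℕ}
    (ht : TreeData E len) (ψ : StrongDual 𝕜 (Li 𝕜 (Aa W)))
    (hch : ∀ C : Set (Aa W), ChA E C → rs C ψ = 0) (n : ℕ) (S : Set (Aa W))
    (hS : ∀ F : Finset (Aa W), (F : Set (Aa W)) ⊆ S →
      (∀ a ∈ F, ∀ a' ∈ F, a ≠ a' → ¬ cmpA E a a') → F.card ≤ n) : rs S ψ = 0 := by
  classical
  obtain ⟨_, _, _, _, _, _, h0, hsub, hu⟩ := rs_basic ψ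
  induction n generalizing S with
  | zero =>
    have hSe : S = ∅ := by
      rw [Set.eq_empty_iff_forall_notMem]
      intro a ha
      have := hS {a} (by simpa using ha) (by
        intro x hx y hy hne
        rw [Finset.mem_singleton] at hx hy
        exact absurd (hx.trans hy.symm) hne)
      simp at this
    rw [hSe]
    exact h0
  | succ n ih =>
    by_cases hc : ChA E S
    · exact hch S hc
    · have hinc : ∀ b ∈ S, rs {a | a ∈ S ∧ ¬ cmpA E a b} ψ = 0 := by
        intro b hb
        refine ih _ ?_
        intro F hF hanti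
        have hbF : b ∉ F := by
          intro hbF
          exact (hF hbF).2 (cmpA_refl' b)
        have := hS (insert b F) (by
          intro x hx
          rw [Finset.coe_insert] at hx
          rcases hx with rfl | hx
          · exact hb
          · exact (hF hx).1) (by
          intro x hx y hy hne
          rw [Finset.mem_insert] at hx hy
          rcases hx with rfl | hx
          · rcases hy with rfl | hy
            · exact absurd rfl hne
            · intro hcc
              exact (hF hy).2 (cmpA_symm' hcc)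
          · rcases hy with rfl | hy
            · exact (hF hx).2
            · exact hanti x hx y hy hne)
        rw [Finset.card_insert_of_notMem hbF] at this
        omega
      unfold ChA at hc
      push Not at hc
      obtain ⟨a₁, h1, a₂, h2, h12⟩ := hc
      have hfin : ({τ | ∃ m, E a₁.1 τ m a₁.2.1} ∪ {a₁.2.1} : Set W).Finite :=
        (fin_pred ht a₁.1 a₁.2.1).union (Set.finite_singleton _)
      have hT : rs (⋃ τ ∈ ({τ | ∃ m, E a₁.1 τ m a₁.2.1} ∪ {a₁.2.1} : Set W),
          {a : Aa W | a.1 = a₁.1 ∧ a.2.1 = τ}) ψ = 0 := by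
        refine null_finite_union' ψ _ hfin _ ?_
        intro τ _
        refine hch _ ?_
        intro a ha a' ha'
        exact Or.inl ⟨ha.1.trans ha'.1.symm, ha.2.trans ha'.2.symm⟩
      have hall := hu _ _ (hu _ _ (hinc a₁ h1) (hinc a₂ h2)) hT
      refine hsub _ _ ?_ hall
      intro a ha
      by_cases hc1 : cmpA E a a₁
      · rcases hc1 with ⟨e1, e2⟩ | h | h
        · right
          simp only [Set.mem_iUnion]
          exact ⟨a₁.2.1, Or.inr rfl, e1, e2⟩
        · right
          simp only [Set.mem_iUnion]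
          obtain ⟨e, m, _, hE⟩ := h
          exact ⟨a.2.1, Or.inl ⟨m, e ▸ hE⟩, e, rfl⟩
        · left; right
          refine ⟨ha, ?_⟩
          obtain ⟨e, m, hm, hE⟩ := h
          rintro (⟨e1, e2⟩ | h' | h')
          · exact h12 (Or.inr (Or.inl ⟨e.trans e1, m, hm, e2 ▸ hE⟩))
          · obtain ⟨e', m', _, hE'⟩ := h'
            refine h12 (Or.inr (Or.inl ⟨e.trans e', m, hm, ?_⟩))
            rw [← e] at hE'
            exact ht.trans hE hE'
          · obtain ⟨e', m', hm', hE'⟩ := h'
            rw [e', ← e] at hE'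
            rcases ht.tree hE hE' with h3 | h3 | h3
            · exact h12 (Or.inl ⟨e.trans e'.symm, h3⟩)
            · exact h12 (Or.inr (Or.inl ⟨e.trans e'.symm, m, hm, h3⟩))
            · refine h12 (Or.inr (Or.inr ⟨e'.trans e.symm, m', hm', ?_⟩))
              rw [e', ← e]
              exact h3
      · left; left
        exact ⟨ha, hc1⟩

end WCGBd
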