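import Pool.Agent.WCGBd.Defs

set_option autoImplicit false

namespace WCGBd

open Filter Topology Set
open scoped ENNReal

/-- All elements of `C` have the same type `k`. Nodes of `C` are pairwise comparable, so distinct nodes have distinct `len · k` (by `len_lt`), hence for every
`j` there is a node `σ` of `C` with `len σ k > j`; by `pred` it has a predecessor `τ` with `len τ k = j` and position `m`; put `b j = (τ, m)`. It does not
depend on `σ`, by `tree`, `trans`, `uniq`, `len_lt`. For `a ∈ C` choose `a' ∈ C` with `len a'.2.1 k > len a.2.1 k`; compatibility gives `ltA E a a'`, so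
`a.2.1` is the predecessor at that level and its position is `≤ a.2.2`. -/
theorem chain_branch {W : Type} {E : ℕ → W → ℕ → W → Prop} {len : W → ℕ → ℕ} (ht : TreeData E len)
    (C : Set (Aa W)) (hC : ChA E C) (hinf : ((fun a : Aa W => a.2.1) '' C).Infinite) :
    ∃ k b, IsBr E len k b ∧ ∀ a ∈ C, a.1 = k ∧ (b (len a.2.1 k)).1 = a.2.1 ∧
      ((b (len a.2.1 k)).2 : ℕ∞) ≤ a.2.2 := by
  classical
  obtain ⟨_, a₀, ha₀, _⟩ := hinf.nonempty
  set k := a₀.1 with hk
  have htype : ∀ a ∈ C, a.1 = k := by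
    intro a ha
    rcases hC a ha a₀ ha₀ with h | h | h
    · exact h.1
    · exact h.1
    · exact h.1.symm
  -- comparability of nodes
  have hcomp : ∀ σ ∈ (fun a : Aa W => a.2.1) '' C, ∀ σ' ∈ (fun a : Aa W => a.2.1) '' C,
      σ = σ' ∨ (∃ m, E k σ m σ') ∨ (∃ m, E k σ' m σ) := by
    rintro _ ⟨a, ha, rfl⟩ _ ⟨a', ha', rfl⟩
    rcases hC a ha a' ha' with h | h | h
    · exact Or.inl h.2
    · obtain ⟨_, m, _, hE⟩ := h
      rw [htype a ha] at hE
      exact Or.inr (Or.inl ⟨m, hE⟩)
    · obtain ⟨_, m, _, hE⟩ := h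
      rw [htype a' ha'] at hE
      exact Or.inr (Or.inr ⟨m, hE⟩)
  have hinj : Set.InjOn (fun σ => len σ k) ((fun a : Aa W => a.2.1) '' C) := by
    intro σ hσ σ' hσ' he
    simp only at he
    rcases hcomp σ hσ σ' hσ' with h | ⟨m, h⟩ | ⟨m, h⟩
    · exact h
    · have := ht.len_lt h
      omega
    · have := ht.len_lt h
      omega
  have hunb : ∀ j : ℕ, ∃ σ ∈ (fun a : Aa W => a.2.1) '' C, j < len σ k := by
    intro j
    have hinf' : ((fun σ => len σ k) '' ((fun a : Aa W => a.2.1) '' C)).Infinite :=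
      hinf.image hinj
    obtain ⟨_, ⟨σ, hσ, rfl⟩, hlt⟩ := hinf'.exists_gt j
    exact ⟨σ, hσ, hlt⟩
  choose s hsC hs using hunb
  have hpred : ∀ j, ∃ τ m, len τ k = j ∧ E k τ m (s j) := fun j => ht.pred (s j) k j (hs j)
  choose t m hlen hE using hpred
  have hclaim : ∀ j, ∀ σ ∈ (fun a : Aa W => a.2.1) '' C, j < len σ k → E k (t j) (m j) σ := by
    intro j σ hσ hlt
    rcases hcomp σ hσ (s j) (hsC j) with h | ⟨m', h⟩ | ⟨m', h⟩
    · rw [h]
      exact hE j
    · rcases ht.tree (hE j) h with h3 | h3 | h3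
      · have := hlen j
        rw [h3] at this
        omega
      · exact h3
      · have h4 := ht.len_lt h3
        have := hlen j
        omega
    · exact ht.trans (hE j) h
  refine ⟨k, fun j => (t j, m j), ?_, ?_⟩
  · intro j
    refine ⟨hlen j, ?_⟩
    intro j' hjj'
    have h1 := hclaim j (s j') (hsC j') (hjj'.trans (hs j'))
    rcases ht.tree h1 (hE j') with h3 | h3 | h3
    · have e1 := hlen j
      have e2 := hlen j'
      rw [h3] at e1
      omega
    · exact h3
    · have h4 := ht.len_lt h3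
      have e1 := hlen j
      have e2 := hlen j'
      omega
  · intro a ha
    obtain ⟨_, ⟨a', ha', rfl⟩, hlt⟩ : ∃ σ ∈ (fun a : Aa W => a.2.1) '' C, len a.2.1 k < len σ k :=
      ⟨s (len a.2.1 k), hsC _, hs _⟩
    simp only at hlt
    have h1 := hclaim (len a.2.1 k) a'.2.1 ⟨a', ha', rfl⟩ hlt
    have h2 : ∃ m' : ℕ, (m' : ℕ∞) ≤ a.2.2 ∧ E k a.2.1 m' a'.2.1 := by
      rcases hC a ha a' ha' with h | h | h
      · rw [h.2] at hlt
        omega
      · obtain ⟨_, m', hm', hE'⟩ := h
        rw [htype a ha] at hE'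
        exact ⟨m', hm', hE'⟩
      · obtain ⟨_, m', hm', hE'⟩ := h
        rw [htype a' ha'] at hE'
        have := ht.len_lt hE'
        omega
    obtain ⟨m', hm', hE'⟩ := h2
    have hl := hlen (len a.2.1 k)
    have heq : t (len a.2.1 k) = a.2.1 := by
      rcases ht.tree h1 hE' with h3 | h3 | h3
      · exact h3
      · have := ht.len_lt h3
        omega
      · have := ht.len_lt h3
        omega
    refine ⟨htype a ha, heq, ?_⟩
    rw [heq] at h1
    show ((m (len a.2.1 k) : ℕ) : ℕ∞) ≤ a.2.2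
    rw [ht.uniq h1 hE']
    exact hm'

end WCGBd
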