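import Pool.Agent.WCGBd.Defs

set_option autoImplicit false

namespace WCGBd

open Filter Topology Set
open scoped ENNReal

/-- `Nat.log 8 (k + 1) = i` iff `8 ^ i ≤ k + 1 < 8 ^ (i + 1)`. -/
theorem mem_Iblk (i k : ℕ) : k ∈ Iblk i ↔ blk k = i := by
  unfold Iblk blk
  rw [Finset.mem_Ico]
  have h1 : 1 ≤ 8 ^ i := Nat.one_le_pow _ _ (by norm_num)
  have h2 : 1 ≤ 8 ^ (i + 1) := Nat.one_le_pow _ _ (by norm_num)
  constructor
  · rintro ⟨ha, hb⟩
    exact Nat.log_eq_of_pow_le_of_lt_pow (by omega) (by omega)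
  · intro h
    have h3 : 8 ^ Nat.log 8 (k + 1) ≤ k + 1 := Nat.pow_log_le_self 8 (by omega)
    have h4 : k + 1 < 8 ^ (Nat.log 8 (k + 1) + 1) := Nat.lt_pow_succ_log_self (by norm_num) _
    rw [h] at h3 h4
    constructor <;> omega

end WCGBd
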