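import Pool.Agent.WCGBd.Defs

set_option autoImplicit false

namespace WCGBd

open Filter Topology Set
open scoped ENNReal

private theorem val01 {W : Type} (E : ℕ → W → ℕ → W → Prop) (d : Dd W) (o : Om W) :
    0 ≤ val E d o ∧ val E d o ≤ 1 := by
  classical
  rcases d with τ | ⟨τ, h, M⟩
  · simp only [val]
    split_ifs
    · exact ⟨by positivity, pow_le_one₀ (by norm_num) (by norm_num)⟩
    · exact ⟨le_rfl, zero_le_one⟩
  · simp only [val]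
    split_ifs
    · exact ⟨zero_le_one, le_rfl⟩
    · exact ⟨le_rfl, zero_le_one⟩

private theorem summ1 {𝕜 D : Type} [RCLike 𝕜] (u : L1 𝕜 D) :
    Summable (fun d => ‖u d‖) ∧ ∑' d, ‖u d‖ = ‖u‖ := by
  have h1 : (0 : ℝ) < (1 : ℝ≥0∞).toReal := by simp
  have hs := lp.hasSum_norm h1 u
  simp only [ENNReal.toReal_one, Real.rpow_one] at hs
  exact ⟨hs.summable, hs.tsum_eq⟩

private theorem nval {𝕜 W : Type} [RCLike 𝕜] (E : ℕ → W → ℕ → W → Prop) (u : L1 𝕜 (Dd W))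
    (d : Dd W) (o : Om W) : ‖u d * ((val E d o : ℝ) : 𝕜)‖ ≤ ‖u d‖ := by
  obtain ⟨h0, h1⟩ := val01 E d o
  rw [norm_mul, RCLike.norm_ofReal, abs_of_nonneg h0]
  exact mul_le_of_le_one_right (norm_nonneg _) h1

private theorem summT {𝕜 W : Type} [RCLike 𝕜] (E : ℕ → W → ℕ → W → Prop) (u : L1 𝕜 (Dd W))
    (o : Om W) : Summable (fun d => u d * ((val E d o : ℝ) : 𝕜)) :=
  Summable.of_norm_bounded (summ1 u).1 (fun d => nval E u d o)

private theorem boundT {𝕜 W : Type} [RCLike 𝕜] (E : ℕ → W → ℕ → W → Prop) (u : L1 𝕜 (Dd W))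
    (o : Om W) : ‖∑' d, u d * ((val E d o : ℝ) : 𝕜)‖ ≤ ‖u‖ := by
  rw [← (summ1 u).2]
  exact tsum_of_norm_bounded (summ1 u).1.hasSum (fun d => nval E u d o)

/-- `T u o = ∑' d, u d * val E d o`; `|val| ≤ 1`. -/
theorem exists_T (𝕜 : Type) {W : Type} [RCLike 𝕜] (E : ℕ → W → ℕ → W → Prop) :
    ∃ T : L1 𝕜 (Dd W) →L[𝕜] Li 𝕜 (Om W), IsT E T := by
  let f : L1 𝕜 (Dd W) →ₗ[𝕜] Li 𝕜 (Om W) :=
    { toFun := fun u => ⟨fun o => ∑' d, u d * ((val E d o : ℝ) : 𝕜),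
        memℓp_infty ⟨‖u‖, by rintro _ ⟨o, rfl⟩; exact boundT E u o⟩⟩
      map_add' := fun u v => by
        apply lp.ext
        funext o
        simp only [lp.coeFn_add, Pi.add_apply, add_mul]
        exact (summT E u o).tsum_add (summT E v o)
      map_smul' := fun c u => by
        apply lp.ext
        funext o
        simp only [lp.coeFn_smul, Pi.smul_apply, smul_eq_mul, RingHom.id_apply, mul_assoc]
        exact tsum_mul_left }
  have hb : ∀ u : L1 𝕜 (Dd W), ‖f u‖ ≤ 1 * ‖u‖ := by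
    intro u
    rw [one_mul]
    exact lp.norm_le_of_forall_le (norm_nonneg _) (fun o => boundT E u o)
  refine ⟨f.mkContinuous 1 hb, fun u o => ?_⟩
  exact (summT E u o).hasSum

/-- Immediate from `IsT`. -/
theorem T_basic {𝕜 W : Type} [RCLike 𝕜] {E : ℕ → W → ℕ → W → Prop}
    {T : L1 𝕜 (Dd W) →L[𝕜] Li 𝕜 (Om W)} (hT : IsT E T) :
    (∀ (d : Dd W) (o : Om W), T (dl 𝕜 d) o = ((val E d o : ℝ) : 𝕜)) ∧
    (∀ d : Dd W, ‖dl 𝕜 d‖ ≤ 1) ∧ (∀ u, ‖T u‖ ≤ ‖u‖) ∧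
    (∀ (d : Dd W) (o : Om W), 0 ≤ val E d o ∧ val E d o ≤ 1) ∧
    (∀ (u : L1 𝕜 (Dd W)) (b : ℝ), 0 ≤ b → (∀ o, ‖T u o‖ ≤ b) → ‖T u‖ ≤ b) := by
  classical
  have hn : ∀ (u : L1 𝕜 (Dd W)) (b : ℝ), 0 ≤ b → (∀ o, ‖T u o‖ ≤ b) → ‖T u‖ ≤ b :=
    fun u b hb h => lp.norm_le_of_forall_le hb h
  refine ⟨fun d o => ?_, fun d => ?_, fun u => ?_, fun d o => val01 E d o, hn⟩
  · have h := hT (dl 𝕜 d) o
    have h2 : HasSum (fun d' => (dl 𝕜 d) d' * ((val E d' o : ℝ) : 𝕜))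
        ((dl 𝕜 d) d * ((val E d o : ℝ) : 𝕜)) := by
      refine hasSum_single d (fun d' hd' => ?_)
      have : (dl 𝕜 d) d' = 0 := by
        unfold dl
        simp [lp.single_apply_ne, hd']
      rw [this, zero_mul]
    have h3 : (dl 𝕜 d) d = (1 : 𝕜) := by
      unfold dl
      simp [lp.single_apply_self]
    rw [h3, one_mul] at h2
    exact h.unique h2
  · unfold dl
    rw [lp.norm_single (by norm_num)]
    simp
  · refine hn u ‖u‖ (norm_nonneg _) (fun o => ?_)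
    rw [← (hT u o).tsum_eq]
    exact boundT E u o

end WCGBd
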