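import Pool.Agent.WCGBd.Defs
import Pool.Agent.WCGBd.JA5

set_option autoImplicit false

namespace WCGBd

open Filter Topology Set
open scoped ENNReal

private theorem d1_step {E : Type} [SeminormedAddCommGroup E] (d : ℕ → E) (s : ℕ → ℕ)
    (hs0 : s 0 = 0) (hs : ∀ l, s l ≤ s (l + 1)) (L : ℕ) :
    ∑ l ∈ Finset.range L, ‖d (s (l + 1)) - d (s l)‖ ≤
      ∑ i ∈ Finset.range (s L), ‖d (i + 1) - d i‖ := by
  induction L with
  | zero => simp [hs0]
  | succ L ih =>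
    rw [Finset.sum_range_succ]
    have h1 : ‖d (s (L + 1)) - d (s L)‖ ≤ ∑ i ∈ Finset.Ico (s L) (s (L + 1)), ‖d (i + 1) - d i‖ := by
      rw [← Finset.sum_Ico_sub d (hs L)]
      exact norm_sum_le _ _
    have h2 := Finset.sum_range_add_sum_Ico (fun i => ‖d (i + 1) - d i‖) (hs L)
    linarith

private theorem d1_wu {𝕜 G A X : Type} [RCLike 𝕜] [NormedAddCommGroup G] [NormedSpace 𝕜 G]
    [NormedAddCommGroup X] [NormedSpace 𝕜 X] {T : G →L[𝕜] Li 𝕜 A} {ι : G →L[𝕜] X}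
    {S : X →L[𝕜] Li 𝕜 A} (hf : Fac T ι S) (w : ℕ → G) (a b : ℝ) (hb : 0 ≤ b) (hw : ∀ n, ‖w n‖ ≤ a)
    (hvar : ∀ (o : A) (n : ℕ), ∑ i ∈ Finset.range n, ‖T (w (i + 1)) o - T (w i) o‖ ≤ b)
    (s : ℕ → ℕ) (hs0 : s 0 = 0) (hs : ∀ l, s l ≤ s (l + 1)) :
    WU 𝕜 (2 * a) b (fun l => ι (w (s (l + 1)) - w (s l))) := by
  intro F θ hθ n
  have e1 : ∑ j ∈ F, θ j • ι (w (s (j + 1)) - w (s j)) =
      ι (∑ j ∈ F, θ j • (w (s (j + 1)) - w (s j))) := by
    rw [map_sum]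
    exact Finset.sum_congr rfl fun j _ => (map_smul ι _ _).symm
  rw [e1]
  refine (hf.upper n _).trans (max_le_max ?_ ?_)
  · apply div_le_div_of_nonneg_right _ (by positivity)
    refine (norm_sum_le _ _).trans ?_
    rw [← nsmul_eq_mul, ← Finset.sum_const]
    refine Finset.sum_le_sum fun j _ => ?_
    rw [norm_smul]
    calc ‖θ j‖ * ‖w (s (j + 1)) - w (s j)‖ ≤ 1 * (a + a) :=
          mul_le_mul (hθ j) ((norm_sub_le _ _).trans (add_le_add (hw _) (hw _))) (norm_nonneg _)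
            zero_le_one
      _ = 2 * a := by ring
  · refine mul_le_mul_of_nonneg_left ?_ (by positivity)
    refine lp.norm_le_of_forall_le hb fun o => ?_
    have e2 : T (∑ j ∈ F, θ j • (w (s (j + 1)) - w (s j))) o =
        ∑ j ∈ F, θ j * (T (w (s (j + 1))) o - T (w (s j)) o) := by
      rw [map_sum, lp.coeFn_sum, Finset.sum_apply]
      refine Finset.sum_congr rfl fun j _ => ?_
      rw [map_smul, map_sub, lp.coeFn_smul, lp.coeFn_sub]
      rfl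
    rw [e2]
    refine (norm_sum_le _ _).trans ?_
    have h1 : ∑ j ∈ F, ‖θ j * (T (w (s (j + 1))) o - T (w (s j)) o)‖ ≤
        ∑ j ∈ F, ‖T (w (s (j + 1))) o - T (w (s j)) o‖ := by
      refine Finset.sum_le_sum fun j _ => ?_
      rw [norm_mul]
      calc ‖θ j‖ * ‖T (w (s (j + 1))) o - T (w (s j)) o‖ ≤
          1 * ‖T (w (s (j + 1))) o - T (w (s j)) o‖ :=
            mul_le_mul_of_nonneg_right (hθ j) (norm_nonneg _)
        _ = _ := one_mul _
    refine h1.trans ?_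
    obtain ⟨L, hL⟩ := F.exists_nat_subset_range
    refine (Finset.sum_le_sum_of_subset_of_nonneg hL fun _ _ _ => norm_nonneg _).trans ?_
    exact (d1_step (fun i => (T (w i)) o) s hs0 hs L).trans (hvar o _)

/-- Suppose not: then there are `ε > 0` and `s 0 < t 0 ≤ s 1 < t 1 ≤ ...` with `‖φ (ι (w (t l))) - φ (ι (w (s l)))‖ ≥ ε` for all `l`. Put
`u l = w (t l) - w (s l)`. `‖u l‖ ≤ 2 a`, and for `‖θ l‖ ≤ 1` and a finite set `F` of `l`'s and a point `o`,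
`‖T (∑ θ l • u l) o‖ ≤ ∑_{l ∈ F} ‖T (w (t l)) o - T (w (s l)) o‖ ≤ b` (triangle inequality on the disjoint intervals `[s l, t l]`). So by `Fac.upper` the family
`fun l => ι (u l)` satisfies `WU 𝕜 (2 * a) b`, contradicting `wu_finite`. -/
theorem james {𝕜 G A X : Type} [RCLike 𝕜] [NormedAddCommGroup G] [NormedSpace 𝕜 G]
    [NormedAddCommGroup X] [NormedSpace 𝕜 X] {T : G →L[𝕜] Li 𝕜 A} {ι : G →L[𝕜] X}
    {S : X →L[𝕜] Li 𝕜 A} (hf : Fac T ι S) (w : ℕ → G) (a b : ℝ) (hb : 0 ≤ b) (hw : ∀ n, ‖w n‖ ≤ a)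
    (hvar : ∀ (o : A) (n : ℕ), ∑ i ∈ Finset.range n, ‖T (w (i + 1)) o - T (w i) o‖ ≤ b)
    (φ : StrongDual 𝕜 X) : CauchySeq (fun n => φ (ι (w n))) := by
  rw [Metric.cauchySeq_iff']
  by_contra hcon
  push Not at hcon
  obtain ⟨ε, hε, h⟩ := hcon
  choose t ht1 ht2 using h
  set s : ℕ → ℕ := fun l => Nat.rec 0 (fun _ r => t r) l with hs
  have hs0 : s 0 = 0 := rfl
  have hs1 : ∀ l, s (l + 1) = t (s l) := fun l => rfl
  have hs2 : ∀ l, s l ≤ s (l + 1) := fun l => by rw [hs1]; exact ht1 _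
  have hWU := d1_wu hf w a b hb hw hvar s hs0 hs2
  have hfin := wu_finite _ hWU φ ε hε
  refine Set.infinite_univ (α := ℕ) (hfin.subset fun l _ => ?_)
  show ε ≤ ‖φ (ι (w (s (l + 1)) - w (s l)))‖
  rw [map_sub, map_sub, hs1, ← dist_eq_norm]
  exact ht2 (s l)

end WCGBd
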