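import Pool.Agent.WCGBd.Defs

set_option autoImplicit false

namespace WCGBd

open Filter Topology Set
open scoped ENNReal

private theorem trc_coe (M n : ℕ) (h : M ≤ n) : trc (M : ℕ∞) n = M := by
  unfold trc
  rw [min_eq_left (by exact_mod_cast h)]
  rfl

private theorem trc_top (n : ℕ) : trc ⊤ n = n := by
  unfold trc
  rw [min_eq_right le_top]
  rfl

/-- `trc (M : ℕ∞) n = M` for `n ≥ M`, so the sequence `ι (dl (apx (k, σ, M) n))` is eventually constant; and `trc ⊤ n = n`, so `v (k, σ, ⊤)` is the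
weak-star limit of `ι (dl (inr (σ, inl k, n)))`. -/
theorem v_coe {𝕜 W X : Type} [RCLike 𝕜] [NormedAddCommGroup X] [NormedSpace 𝕜 X]
    {ι : L1 𝕜 (Dd W) →L[𝕜] X} {v : Aa W → StrongDual 𝕜 (StrongDual 𝕜 X)}
    (hv : ∀ a, WLim 𝕜 (fun n => ι (dl 𝕜 (apx a n))) (v a)) (k : ℕ) (σ : W) :
    (∀ M : ℕ, v (k, σ, (M : ℕ∞)) =
      NormedSpace.inclusionInDoubleDual 𝕜 X (ι (dl 𝕜 (Sum.inr (σ, Sum.inl k, M))))) ∧
    (∀ φ : StrongDual 𝕜 X, Tendsto (fun M : ℕ => v (k, σ, (M : ℕ∞)) φ) atTop (𝓝 (v (k, σ, ⊤) φ))) := by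
  have h1 : ∀ M : ℕ, v (k, σ, (M : ℕ∞)) =
      NormedSpace.inclusionInDoubleDual 𝕜 X (ι (dl 𝕜 (Sum.inr (σ, Sum.inl k, M)))) := by
    intro M
    ext φ
    refine tendsto_nhds_unique (hv (k, σ, (M : ℕ∞)) φ) ?_
    refine tendsto_const_nhds.congr' ?_
    filter_upwards [eventually_ge_atTop M] with n hn
    unfold apx
    simp only
    rw [trc_coe M n hn]
    rfl
  refine ⟨h1, fun φ => ?_⟩
  refine (hv (k, σ, ⊤) φ).congr fun n => ?_
  rw [h1 n]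
  unfold apx
  simp only
  rw [trc_top n]
  rfl

end WCGBd
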