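import Pool.Agent.WCGBd.Defs
import Pool.Agent.WCGBd.JA5
import Pool.Agent.WCGBd.JD0
import Pool.Agent.WCGBd.JD10

set_option autoImplicit false

namespace WCGBd

open Filter Topology Set
open scoped ENNReal

private lemma D11_val_diff {W : Type} {E : ℕ → W → ℕ → W → Prop} {len : W → ℕ → ℕ}
    (ht : TreeData E len) (k : ℕ) (τ : W) (m M : ℕ) (hmM : m ≤ M) (o : Om W) :
    (val E (Sum.inr (τ, Sum.inl k, M)) o - val E (Sum.inr (τ, Sum.inl k, m)) o = 0) ∨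
    ((val E (Sum.inr (τ, Sum.inl k, M)) o - val E (Sum.inr (τ, Sum.inl k, m)) o = 1) ∧
      ∃ m', m < m' ∧ E k τ m' o.1) := by
  classical
  have h1 : ∀ N : ℕ, val E (Sum.inr (τ, Sum.inl k, N)) o =
      if (o.2.1 = k ∧ ∃ m' ≤ N, E o.2.1 τ m' o.1) then 1 else 0 := by
    intro N
    simp only [val, Hm]
    split_ifs <;> rfl
  rw [h1, h1]
  by_cases hk : o.2.1 = k
  · by_cases hm : ∃ m' ≤ m, E o.2.1 τ m' o.1
    · have hM : ∃ m' ≤ M, E o.2.1 τ m' o.1 := by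
        obtain ⟨m', h2, h3⟩ := hm
        exact ⟨m', h2.trans hmM, h3⟩
      left
      rw [if_pos ⟨hk, hM⟩, if_pos ⟨hk, hm⟩]
      norm_num
    · by_cases hM : ∃ m' ≤ M, E o.2.1 τ m' o.1
      · right
        rw [if_pos ⟨hk, hM⟩, if_neg (fun h => hm h.2)]
        refine ⟨by norm_num, ?_⟩
        obtain ⟨m', h2, h3⟩ := hM
        refine ⟨m', ?_, ?_⟩
        · by_contra h4
          exact hm ⟨m', by omega, h3⟩
        · rw [← hk]
          exact h3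
      · left
        rw [if_neg (fun h => hM h.2), if_neg (fun h => hm h.2)]
        norm_num
  · left
    rw [if_neg (fun h => hk h.1), if_neg (fun h => hk h.1)]
    norm_num

private lemma D11_sum_le {W : Type} {E : ℕ → W → ℕ → W → Prop} {len : W → ℕ → ℕ}
    (ht : TreeData E len) (k : ℕ) (b : ℕ → W × ℕ) (hb : IsBr E len k b) (Mf : ℕ → ℕ)
    (hM : ∀ j, (b j).2 ≤ Mf j) (o : Om W) (F : Finset ℕ) :
    ∑ j ∈ F, |val E (Sum.inr ((b j).1, Sum.inl k, Mf j)) o -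
      val E (Sum.inr ((b j).1, Sum.inl k, (b j).2)) o| ≤ 1 := by
  classical
  have huniq : ∀ i j, i < j →
      (∃ m', (b i).2 < m' ∧ E k (b i).1 m' o.1) → (∃ m', (b j).2 < m' ∧ E k (b j).1 m' o.1) →
      False := by
    intro i j hij h1 h2
    obtain ⟨m1, h3, h4⟩ := h1
    obtain ⟨m2, h5, h6⟩ := h2
    have h7 := (hb i).2 j hij
    have h8 := ht.trans h7 h6
    have h9 := ht.uniq h4 h8
    omega
  by_cases hex : ∃ j0 ∈ F, val E (Sum.inr ((b j0).1, Sum.inl k, Mf j0)) o -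
      val E (Sum.inr ((b j0).1, Sum.inl k, (b j0).2)) o ≠ 0
  · obtain ⟨j0, hj0, hne⟩ := hex
    have hj0' := (D11_val_diff ht k (b j0).1 (b j0).2 (Mf j0) (hM j0) o).resolve_left hne
    rw [Finset.sum_eq_single j0]
    · rw [hj0'.1]
      norm_num
    · intro j hj hjne
      rcases D11_val_diff ht k (b j).1 (b j).2 (Mf j) (hM j) o with h | ⟨_, h⟩
      · rw [h]
        norm_num
      · exfalso
        rcases Nat.lt_or_gt_of_ne hjne with h1 | h1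
        · exact huniq j j0 h1 h hj0'.2
        · exact huniq j0 j h1 hj0'.2 h
    · intro h
      exact absurd hj0 h
  · push Not at hex
    rw [Finset.sum_eq_zero]
    · norm_num
    · intro j hj
      rw [hex j hj]
      norm_num

private lemma D11_wu {𝕜 W X : Type} [RCLike 𝕜] [NormedAddCommGroup X] [NormedSpace 𝕜 X]
    {E : ℕ → W → ℕ → W → Prop} {len : W → ℕ → ℕ}
    {T : L1 𝕜 (Dd W) →L[𝕜] Li 𝕜 (Om W)} {ι : L1 𝕜 (Dd W) →L[𝕜] X} {S : X →L[𝕜] Li 𝕜 (Om W)}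
    (hs : Setting E len T ι S) (k : ℕ) (b : ℕ → W × ℕ)
    (hb : IsBr E len k b) (Mf : ℕ → ℕ) (hM : ∀ j, (b j).2 ≤ Mf j) :
    WU 𝕜 2 1 (fun j : ℕ => ι (dl 𝕜 (Sum.inr ((b j).1, Sum.inl k, Mf j))) -
      ι (dl 𝕜 (Sum.inr ((b j).1, Sum.inl k, (b j).2)))) := by
  classical
  obtain ⟨hT1, hT2, hT3, hT4, hT5⟩ := T_basic (𝕜 := 𝕜) hs.isT
  intro F θ hθ n
  set u : L1 𝕜 (Dd W) := ∑ j ∈ F, θ j • (dl 𝕜 (Sum.inr ((b j).1, Sum.inl k, Mf j)) -
      dl 𝕜 (Sum.inr ((b j).1, Sum.inl k, (b j).2))) with hu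
  have h1 : ∑ j ∈ F, θ j • (ι (dl 𝕜 (Sum.inr ((b j).1, Sum.inl k, Mf j))) -
      ι (dl 𝕜 (Sum.inr ((b j).1, Sum.inl k, (b j).2)))) = ι u := by
    rw [hu, map_sum]
    refine Finset.sum_congr rfl ?_
    intro j _
    rw [map_smul, map_sub]
  show ‖∑ j ∈ F, θ j • (ι (dl 𝕜 (Sum.inr ((b j).1, Sum.inl k, Mf j))) -
      ι (dl 𝕜 (Sum.inr ((b j).1, Sum.inl k, (b j).2))))‖ ≤ _
  rw [h1]
  refine (hs.fac.upper n u).trans ?_
  have h2 : ‖u‖ ≤ (F.card : ℝ) * 2 := by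
    rw [hu]
    refine (norm_sum_le _ _).trans ?_
    rw [← nsmul_eq_mul]
    refine Finset.sum_le_card_nsmul _ _ _ ?_
    intro j _
    rw [norm_smul]
    have h3 := norm_sub_le (dl 𝕜 (W := W) (Sum.inr ((b j).1, Sum.inl k, Mf j)))
      (dl 𝕜 (Sum.inr ((b j).1, Sum.inl k, (b j).2)))
    have h4 := hT2 (Sum.inr ((b j).1, Sum.inl k, Mf j))
    have h5 := hT2 (Sum.inr ((b j).1, Sum.inl k, (b j).2))
    have h6 := hθ j
    have h7 := norm_nonneg (θ j)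
    have h8 : ‖dl 𝕜 (W := W) (Sum.inr ((b j).1, Sum.inl k, Mf j)) -
      dl 𝕜 (Sum.inr ((b j).1, Sum.inl k, (b j).2))‖ ≤ 2 := by linarith
    calc ‖θ j‖ * _ ≤ 1 * 2 := by
          refine mul_le_mul h6 h8 (norm_nonneg _) (by norm_num)
      _ = 2 := by norm_num
  have h3 : ‖T u‖ ≤ 1 := by
    refine hT5 u 1 (by norm_num) ?_
    intro o
    have h4 : (T u) o = ∑ j ∈ F, θ j * (((val E (Sum.inr ((b j).1, Sum.inl k, Mf j)) o -
      val E (Sum.inr ((b j).1, Sum.inl k, (b j).2)) o : ℝ)) : 𝕜) := by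
      rw [hu, map_sum, lp.coeFn_sum, Finset.sum_apply]
      refine Finset.sum_congr rfl ?_
      intro j _
      rw [map_smul, map_sub, lp.coeFn_smul, Pi.smul_apply, lp.coeFn_sub, Pi.sub_apply, hT1, hT1,
        smul_eq_mul]
      push_cast
      rfl
    rw [h4]
    refine (norm_sum_le _ _).trans ?_
    refine le_trans ?_ (D11_sum_le hs.tree k b hb Mf hM o F)
    refine Finset.sum_le_sum ?_
    intro j _
    rw [norm_mul, RCLike.norm_ofReal]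
    have h6 := hθ j
    have h7 := abs_nonneg (val E (Sum.inr ((b j).1, Sum.inl k, Mf j)) o -
      val E (Sum.inr ((b j).1, Sum.inl k, (b j).2)) o)
    nlinarith
  refine max_le_max ?_ ?_
  · exact div_le_div_of_nonneg_right h2 (by positivity)
  · exact mul_le_mul_of_nonneg_left h3 (by positivity)

private lemma D11_small {𝕜 W X : Type} [RCLike 𝕜] [NormedAddCommGroup X] [NormedSpace 𝕜 X]
    {E : ℕ → W → ℕ → W → Prop} {len : W → ℕ → ℕ}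
    {T : L1 𝕜 (Dd W) →L[𝕜] Li 𝕜 (Om W)} {ι : L1 𝕜 (Dd W) →L[𝕜] X} {S : X →L[𝕜] Li 𝕜 (Om W)}
    (hs : Setting E len T ι S) (k : ℕ) (b : ℕ → W × ℕ)
    (hb : IsBr E len k b) (φ : StrongDual 𝕜 X) (δ : ℝ) (hδ : 0 < δ) :
    ∃ j0, ∀ j ≥ j0, ∀ M : ℕ, (b j).2 ≤ M →
      ‖φ (ι (dl 𝕜 (Sum.inr ((b j).1, Sum.inl k, M)))) -
        φ (ι (dl 𝕜 (Sum.inr ((b j).1, Sum.inl k, (b j).2))))‖ < δ := by
  classical
  have hch : ∀ j : ℕ, ∃ M : ℕ, (b j).2 ≤ M ∧ ((∃ M', (b j).2 ≤ M' ∧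
      δ ≤ ‖φ (ι (dl 𝕜 (Sum.inr ((b j).1, Sum.inl k, M')))) -
        φ (ι (dl 𝕜 (Sum.inr ((b j).1, Sum.inl k, (b j).2))))‖) →
      δ ≤ ‖φ (ι (dl 𝕜 (Sum.inr ((b j).1, Sum.inl k, M)))) -
        φ (ι (dl 𝕜 (Sum.inr ((b j).1, Sum.inl k, (b j).2))))‖) := by
    intro j
    by_cases h : ∃ M', (b j).2 ≤ M' ∧
      δ ≤ ‖φ (ι (dl 𝕜 (Sum.inr ((b j).1, Sum.inl k, M')))) -
        φ (ι (dl 𝕜 (Sum.inr ((b j).1, Sum.inl k, (b j).2))))‖
    · obtain ⟨M', h1, h2⟩ := h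
      exact ⟨M', h1, fun _ => h2⟩
    · exact ⟨(b j).2, le_rfl, fun h' => absurd h' h⟩
  choose Mf hM1 hM2 using hch
  have hwu := D11_wu hs k b hb Mf hM1
  have hfin := wu_finite _ hwu φ δ hδ
  obtain ⟨B, hB⟩ := hfin.bddAbove
  refine ⟨B + 1, ?_⟩
  intro j hj M hM
  by_contra hcon
  push Not at hcon
  have h1 := hM2 j ⟨M, hM, hcon⟩
  have h2 : j ∈ {j : ℕ | δ ≤ ‖φ (ι (dl 𝕜 (Sum.inr ((b j).1, Sum.inl k, Mf j))) -
      ι (dl 𝕜 (Sum.inr ((b j).1, Sum.inl k, (b j).2))))‖} := by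
    show δ ≤ ‖φ (ι (dl 𝕜 (Sum.inr ((b j).1, Sum.inl k, Mf j))) -
      ι (dl 𝕜 (Sum.inr ((b j).1, Sum.inl k, (b j).2))))‖
    rw [map_sub]
    exact h1
  have h3 := hB h2
  omega

/-- Let `m j = (b j).2`. `φ (ι (dl (inr ((b j).1, inl k, m j)))) → br k b φ`. It suffices to show that
`φ (ι (dl (inr ((b j).1, inl k, M)) - dl (inr ((b j).1, inl k, m j))))` tends to `0` uniformly in `M ≥ m j` finite (for `M = ⊤` take limits, `v_coe`). Otherwise there are `ε > 0` and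
infinitely many `j` with some `M j ≥ m j` such that it is `≥ ε` in norm; the functions `T (..)` are the indicator functions of `{(σ', k, s) | ∃ m, m j < m ≤ M j, E k (b j).1 m σ'}`, which are
pairwise disjoint for different `j` (if `i < j`, `E k (b i).1 m σ'`, `E k (b j).1 m' σ'` then `E k (b i).1 (m i) (b j).1` gives `m = m i` by `trans`, `uniq`); so by
`Fac.upper` the family satisfies `WU 𝕜 2 1`, contradicting `wu_finite`. -/
theorem br_unif {𝕜 W X : Type} [RCLike 𝕜] [NormedAddCommGroup X] [NormedSpace 𝕜 X]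
    {E : ℕ → W → ℕ → W → Prop} {len : W → ℕ → ℕ}
    {T : L1 𝕜 (Dd W) →L[𝕜] Li 𝕜 (Om W)} {ι : L1 𝕜 (Dd W) →L[𝕜] X} {S : X →L[𝕜] Li 𝕜 (Om W)}
    (hs : Setting E len T ι S) {v : Aa W → StrongDual 𝕜 (StrongDual 𝕜 X)}
    (hv : ∀ a, WLim 𝕜 (fun n => ι (dl 𝕜 (apx a n))) (v a)) (k : ℕ) (b : ℕ → W × ℕ)
    (hb : IsBr E len k b) (e : StrongDual 𝕜 (StrongDual 𝕜 X))
    (he : WLim 𝕜 (fun j => ι (dl 𝕜 (Sum.inr ((b j).1, Sum.inl k, (b j).2)))) e)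
    (φ : StrongDual 𝕜 X) (ε : ℝ) (hε : 0 < ε) :
    ∃ j0, ∀ j ≥ j0, ∀ M : ℕ∞, ((b j).2 : ℕ∞) ≤ M → ‖v (k, (b j).1, M) φ - e φ‖ ≤ ε := by
  obtain ⟨j1, hj1⟩ := D11_small hs k b hb φ (ε / 2) (by positivity)
  have h2 := he φ
  rw [Metric.tendsto_atTop] at h2
  obtain ⟨j2, hj2⟩ := h2 (ε / 2) (by positivity)
  refine ⟨max j1 j2, ?_⟩
  intro j hj
  have hja : j1 ≤ j := (le_max_left _ _).trans hj
  have hjb : j2 ≤ j := (le_max_right _ _).trans hj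
  obtain ⟨hv1, hv2⟩ := v_coe hv k (b j).1
  have hfin : ∀ M : ℕ, (b j).2 ≤ M → ‖v (k, (b j).1, (M : ℕ∞)) φ - e φ‖ ≤ ε := by
    intro M hM
    rw [hv1 M, NormedSpace.dual_def]
    have h3 := hj1 j hja M hM
    have h4 := hj2 j hjb
    rw [dist_eq_norm] at h4
    have h5 : φ (ι (dl 𝕜 (Sum.inr ((b j).1, Sum.inl k, M)))) - e φ =
      (φ (ι (dl 𝕜 (Sum.inr ((b j).1, Sum.inl k, M)))) -
        φ (ι (dl 𝕜 (Sum.inr ((b j).1, Sum.inl k, (b j).2))))) +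
      (φ (ι (dl 𝕜 (Sum.inr ((b j).1, Sum.inl k, (b j).2)))) - e φ) := by ring
    rw [h5]
    refine (norm_add_le _ _).trans ?_
    linarith
  intro M hM
  by_cases hMt : M = ⊤
  · subst hMt
    have h6 := ((hv2 φ).sub_const (e φ)).norm
    refine le_of_tendsto h6 ?_
    filter_upwards [eventually_ge_atTop (b j).2] with N hN
    exact hfin N hN
  · obtain ⟨N, rfl⟩ := ENat.ne_top_iff_exists.mp hMt
    exact hfin N (by exact_mod_cast hM)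

end WCGBd
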