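import Pool.Agent.WCGBd.Defs
import Pool.Agent.WCGBd.JB10
import Pool.Agent.WCGBd.JB2
import Pool.Agent.WCGBd.JB7
import Pool.Agent.WCGBd.JB9
import Pool.Agent.WCGBd.JD10

set_option autoImplicit false

namespace WCGBd

open Filter Topology Set
open scoped ENNReal

/-- Use `shift_mem` with `e = v (k, σ, ⊤) ∈ N` and `R'` from `fam_op` (family `v a - e` for `a ∈ U`, `0` for `a ∉ U`); `ψ.comp R' ∈ N` by `c0_type`: the sets
`{a | ε ≤ ‖R' φ a‖}` are finite by `v_coe` (they consist of elements `(k, σ, M)` with `M` a natural number below some bound), and `(evA 𝕜 a).comp R'` is `v a - e` or `0`. -/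
theorem U_mem {𝕜 W X : Type} [RCLike 𝕜] [NormedAddCommGroup X] [NormedSpace 𝕜 X]
    {ι : L1 𝕜 (Dd W) →L[𝕜] X} {v : Aa W → StrongDual 𝕜 (StrongDual 𝕜 X)}
    (hv : ∀ a, WLim 𝕜 (fun n => ι (dl 𝕜 (apx a n))) (v a)) (hv1 : ∀ a, ‖v a‖ ≤ 1)
    (N : Submodule 𝕜 (StrongDual 𝕜 (StrongDual 𝕜 X)))
    (hN : IsClosed (N : Set (StrongDual 𝕜 (StrongDual 𝕜 X)))) (hvN : ∀ a, v a ∈ N)
    (R : StrongDual 𝕜 X →L[𝕜] Li 𝕜 (Aa W)) (hR : ∀ φ a, R φ a = v a φ) (k : ℕ) (σ : W)
    (ψ : StrongDual 𝕜 (Li 𝕜 (Aa W))) : (rs {a | a.1 = k ∧ a.2.1 = σ} ψ).comp R ∈ N := by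
  classical
  set U : Set (Aa W) := {a | a.1 = k ∧ a.2.1 = σ} with hU
  obtain ⟨R', hR'⟩ := fam_op (𝕜 := 𝕜) (A := Aa W) (Y := StrongDual 𝕜 X)
    (fun a => if a ∈ U then v a - v (k, σ, ⊤) else 0) 2 (by
    intro a
    by_cases h : a ∈ U
    · simp only [h, if_true]
      calc ‖v a - v (k, σ, ⊤)‖ ≤ ‖v a‖ + ‖v (k, σ, ⊤)‖ := by exact norm_sub_le (v a) (v (k, σ, ⊤))
        _ ≤ 1 + 1 := add_le_add (hv1 _) (hv1 _)
        _ = 2 := by norm_num
    · simp [h])
  refine shift_mem R R' N U (v (k, σ, ⊤)) (hvN _) ?_ ?_ ψ ?_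
  · intro φ a ha
    rw [hR', hR]
    simp [ha]
  · intro φ a ha
    rw [hR']
    simp [ha]
  · refine c0_type R' N hN ?_ ?_ ψ
    · intro φ ε hε
      have h2 := (v_coe hv k σ).2 φ
      obtain ⟨M0, hM0⟩ := (Metric.tendsto_atTop.1 h2) ε hε
      refine ((Set.finite_Iio M0).image (fun M : ℕ => ((k, σ, (M : ℕ∞)) : Aa W))).subset ?_
      rintro ⟨k', σ', M⟩ ha
      have ha' : ε ≤ ‖R' φ (k', σ', M)‖ := ha
      rw [hR'] at ha'
      by_cases hm : ((k', σ', M) : Aa W) ∈ U
      · have hm' : k' = k ∧ σ' = σ := hm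
        obtain ⟨rfl, rfl⟩ := hm'
        simp only [hm, if_true] at ha'
        induction M using ENat.recTopCoe with
        | top => 
          simp at ha'
          linarith
        | coe M =>
          refine ⟨M, ?_, rfl⟩
          by_contra hlt
          have hle : M0 ≤ M := by
            simpa using hlt
          have h3 := hM0 M hle
          rw [dist_eq_norm] at h3
          have h4 : (v (k', σ', (M : ℕ∞)) - v (k', σ', ⊤)) φ = v (k', σ', (M : ℕ∞)) φ - v (k', σ', ⊤) φ := rfl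
          rw [h4] at ha'
          linarith
      · simp only [hm, if_false] at ha'
        simp at ha'
        linarith
    · intro a
      by_cases h : a ∈ U
      · have h1 : (evA 𝕜 a).comp R' = v a - v (k, σ, ⊤) := by
          ext φ
          have : (evA 𝕜 a).comp R' φ = R' φ a := rfl
          rw [this, hR']
          simp [h]
        rw [h1]
        have g1 := hvN a
        have g2 := hvN (k, σ, ⊤)
        have g3 := N.smul_mem (-1 : 𝕜) g2
        have g4 := N.add_mem g1 g3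
        have g5 : v a - v (k, σ, ⊤) = v a + (-1 : 𝕜) • v (k, σ, ⊤) := by
          ext φ
          simp [sub_eq_add_neg]
        rw [g5]
        exact g4
      · have h1 : (evA 𝕜 a).comp R' = 0 := by
          ext φ
          have : (evA 𝕜 a).comp R' φ = R' φ a := rfl
          rw [this, hR']
          simp [h]
        rw [h1]
        exact N.zero_mem

end WCGBd
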