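import Pool.Agent.WCGBd.Defs
import Pool.Agent.WCGBd.JB2
import Pool.Agent.WCGBd.JB6
import Pool.Agent.WCGBd.JD12

set_option autoImplicit false

namespace WCGBd

open Filter Topology Set
open scoped ENNReal

/-- All elements of `C` have the same type, so `C` is contained in a finite union of sets `U (k, σ) = {a | a.1 = k ∧ a.2.1 = σ}` (actually finiteness of the set of pairs suffices); use `scheme` for the operator `R_C = (restr 𝕜 C).comp R` (so `(rs C ψ).comp R = ψ.comp R_C`) and `𝒰 = {U (k, σ)}`: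
`(rs U ψ).comp R_C = (rs U (rs C ψ)).comp R ∈ N` by `U_mem` (commuting the restrictions, `rs_basic`), and if `ψ` vanishes on all the `U (k, σ)` it vanishes on `{a | ε ≤ ‖R_C φ a‖} ⊆ C` (`rs_basic`). -/
theorem chain_mem_fin {𝕜 W X : Type} [RCLike 𝕜] [NormedAddCommGroup X] [NormedSpace 𝕜 X]
    {E : ℕ → W → ℕ → W → Prop} {ι : L1 𝕜 (Dd W) →L[𝕜] X} {v : Aa W → StrongDual 𝕜 (StrongDual 𝕜 X)}
    (hv : ∀ a, WLim 𝕜 (fun n => ι (dl 𝕜 (apx a n))) (v a)) (hv1 : ∀ a, ‖v a‖ ≤ 1)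
    (N : Submodule 𝕜 (StrongDual 𝕜 (StrongDual 𝕜 X)))
    (hN : IsClosed (N : Set (StrongDual 𝕜 (StrongDual 𝕜 X)))) (hvN : ∀ a, v a ∈ N)
    (R : StrongDual 𝕜 X →L[𝕜] Li 𝕜 (Aa W)) (hR : ∀ φ a, R φ a = v a φ)
    (C : Set (Aa W)) (hC : ChA E C) (hfin : ((fun a : Aa W => a.2.1) '' C).Finite)
    (ψ : StrongDual 𝕜 (Li 𝕜 (Aa W))) : (rs C ψ).comp R ∈ N := by
  classical
  have hrb := fun ψ : StrongDual 𝕜 (Li 𝕜 (Aa W)) => rs_basic ψ
  rcases C.eq_empty_or_nonempty with hCe | ⟨a0, ha0⟩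
  · obtain ⟨-, -, -, -, -, -, he, -⟩ := hrb ψ
    rw [hCe, he, ContinuousLinearMap.zero_comp]
    exact N.zero_mem
  have hty : ∀ a ∈ C, a.1 = a0.1 := by
    intro a ha
    rcases hC a ha a0 ha0 with h | h | h
    · exact h.1
    · exact h.1
    · exact h.1.symm
  have key : ∀ F : Finset W, (rs {a | a ∈ C ∧ a.2.1 ∈ F} ψ).comp R ∈ N := by
    intro F
    induction F using Finset.induction_on with
    | empty =>
      obtain ⟨-, -, -, -, -, -, he, -⟩ := hrb ψ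
      have : {a : Aa W | a ∈ C ∧ a.2.1 ∈ (∅ : Finset W)} = ∅ := by
        ext a; simp
      rw [this, he, ContinuousLinearMap.zero_comp]
      exact N.zero_mem
    | insert σ F hσ ih =>
      obtain ⟨-, -, hcomp, hun, -⟩ := hrb ψ
      have e : {a : Aa W | a ∈ C ∧ a.2.1 ∈ insert σ F} = {a | a ∈ C ∧ a.2.1 ∈ F} ∪
          {a | a ∈ C ∧ a.2.1 = σ} := by
        ext a
        simp only [Finset.mem_insert, Set.mem_setOf_eq, Set.mem_union]
        tauto
      rw [e, hun, ContinuousLinearMap.add_comp]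
      refine N.add_mem ih ?_
      set V : Set (Aa W) := {a | a ∈ C ∧ a.2.1 = σ} \ {a | a ∈ C ∧ a.2.1 ∈ F} with hV
      have e2 : {a : Aa W | a.1 = a0.1 ∧ a.2.1 = σ} ∩ V = V := by
        refine Set.inter_eq_right.mpr ?_
        intro a ha
        exact ⟨hty a ha.1.1, ha.1.2⟩
      have e3 := hcomp {a : Aa W | a.1 = a0.1 ∧ a.2.1 = σ} V
      rw [e2] at e3
      rw [← e3]
      exact U_mem hv hv1 N hN hvN R hR a0.1 σ (rs V ψ)
  have h := key hfin.toFinset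
  have e : {a : Aa W | a ∈ C ∧ a.2.1 ∈ hfin.toFinset} = C := by
    ext a
    simp only [Set.Finite.mem_toFinset, Set.mem_setOf_eq, Set.mem_image, and_iff_left_iff_imp]
    exact fun ha => ⟨a, ha, rfl⟩
  rwa [e] at h

end WCGBd
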