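import Pool.Agent.WCGBd.Defs
import Pool.Agent.WCGBd.JB10
import Pool.Agent.WCGBd.JB2
import Pool.Agent.WCGBd.JB6
import Pool.Agent.WCGBd.JB9
import Pool.Agent.WCGBd.JD11
import Pool.Agent.WCGBd.JD12

set_option autoImplicit false

namespace WCGBd

open Filter Topology Set
open scoped ENNReal

/-- `e ∈ N`; use `shift_mem` with `U = C` and `R'` from `fam_op` for the family `v a - e` on `C`, `0` off `C` (bounded by `1 + ‖e‖`). `ψ.comp R' ∈ N` by `scheme` with `𝒰 = {U (k, σ)}`, `U (k, σ) = {a | a.1 = k ∧ a.2.1 = σ}`: `(rs U ψ).comp R' = (rs (U ∩ C) ψ).comp R - ψ (1_{U ∩ C}) • e ∈ N` (`U_mem` for `rs C ψ`;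
`(rs (U ∩ C) ψ).comp R = (rs U (rs C ψ)).comp R`); and by `br_unif` the set `{a | ε ≤ ‖R' φ a‖}` is contained in `{a ∈ C | len a.2.1 k < j0}`, which is contained in the union of the `U (k, (b j).1)`, `j < j0`, so it is null for every `ψ` vanishing on all `U (k, σ)`. -/
theorem chain_mem_br {𝕜 W X : Type} [RCLike 𝕜] [NormedAddCommGroup X] [NormedSpace 𝕜 X]
    {E : ℕ → W → ℕ → W → Prop} {len : W → ℕ → ℕ}
    {T : L1 𝕜 (Dd W) →L[𝕜] Li 𝕜 (Om W)} {ι : L1 𝕜 (Dd W) →L[𝕜] X} {S : X →L[𝕜] Li 𝕜 (Om W)}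
    (hs : Setting E len T ι S) {v : Aa W → StrongDual 𝕜 (StrongDual 𝕜 X)}
    (hv : ∀ a, WLim 𝕜 (fun n => ι (dl 𝕜 (apx a n))) (v a)) (hv1 : ∀ a, ‖v a‖ ≤ 1)
    (N : Submodule 𝕜 (StrongDual 𝕜 (StrongDual 𝕜 X)))
    (hN : IsClosed (N : Set (StrongDual 𝕜 (StrongDual 𝕜 X)))) (hvN : ∀ a, v a ∈ N)
    (R : StrongDual 𝕜 X →L[𝕜] Li 𝕜 (Aa W)) (hR : ∀ φ a, R φ a = v a φ)
    (k : ℕ) (b : ℕ → W × ℕ) (hb : IsBr E len k b) (e : StrongDual 𝕜 (StrongDual 𝕜 X)) (heN : e ∈ N)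
    (he : WLim 𝕜 (fun j => ι (dl 𝕜 (Sum.inr ((b j).1, Sum.inl k, (b j).2)))) e)
    (C : Set (Aa W)) (hCb : ∀ a ∈ C, a.1 = k ∧ (b (len a.2.1 k)).1 = a.2.1 ∧
      ((b (len a.2.1 k)).2 : ℕ∞) ≤ a.2.2)
    (ψ : StrongDual 𝕜 (Li 𝕜 (Aa W))) : (rs C ψ).comp R ∈ N := by
  classical
  obtain ⟨R', hR'⟩ := fam_op (𝕜 := 𝕜) (A := Aa W) (Y := StrongDual 𝕜 X)
    (fun a => if a ∈ C then v a - e else 0) (1 + ‖e‖) (by
      intro a
      by_cases h : a ∈ C
      · simp only [h, if_true]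
        exact (norm_sub_le _ _).trans (by linarith [hv1 a])
      · simp only [h, if_false, norm_zero]
        positivity)
  have hR1 : ∀ φ, ∀ a ∈ C, R' φ a = R φ a - e φ := by
    intro φ a ha
    rw [hR', hR]
    simp [ha]
  have hR2 : ∀ φ, ∀ a ∉ C, R' φ a = 0 := by
    intro φ a ha
    rw [hR']
    simp [ha]
  refine shift_mem R R' N C e heN hR1 hR2 ψ ?_
  obtain ⟨R1, hR1'⟩ := fam_op (𝕜 := 𝕜) (A := Aa W) (Y := 𝕜)
    (fun _ => ContinuousLinearMap.id 𝕜 𝕜) 1 (by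
      intro a
      exact ContinuousLinearMap.norm_id_le)
  refine scheme R' N hN (Set.range (fun p : ℕ × W => {a : Aa W | a.1 = p.1 ∧ a.2.1 = p.2})) ?_ ?_ ψ
  · rintro _ ⟨p, rfl⟩ ψ
    obtain ⟨b1, b2, -⟩ := rs_basic ψ
    have hU := U_mem hv hv1 N hN hvN R hR p.1 p.2 (rs C ψ)
    set U : Set (Aa W) := {a : Aa W | a.1 = p.1 ∧ a.2.1 = p.2} with hUdef
    have key : (rs U ψ).comp R' =
        (rs U (rs C ψ)).comp R - (ψ (restr 𝕜 C (restr 𝕜 U (R1 1)))) • e := by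
      ext φ
      have hvec : restr 𝕜 U (R' φ) =
          restr 𝕜 C (restr 𝕜 U (R φ)) - (e φ) • restr 𝕜 C (restr 𝕜 U (R1 1)) := by
        ext a
        have e1 : (restr 𝕜 C (restr 𝕜 U (R φ)) - (e φ) • restr 𝕜 C (restr 𝕜 U (R1 1)) :
            Li 𝕜 (Aa W)) a = (restr 𝕜 C (restr 𝕜 U (R φ))) a -
              (e φ) * (restr 𝕜 C (restr 𝕜 U (R1 1))) a := by
          simp [lp.coeFn_smul]
        rw [e1]
        by_cases hC : a ∈ C
        · rw [b1 C _ a hC, b1 C _ a hC]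
          by_cases hUa : a ∈ U
          · rw [b1 U _ a hUa, b1 U _ a hUa, b1 U _ a hUa, hR1 φ a hC, hR1']
            simp
          · rw [b2 U _ a hUa, b2 U _ a hUa, b2 U _ a hUa]
            simp
        · rw [b2 C _ a hC, b2 C _ a hC]
          by_cases hUa : a ∈ U
          · rw [b1 U _ a hUa, hR2 φ a hC]
            simp
          · rw [b2 U _ a hUa]
            simp
      change ψ (restr 𝕜 U (R' φ)) = ψ (restr 𝕜 C (restr 𝕜 U (R φ))) -
        (ψ (restr 𝕜 C (restr 𝕜 U (R1 1)))) * (e φ)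
      rw [hvec, map_sub, map_smul, smul_eq_mul, mul_comm (e φ)]
    rw [key]
    have hsm : (ψ (restr 𝕜 C (restr 𝕜 U (R1 1)))) • e ∈ N := Submodule.smul_mem N _ heN
    exact sub_mem hU hsm
  · intro ψ hψ φ ε hε
    obtain ⟨-, -, -, -, -, -, b0, b8, b9⟩ := rs_basic ψ
    obtain ⟨j0, hj0⟩ := br_unif hs hv k b hb e he φ (ε / 2) (by positivity)
    have hfin : ∀ n : ℕ, rs {a : Aa W | ∃ j < n, a.1 = k ∧ a.2.1 = (b j).1} ψ = 0 := by
      intro n
      induction n with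
      | zero =>
        have : {a : Aa W | ∃ j < 0, a.1 = k ∧ a.2.1 = (b j).1} = ∅ := by
          ext a
          simp
        rw [this]
        exact b0
      | succ n ih =>
        have : {a : Aa W | ∃ j < n + 1, a.1 = k ∧ a.2.1 = (b j).1} =
            {a : Aa W | ∃ j < n, a.1 = k ∧ a.2.1 = (b j).1} ∪
              {a : Aa W | a.1 = k ∧ a.2.1 = (b n).1} := by
          ext a
          constructor
          · rintro ⟨j, hj, h⟩
            rcases Nat.lt_succ_iff_lt_or_eq.mp hj with h' | h'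
            · exact Or.inl ⟨j, h', h⟩
            · subst h'
              exact Or.inr h
          · rintro (⟨j, hj, h⟩ | h)
            · exact ⟨j, Nat.lt_succ_of_lt hj, h⟩
            · exact ⟨n, Nat.lt_succ_self n, h⟩
        rw [this]
        refine b9 _ _ ih (hψ _ ⟨(k, (b n).1), rfl⟩)
    refine b8 _ _ ?_ (hfin j0)
    intro a ha
    have ha' : ε ≤ ‖R' φ a‖ := ha
    by_cases hC : a ∈ C
    · obtain ⟨h1, h2, h3⟩ := hCb a hC
      by_cases hj : len a.2.1 k < j0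
      · exact ⟨len a.2.1 k, hj, h1, h2.symm⟩
      · exfalso
        have h4 := hj0 (len a.2.1 k) (not_lt.mp hj) a.2.2 h3
        have h5 : ((k, (b (len a.2.1 k)).1, a.2.2) : Aa W) = a := by
          rw [h2, ← h1]
        rw [h5] at h4
        rw [hR1 φ a hC, hR] at ha'
        linarith
    · exfalso
      rw [hR2 φ a hC, norm_zero] at ha'
      linarith

end WCGBd
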