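import Pool.Agent.WCGBd.Defs
import Pool.Agent.WCGBd.JC6
import Pool.Agent.WCGBd.JD13a
import Pool.Agent.WCGBd.JD13b

set_option autoImplicit false

namespace WCGBd

open Filter Topology Set
open scoped ENNReal

/-- `chain_mem_fin` if the set of nodes of `C` is finite; otherwise `chain_branch` and `chain_mem_br`. -/
theorem chain_mem {𝕜 W X : Type} [RCLike 𝕜] [NormedAddCommGroup X] [NormedSpace 𝕜 X]
    {E : ℕ → W → ℕ → W → Prop} {len : W → ℕ → ℕ}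
    {T : L1 𝕜 (Dd W) →L[𝕜] Li 𝕜 (Om W)} {ι : L1 𝕜 (Dd W) →L[𝕜] X} {S : X →L[𝕜] Li 𝕜 (Om W)}
    (hs : Setting E len T ι S) {v : Aa W → StrongDual 𝕜 (StrongDual 𝕜 X)}
    {br : (k : ℕ) → (ℕ → W × ℕ) → StrongDual 𝕜 (StrongDual 𝕜 X)}
    {hh : W → StrongDual 𝕜 (StrongDual 𝕜 X)} (hl : Lims E len ι v br hh)
    (N : Submodule 𝕜 (StrongDual 𝕜 (StrongDual 𝕜 X)))
    (hN : IsClosed (N : Set (StrongDual 𝕜 (StrongDual 𝕜 X)))) (hvN : ∀ a, v a ∈ N)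
    (hbN : ∀ k b, IsBr E len k b → br k b ∈ N)
    (R : StrongDual 𝕜 X →L[𝕜] Li 𝕜 (Aa W)) (hR : ∀ φ a, R φ a = v a φ)
    (C : Set (Aa W)) (hC : ChA E C) (ψ : StrongDual 𝕜 (Li 𝕜 (Aa W))) : (rs C ψ).comp R ∈ N := by
  by_cases hfin : ((fun a : Aa W => a.2.1) '' C).Finite
  · exact chain_mem_fin hl.v_lim hl.v_norm N hN hvN R hR C hC hfin ψ
  · obtain ⟨k, b, hb, hCb⟩ := chain_branch hs.tree C hC hfin
    exact chain_mem_br hs hl.v_lim hl.v_norm N hN hvN R hR k b hb (br k b) (hbN k b hb)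
      (hl.br_lim k b hb) C hCb ψ

end WCGBd
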