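import Pool.Agent.WCGBd.Defs

set_option autoImplicit false

namespace WCGBd

open Filter Topology Set
open scoped ENNReal

/-- For a functional `φ`: `‖(∑ θ j • g j) φ‖ = lim ‖φ (ι (∑ θ j • w j n))‖ ≤ ‖φ‖ * max (α / 2 ^ n0) (2 ^ n0 * β)` by `Fac.upper n0`. -/
theorem wlim_sum_bound {𝕜 G H X J : Type} [RCLike 𝕜] [NormedAddCommGroup G] [NormedSpace 𝕜 G]
    [NormedAddCommGroup H] [NormedSpace 𝕜 H] [NormedAddCommGroup X] [NormedSpace 𝕜 X]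
    {T : G →L[𝕜] H} {ι : G →L[𝕜] X} {S : X →L[𝕜] H} (hf : Fac T ι S) (F : Finset J) (w : J → ℕ → G)
    (g : J → StrongDual 𝕜 (StrongDual 𝕜 X)) (hg : ∀ j ∈ F, WLim 𝕜 (fun n => ι (w j n)) (g j))
    (θ : J → 𝕜) (α β : ℝ) (hα : ∀ n, ‖∑ j ∈ F, θ j • w j n‖ ≤ α)
    (hβ : ∀ᶠ n in atTop, ‖T (∑ j ∈ F, θ j • w j n)‖ ≤ β) (n0 : ℕ) :
    ‖∑ j ∈ F, θ j • g j‖ ≤ max (α / 2 ^ n0) (2 ^ n0 * β) := by
  have hM : 0 ≤ max (α / 2 ^ n0) (2 ^ n0 * β) := by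
    have h0 : 0 ≤ α := le_trans (norm_nonneg _) (hα 0)
    exact le_max_of_le_left (by positivity)
  refine ContinuousLinearMap.opNorm_le_bound _ hM (fun φ => ?_)
  have hlim : Tendsto (fun n => φ (ι (∑ j ∈ F, θ j • w j n))) atTop
      (𝓝 ((∑ j ∈ F, θ j • g j) φ)) := by
    have h1 : ∀ n, φ (ι (∑ j ∈ F, θ j • w j n)) = ∑ j ∈ F, θ j • φ (ι (w j n)) := by
      intro n
      simp [map_sum]
    have h2 : (∑ j ∈ F, θ j • g j) φ = ∑ j ∈ F, θ j • g j φ := by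
      simp
    rw [h2]
    simp only [h1]
    refine tendsto_finsetSum _ (fun j hj => ?_)
    exact (hg j hj φ).const_smul (θ j)
  refine le_of_tendsto hlim.norm ?_
  filter_upwards [hβ] with n hn
  have h3 : ‖ι (∑ j ∈ F, θ j • w j n)‖ ≤ max (α / 2 ^ n0) (2 ^ n0 * β) := by
    refine le_trans (hf.upper n0 _) (max_le_max ?_ ?_)
    · gcongr
      exact hα n
    · gcongr
  calc ‖φ (ι (∑ j ∈ F, θ j • w j n))‖ ≤ ‖φ‖ * ‖ι (∑ j ∈ F, θ j • w j n)‖ := φ.le_opNorm _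
    _ ≤ ‖φ‖ * max (α / 2 ^ n0) (2 ^ n0 * β) := by gcongr
    _ = max (α / 2 ^ n0) (2 ^ n0 * β) * ‖φ‖ := mul_comm _ _

end WCGBd
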