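import Pool.Agent.WCGBd.Defs
import Pool.Agent.WCGBd.JC4
import Pool.Agent.WCGBd.JD0
import Pool.Agent.WCGBd.JD6a

set_option autoImplicit false

namespace WCGBd

open Filter Topology Set
open scoped ENNReal

/-- By `wlim_sum_bound` with `w a n = dl (apx a n)`, `α = F'.card`, `β = 1`: by `incomp_disj` at each point at most one of the functions is nonzero. -/
theorem wu_v {𝕜 W X : Type} [RCLike 𝕜] [NormedAddCommGroup X] [NormedSpace 𝕜 X]
    {E : ℕ → W → ℕ → W → Prop} {len : W → ℕ → ℕ}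
    {T : L1 𝕜 (Dd W) →L[𝕜] Li 𝕜 (Om W)} {ι : L1 𝕜 (Dd W) →L[𝕜] X} {S : X →L[𝕜] Li 𝕜 (Om W)}
    (hs : Setting E len T ι S) {v : Aa W → StrongDual 𝕜 (StrongDual 𝕜 X)}
    (hv : ∀ a, WLim 𝕜 (fun n => ι (dl 𝕜 (apx a n))) (v a)) (F : Finset (Aa W))
    (hF : ∀ a ∈ F, ∀ a' ∈ F, a ≠ a' → ¬ cmpA E a a') (θ : Aa W → 𝕜) (hθ : ∀ a, ‖θ a‖ ≤ 1) (n : ℕ) :
    ‖∑ a ∈ F, θ a • v a‖ ≤ max ((F.card : ℝ) * 1 / 2 ^ n) (2 ^ n * 1) := by
  obtain ⟨hT1, hT2, hT3, hT4, hT5⟩ := T_basic hs.isT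
  refine wlim_sum_bound hs.fac F (fun a n => dl 𝕜 (apx a n)) v (fun a _ => hv a) θ
    ((F.card : ℝ) * 1) 1 ?_ (Filter.Eventually.of_forall ?_) n
  · intro k
    calc ‖∑ j ∈ F, θ j • dl 𝕜 (apx j k)‖ ≤ ∑ j ∈ F, ‖θ j • dl 𝕜 (apx j k)‖ := norm_sum_le _ _
      _ ≤ ∑ _j ∈ F, (1 : ℝ) := by
          refine Finset.sum_le_sum fun j _ => ?_
          rw [norm_smul]
          exact mul_le_one₀ (hθ j) (norm_nonneg _) (hT2 _)
      _ = (F.card : ℝ) * 1 := by simp
  · intro k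
    refine hT5 _ 1 zero_le_one fun o => ?_
    have hcoe : (T (∑ j ∈ F, θ j • dl 𝕜 (apx j k)) : Li 𝕜 (Om W)) o
        = ∑ j ∈ F, θ j * ((val E (apx j k) o : ℝ) : 𝕜) := by
      rw [map_sum]
      have : ∀ G : Finset (Aa W), ((∑ j ∈ G, T (θ j • dl 𝕜 (apx j k)) : Li 𝕜 (Om W)) : Om W → 𝕜) o
          = ∑ j ∈ G, θ j * ((val E (apx j k) o : ℝ) : 𝕜) := by
        intro G
        classical
        induction G using Finset.induction_on with
        | empty => simp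
        | insert a G ha ih =>
          rw [Finset.sum_insert ha, Finset.sum_insert ha, lp.coeFn_add, Pi.add_apply, ih,
            map_smul, lp.coeFn_smul, Pi.smul_apply, hT1, smul_eq_mul]
      exact this F
    rw [hcoe]
    by_cases hz : ∀ j ∈ F, val E (apx j k) o = 0
    · rw [Finset.sum_eq_zero (fun j hj => by rw [hz j hj]; simp)]
      simp
    · push Not at hz
      obtain ⟨j0, hj0, hne⟩ := hz
      rw [Finset.sum_eq_single_of_mem j0 hj0]
      · rw [norm_mul]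
        refine mul_le_one₀ (hθ j0) (norm_nonneg _) ?_
        rw [RCLike.norm_ofReal, abs_of_nonneg (hT4 _ _).1]
        exact (hT4 _ _).2
      · intro b hb hbne
        have h := incomp_disj hs.tree j0 b (hF j0 hj0 b hb (fun h => hbne h.symm)) o k
        rcases h with h | h
        · exact absurd h hne
        · rw [h]; simp

end WCGBd
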