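import Pool.Agent.WCGBd.Defs
import Pool.Agent.WCGBd.JA4
import Pool.Agent.WCGBd.JD6

set_option autoImplicit false

namespace WCGBd

open Filter Topology Set
open scoped ENNReal

private theorem aux_card (𝕜 : Type) [RCLike 𝕜] {Z J : Type} [NormedAddCommGroup Z] [NormedSpace 𝕜 Z]
    (Φ : StrongDual 𝕜 Z) (ε : ℝ) (hε : 0 < ε) : ∃ B : ℕ, ∀ (g : J → Z) (F : Finset J),
    (∀ j ∈ F, ε ≤ ‖Φ (g j)‖) →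
    (∀ F' ⊆ F, ∀ θ : J → 𝕜, (∀ j, ‖θ j‖ ≤ 1) → ∀ n : ℕ,
      ‖∑ j ∈ F', θ j • g j‖ ≤ max ((F'.card : ℝ) * 1 / 2 ^ n) (2 ^ n * 1)) → F.card ≤ B := by
  obtain ⟨B, hB⟩ := wu_card 𝕜 ‖Φ‖ ε 1 1 hε
  exact ⟨B, fun g F hF hA => hB g Φ F le_rfl hF hA⟩

/-- Apply `wu_card` to the family `v` in the bidual with the functional `NormedSpace.inclusionInDoubleDual 𝕜 (StrongDual 𝕜 X) φ` (evaluation at `φ`, norm at most `‖φ‖`), `a = b = 1`; the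
hypothesis on the sums is `wu_v`. -/
theorem anti_bound {𝕜 W X : Type} [RCLike 𝕜] [NormedAddCommGroup X] [NormedSpace 𝕜 X]
    {E : ℕ → W → ℕ → W → Prop} {len : W → ℕ → ℕ}
    {T : L1 𝕜 (Dd W) →L[𝕜] Li 𝕜 (Om W)} {ι : L1 𝕜 (Dd W) →L[𝕜] X} {S : X →L[𝕜] Li 𝕜 (Om W)}
    (hs : Setting E len T ι S) {v : Aa W → StrongDual 𝕜 (StrongDual 𝕜 X)}
    (hv : ∀ a, WLim 𝕜 (fun n => ι (dl 𝕜 (apx a n))) (v a))
    (Φ : StrongDual 𝕜 (StrongDual 𝕜 (StrongDual 𝕜 X))) (ε : ℝ) (hε : 0 < ε) :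
    ∃ B : ℕ, ∀ F : Finset (Aa W), (∀ a ∈ F, ε ≤ ‖Φ (v a)‖) →
      (∀ a ∈ F, ∀ a' ∈ F, a ≠ a' → ¬ cmpA E a a') → F.card ≤ B := by
  obtain ⟨B, hB⟩ := aux_card 𝕜 (Z := StrongDual 𝕜 (StrongDual 𝕜 X)) (J := Aa W) Φ ε hε
  refine ⟨B, fun F hF hA => ?_⟩
  refine hB v F hF ?_
  intro F' hF' θ hθ n
  exact wu_v hs hv F' (fun a ha a' ha' h => hA a (hF' ha) a' (hF' ha') h) θ hθ n

end WCGBd
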