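import Pool.Agent.WCGBd.Defs
import Pool.Agent.WCGBd.JB2
import Pool.Agent.WCGBd.JB6
import Pool.Agent.WCGBd.JC5
import Pool.Agent.WCGBd.JD13
import Pool.Agent.WCGBd.JD9

set_option autoImplicit false

namespace WCGBd

open Filter Topology Set
open scoped ENNReal

/-- `scheme` with `𝒰 = {C | ChA E C}`: the first hypothesis is `chain_mem`, the second is `null_antichain` with the bound `anti_bound` (for `Φ` the evaluation at `φ`). -/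
theorem v_mem {𝕜 W X : Type} [RCLike 𝕜] [NormedAddCommGroup X] [NormedSpace 𝕜 X]
    {E : ℕ → W → ℕ → W → Prop} {len : W → ℕ → ℕ}
    {T : L1 𝕜 (Dd W) →L[𝕜] Li 𝕜 (Om W)} {ι : L1 𝕜 (Dd W) →L[𝕜] X} {S : X →L[𝕜] Li 𝕜 (Om W)}
    (hs : Setting E len T ι S) {v : Aa W → StrongDual 𝕜 (StrongDual 𝕜 X)}
    {br : (k : ℕ) → (ℕ → W × ℕ) → StrongDual 𝕜 (StrongDual 𝕜 X)}
    {hh : W → StrongDual 𝕜 (StrongDual 𝕜 X)} (hl : Lims E len ι v br hh)
    (N : Submodule 𝕜 (StrongDual 𝕜 (StrongDual 𝕜 X)))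
    (hN : IsClosed (N : Set (StrongDual 𝕜 (StrongDual 𝕜 X)))) (hvN : ∀ a, v a ∈ N)
    (hbN : ∀ k b, IsBr E len k b → br k b ∈ N)
    (R : StrongDual 𝕜 X →L[𝕜] Li 𝕜 (Aa W)) (hR : ∀ φ a, R φ a = v a φ)
    (ψ : StrongDual 𝕜 (Li 𝕜 (Aa W))) : ψ.comp R ∈ N := by
  refine scheme R N hN {C | ChA E C}
    (fun U hU φ => chain_mem hs hl N hN hvN hbN R hR U hU φ) ?_ ψ
  intro ψ' hch φ ε hε
  obtain ⟨B, hB⟩ := anti_bound hs hl.v_lim
    (NormedSpace.inclusionInDoubleDual 𝕜 (StrongDual 𝕜 X) φ) ε hε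
  refine null_antichain hs.tree ψ' (fun C hC => hch C hC) B _ ?_
  intro F hF hanti
  refine hB F (fun a ha => ?_) hanti
  have h1 : ε ≤ ‖R φ a‖ := hF ha
  rw [hR] at h1
  simpa using h1

end WCGBd
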