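import Pool.Agent.WCGBd.Defs
import Pool.Agent.WCGBd.JC7
import Pool.Agent.WCGBd.JD0

set_option autoImplicit false

namespace WCGBd

open Filter Topology Set
open scoped ENNReal

private theorem Li_sum_apply {𝕜 A J : Type} [RCLike 𝕜] (s : Finset J) (f : J → Li 𝕜 A) (o : A) :
    (∑ j ∈ s, f j : Li 𝕜 A) o = ∑ j ∈ s, f j o := by
  classical
  induction s using Finset.induction_on with
  | empty => simp
  | insert a s ha ih =>
    rw [Finset.sum_insert ha, Finset.sum_insert ha, ← ih]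
    rfl

/-- `S` is injective and `S (ι u) = T u`; at a point `o = (σ', k, s)` both sides are `1` iff `blk k = i` and `∃ m ≤ M, E k σ m σ'`, else `0`
(`mem_Iblk`). -/
theorem blk_eq {𝕜 W X : Type} [RCLike 𝕜] [NormedAddCommGroup X] [NormedSpace 𝕜 X]
    {E : ℕ → W → ℕ → W → Prop} {len : W → ℕ → ℕ}
    {T : L1 𝕜 (Dd W) →L[𝕜] Li 𝕜 (Om W)} {ι : L1 𝕜 (Dd W) →L[𝕜] X} {S : X →L[𝕜] Li 𝕜 (Om W)}
    (hs : Setting E len T ι S) (σ : W) (i M : ℕ) :
    ι (dl 𝕜 (Sum.inr (σ, Sum.inr i, M))) =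
      ∑ k ∈ Iblk i, ι (dl 𝕜 (Sum.inr (σ, Sum.inl k, M))) := by
  classical
  have hb := T_basic hs.isT
  apply hs.fac.inj
  rw [map_sum]
  simp only [hs.fac.comp]
  apply Subtype.ext
  funext o
  rw [Li_sum_apply, hb.1]
  rw [Finset.sum_congr rfl (fun k _ => hb.1 (Sum.inr (σ, Sum.inl k, M)) o)]
  obtain ⟨σ', k, s⟩ := o
  simp only [val, Hm]
  by_cases hP : ∃ m ≤ M, E k σ m σ'
  · simp only [hP, and_true]
    by_cases hk : blk k = i
    · have hk' : k ∈ Iblk i := (mem_Iblk i k).2 hk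
      rw [if_pos hk, Finset.sum_eq_single_of_mem k hk']
      · simp
      · intro b _ hbk
        rw [if_neg (fun h => hbk h.symm)]
        simp
    · rw [if_neg hk]
      symm
      rw [Finset.sum_eq_zero]
      · simp
      · intro b hbI
        rw [if_neg]
        · simp
        · rintro rfl
          exact hk ((mem_Iblk i k).1 hbI)
  · simp [hP]

end WCGBd
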