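import Pool.Agent.WCGBd.Defs
import Pool.Agent.WCGBd.JC7
import Pool.Agent.WCGBd.JD0
import Pool.Agent.WCGBd.JD4

set_option autoImplicit false

namespace WCGBd

open Filter Topology Set
open scoped ENNReal

/-- `w σ M = dl (inl σ) - ∑' i, (1/2)^i • dl (inr (σ, inr i, M))` in `ℓ¹` (absolutely convergent, norm at most `1 + 2`). Weak-star limit: by `hl.hh_sum`, `hh σ φ = φ (ι (dl (inl σ))) - ∑' i, (1/2)^i * (∑ k ∈ Iblk i, v (k, σ, ⊤)) φ`, and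
`φ (ι (dl (inr (σ, inr i, M)))) = ∑ k ∈ Iblk i, φ (ι (dl (inr (σ, inl k, M))))` tends to `(∑ k ∈ Iblk i, v (k, σ, ⊤)) φ` for each `i` as `M → ∞` (`blk_eq`, `hl.v_lim`, `apx (k, σ, ⊤) M = inr (σ, inl k, M)`), is bounded by `‖φ‖` (`Fac.upper 0`), so dominated convergence
(`tendsto_tsum_of_dominated_convergence`). At a point `o`: `val E (inl σ) o - ∑' i, (1/2)^i * val E (inr (σ, inr i, M)) o`, where only `i = blk o.2.1` contributes. -/
theorem hh_wlim {𝕜 W X : Type} [RCLike 𝕜] [NormedAddCommGroup X] [NormedSpace 𝕜 X]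
    {E : ℕ → W → ℕ → W → Prop} {len : W → ℕ → ℕ}
    {T : L1 𝕜 (Dd W) →L[𝕜] Li 𝕜 (Om W)} {ι : L1 𝕜 (Dd W) →L[𝕜] X} {S : X →L[𝕜] Li 𝕜 (Om W)}
    (hs : Setting E len T ι S) {v : Aa W → StrongDual 𝕜 (StrongDual 𝕜 X)}
    {br : (k : ℕ) → (ℕ → W × ℕ) → StrongDual 𝕜 (StrongDual 𝕜 X)}
    {hh : W → StrongDual 𝕜 (StrongDual 𝕜 X)} (hl : Lims E len ι v br hh) :
    ∃ w : W → ℕ → L1 𝕜 (Dd W), (∀ σ M, ‖w σ M‖ ≤ 3) ∧
      (∀ σ, WLim 𝕜 (fun M => ι (w σ M)) (hh σ)) ∧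
      (∀ σ M o, ((o.2.2 = true ∧ o.1 = σ) ∨ ∃ m > M, E o.2.1 σ m o.1) →
        T (w σ M) o = (((1 / 2 : ℝ) ^ (blk o.2.1) : ℝ) : 𝕜)) ∧
      (∀ σ M o, ¬ ((o.2.2 = true ∧ o.1 = σ) ∨ ∃ m > M, E o.2.1 σ m o.1) → T (w σ M) o = 0) := by
  have hT := hs.isT
  obtain ⟨hT1, hdl, hTn, -, -⟩ := T_basic (𝕜 := 𝕜) hT
  -- norm bound for `ι`
  have hι : ∀ d : Dd W, ‖ι (dl 𝕜 d)‖ ≤ 1 := by
    intro d
    have h1 := hs.fac.upper 0 (dl 𝕜 d)
    simp only [pow_zero, div_one, one_mul] at h1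
    exact h1.trans (max_le (hdl d) ((hTn _).trans (hdl d)))
  have hgeo : Summable (fun i : ℕ => (1 / 2 : ℝ) ^ i) := summable_geometric_two
  have hc : ∀ i : ℕ, ‖(((1 / 2 : ℝ) ^ i : ℝ) : 𝕜)‖ = (1 / 2 : ℝ) ^ i := by
    intro i
    rw [RCLike.norm_ofReal, abs_of_nonneg (by positivity)]
  have hb : ∀ (σ : W) (M i : ℕ),
      ‖(((1 / 2 : ℝ) ^ i : ℝ) : 𝕜) • dl 𝕜 (Sum.inr (σ, Sum.inr i, M) : Dd W)‖ ≤ (1 / 2 : ℝ) ^ i := by
    intro σ M i
    rw [norm_smul, hc]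
    exact mul_le_of_le_one_right (by positivity) (hdl _)
  have hsm : ∀ (σ : W) (M : ℕ), Summable (fun i : ℕ =>
      (((1 / 2 : ℝ) ^ i : ℝ) : 𝕜) • dl 𝕜 (Sum.inr (σ, Sum.inr i, M) : Dd W)) :=
    fun σ M => Summable.of_norm_bounded hgeo (hb σ M)
  refine ⟨fun σ M => dl 𝕜 (Sum.inl σ) - ∑' i : ℕ,
    (((1 / 2 : ℝ) ^ i : ℝ) : 𝕜) • dl 𝕜 (Sum.inr (σ, Sum.inr i, M) : Dd W), ?_, ?_, ?_⟩
  · intro σ M
    refine (norm_sub_le _ _).trans ?_
    have h1 : ‖∑' i : ℕ, (((1 / 2 : ℝ) ^ i : ℝ) : 𝕜) • dl 𝕜 (Sum.inr (σ, Sum.inr i, M) : Dd W)‖ ≤ 2 :=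
      tsum_of_norm_bounded hasSum_geometric_two (hb σ M)
    have h2 := hdl (Sum.inl σ)
    linarith
  · intro σ φ
    have h1 : ∀ M : ℕ, φ (ι (dl 𝕜 (Sum.inl σ) - ∑' i : ℕ,
        (((1 / 2 : ℝ) ^ i : ℝ) : 𝕜) • dl 𝕜 (Sum.inr (σ, Sum.inr i, M) : Dd W))) =
        φ (ι (dl 𝕜 (Sum.inl σ))) - ∑' i : ℕ,
        (((1 / 2 : ℝ) ^ i : ℝ) : 𝕜) • φ (ι (dl 𝕜 (Sum.inr (σ, Sum.inr i, M) : Dd W))) := by
      intro M
      rw [map_sub, map_sub, ι.map_tsum (hsm σ M)]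
      have h2 : Summable (fun i : ℕ =>
          ι ((((1 / 2 : ℝ) ^ i : ℝ) : 𝕜) • dl 𝕜 (Sum.inr (σ, Sum.inr i, M) : Dd W))) :=
        (hsm σ M).map ι ι.continuous
      rw [φ.map_tsum h2]
      simp only [map_smul]
    simp only [h1]
    have h3 : HasSum (fun i : ℕ => (((1 / 2 : ℝ) ^ i : ℝ) : 𝕜) •
        (∑ k ∈ Iblk i, v (k, σ, ⊤)) φ) (φ (ι (dl 𝕜 (Sum.inl σ))) - hh σ φ) := by
      have h4 := (hl.hh_sum σ).mapL (ContinuousLinearMap.apply 𝕜 𝕜 φ)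
      simpa using h4
    have h5 : hh σ φ = φ (ι (dl 𝕜 (Sum.inl σ))) - ∑' i : ℕ, (((1 / 2 : ℝ) ^ i : ℝ) : 𝕜) •
        (∑ k ∈ Iblk i, v (k, σ, ⊤)) φ := by
      rw [h3.tsum_eq]
      ring
    rw [h5]
    refine Tendsto.const_sub _ ?_
    refine tendsto_tsum_of_dominated_convergence (bound := fun i => (1 / 2 : ℝ) ^ i * ‖φ‖)
      (hgeo.mul_right _) ?_ ?_
    · intro i
      refine Tendsto.const_smul ?_ _
      have h6 : ∀ M : ℕ, φ (ι (dl 𝕜 (Sum.inr (σ, Sum.inr i, M) : Dd W))) =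
          ∑ k ∈ Iblk i, φ (ι (dl 𝕜 (Sum.inr (σ, Sum.inl k, M) : Dd W))) := by
        intro M
        rw [blk_eq hs, map_sum]
      simp only [h6]
      have h7 : (∑ k ∈ Iblk i, v (k, σ, ⊤)) φ = ∑ k ∈ Iblk i, v (k, σ, ⊤) φ := by
        simp
      rw [h7]
      refine tendsto_finsetSum _ (fun k _ => ?_)
      have h8 := hl.v_lim (k, σ, ⊤) φ
      refine h8.congr (fun n => ?_)
      have h9 : trc ⊤ n = n := by
        unfold trc
        simp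
      simp only [apx, h9]
    · refine Filter.Eventually.of_forall (fun M i => ?_)
      rw [norm_smul, hc]
      refine mul_le_mul_of_nonneg_left ?_ (by positivity)
      calc ‖φ (ι (dl 𝕜 (Sum.inr (σ, Sum.inr i, M) : Dd W)))‖
          ≤ ‖φ‖ * ‖ι (dl 𝕜 (Sum.inr (σ, Sum.inr i, M) : Dd W))‖ := φ.le_opNorm _
        _ ≤ ‖φ‖ * 1 := mul_le_mul_of_nonneg_left (hι _) (norm_nonneg _)
        _ = ‖φ‖ := mul_one _
  · -- pointwise values
    have hev : ∀ (σ : W) (M : ℕ) (o : Om W), T (dl 𝕜 (Sum.inl σ) - ∑' i : ℕ,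
        (((1 / 2 : ℝ) ^ i : ℝ) : 𝕜) • dl 𝕜 (Sum.inr (σ, Sum.inr i, M) : Dd W)) o =
        ((val E (Sum.inl σ) o : ℝ) : 𝕜) -
          (((1 / 2 : ℝ) ^ (blk o.2.1) * val E (Sum.inr (σ, Sum.inr (blk o.2.1), M)) o : ℝ) : 𝕜) := by
      intro σ M o
      let L : Li 𝕜 (Om W) →ₗ[𝕜] 𝕜 :=
        { toFun := fun f => f o
          map_add' := fun f g => by simp
          map_smul' := fun c f => by simp }
      let Lc : Li 𝕜 (Om W) →L[𝕜] 𝕜 := L.mkContinuous 1 (fun f => by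
        rw [one_mul]
        exact lp.norm_apply_le_norm (by simp) f o)
      have hLc : ∀ f, Lc f = f o := fun f => rfl
      have key : ∀ (a : 𝕜) (d : Dd W), Lc (T (a • dl 𝕜 d)) = a * ((val E d o : ℝ) : 𝕜) := by
        intro a d
        rw [map_smul, map_smul, smul_eq_mul]
        congr 1
        exact hT1 d o
      have key1 : ∀ (d : Dd W), Lc (T (dl 𝕜 d)) = ((val E d o : ℝ) : 𝕜) := fun d => hT1 d o
      rw [← hLc, map_sub, map_sub, T.map_tsum (hsm σ M)]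
      have h2 : Summable (fun i : ℕ =>
          T ((((1 / 2 : ℝ) ^ i : ℝ) : 𝕜) • dl 𝕜 (Sum.inr (σ, Sum.inr i, M) : Dd W))) :=
        (hsm σ M).map T T.continuous
      rw [Lc.map_tsum h2]
      simp only [key, key1]
      congr 1
      rw [tsum_eq_single (blk o.2.1)]
      · push_cast
        ring
      · intro i hi
        have h3 : val E (Sum.inr (σ, Sum.inr i, M)) o = 0 := by
          simp only [val, Hm]
          rw [if_neg]
          rintro ⟨h4, -⟩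
          exact hi h4.symm
        rw [h3]
        simp
    have hval2 : ∀ (σ : W) (M : ℕ) (o : Om W), (∃ m ≤ M, E o.2.1 σ m o.1) →
        val E (Sum.inr (σ, Sum.inr (blk o.2.1), M)) o = 1 := by
      intro σ M o h
      simp only [val, Hm]
      rw [if_pos ⟨rfl, h⟩]
    have hval3 : ∀ (σ : W) (M : ℕ) (o : Om W), ¬ (∃ m ≤ M, E o.2.1 σ m o.1) →
        val E (Sum.inr (σ, Sum.inr (blk o.2.1), M)) o = 0 := by
      intro σ M o h
      simp only [val, Hm]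
      rw [if_neg (fun h' => h h'.2)]
    constructor
    · intro σ M o ho
      rw [hev]
      have h1 : val E (Sum.inl σ) o = (1 / 2) ^ (blk o.2.1) := by
        simp only [val]
        rw [if_pos]
        rcases ho with ho | ⟨m, -, hm⟩
        · exact Or.inr ho
        · exact Or.inl ⟨m, hm⟩
      have h2 : ¬ (∃ m ≤ M, E o.2.1 σ m o.1) := by
        rintro ⟨m, hm, hE⟩
        rcases ho with ⟨-, ho⟩ | ⟨m', hm', hE'⟩
        · rw [ho] at hE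
          exact absurd (hs.tree.len_lt hE) (lt_irrefl _)
        · have := hs.tree.uniq hE hE'
          omega
      rw [h1, hval3 σ M o h2]
      simp
    · intro σ M o ho
      rw [hev]
      by_cases h2 : ∃ m ≤ M, E o.2.1 σ m o.1
      · have h1 : val E (Sum.inl σ) o = (1 / 2) ^ (blk o.2.1) := by
          simp only [val]
          obtain ⟨m, -, hm⟩ := h2
          rw [if_pos (Or.inl ⟨m, hm⟩)]
        rw [h1, hval2 σ M o h2]
        simp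
      · have h1 : val E (Sum.inl σ) o = 0 := by
          simp only [val]
          rw [if_neg]
          rintro (⟨m, hm⟩ | h3)
          · rcases Nat.lt_or_ge M m with h4 | h4
            · exact ho (Or.inr ⟨m, h4, hm⟩)
            · exact h2 ⟨m, h4, hm⟩
          · exact ho (Or.inl h3)
        rw [h1, hval3 σ M o h2]
        simp

end WCGBd
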