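import Pool.Agent.WCGBd.Defs
import Pool.Agent.WCGBd.JD0
import Pool.Agent.WCGBd.JD6a
import Pool.Agent.WCGBd.JD7a

set_option autoImplicit false

namespace WCGBd

open Filter Topology Set
open scoped ENNReal

private theorem sum_one_le {𝕜 J : Type*} [RCLike 𝕜] (F : Finset J) (f : J → 𝕜)
    (h1 : ∀ j ∈ F, ‖f j‖ ≤ 1) (h2 : ∀ i ∈ F, ∀ j ∈ F, i ≠ j → f i ≠ 0 → f j = 0) :
    ‖∑ j ∈ F, f j‖ ≤ 1 := by
  classical
  by_cases h : ∃ i ∈ F, f i ≠ 0
  · obtain ⟨i, hi, hfi⟩ := h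
    rw [Finset.sum_eq_single i (fun j hj hji => h2 i hi j hj (Ne.symm hji) hfi)
      (fun h => absurd hi h)]
    exact h1 i hi
  · push Not at h
    rw [Finset.sum_eq_zero h, norm_zero]
    exact zero_le_one

private theorem pair_bdd {W : Type} {E : ℕ → W → ℕ → W → Prop} {len : W → ℕ → ℕ}
    (ht : TreeData E len) (σ τ : W) : ∃ M0 : ℕ, ∀ k m, E k σ m τ → m ≤ M0 := by
  by_cases h : ∃ k m, E k σ m τ
  · obtain ⟨k, m, h⟩ := h
    refine ⟨m, fun k' m' h' => ?_⟩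
    have : k = k' := ht.disj h h'
    subst this
    exact (ht.uniq h h').ge
  · exact ⟨0, fun k m h' => absurd ⟨k, m, h'⟩ h⟩

private theorem fin_bdd {W : Type} {E : ℕ → W → ℕ → W → Prop} {len : W → ℕ → ℕ}
    (ht : TreeData E len) (F : Finset W) :
    ∃ M0 : ℕ, ∀ σ ∈ F, ∀ τ ∈ F, ∀ k m, E k σ m τ → m ≤ M0 := by
  choose f hf using fun p : W × W => pair_bdd ht p.1 p.2
  refine ⟨(F ×ˢ F).sup f, fun σ hσ τ hτ k m h => ?_⟩
  exact (hf (σ, τ) k m h).trans (Finset.le_sup (f := f) (Finset.mk_mem_product hσ hτ))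

/-- Use `wlim_sum_bound` with `w` from `hh_wlim`, `α = 3 * card`, `β = 1`. Let `F` be a finite set of nodes. For `M` larger than all `m` with `E k σ₁ m σ₂` for some `k` and `σ₁, σ₂ ∈ F` (for given `σ₁, σ₂` there is at most one pair `(k, m)` by `disj` and `uniq`) and `σ₁ ≠ σ₂` in `F`
the functions `T (w σ₁ M)`, `T (w σ₂ M)` are not both nonzero at `o = (σ', k, s)`: if `σ' = σ₁` and `E k σ₂ m σ'` then `m ≤ M`; if `E k σ₁ m₁ σ'` and `E k σ₂ m₂ σ'` with `m₁, m₂ > M` then by `tree` `E k σ₁ m₁ σ₂` or `E k σ₂ m₂ σ₁`, so `m₁ ≤ M` or `m₂ ≤ M`.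
So at each point the sum has at most one nonzero term, of norm at most `1`. -/
theorem wu_h {𝕜 W X : Type} [RCLike 𝕜] [NormedAddCommGroup X] [NormedSpace 𝕜 X]
    {E : ℕ → W → ℕ → W → Prop} {len : W → ℕ → ℕ}
    {T : L1 𝕜 (Dd W) →L[𝕜] Li 𝕜 (Om W)} {ι : L1 𝕜 (Dd W) →L[𝕜] X} {S : X →L[𝕜] Li 𝕜 (Om W)}
    (hs : Setting E len T ι S) {v : Aa W → StrongDual 𝕜 (StrongDual 𝕜 X)}
    {br : (k : ℕ) → (ℕ → W × ℕ) → StrongDual 𝕜 (StrongDual 𝕜 X)}
    {hh : W → StrongDual 𝕜 (StrongDual 𝕜 X)} (hl : Lims E len ι v br hh) : WU 𝕜 3 1 hh := by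
  classical
  intro F θ hθ n0
  obtain ⟨w, hw1, hw2, hw3, hw4⟩ := hh_wlim hs hl
  obtain ⟨-, -, -, -, hT⟩ := T_basic hs.isT
  obtain ⟨M0, hM0⟩ := fin_bdd hs.tree F
  refine wlim_sum_bound hs.fac F w hh (fun j _ => hw2 j) θ ((F.card : ℝ) * 3) 1 (fun n => ?_) ?_ n0
  · calc ‖∑ j ∈ F, θ j • w j n‖ ≤ ∑ j ∈ F, ‖θ j • w j n‖ := norm_sum_le _ _
      _ ≤ ∑ _j ∈ F, (3 : ℝ) := by
        refine Finset.sum_le_sum fun j _ => ?_
        rw [norm_smul]
        calc ‖θ j‖ * ‖w j n‖ ≤ 1 * 3 :=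
              mul_le_mul (hθ j) (hw1 j n) (norm_nonneg _) zero_le_one
          _ = 3 := one_mul _
      _ = (F.card : ℝ) * 3 := by rw [Finset.sum_const, nsmul_eq_mul]
  · filter_upwards [eventually_ge_atTop M0] with n hn
    refine hT _ 1 zero_le_one fun o => ?_
    have hexp : T (∑ j ∈ F, θ j • w j n) o = ∑ j ∈ F, θ j * T (w j n) o := by
      rw [map_sum, lp.coeFn_sum, Finset.sum_apply]
      refine Finset.sum_congr rfl fun j _ => ?_
      rw [map_smul, lp.coeFn_smul, Pi.smul_apply, smul_eq_mul]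
    rw [hexp]
    have hP : ∀ j, θ j * T (w j n) o ≠ 0 →
        ((o.2.2 = true ∧ o.1 = j) ∨ ∃ m > n, E o.2.1 j m o.1) := by
      intro j hj
      by_contra hc
      exact hj (by rw [hw4 j n o hc, mul_zero])
    refine sum_one_le F _ (fun j _ => ?_) fun i hi j hj hij hne => ?_
    · rw [norm_mul]
      have hT1 : ‖T (w j n) o‖ ≤ 1 := by
        by_cases hc : (o.2.2 = true ∧ o.1 = j) ∨ ∃ m > n, E o.2.1 j m o.1
        · rw [hw3 j n o hc, RCLike.norm_ofReal, abs_of_nonneg (by positivity)]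
          exact pow_le_one₀ (by norm_num) (by norm_num)
        · rw [hw4 j n o hc, norm_zero]
          exact zero_le_one
      calc ‖θ j‖ * ‖T (w j n) o‖ ≤ 1 * 1 :=
            mul_le_mul (hθ j) hT1 (norm_nonneg _) zero_le_one
        _ = 1 := one_mul _
    · by_contra hne'
      rcases hP i hne with ⟨-, h1⟩ | ⟨m, hm, h1⟩ <;> rcases hP j hne' with ⟨-, h2⟩ | ⟨m', hm', h2⟩
      · exact hij (h1.symm.trans h2)
      · rw [h1] at h2
        have := hM0 j hj i hi _ _ h2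
        omega
      · rw [h2] at h1
        have := hM0 i hi j hj _ _ h1
        omega
      · rcases hs.tree.tree h1 h2 with h | h | h
        · exact hij h
        · have := hM0 i hi j hj _ _ h
          omega
        · have := hM0 j hj i hi _ _ h
          omega

end WCGBd
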