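import Pool.Agent.WCGBd.Defs
import Pool.Agent.WCGBd.JA5
import Pool.Agent.WCGBd.JB6
import Pool.Agent.WCGBd.JB7
import Pool.Agent.WCGBd.JB9
import Pool.Agent.WCGBd.JD14
import Pool.Agent.WCGBd.JD7

set_option autoImplicit false

namespace WCGBd

open Filter Topology Set
open scoped ENNReal

private theorem x_mem_lim {Z : Type} [NormedAddCommGroup Z] (f : ℕ → Z) (g : Z) (N : Set Z)
    (hN : IsClosed N) (b : ℕ → ℝ) (hb : Tendsto b atTop (𝓝 0)) (h : ∀ n, ‖f n - g‖ ≤ b n)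
    (hf : ∀ n, f n ∈ N) : g ∈ N := by
  have h1 : Tendsto f atTop (𝓝 g) :=
    tendsto_iff_norm_sub_tendsto_zero.2 (squeeze_zero (fun n => norm_nonneg _) h hb)
  exact hN.mem_of_tendsto h1 (Eventually.of_forall hf)

/-- For `A`-indexed families use `push_li`: for each `k`, with `R_k φ σ = v (k, σ, ⊤) φ` (from `fam_op`), `ψ.comp R_k = ψ'.comp R ∈ N` for the push forward `ψ'` of `ψ` under `σ ↦ (k, σ, ⊤)` (`v_mem`; `R` from `fam_op`).
With `R_h φ σ = hh σ φ`: `ψ.comp R_h ∈ N` by `c0_type` (`wu_h`, `wu_finite` applied to the evaluation functional at `φ`). By `hl.hh_sum`,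
`R_x φ σ = hh σ φ + ∑' i, (1/2)^i * ∑ k ∈ Iblk i, v (k, σ, ⊤) φ`, and `‖R_x - R_h - ∑ i < n, (1/2)^i • ∑ k ∈ Iblk i, R_k‖ ≤ 2 * (1/2)^n` by `hl.blk_norm`; `N` is closed. -/
theorem x_mem {𝕜 W X : Type} [RCLike 𝕜] [NormedAddCommGroup X] [NormedSpace 𝕜 X]
    {E : ℕ → W → ℕ → W → Prop} {len : W → ℕ → ℕ}
    {T : L1 𝕜 (Dd W) →L[𝕜] Li 𝕜 (Om W)} {ι : L1 𝕜 (Dd W) →L[𝕜] X} {S : X →L[𝕜] Li 𝕜 (Om W)}
    (hs : Setting E len T ι S) {v : Aa W → StrongDual 𝕜 (StrongDual 𝕜 X)}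
    {br : (k : ℕ) → (ℕ → W × ℕ) → StrongDual 𝕜 (StrongDual 𝕜 X)}
    {hh : W → StrongDual 𝕜 (StrongDual 𝕜 X)} (hl : Lims E len ι v br hh)
    (N : Submodule 𝕜 (StrongDual 𝕜 (StrongDual 𝕜 X)))
    (hN : IsClosed (N : Set (StrongDual 𝕜 (StrongDual 𝕜 X)))) (hvN : ∀ a, v a ∈ N)
    (hbN : ∀ k b, IsBr E len k b → br k b ∈ N) (hhN : ∀ σ, hh σ ∈ N)
    (Rx : StrongDual 𝕜 X →L[𝕜] Li 𝕜 W) (hRx : ∀ φ σ, Rx φ σ = φ (ι (dl 𝕜 (Sum.inl σ))))
    (ψ : StrongDual 𝕜 (Li 𝕜 W)) : ψ.comp Rx ∈ N := by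
  classical
  -- the operators
  have hvn : ∀ a : Aa W, ‖v a‖ ≤ 1 := hl.v_norm
  obtain ⟨R, hR⟩ := fam_op (𝕜 := 𝕜) (A := Aa W) (Y := StrongDual 𝕜 X) v 1 hvn
  have hRk : ∀ k : ℕ, ∃ Q : StrongDual 𝕜 X →L[𝕜] Li 𝕜 W, ∀ φ σ, Q φ σ = v (k, σ, ⊤) φ := fun k =>
    fam_op (𝕜 := 𝕜) (A := W) (Y := StrongDual 𝕜 X) (fun σ => v (k, σ, ⊤)) 1 (fun σ => hvn _)
  choose Q hQ using hRk
  obtain ⟨H, hH⟩ := fam_op (𝕜 := 𝕜) (A := W) (Y := StrongDual 𝕜 X) hh 3 hl.hh_norm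
  -- single types
  have hQN : ∀ k, ψ.comp (Q k) ∈ N := by
    intro k
    obtain ⟨ψ', hψ'⟩ := push_li (𝕜 := 𝕜) (fun σ : W => ((k, σ, ⊤) : Aa W)) ψ
    have e : ψ.comp (Q k) = ψ'.comp R := by
      refine ContinuousLinearMap.ext fun φ => ?_
      rw [ContinuousLinearMap.comp_apply, ContinuousLinearMap.comp_apply]
      refine (hψ' (R φ) (Q k φ) fun σ => ?_).symm
      rw [hQ, hR]
    rw [e]
    exact v_mem hs hl N hN hvN hbN R hR ψ'
  -- the part `hh`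
  have hHN : ψ.comp H ∈ N := by
    refine c0_type H N hN ?_ ?_ ψ
    · intro φ ε hε
      have h1 := wu_finite (𝕜 := 𝕜) (Z := StrongDual 𝕜 (StrongDual 𝕜 X)) hh (wu_h hs hl)
        (NormedSpace.inclusionInDoubleDual 𝕜 (StrongDual 𝕜 X) φ) ε hε
      refine h1.subset fun σ hσ => ?_
      have hσ' : ε ≤ ‖H φ σ‖ := hσ
      rw [hH] at hσ'
      show ε ≤ ‖NormedSpace.inclusionInDoubleDual 𝕜 (StrongDual 𝕜 X) φ (hh σ)‖
      rw [NormedSpace.dual_def]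
      exact hσ'
    · intro σ
      have e : (evA 𝕜 σ).comp H = hh σ := by
        refine ContinuousLinearMap.ext fun φ => ?_
        rw [ContinuousLinearMap.comp_apply]
        show H φ σ = hh σ φ
        exact hH φ σ
      rw [e]
      exact hhN σ
  -- the approximations
  set c : ℕ → 𝕜 := fun i => (((1 / 2 : ℝ) ^ i : ℝ) : 𝕜) with hc
  set P : ℕ → (StrongDual 𝕜 X →L[𝕜] Li 𝕜 W) :=
    fun n => H + ∑ i ∈ Finset.range n, c i • ∑ k ∈ Iblk i, Q k with hP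
  have hPN : ∀ n, ψ.comp (P n) ∈ N := by
    intro n
    have e : ψ.comp (P n) = ψ.comp H + ∑ i ∈ Finset.range n, c i • ∑ k ∈ Iblk i, ψ.comp (Q k) := by
      refine ContinuousLinearMap.ext fun φ => ?_
      simp only [hP, ContinuousLinearMap.comp_apply, ContinuousLinearMap.add_apply,
        ContinuousLinearMap.sum_apply, ContinuousLinearMap.smul_apply, map_add, map_sum, map_smul]
    rw [e]
    exact N.add_mem hHN (N.sum_mem fun i _ => N.smul_mem _ (N.sum_mem fun k _ => hQN k))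
  have hbd : ∀ n, ‖P n - Rx‖ ≤ 2 * (1 / 2 : ℝ) ^ n := by
    intro n
    refine ContinuousLinearMap.opNorm_le_bound _ (by positivity) fun φ => ?_
    refine lp.norm_le_of_forall_le (by positivity) fun σ => ?_
    have hsum := (hl.hh_sum σ).mapL (NormedSpace.inclusionInDoubleDual 𝕜 (StrongDual 𝕜 X) φ)
    have hsum' : HasSum (fun i : ℕ => c i * ∑ k ∈ Iblk i, v (k, σ, ⊤) φ)
        (φ (ι (dl 𝕜 (Sum.inl σ))) - hh σ φ) := by
      have e1 : (NormedSpace.inclusionInDoubleDual 𝕜 (StrongDual 𝕜 X) φ)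
          (NormedSpace.inclusionInDoubleDual 𝕜 X (ι (dl 𝕜 (Sum.inl σ))) - hh σ) =
          φ (ι (dl 𝕜 (Sum.inl σ))) - hh σ φ := by
        rw [NormedSpace.dual_def, ContinuousLinearMap.sub_apply, NormedSpace.dual_def]
      rw [e1] at hsum
      refine hsum.congr_fun ?_
      intro i
      rw [NormedSpace.dual_def, ContinuousLinearMap.smul_apply, ContinuousLinearMap.sum_apply,
        smul_eq_mul]
    have hfb : ∀ i : ℕ, ‖c i * ∑ k ∈ Iblk i, v (k, σ, ⊤) φ‖ ≤ ‖φ‖ * (1 / 2 : ℝ) ^ i := by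
      intro i
      have h1 : ‖∑ k ∈ Iblk i, v (k, σ, ⊤) φ‖ ≤ ‖φ‖ := by
        have h2 := (∑ k ∈ Iblk i, v (k, σ, ⊤)).le_opNorm φ
        rw [ContinuousLinearMap.sum_apply] at h2
        refine h2.trans ?_
        calc ‖∑ k ∈ Iblk i, v (k, σ, ⊤)‖ * ‖φ‖ ≤ 1 * ‖φ‖ :=
              mul_le_mul_of_nonneg_right (hl.blk_norm σ i) (norm_nonneg _)
          _ = ‖φ‖ := one_mul _
      have h3 : ‖c i‖ = (1 / 2 : ℝ) ^ i := by
        rw [hc]
        simp only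
        rw [RCLike.norm_ofReal, abs_of_nonneg (by positivity)]
      rw [norm_mul, h3, mul_comm]
      exact mul_le_mul_of_nonneg_right h1 (by positivity)
    have hgeo := norm_sub_le_of_geometric_bound_of_hasSum (r := (1 / 2 : ℝ)) (by norm_num) hfb
      hsum' n
    have e2 : ((P n - Rx) φ) σ = ∑ i ∈ Finset.range n, c i * ∑ k ∈ Iblk i, v (k, σ, ⊤) φ -
        (φ (ι (dl 𝕜 (Sum.inl σ))) - hh σ φ) := by
      have e3 : ((P n - Rx) φ) σ = (P n φ) σ - Rx φ σ := by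
        rw [ContinuousLinearMap.sub_apply, lp.coeFn_sub, Pi.sub_apply]
      have e4 : (P n φ) σ = hh σ φ + ∑ i ∈ Finset.range n, c i * ∑ k ∈ Iblk i, v (k, σ, ⊤) φ := by
        have e5 : evA 𝕜 σ (P n φ) = (P n φ) σ := rfl
        rw [← e5]
        simp only [hP, ContinuousLinearMap.add_apply, ContinuousLinearMap.sum_apply,
          ContinuousLinearMap.smul_apply, map_add, map_sum, map_smul, smul_eq_mul]
        have e6 : evA 𝕜 σ (H φ) = hh σ φ := hH φ σ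
        have e7 : ∀ k, evA 𝕜 σ (Q k φ) = v (k, σ, ⊤) φ := fun k => hQ k φ σ
        rw [e6]
        simp only [e7]
      rw [e3, e4, hRx]
      ring
    rw [e2]
    refine hgeo.trans (le_of_eq ?_)
    ring
  have h0 : Tendsto (fun n : ℕ => ‖ψ‖ * (2 * (1 / 2 : ℝ) ^ n)) atTop (𝓝 0) := by
    have := (tendsto_pow_atTop_nhds_zero_of_lt_one (r := (1 / 2 : ℝ)) (by norm_num)
      (by norm_num)).const_mul 2 |>.const_mul ‖ψ‖
    simpa using this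
  have hb : ∀ n, ‖ψ.comp (P n) - ψ.comp Rx‖ ≤ ‖ψ‖ * (2 * (1 / 2 : ℝ) ^ n) := by
    intro n
    rw [← ContinuousLinearMap.comp_sub]
    exact (ContinuousLinearMap.opNorm_comp_le _ _).trans
      (mul_le_mul_of_nonneg_left (hbd n) (norm_nonneg _))
  exact x_mem_lim (Z := StrongDual 𝕜 (StrongDual 𝕜 X)) (fun n => ψ.comp (P n)) (ψ.comp Rx) N hN _ h0
    hb hPN

end WCGBd
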