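import Pool.Agent.WCGBd.Defs
import Pool.Agent.WCGBd.JA5
import Pool.Agent.WCGBd.JD0

set_option autoImplicit false

namespace WCGBd

open Filter Topology Set
open scoped ENNReal

/-- Otherwise there are infinitely many `i` with some `σ i, M i` such that `‖φ (ι (dl (inr (σ i, inr i, M i))))‖ ≥ ε`. The functions `T (dl (inr (σ i, inr i, M i)))` for different `i` are supported in the points of different
blocks, so by `Fac.upper` the family satisfies `WU 𝕜 1 1`, contradicting `wu_finite`. -/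
theorem y_decay {𝕜 W X : Type} [RCLike 𝕜] [NormedAddCommGroup X] [NormedSpace 𝕜 X]
    {E : ℕ → W → ℕ → W → Prop} {len : W → ℕ → ℕ}
    {T : L1 𝕜 (Dd W) →L[𝕜] Li 𝕜 (Om W)} {ι : L1 𝕜 (Dd W) →L[𝕜] X} {S : X →L[𝕜] Li 𝕜 (Om W)}
    (hs : Setting E len T ι S) (φ : StrongDual 𝕜 X) (ε : ℝ) (hε : 0 < ε) :
    ∃ i0 : ℕ, ∀ i ≥ i0, ∀ (σ : W) (M : ℕ), ‖φ (ι (dl 𝕜 (Sum.inr (σ, Sum.inr i, M))))‖ < ε := by
  classical
  by_contra hcon
  push Not at hcon
  obtain ⟨hTb, hdl, -, hval, hTle⟩ := T_basic hs.isT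
  let I : Set ℕ := {i | ∃ (σ : W) (M : ℕ), ε ≤ ‖φ (ι (dl 𝕜 (Sum.inr (σ, Sum.inr i, M))))‖}
  have hI : I.Infinite := by
    intro hfin
    obtain ⟨b, hb⟩ := hfin.bddAbove
    obtain ⟨i, hi, σ, M, h⟩ := hcon (b + 1)
    have : i ≤ b := hb ⟨σ, M, h⟩
    omega
  have hch : ∀ j : I, ∃ (p : W × ℕ), ε ≤ ‖φ (ι (dl 𝕜 (Sum.inr (p.1, Sum.inr j.1, p.2))))‖ := by
    rintro ⟨j, σ, M, h⟩
    exact ⟨(σ, M), h⟩
  choose p hp using hch
  let d : I → Dd W := fun j => Sum.inr ((p j).1, Sum.inr j.1, (p j).2)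
  have hWU : WU 𝕜 1 1 (fun j : I => ι (dl 𝕜 (d j))) := by
    intro F θ hθ n
    have h1 : ∑ j ∈ F, θ j • ι (dl 𝕜 (d j)) = ι (∑ j ∈ F, θ j • dl 𝕜 (d j)) := by
      rw [map_sum]
      exact Finset.sum_congr rfl fun j _ => (map_smul ι _ _).symm
    rw [h1]
    refine (hs.fac.upper n _).trans (max_le_max ?_ ?_)
    · have h2 : ‖∑ j ∈ F, θ j • dl 𝕜 (d j)‖ ≤ (F.card : ℝ) * 1 := by
        refine (norm_sum_le _ _).trans ?_
        rw [← nsmul_eq_mul]
        refine Finset.sum_le_card_nsmul _ _ _ fun j _ => ?_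
        rw [norm_smul]
        exact mul_le_one₀ (hθ j) (norm_nonneg _) (hdl _)
      gcongr
    · have h3 : ‖T (∑ j ∈ F, θ j • dl 𝕜 (d j))‖ ≤ 1 := by
        refine hTle _ 1 zero_le_one fun o => ?_
        have h4 : T (∑ j ∈ F, θ j • dl 𝕜 (d j)) o
            = ∑ j ∈ F, θ j * ((val E (d j) o : ℝ) : 𝕜) := by
          rw [map_sum]
          rw [lp.coeFn_sum, Finset.sum_apply]
          refine Finset.sum_congr rfl fun j _ => ?_
          rw [map_smul, lp.coeFn_smul, Pi.smul_apply, hTb, smul_eq_mul]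
        rw [h4]
        have h5 : ∀ j ∈ F, (j : ℕ) ≠ blk o.2.1 → θ j * ((val E (d j) o : ℝ) : 𝕜) = 0 := by
          intro j _ hj
          have : val E (d j) o = 0 := by
            simp only [val, d]
            rw [if_neg]
            rintro ⟨h, -⟩
            exact hj h.symm
          rw [this]; simp
        by_cases hex : ∃ j ∈ F, (j : ℕ) = blk o.2.1
        · obtain ⟨j, hjF, hj⟩ := hex
          rw [Finset.sum_eq_single_of_mem j hjF]
          · rw [norm_mul, RCLike.norm_ofReal, abs_of_nonneg (hval _ _).1]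
            exact mul_le_one₀ (hθ j) (hval _ _).1 (hval _ _).2
          · intro k hk hkj
            refine h5 k hk fun h => hkj ?_
            exact Subtype.ext (h.trans hj.symm)
        · push Not at hex
          rw [Finset.sum_eq_zero fun j hj => h5 j hj (hex j hj)]
          simp
      gcongr
  have hfin := wu_finite _ hWU φ ε hε
  have huniv : {j : I | ε ≤ ‖φ (ι (dl 𝕜 (d j)))‖} = Set.univ := by
    ext j
    simpa using hp j
  rw [huniv, Set.finite_univ_iff] at hfin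
  exact hI (Set.toFinite I)

end WCGBd
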