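import Pool.Agent.WCGBd.Defs
import Pool.Agent.WCGBd.JB12
import Pool.Agent.WCGBd.JB2
import Pool.Agent.WCGBd.JB9
import Pool.Agent.WCGBd.JD10
import Pool.Agent.WCGBd.JD14

set_option autoImplicit false

namespace WCGBd

open Filter Topology Set
open scoped ENNReal

/-- `Ry φ (σ, inl k, M) = v (k, σ, (M : ℕ∞)) φ` by `v_coe`. With `pull_li` (along the injection `f : (σ, k, M) ↦ (σ, inl k, M)` on `W × ℕ × ℕ`, range `{d | ∃ k, d.2.1 = inl k}`) and `push_li` (along `(σ, k, M) ↦ (k, σ, (M : ℕ∞))`) it is `ψ'.comp R ∈ N` by `v_mem`, `R` from `fam_op`. -/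
theorem y_mem_inl {𝕜 W X : Type} [RCLike 𝕜] [NormedAddCommGroup X] [NormedSpace 𝕜 X]
    {E : ℕ → W → ℕ → W → Prop} {len : W → ℕ → ℕ}
    {T : L1 𝕜 (Dd W) →L[𝕜] Li 𝕜 (Om W)} {ι : L1 𝕜 (Dd W) →L[𝕜] X} {S : X →L[𝕜] Li 𝕜 (Om W)}
    (hs : Setting E len T ι S) {v : Aa W → StrongDual 𝕜 (StrongDual 𝕜 X)}
    {br : (k : ℕ) → (ℕ → W × ℕ) → StrongDual 𝕜 (StrongDual 𝕜 X)}
    {hh : W → StrongDual 𝕜 (StrongDual 𝕜 X)} (hl : Lims E len ι v br hh)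
    (N : Submodule 𝕜 (StrongDual 𝕜 (StrongDual 𝕜 X)))
    (hN : IsClosed (N : Set (StrongDual 𝕜 (StrongDual 𝕜 X)))) (hvN : ∀ a, v a ∈ N)
    (hbN : ∀ k b, IsBr E len k b → br k b ∈ N)
    (Ry : StrongDual 𝕜 X →L[𝕜] Li 𝕜 (W × (ℕ ⊕ ℕ) × ℕ))
    (hRy : ∀ φ d, Ry φ d = φ (ι (dl 𝕜 (Sum.inr d))))
    (ψ : StrongDual 𝕜 (Li 𝕜 (W × (ℕ ⊕ ℕ) × ℕ))) :
    (rs {d | ∃ k, d.2.1 = Sum.inl k} ψ).comp Ry ∈ N := by
  have hf : Function.Injective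
      (fun a : W × ℕ × ℕ => ((a.1, Sum.inl a.2.1, a.2.2) : W × (ℕ ⊕ ℕ) × ℕ)) := by
    rintro ⟨σ, k, M⟩ ⟨σ', k', M'⟩ h
    simp only [Prod.mk.injEq, Sum.inl.injEq] at h
    obtain ⟨h1, h2, h3⟩ := h
    subst h1 h2 h3
    rfl
  have hrange : Set.range (fun a : W × ℕ × ℕ => ((a.1, Sum.inl a.2.1, a.2.2) : W × (ℕ ⊕ ℕ) × ℕ)) =
      {d | ∃ k, d.2.1 = Sum.inl k} := by
    ext ⟨σ, h, M⟩
    simp only [Set.mem_range, Set.mem_ofPred_eq]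
    constructor
    · rintro ⟨⟨σ', k, M'⟩, h1⟩
      simp only [Prod.mk.injEq] at h1
      exact ⟨k, h1.2.1.symm⟩
    · rintro ⟨k, h1⟩
      exact ⟨(σ, k, M), by simp [h1]⟩
  obtain ⟨ψ1, hψ1⟩ := pull_li _ hf ψ
  obtain ⟨ψ2, hψ2⟩ := push_li (fun a : W × ℕ × ℕ => ((a.2.1, a.1, (a.2.2 : ℕ∞)) : Aa W)) ψ1
  obtain ⟨R, hR⟩ := fam_op v 1 hl.v_norm
  have key : (rs {d | ∃ k, d.2.1 = Sum.inl k} ψ).comp Ry = ψ2.comp R := by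
    ext φ
    have hmem : Memℓp (fun a : W × ℕ × ℕ => (Ry φ (a.1, Sum.inl a.2.1, a.2.2) : 𝕜)) ∞ := by
      refine memℓp_infty ⟨‖Ry φ‖, ?_⟩
      rintro _ ⟨a, rfl⟩
      exact lp.norm_apply_le_norm ENNReal.top_ne_zero (Ry φ) _
    have h1 := hψ1 (Ry φ) ⟨_, hmem⟩ (fun a => rfl)
    have h2 := hψ2 (R φ) ⟨_, hmem⟩ (fun a => by
      show Ry φ (a.1, Sum.inl a.2.1, a.2.2) = R φ (a.2.1, a.1, (a.2.2 : ℕ∞))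
      rw [hRy, hR, (v_coe hl.v_lim a.2.1 a.1).1 a.2.2]
      rfl)
    rw [hrange] at h1
    show rs {d | ∃ k, d.2.1 = Sum.inl k} ψ (Ry φ) = ψ2 (R φ)
    rw [h2, ← h1]
  rw [key]
  exact v_mem hs hl N hN hvN hbN R hR ψ2

end WCGBd
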