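import Pool.Agent.WCGBd.Defs
import Pool.Agent.WCGBd.JB12
import Pool.Agent.WCGBd.JB2
import Pool.Agent.WCGBd.JB9
import Pool.Agent.WCGBd.JD10
import Pool.Agent.WCGBd.JD14
import Pool.Agent.WCGBd.JD4

set_option autoImplicit false

namespace WCGBd

open Filter Topology Set
open scoped ENNReal

/-- Fix `i`. `Ry φ (σ, inr i, M) = ∑ k ∈ Iblk i, v (k, σ, (M : ℕ∞)) φ` by `blk_eq` and `v_coe`. With `pull_li` along the injection `f : (σ, M) ↦ (σ, inr i, M)` on `W × ℕ` (range `{d | d.2.1 = inr i}`) we get `ψ'` with `(rs .. ψ).comp Ry = ∑ k ∈ Iblk i, ψ'.comp R_k`, where `R_k φ (σ, M) = v (k, σ, M) φ` (`fam_op`),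
and `ψ'.comp R_k = ψ''.comp R ∈ N` with `push_li` (along `(σ, M) ↦ (k, σ, (M : ℕ∞))`), `v_mem`. -/
theorem y_mem_blk {𝕜 W X : Type} [RCLike 𝕜] [NormedAddCommGroup X] [NormedSpace 𝕜 X]
    {E : ℕ → W → ℕ → W → Prop} {len : W → ℕ → ℕ}
    {T : L1 𝕜 (Dd W) →L[𝕜] Li 𝕜 (Om W)} {ι : L1 𝕜 (Dd W) →L[𝕜] X} {S : X →L[𝕜] Li 𝕜 (Om W)}
    (hs : Setting E len T ι S) {v : Aa W → StrongDual 𝕜 (StrongDual 𝕜 X)}
    {br : (k : ℕ) → (ℕ → W × ℕ) → StrongDual 𝕜 (StrongDual 𝕜 X)}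
    {hh : W → StrongDual 𝕜 (StrongDual 𝕜 X)} (hl : Lims E len ι v br hh)
    (N : Submodule 𝕜 (StrongDual 𝕜 (StrongDual 𝕜 X)))
    (hN : IsClosed (N : Set (StrongDual 𝕜 (StrongDual 𝕜 X)))) (hvN : ∀ a, v a ∈ N)
    (hbN : ∀ k b, IsBr E len k b → br k b ∈ N)
    (Ry : StrongDual 𝕜 X →L[𝕜] Li 𝕜 (W × (ℕ ⊕ ℕ) × ℕ))
    (hRy : ∀ φ d, Ry φ d = φ (ι (dl 𝕜 (Sum.inr d)))) (i : ℕ)
    (ψ : StrongDual 𝕜 (Li 𝕜 (W × (ℕ ⊕ ℕ) × ℕ))) :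
    (rs {d | d.2.1 = Sum.inr i} ψ).comp Ry ∈ N := by
  classical
  -- the injection of `W × ℕ`
  obtain ⟨ψ', hψ'⟩ := pull_li (𝕜 := 𝕜)
    (fun p : W × ℕ => ((p.1, Sum.inr i, p.2) : W × (ℕ ⊕ ℕ) × ℕ))
    (by
      rintro ⟨a, b⟩ ⟨c, d⟩ h
      simp only [Prod.mk.injEq, true_and] at h
      exact Prod.ext h.1 h.2) ψ
  have hrange : Set.range (fun p : W × ℕ => ((p.1, Sum.inr i, p.2) : W × (ℕ ⊕ ℕ) × ℕ)) =
      {d | d.2.1 = Sum.inr i} := by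
    ext ⟨a, b, c⟩
    simp only [Set.mem_range, Prod.mk.injEq, Prod.exists, Set.mem_setOf_eq]
    constructor
    · rintro ⟨_, _, _, h, _⟩
      exact h.symm
    · intro h
      exact ⟨a, c, rfl, h.symm, rfl⟩
  rw [hrange] at hψ'
  -- the operators for the types of the block
  have hRk : ∀ k, ∃ Rk : StrongDual 𝕜 X →L[𝕜] Li 𝕜 (W × ℕ),
      ∀ φ p, Rk φ p = v (k, p.1, (p.2 : ℕ∞)) φ := by
    intro k
    exact fam_op (fun p : W × ℕ => v (k, p.1, (p.2 : ℕ∞))) 1 (fun p => hl.v_norm _)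
  choose Rk hRk using hRk
  obtain ⟨R, hR⟩ := fam_op (𝕜 := 𝕜) (Y := StrongDual 𝕜 X) v 1 hl.v_norm
  have hmem : ∀ k, ψ'.comp (Rk k) ∈ N := by
    intro k
    obtain ⟨ψ'', hψ''⟩ := push_li (𝕜 := 𝕜)
      (fun p : W × ℕ => ((k, p.1, (p.2 : ℕ∞)) : Aa W)) ψ'
    have : ψ'.comp (Rk k) = ψ''.comp R := by
      ext φ
      change ψ' (Rk k φ) = ψ'' (R φ)
      rw [hψ'' (R φ) (Rk k φ) (fun a => by rw [hRk, hR])]
    rw [this]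
    exact v_mem hs hl N hN hvN hbN R hR ψ''
  have hkey : (rs {d | d.2.1 = Sum.inr i} ψ).comp Ry = ∑ k ∈ Iblk i, ψ'.comp (Rk k) := by
    ext φ
    rw [ContinuousLinearMap.sum_apply]
    change rs {d | d.2.1 = Sum.inr i} ψ (Ry φ) = ∑ k ∈ Iblk i, ψ' (Rk k φ)
    rw [← map_sum]
    refine (hψ' (Ry φ) (∑ k ∈ Iblk i, Rk k φ) ?_).symm
    rintro ⟨σ, M⟩
    rw [hRy, blk_eq hs σ i M, map_sum, lp.coeFn_sum, Finset.sum_apply]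
    refine Finset.sum_congr rfl (fun k _ => ?_)
    rw [hRk, (v_coe hl.v_lim k σ).1 M]
    rfl
  rw [hkey]
  exact N.sum_mem (fun k _ => hmem k)

end WCGBd
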