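import Pool.Agent.WCGBd.Defs
import Pool.Agent.WCGBd.JB2
import Pool.Agent.WCGBd.JB6
import Pool.Agent.WCGBd.JD16a
import Pool.Agent.WCGBd.JD16b
import Pool.Agent.WCGBd.JD16d

set_option autoImplicit false

namespace WCGBd

open Filter Topology Set
open scoped ENNReal

/-- `scheme` for `Ry` with `𝒰 = {{d | ∃ k, d.2.1 = inl k}} ∪ {{d | d.2.1 = inr i} | i}`: the first hypothesis is `y_mem_inl`, `y_mem_blk`; and if `ψ` vanishes on these sets then it vanishes on `{d | ε ≤ ‖Ry φ d‖}`, which by `y_decay` is contained in a finite union of them (`rs_basic`). -/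
theorem y_mem {𝕜 W X : Type} [RCLike 𝕜] [NormedAddCommGroup X] [NormedSpace 𝕜 X]
    {E : ℕ → W → ℕ → W → Prop} {len : W → ℕ → ℕ}
    {T : L1 𝕜 (Dd W) →L[𝕜] Li 𝕜 (Om W)} {ι : L1 𝕜 (Dd W) →L[𝕜] X} {S : X →L[𝕜] Li 𝕜 (Om W)}
    (hs : Setting E len T ι S) {v : Aa W → StrongDual 𝕜 (StrongDual 𝕜 X)}
    {br : (k : ℕ) → (ℕ → W × ℕ) → StrongDual 𝕜 (StrongDual 𝕜 X)}
    {hh : W → StrongDual 𝕜 (StrongDual 𝕜 X)} (hl : Lims E len ι v br hh)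
    (N : Submodule 𝕜 (StrongDual 𝕜 (StrongDual 𝕜 X)))
    (hN : IsClosed (N : Set (StrongDual 𝕜 (StrongDual 𝕜 X)))) (hvN : ∀ a, v a ∈ N)
    (hbN : ∀ k b, IsBr E len k b → br k b ∈ N)
    (Ry : StrongDual 𝕜 X →L[𝕜] Li 𝕜 (W × (ℕ ⊕ ℕ) × ℕ))
    (hRy : ∀ φ d, Ry φ d = φ (ι (dl 𝕜 (Sum.inr d))))
    (ψ : StrongDual 𝕜 (Li 𝕜 (W × (ℕ ⊕ ℕ) × ℕ))) : ψ.comp Ry ∈ N := by
  obtain ⟨𝒰, h𝒰⟩ : ∃ 𝒰 : Set (Set (W × (ℕ ⊕ ℕ) × ℕ)), ∀ U, U ∈ 𝒰 ↔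
      (U = {d | ∃ k, d.2.1 = Sum.inl k} ∨ ∃ i : ℕ, U = {d | d.2.1 = Sum.inr i}) :=
    ⟨{U | U = {d | ∃ k, d.2.1 = Sum.inl k} ∨ ∃ i : ℕ, U = {d | d.2.1 = Sum.inr i}},
      fun U => Iff.rfl⟩
  refine scheme Ry N hN 𝒰 ?_ ?_ ψ
  · intro U hU ψ'
    rcases (h𝒰 U).mp hU with rfl | ⟨i, rfl⟩
    · exact y_mem_inl hs hl N hN hvN hbN Ry hRy ψ'
    · exact y_mem_blk hs hl N hN hvN hbN Ry hRy i ψ'
  · intro ψ' hψ φ ε hε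
    obtain ⟨i0, hi0⟩ := y_decay hs φ ε hε
    obtain ⟨-, -, -, -, -, -, -, hsub, hun⟩ := rs_basic (𝕜 := 𝕜) ψ'
    have h1 : rs {d : W × (ℕ ⊕ ℕ) × ℕ | ∃ k, d.2.1 = Sum.inl k} ψ' = 0 :=
      hψ _ ((h𝒰 _).mpr (Or.inl rfl))
    have h2 : ∀ n : ℕ, rs ({d : W × (ℕ ⊕ ℕ) × ℕ | ∃ k, d.2.1 = Sum.inl k} ∪
        {d | ∃ i < n, d.2.1 = Sum.inr i}) ψ' = 0 := by
      intro n
      induction n with
      | zero =>
        refine hsub _ _ ?_ h1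
        rintro d (hd | ⟨i, hi, _⟩)
        · exact hd
        · exact absurd hi (Nat.not_lt_zero i)
      | succ n ih =>
        have h3 : rs {d : W × (ℕ ⊕ ℕ) × ℕ | d.2.1 = Sum.inr n} ψ' = 0 :=
          hψ _ ((h𝒰 _).mpr (Or.inr ⟨n, rfl⟩))
        refine hsub _ _ ?_ (hun _ _ ih h3)
        rintro d (hd | ⟨i, hi, hd⟩)
        · exact Or.inl (Or.inl hd)
        · rcases Nat.lt_succ_iff_lt_or_eq.mp hi with h | h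
          · exact Or.inl (Or.inr ⟨i, h, hd⟩)
          · subst h; exact Or.inr hd
    refine hsub _ _ ?_ (h2 i0)
    rintro ⟨σ, h, M⟩ hd
    have hd' : ε ≤ ‖Ry φ (σ, h, M)‖ := hd
    rw [hRy] at hd'
    rcases h with k | i
    · exact Or.inl ⟨k, rfl⟩
    · right
      refine ⟨i, ?_, rfl⟩
      by_contra hlt
      exact absurd (hi0 i (not_lt.mp hlt) σ M) (not_lt.mpr hd')

end WCGBd
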