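import Pool.Agent.WCGBd.Defs
import Pool.Agent.WCGBd.JB12
import Pool.Agent.WCGBd.JB2
import Pool.Agent.WCGBd.JB9

set_option autoImplicit false

namespace WCGBd

open Filter Topology Set
open scoped ENNReal

private theorem summ17 {𝕜 D : Type} [RCLike 𝕜] (f : Li 𝕜 D) (u : L1 𝕜 D) :
    Summable (fun d => ‖f d * u d‖) ∧ (∑' d, ‖f d * u d‖) ≤ ‖f‖ * ‖u‖ := by
  have h1 : HasSum (fun d => ‖u d‖) ‖u‖ := by
    have := lp.hasSum_norm (p := 1) (by simp) u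
    simpa using this
  have h2 : HasSum (fun d => ‖f‖ * ‖u d‖) (‖f‖ * ‖u‖) := h1.mul_left _
  have h3 : ∀ d, ‖f d * u d‖ ≤ ‖f‖ * ‖u d‖ := by
    intro d
    rw [norm_mul]
    exact mul_le_mul_of_nonneg_right (lp.norm_apply_le_norm ENNReal.top_ne_zero f d)
      (norm_nonneg _)
  have h4 : Summable (fun d => ‖f d * u d‖) :=
    Summable.of_nonneg_of_le (fun d => norm_nonneg _) h3 h2.summable
  exact ⟨h4, hasSum_le h3 h4.hasSum h2⟩

private noncomputable def Lam17 (𝕜 D : Type) [RCLike 𝕜] :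
    Li 𝕜 D →L[𝕜] StrongDual 𝕜 (L1 𝕜 D) :=
  LinearMap.mkContinuous₂
    (LinearMap.mk₂ 𝕜 (fun (f : Li 𝕜 D) (u : L1 𝕜 D) => ∑' d, f d * u d)
      (by
        intro f g u
        rw [← (summ17 f u).1.of_norm.tsum_add (summ17 g u).1.of_norm]
        exact tsum_congr (fun d => by rw [lp.coeFn_add, Pi.add_apply, add_mul]))
      (by
        intro c f u
        rw [smul_eq_mul, ← tsum_mul_left]
        exact tsum_congr (fun d => by
          rw [lp.coeFn_smul, Pi.smul_apply, smul_eq_mul, mul_assoc]))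
      (by
        intro f u v
        rw [← (summ17 f u).1.of_norm.tsum_add (summ17 f v).1.of_norm]
        exact tsum_congr (fun d => by rw [lp.coeFn_add, Pi.add_apply, mul_add]))
      (by
        intro c f u
        rw [smul_eq_mul, ← tsum_mul_left]
        exact tsum_congr (fun d => by
          rw [lp.coeFn_smul, Pi.smul_apply, smul_eq_mul, mul_left_comm])))
    1
    (by
      intro f u
      rw [one_mul]
      exact (norm_tsum_le_tsum_norm (summ17 f u).1).trans (summ17 f u).2)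

private theorem Lam17_apply {𝕜 D : Type} [RCLike 𝕜] (f : Li 𝕜 D) (u : L1 𝕜 D) :
    Lam17 𝕜 D f u = ∑' d, f d * u d := rfl

private theorem expand17 {𝕜 W : Type} [RCLike 𝕜] (φ : StrongDual 𝕜 (L1 𝕜 (Dd W)))
    (u : L1 𝕜 (Dd W)) : φ u = ∑' d, φ (dl 𝕜 d) * u d := by
  classical
  have h1 : HasSum (fun d => lp.single 1 d (u d)) u :=
    lp.hasSum_single (by simp) u
  have h2 := h1.mapL φ
  rw [← h2.tsum_eq]
  refine tsum_congr (fun d => ?_)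
  have h3 : lp.single 1 d (u d) = u d • (dl 𝕜 d : L1 𝕜 (Dd W)) := by
    unfold dl
    rw [← lp.single_smul, smul_eq_mul, mul_one]
  rw [h3, map_smul, smul_eq_mul, mul_comm]


/-- Let `Λ : Li 𝕜 (Dd W) →L[𝕜] StrongDual 𝕜 (L1 𝕜 (Dd W))`, `Λ f u = ∑' d, f d * u d`, and `R φ d = φ (ι (dl d))` (`fam_op` with the family `inclusionInDoubleDual (ι (dl d))`). For `φ : StrongDual 𝕜 X`,
`φ.comp ι = Λ (R φ)` (the finitely supported vectors are dense in `ℓ¹`, or `lp.hasSum_single`). So `bimap ι ξ = (ξ.comp Λ).comp R` (`bimap ι ξ φ = ξ (φ.comp ι)` by `rfl`). With `ψ = ξ.comp Λ`: `ψ = rs (range inl) ψ + rs (range inr) ψ` (`rs_basic`), and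
by `pull_li` for `Sum.inl` and `Sum.inr` the two parts composed with `R` are `ψ'.comp Rx` and `ψ''.comp Ry`, in `N` by the hypotheses. -/
theorem range_mem {𝕜 W X : Type} [RCLike 𝕜] [NormedAddCommGroup X] [NormedSpace 𝕜 X]
    (ι : L1 𝕜 (Dd W) →L[𝕜] X)
    (N : Submodule 𝕜 (StrongDual 𝕜 (StrongDual 𝕜 X)))
    (hx : ∀ Rx : StrongDual 𝕜 X →L[𝕜] Li 𝕜 W, (∀ φ σ, Rx φ σ = φ (ι (dl 𝕜 (Sum.inl σ)))) →
      ∀ ψ : StrongDual 𝕜 (Li 𝕜 W), ψ.comp Rx ∈ N)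
    (hy : ∀ Ry : StrongDual 𝕜 X →L[𝕜] Li 𝕜 (W × (ℕ ⊕ ℕ) × ℕ),
      (∀ φ d, Ry φ d = φ (ι (dl 𝕜 (Sum.inr d)))) →
      ∀ ψ : StrongDual 𝕜 (Li 𝕜 (W × (ℕ ⊕ ℕ) × ℕ)), ψ.comp Ry ∈ N)
    (ξ : StrongDual 𝕜 (StrongDual 𝕜 (L1 𝕜 (Dd W)))) : bimap ι ξ ∈ N := by
  classical
  obtain ⟨R, hR⟩ := fam_op (𝕜 := 𝕜) (A := Dd W) (Y := StrongDual 𝕜 X)
    (fun d => NormedSpace.inclusionInDoubleDual 𝕜 X (ι (dl 𝕜 d))) ‖ι‖ (by
      intro d
      refine (NormedSpace.double_dual_bound 𝕜 X _).trans ?_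
      refine (ι.le_opNorm _).trans ?_
      have : ‖(dl 𝕜 d : L1 𝕜 (Dd W))‖ = 1 := by
        unfold dl
        rw [lp.norm_single (by simp)]
        simp
      rw [this, mul_one])
  have hR' : ∀ φ d, R φ d = φ (ι (dl 𝕜 d)) := by
    intro φ d
    rw [hR]
    rfl
  have hΛ : ∀ φ : StrongDual 𝕜 X, φ.comp ι = Lam17 𝕜 (Dd W) (R φ) := by
    intro φ
    ext u
    rw [Lam17_apply, expand17]
    exact tsum_congr (fun d => by rw [hR']; rfl)
  obtain ⟨ψ, hψ⟩ : ∃ ψ : StrongDual 𝕜 (Li 𝕜 (Dd W)), ψ = ξ.comp (Lam17 𝕜 (Dd W)) := ⟨_, rfl⟩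
  obtain ⟨b1, b2, b3, b4, b5, b6, b7, b8, b9⟩ := rs_basic ψ
  have hsplit : ψ = rs (Set.range Sum.inl) ψ + rs (Set.range Sum.inr) ψ := by
    have h := b4 (Set.range (Sum.inl : W → Dd W)) Set.univ
    rw [Set.union_univ, b6] at h
    have h2 : (Set.univ : Set (Dd W)) \ Set.range Sum.inl = Set.range Sum.inr := by
      ext d
      rcases d with d | d <;> simp
    rw [h2] at h
    exact h
  obtain ⟨ψ1, h1⟩ := pull_li (𝕜 := 𝕜) (Sum.inl : W → Dd W) Sum.inl_injective ψ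
  obtain ⟨ψ2, h2⟩ := pull_li (𝕜 := 𝕜) (Sum.inr : W × (ℕ ⊕ ℕ) × ℕ → Dd W) Sum.inr_injective ψ
  obtain ⟨Rx, hRx⟩ := fam_op (𝕜 := 𝕜) (A := W) (Y := StrongDual 𝕜 X)
    (fun σ => NormedSpace.inclusionInDoubleDual 𝕜 X (ι (dl 𝕜 (Sum.inl σ)))) ‖ι‖ (by
      intro d
      refine (NormedSpace.double_dual_bound 𝕜 X _).trans ?_
      refine (ι.le_opNorm _).trans ?_
      have : ‖(dl 𝕜 (Sum.inl d) : L1 𝕜 (Dd W))‖ = 1 := by
        unfold dl
        rw [lp.norm_single (by simp)]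
        simp
      rw [this, mul_one])
  obtain ⟨Ry, hRy⟩ := fam_op (𝕜 := 𝕜) (A := W × (ℕ ⊕ ℕ) × ℕ) (Y := StrongDual 𝕜 X)
    (fun d => NormedSpace.inclusionInDoubleDual 𝕜 X (ι (dl 𝕜 (Sum.inr d)))) ‖ι‖ (by
      intro d
      refine (NormedSpace.double_dual_bound 𝕜 X _).trans ?_
      refine (ι.le_opNorm _).trans ?_
      have : ‖(dl 𝕜 (Sum.inr d) : L1 𝕜 (Dd W))‖ = 1 := by
        unfold dl
        rw [lp.norm_single (by simp)]
        simp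
      rw [this, mul_one])
  have key : bimap ι ξ = ψ1.comp Rx + ψ2.comp Ry := by
    ext φ
    have e1 : bimap ι ξ φ = ψ (R φ) := by
      rw [hψ]
      change ξ (φ.comp ι) = ξ (Lam17 𝕜 (Dd W) (R φ))
      rw [hΛ]
    rw [e1]
    conv_lhs => rw [hsplit]
    change rs (Set.range Sum.inl) ψ (R φ) + rs (Set.range Sum.inr) ψ (R φ) =
      ψ1 (Rx φ) + ψ2 (Ry φ)
    rw [h1 (R φ) (Rx φ) (fun a => by rw [hRx, hR]), h2 (R φ) (Ry φ) (fun a => by rw [hRy, hR])]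
  rw [key]
  exact N.add_mem (hx Rx (fun φ σ => by rw [hRx]; rfl) ψ1) (hy Ry (fun φ d => by rw [hRy]; rfl) ψ2)

end WCGBd
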