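import Pool.Agent.WCGBd.Defs
import Pool.Agent.WCGBd.JD15
import Pool.Agent.WCGBd.JD16
import Pool.Agent.WCGBd.JD17

set_option autoImplicit false

namespace WCGBd

open Filter Topology Set
open scoped ENNReal

/-- `N = Nsp E len v br hh` is closed and contains all `v a`, `br k b`, `hh σ`. By `x_mem`, `y_mem`, `range_mem` the range of `bimap ι` is contained in `N`; it is dense by `Fac.bidual`. -/
theorem Nsp_top {𝕜 W X : Type} [RCLike 𝕜] [NormedAddCommGroup X] [NormedSpace 𝕜 X]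
    {E : ℕ → W → ℕ → W → Prop} {len : W → ℕ → ℕ}
    {T : L1 𝕜 (Dd W) →L[𝕜] Li 𝕜 (Om W)} {ι : L1 𝕜 (Dd W) →L[𝕜] X} {S : X →L[𝕜] Li 𝕜 (Om W)}
    (hs : Setting E len T ι S) {v : Aa W → StrongDual 𝕜 (StrongDual 𝕜 X)}
    {br : (k : ℕ) → (ℕ → W × ℕ) → StrongDual 𝕜 (StrongDual 𝕜 X)}
    {hh : W → StrongDual 𝕜 (StrongDual 𝕜 X)} (hl : Lims E len ι v br hh) : Nsp (𝕜 := 𝕜) E len v br hh = ⊤ := by
  have hcl : IsClosed (Nsp (𝕜 := 𝕜) E len v br hh :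
      Set (StrongDual 𝕜 (StrongDual 𝕜 X))) := Submodule.isClosed_topologicalClosure _
  have hsub : ∀ z, z ∈ (Set.range v ∪ {z | ∃ k b, IsBr E len k b ∧ z = br k b} ∪
      Set.range hh) → z ∈ Nsp (𝕜 := 𝕜) E len v br hh := fun z hz =>
    Submodule.le_topologicalClosure _ (Submodule.subset_span hz)
  have hvN : ∀ a, v a ∈ Nsp (𝕜 := 𝕜) E len v br hh := fun a =>
    hsub _ (Or.inl (Or.inl ⟨a, rfl⟩))
  have hbN : ∀ k b, IsBr E len k b → br k b ∈ Nsp (𝕜 := 𝕜) E len v br hh := fun k b hb =>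
    hsub _ (Or.inl (Or.inr ⟨k, b, hb, rfl⟩))
  have hhN : ∀ σ, hh σ ∈ Nsp (𝕜 := 𝕜) E len v br hh := fun σ => hsub _ (Or.inr ⟨σ, rfl⟩)
  have hr : ∀ ξ, bimap ι ξ ∈ Nsp (𝕜 := 𝕜) E len v br hh := range_mem ι _
    (fun Rx hRx ψ => x_mem hs hl _ hcl hvN hbN hhN Rx hRx ψ)
    (fun Ry hRy ψ => y_mem hs hl _ hcl hvN hbN Ry hRy ψ)
  rw [eq_top_iff]
  intro z _
  have h1 : closure (Set.range (bimap ι)) ⊆ (Nsp (𝕜 := 𝕜) E len v br hh :
      Set (StrongDual 𝕜 (StrongDual 𝕜 X))) :=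
    closure_minimal (by rintro _ ⟨ξ, rfl⟩; exact hr ξ) hcl
  exact h1 (hs.fac.bidual z)

end WCGBd
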