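import Pool.Agent.WCGBd.Defs
import Pool.Agent.WCGBd.JD0
import Pool.Agent.WCGBd.JD6a

set_option autoImplicit false

namespace WCGBd

open Filter Topology Set
open scoped ENNReal

private theorem sum_one_le {𝕜 J : Type*} [RCLike 𝕜] (F : Finset J) (f : J → 𝕜)
    (h1 : ∀ j ∈ F, ‖f j‖ ≤ 1) (h2 : ∀ i ∈ F, ∀ j ∈ F, i ≠ j → f i ≠ 0 → f j = 0) :
    ‖∑ j ∈ F, f j‖ ≤ 1 := by
  classical
  by_cases h : ∃ i ∈ F, f i ≠ 0
  · obtain ⟨i, hi, hfi⟩ := h
    rw [Finset.sum_eq_single i (fun j hj hji => h2 i hi j hj (Ne.symm hji) hfi)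
      (fun h => absurd hi h)]
    exact h1 i hi
  · push Not at h
    rw [Finset.sum_eq_zero h, norm_zero]
    exact zero_le_one

private theorem same_len {W : Type} {E : ℕ → W → ℕ → W → Prop} {len : W → ℕ → ℕ}
    (ht : TreeData E len) {k m m' : ℕ} {τ τ' σ : W} (h : E k τ m σ) (h' : E k τ' m' σ)
    (hl : len τ k = len τ' k) : τ = τ' := by
  rcases ht.tree h h' with h1 | h1 | h1
  · exact h1
  · have := ht.len_lt h1
    omega
  · have := ht.len_lt h1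
    omega

private theorem br_ne {W : Type} {E : ℕ → W → ℕ → W → Prop} {len : W → ℕ → ℕ}
    (ht : TreeData E len) {k : ℕ} {b b' : ℕ → W × ℕ} (hb : IsBr E len k b)
    (hb' : IsBr E len k b') (hne : b ≠ b') : ∃ N, ∀ j, N ≤ j → (b j).1 ≠ (b' j).1 := by
  by_contra hc
  push Not at hc
  refine hne (funext fun i => ?_)
  obtain ⟨j, hj, hjj⟩ := hc (i + 1)
  have h1 := (hb i).2 j (by omega)
  have h2 := (hb' i).2 j (by omega)
  rw [← hjj] at h2
  have h3 := same_len ht h1 h2 ((hb i).1.trans (hb' i).1.symm)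
  rw [h3] at h1
  exact Prod.ext h3 (ht.uniq h1 h2)

private theorem fin_ne {W : Type} {E : ℕ → W → ℕ → W → Prop} {len : W → ℕ → ℕ}
    (ht : TreeData E len) {k : ℕ} (F : Finset {b : ℕ → W × ℕ // IsBr E len k b}) :
    ∃ N, ∀ j, N ≤ j → ∀ b ∈ F, ∀ b' ∈ F, b ≠ b' → (b.1 j).1 ≠ (b'.1 j).1 := by
  have h : ∀ p : {b : ℕ → W × ℕ // IsBr E len k b} × {b : ℕ → W × ℕ // IsBr E len k b},
      ∃ N, p.1 ≠ p.2 → ∀ j, N ≤ j → (p.1.1 j).1 ≠ (p.2.1 j).1 := by
    intro p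
    by_cases hp : p.1 = p.2
    · exact ⟨0, fun h => absurd hp h⟩
    · obtain ⟨N, hN⟩ := br_ne ht p.1.2 p.2.2 (fun h => hp (Subtype.ext h))
      exact ⟨N, fun _ => hN⟩
  choose f hf using h
  refine ⟨(F ×ˢ F).sup f, fun j hj b hb b' hb' hne => ?_⟩
  exact hf (b, b') hne j ((Finset.le_sup (f := f) (Finset.mk_mem_product hb hb')).trans hj)

/-- By `wlim_sum_bound`, with `w b j = dl (inr ((b j).1, inl k, (b j).2))`, `α = card`, `β = 1`. Let `F` be a finite set of branches. Two different branches `b ≠ b'` satisfy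
`(b j).1 ≠ (b' j).1` for all large `j`: otherwise `(b j).1 = (b' j).1` for arbitrarily large `j`, then by `tree`, `uniq`, `len_lt`, `b i = b' i` for all `i < j`.
For such `j` the functions `val E (inr ((b j).1, inl k, (b j).2))` and the one of `b'` are not both nonzero at a point: both nodes would be predecessors of `o.1` with the same `len · k = j`,
so equal by `tree` and `len_lt`. -/
theorem wu_br {𝕜 W X : Type} [RCLike 𝕜] [NormedAddCommGroup X] [NormedSpace 𝕜 X]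
    {E : ℕ → W → ℕ → W → Prop} {len : W → ℕ → ℕ}
    {T : L1 𝕜 (Dd W) →L[𝕜] Li 𝕜 (Om W)} {ι : L1 𝕜 (Dd W) →L[𝕜] X} {S : X →L[𝕜] Li 𝕜 (Om W)}
    (hs : Setting E len T ι S) (k : ℕ) {br : (ℕ → W × ℕ) → StrongDual 𝕜 (StrongDual 𝕜 X)}
    (hb : ∀ b, IsBr E len k b →
      WLim 𝕜 (fun j => ι (dl 𝕜 (Sum.inr ((b j).1, Sum.inl k, (b j).2)))) (br b)) :
    WU 𝕜 1 1 (fun b : {b : ℕ → W × ℕ // IsBr E len k b} => br b.1) := by
  classical
  intro F θ hθ n0
  obtain ⟨hTd, hd1, -, hval, hT⟩ := T_basic hs.isT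
  obtain ⟨N, hN⟩ := fin_ne hs.tree F
  refine wlim_sum_bound hs.fac F
    (fun b j => dl 𝕜 (Sum.inr ((b.1 j).1, Sum.inl k, (b.1 j).2)))
    (fun b => br b.1) (fun b _ => hb b.1 b.2) θ ((F.card : ℝ) * 1) 1 (fun n => ?_) ?_ n0
  · calc ‖∑ b ∈ F, θ b • dl 𝕜 (Sum.inr ((b.1 n).1, Sum.inl k, (b.1 n).2) : Dd W)‖
          ≤ ∑ b ∈ F, ‖θ b • dl 𝕜 (Sum.inr ((b.1 n).1, Sum.inl k, (b.1 n).2) : Dd W)‖ :=
        norm_sum_le _ _
      _ ≤ ∑ _b ∈ F, (1 : ℝ) := by
        refine Finset.sum_le_sum fun b _ => ?_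
        rw [norm_smul]
        calc ‖θ b‖ * ‖dl 𝕜 (Sum.inr ((b.1 n).1, Sum.inl k, (b.1 n).2) : Dd W)‖ ≤ 1 * 1 :=
              mul_le_mul (hθ b) (hd1 _) (norm_nonneg _) zero_le_one
          _ = 1 := one_mul _
      _ = (F.card : ℝ) * 1 := by rw [Finset.sum_const, nsmul_eq_mul]
  · filter_upwards [eventually_ge_atTop N] with n hn
    refine hT _ 1 zero_le_one fun o => ?_
    have hexp : T (∑ b ∈ F, θ b • dl 𝕜 (Sum.inr ((b.1 n).1, Sum.inl k, (b.1 n).2))) o =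
        ∑ b ∈ F, θ b * ((val E (Sum.inr ((b.1 n).1, Sum.inl k, (b.1 n).2)) o : ℝ) : 𝕜) := by
      rw [map_sum, lp.coeFn_sum, Finset.sum_apply]
      refine Finset.sum_congr rfl fun b _ => ?_
      rw [map_smul, lp.coeFn_smul, Pi.smul_apply, smul_eq_mul, hTd]
    rw [hexp]
    have hP : ∀ b : {b : ℕ → W × ℕ // IsBr E len k b},
        θ b * ((val E (Sum.inr ((b.1 n).1, Sum.inl k, (b.1 n).2)) o : ℝ) : 𝕜) ≠ 0 →
        ∃ m, E k (b.1 n).1 m o.1 := by
      intro b hb0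
      by_contra hc
      apply hb0
      have : val E (Sum.inr ((b.1 n).1, Sum.inl k, (b.1 n).2)) o = 0 := by
        simp only [val]
        rw [if_neg]
        rintro ⟨h1, m, -, h2⟩
        have h1' : o.2.1 = k := h1
        rw [h1'] at h2
        exact hc ⟨m, h2⟩
      rw [this, RCLike.ofReal_zero, mul_zero]
    refine sum_one_le F _ (fun b _ => ?_) fun b hbF b' hbF' hbb hne => ?_
    · rw [norm_mul, RCLike.norm_ofReal]
      have h01 := hval (Sum.inr ((b.1 n).1, Sum.inl k, (b.1 n).2)) o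
      rw [abs_of_nonneg h01.1]
      calc _ ≤ (1 : ℝ) * 1 := mul_le_mul (hθ b) h01.2 h01.1 zero_le_one
        _ = 1 := one_mul _
    · by_contra hne'
      obtain ⟨m, hm⟩ := hP b hne
      obtain ⟨m', hm'⟩ := hP b' hne'
      exact hN n hn b hbF b' hbF' hbb
        (same_len hs.tree hm hm' ((b.2 n).1.trans (b'.2 n).1.symm))

end WCGBd
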