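import Pool.Agent.WCGBd.Defs
import Pool.Agent.WCGBd.JA3
import Pool.Agent.WCGBd.JA5
import Pool.Agent.WCGBd.JD7
import Pool.Agent.WCGBd.JD8
import Pool.Agent.WCGBd.JD9

set_option autoImplicit false

namespace WCGBd

open Filter Topology Set
open scoped ENNReal

private theorem fin_v {𝕜 W X : Type} [RCLike 𝕜] [NormedAddCommGroup X] [NormedSpace 𝕜 X]
    {E : ℕ → W → ℕ → W → Prop} {len : W → ℕ → ℕ}
    {T : L1 𝕜 (Dd W) →L[𝕜] Li 𝕜 (Om W)} {ι : L1 𝕜 (Dd W) →L[𝕜] X} {S : X →L[𝕜] Li 𝕜 (Om W)}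
    (hs : Setting E len T ι S) {v : Aa W → StrongDual 𝕜 (StrongDual 𝕜 X)}
    (hv : ∀ a, WLim 𝕜 (fun n => ι (dl 𝕜 (apx a n))) (v a))
    (Φ : StrongDual 𝕜 (StrongDual 𝕜 (StrongDual 𝕜 X))) (ε : ℝ) (hε : 0 < ε)
    (k l : ℕ) (M : ℕ∞) :
    {a : Aa W | (a.1, len a.2.1 a.1, a.2.2) = (k, l, M) ∧ ε ≤ ‖Φ (v a)‖}.Finite := by
  obtain ⟨B, hB⟩ := anti_bound hs hv Φ ε hε
  by_contra hinf
  obtain ⟨F, hF, hcard⟩ := (Set.Infinite.exists_subset_card_eq hinf (B + 1))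
  have h1 := hB F (fun a ha => (hF ha).2) (by
    intro a ha a' ha' hne hc
    have e1 := (hF ha).1
    have e2 := (hF ha').1
    obtain ⟨a1, a2, a3⟩ := a
    obtain ⟨b1, b2, b3⟩ := a'
    simp only [Prod.mk.injEq] at e1 e2
    obtain ⟨r1, r2, r3⟩ := e1
    obtain ⟨s1, s2, s3⟩ := e2
    subst r1 r3
    subst s1 s3
    rcases hc with hc | hc | hc
    · obtain ⟨-, h⟩ := hc
      simp only at h
      exact hne (by rw [h])
    · obtain ⟨-, m, -, hE⟩ := hc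
      have := hs.tree.len_lt hE
      simp only at this
      omega
    · obtain ⟨-, m, -, hE⟩ := hc
      have := hs.tree.len_lt hE
      simp only at this
      omega)
  omega

/-- `wcg_crit` with `J = Aa W ⊕ (Σ k, {b // IsBr E len k b}) ⊕ W`, the family `v, br, hh`, `R = 3`, and levels in `Λ = (ℕ × ℕ × ℕ∞) ⊕ ℕ ⊕ Unit` (`lev (k, σ, M) = (k, len σ k, M)`, `lev (k, b) = k`, `lev σ = ()`; `ℕ∞ = WithTop ℕ = Option ℕ` is countable).
Finiteness: for `v` with fixed `(k, l, M)` the elements `(k, σ, M)` with `len σ k = l` are pairwise incompatible (`len_lt`), so `anti_bound` bounds the number of them with `ε ≤ ‖Φ (v a)‖`; for `br` use `wu_br`, `wu_finite`; for `hh` use `wu_h`, `wu_finite`. -/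
theorem wcg_of_top {𝕜 W X : Type} [RCLike 𝕜] [NormedAddCommGroup X] [NormedSpace 𝕜 X]
    {E : ℕ → W → ℕ → W → Prop} {len : W → ℕ → ℕ}
    {T : L1 𝕜 (Dd W) →L[𝕜] Li 𝕜 (Om W)} {ι : L1 𝕜 (Dd W) →L[𝕜] X} {S : X →L[𝕜] Li 𝕜 (Om W)}
    (hs : Setting E len T ι S) {v : Aa W → StrongDual 𝕜 (StrongDual 𝕜 X)}
    {br : (k : ℕ) → (ℕ → W × ℕ) → StrongDual 𝕜 (StrongDual 𝕜 X)}
    {hh : W → StrongDual 𝕜 (StrongDual 𝕜 X)} (hl : Lims E len ι v br hh) (htop : Nsp (𝕜 := 𝕜) E len v br hh = ⊤) :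
    IsWCG 𝕜 (StrongDual 𝕜 (StrongDual 𝕜 X)) := by
  have hfb := fun (k : ℕ) => wu_br (𝕜 := 𝕜) hs k (br := br k) (fun b hb => hl.br_lim k b hb)
  have hfh := wu_h hs hl
  refine wcg_crit (𝕜 := 𝕜) (Z := StrongDual 𝕜 (StrongDual 𝕜 X))
    (J := Aa W ⊕ (Σ k : ℕ, {b : ℕ → W × ℕ // IsBr E len k b}) ⊕ W)
    (Λ := (ℕ × ℕ × Option ℕ) ⊕ ℕ ⊕ Unit)
    (Sum.elim v (Sum.elim (fun p => br p.1 p.2.1) hh))
    (Sum.elim (fun a => Sum.inl (a.1, len a.2.1 a.1, a.2.2))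
      (Sum.elim (fun p => Sum.inr (Sum.inl p.1)) (fun _ => Sum.inr (Sum.inr ())))) 3 ?_ ?_ ?_
  · rintro (a | p | σ)
    · exact (hl.v_norm a).trans (by norm_num)
    · exact (hl.br_norm p.1 p.2.1 p.2.2).trans (by norm_num)
    · exact hl.hh_norm σ
  · rintro (⟨k, l, M⟩ | k | u) φ ε hε
    · refine ((fin_v hs hl.v_lim φ ε hε k l M).image Sum.inl).subset ?_
      rintro (a | p | σ) ⟨h1, h2⟩
      · refine ⟨a, ⟨?_, h2⟩, rfl⟩
        exact Sum.inl.inj h1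
      · simp at h1
      · simp at h1
    · refine ((wu_finite _ (hfb k) φ ε hε).image
        (fun b => Sum.inr (Sum.inl ⟨k, b⟩))).subset ?_
      rintro (a | p | σ) ⟨h1, h2⟩
      · simp at h1
      · obtain ⟨k', b⟩ := p
        simp only [Sum.elim_inr, Sum.elim_inl, Sum.inr.injEq, Sum.inl.injEq] at h1
        subst h1
        exact ⟨b, h2, rfl⟩
      · simp at h1
    · refine ((wu_finite _ hfh φ ε hε).image (fun b => Sum.inr (Sum.inr b))).subset ?_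
      rintro (a | p | σ) ⟨h1, h2⟩
      · simp at h1
      · simp at h1
      · exact ⟨σ, h2, rfl⟩
  · rw [← htop, Nsp]
    congr 1
    ext z
    simp only [Set.mem_range, Set.mem_union, Set.mem_setOf_eq, Sum.exists, Sum.elim_inl,
      Sum.elim_inr, Sigma.exists, Subtype.exists]
    constructor
    · rintro (⟨a, ha⟩ | ⟨k, b, hb, h⟩ | ⟨σ, h⟩)
      · exact Or.inl (Or.inl ⟨a, ha⟩)
      · exact Or.inl (Or.inr ⟨k, b, hb, h.symm⟩)
      · exact Or.inr ⟨σ, h⟩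
    · rintro ((⟨a, ha⟩ | ⟨k, b, hb, h⟩) | ⟨σ, h⟩)
      · exact Or.inl ⟨a, ha⟩
      · exact Or.inr (Or.inl ⟨k, b, hb, h.symm⟩)
      · exact Or.inr (Or.inr ⟨σ, h⟩)

end WCGBd
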