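import Pool.Agent.WCGBd.Defs

set_option autoImplicit false

namespace WCGBd

open Filter Topology Set
open scoped ENNReal

/-- `g φ = lim φ (u n)`, linear and bounded by `R`. -/
theorem wlim_exists {𝕜 X : Type} [RCLike 𝕜] [NormedAddCommGroup X] [NormedSpace 𝕜 X]
    (u : ℕ → X) (R : ℝ) (hu : ∀ n, ‖u n‖ ≤ R)
    (hc : ∀ φ : StrongDual 𝕜 X, CauchySeq (fun n => φ (u n))) :
    ∃ g : StrongDual 𝕜 (StrongDual 𝕜 X), WLim 𝕜 u g ∧ ‖g‖ ≤ R := by
  have hR : 0 ≤ R := (norm_nonneg _).trans (hu 0)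
  have hl : ∀ φ : StrongDual 𝕜 X, ∃ a : 𝕜, Tendsto (fun n => φ (u n)) atTop (𝓝 a) :=
    fun φ => cauchySeq_tendsto_of_complete (hc φ)
  choose a ha using hl
  let f : StrongDual 𝕜 X →ₗ[𝕜] 𝕜 :=
    { toFun := a
      map_add' := fun φ ψ => by
        refine tendsto_nhds_unique (ha (φ + ψ)) ?_
        simpa using (ha φ).add (ha ψ)
      map_smul' := fun c φ => by
        refine tendsto_nhds_unique (ha (c • φ)) ?_
        simpa using (ha φ).const_mul c }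
  have hb : ∀ φ : StrongDual 𝕜 X, ‖f φ‖ ≤ R * ‖φ‖ := by
    intro φ
    refine le_of_tendsto (ha φ).norm (Eventually.of_forall fun n => ?_)
    calc ‖φ (u n)‖ ≤ ‖φ‖ * ‖u n‖ := φ.le_opNorm (u n)
      _ ≤ ‖φ‖ * R := mul_le_mul_of_nonneg_left (hu n) (norm_nonneg _)
      _ = R * ‖φ‖ := mul_comm _ _
  refine ⟨f.mkContinuous R hb, fun φ => ?_, f.mkContinuous_norm_le hR hb⟩
  exact ha φ

end WCGBd
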