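import Pool.Agent.WCGBd.Defs
import Pool.Agent.WCGBd.JD0
import Pool.Agent.WCGBd.JD1
import Pool.Agent.WCGBd.JD1b

set_option autoImplicit false

namespace WCGBd

open Filter Topology Set
open scoped ENNReal

private theorem trc_mono (M : ℕ∞) {n n' : ℕ} (h : n ≤ n') : trc M n ≤ trc M n' := by
  unfold trc
  refine ENat.toNat_le_toNat (min_le_min le_rfl (by exact_mod_cast h)) ?_
  exact ne_top_of_le_ne_top (ENat.natCast_ne_top n') (min_le_right _ _)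

private theorem val_mono {W : Type} (E : ℕ → W → ℕ → W → Prop) (a : Aa W) (o : Om W) (n : ℕ) :
    val E (apx a n) o ≤ val E (apx a (n + 1)) o := by
  unfold val apx
  by_cases h : Hm (Sum.inl a.1) o.2.1 ∧ ∃ m ≤ trc a.2.2 n, E o.2.1 a.2.1 m o.1
  · have h' : Hm (Sum.inl a.1) o.2.1 ∧ ∃ m ≤ trc a.2.2 (n + 1), E o.2.1 a.2.1 m o.1 := by
      obtain ⟨h1, m, h2, h3⟩ := h
      exact ⟨h1, m, h2.trans (trc_mono _ (Nat.le_succ n)), h3⟩
    simp only
    rw [if_pos h, if_pos h']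
  · simp only
    rw [if_neg h]
    split_ifs
    · exact zero_le_one
    · exact le_rfl

/-- By `james` (with `w n = dl (apx a n)`, `a = 1`, `b = 1`) and `wlim_exists` (with `R = 1`: `‖ι g‖ ≤ max ‖g‖ ‖T g‖ ≤ 1` by `Fac.upper 0`).
`val E (apx a n) o` is `0` or `1` and is nondecreasing in `n` (`trc M n` is nondecreasing in `n`), so its variation is at most `1`. -/
theorem exists_v {𝕜 W X : Type} [RCLike 𝕜] [NormedAddCommGroup X] [NormedSpace 𝕜 X]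
    {E : ℕ → W → ℕ → W → Prop} {len : W → ℕ → ℕ}
    {T : L1 𝕜 (Dd W) →L[𝕜] Li 𝕜 (Om W)} {ι : L1 𝕜 (Dd W) →L[𝕜] X} {S : X →L[𝕜] Li 𝕜 (Om W)}
    (hs : Setting E len T ι S) (a : Aa W) :
    ∃ g : StrongDual 𝕜 (StrongDual 𝕜 X), WLim 𝕜 (fun n => ι (dl 𝕜 (apx a n))) g ∧ ‖g‖ ≤ 1 := by
  obtain ⟨b1, b2, b3, b4, b5⟩ := T_basic hs.isT
  have hvar : ∀ (o : Om W) (n : ℕ), ∑ i ∈ Finset.range n,
      ‖T (dl 𝕜 (apx a (i + 1))) o - T (dl 𝕜 (apx a i)) o‖ ≤ 1 := by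
    intro o n
    have h1 : ∀ i ∈ Finset.range n, ‖T (dl 𝕜 (apx a (i + 1))) o - T (dl 𝕜 (apx a i)) o‖ =
        val E (apx a (i + 1)) o - val E (apx a i) o := by
      intro i _
      rw [b1, b1, ← RCLike.ofReal_sub, RCLike.norm_ofReal,
        abs_of_nonneg (sub_nonneg.2 (val_mono E a o i))]
    rw [Finset.sum_congr rfl h1, Finset.sum_range_sub (fun i => val E (apx a i) o)]
    have h2 := (b4 (apx a n) o).2
    have h3 := (b4 (apx a 0) o).1
    linarith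
  have hc : ∀ φ : StrongDual 𝕜 X, CauchySeq (fun n => φ (ι (dl 𝕜 (apx a n)))) := fun φ =>
    james hs.fac (fun n => dl 𝕜 (apx a n)) 1 1 zero_le_one (fun n => b2 _) hvar φ
  refine wlim_exists (fun n => ι (dl 𝕜 (apx a n))) 1 (fun n => ?_) hc
  have h4 := hs.fac.upper 0 (dl 𝕜 (apx a n))
  rw [pow_zero, div_one, one_mul] at h4
  exact h4.trans (max_le (b2 _) ((b3 _).trans (b2 _)))

end WCGBd
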