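import Pool.Agent.WCGBd.Defs
import Pool.Agent.WCGBd.JD0
import Pool.Agent.WCGBd.JD1
import Pool.Agent.WCGBd.JD1b

set_option autoImplicit false

namespace WCGBd

open Filter Topology Set
open scoped ENNReal

/-- By `james` and `wlim_exists`. `val E (inr ((b j).1, inl k, (b j).2)) o = 1` iff `o.2.1 = k` and `∃ m ≤ (b j).2, E k (b j).1 m o.1`. It is nonincreasing in `j`:
if it is `1` for `j + 1` then `E k (b (j+1)).1 m o.1` and `E k (b j).1 (b j).2 (b (j+1)).1`, so `E k (b j).1 (b j).2 o.1` by `trans`. -/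
theorem exists_br {𝕜 W X : Type} [RCLike 𝕜] [NormedAddCommGroup X] [NormedSpace 𝕜 X]
    {E : ℕ → W → ℕ → W → Prop} {len : W → ℕ → ℕ}
    {T : L1 𝕜 (Dd W) →L[𝕜] Li 𝕜 (Om W)} {ι : L1 𝕜 (Dd W) →L[𝕜] X} {S : X →L[𝕜] Li 𝕜 (Om W)}
    (hs : Setting E len T ι S) (k : ℕ) (b : ℕ → W × ℕ) (hb : IsBr E len k b) :
    ∃ g : StrongDual 𝕜 (StrongDual 𝕜 X),
      WLim 𝕜 (fun j => ι (dl 𝕜 (Sum.inr ((b j).1, Sum.inl k, (b j).2)))) g ∧ ‖g‖ ≤ 1 := by
  obtain ⟨hT1, hT2, hT3, hT4, -⟩ := T_basic hs.isT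
  have hι : ∀ d : Dd W, ‖ι (dl 𝕜 d)‖ ≤ 1 := by
    intro d
    have h := hs.fac.upper 0 (dl 𝕜 d)
    rw [pow_zero, div_one, one_mul] at h
    exact h.trans (max_le (hT2 d) ((hT3 _).trans (hT2 d)))
  -- monotonicity
  have hmono : ∀ (o : Om W) (j : ℕ),
      val E (Sum.inr ((b (j + 1)).1, Sum.inl k, (b (j + 1)).2)) o ≤
        val E (Sum.inr ((b j).1, Sum.inl k, (b j).2)) o := by
    intro o j
    by_cases h : Hm (Sum.inl k) o.2.1 ∧ ∃ m ≤ (b (j + 1)).2, E o.2.1 (b (j + 1)).1 m o.1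
    · obtain ⟨h1, m, -, h3⟩ := h
      have hk : o.2.1 = k := h1
      have h4 : E o.2.1 (b j).1 (b j).2 o.1 := by
        rw [hk] at h3 ⊢
        exact hs.tree.trans ((hb j).2 (j + 1) (Nat.lt_succ_self j)) h3
      have h5 : val E (Sum.inr ((b j).1, Sum.inl k, (b j).2)) o = 1 := by
        simp only [val]
        rw [if_pos ⟨h1, (b j).2, le_refl _, h4⟩]
      rw [h5]
      exact (hT4 _ _).2
    · have h5 : val E (Sum.inr ((b (j + 1)).1, Sum.inl k, (b (j + 1)).2)) o = 0 := by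
        simp only [val]
        rw [if_neg h]
      rw [h5]
      exact (hT4 _ _).1
  have hc : ∀ φ : StrongDual 𝕜 X,
      CauchySeq (fun n => φ (ι (dl 𝕜 (Sum.inr ((b n).1, Sum.inl k, (b n).2))))) := by
    intro φ
    refine james hs.fac (fun n => dl 𝕜 (Sum.inr ((b n).1, Sum.inl k, (b n).2))) 1 1 zero_le_one
      (fun n => hT2 _) ?_ φ
    intro o n
    have e : ∀ i, ‖T (dl 𝕜 (Sum.inr ((b (i + 1)).1, Sum.inl k, (b (i + 1)).2))) o -
        T (dl 𝕜 (Sum.inr ((b i).1, Sum.inl k, (b i).2))) o‖ =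
        val E (Sum.inr ((b i).1, Sum.inl k, (b i).2)) o -
          val E (Sum.inr ((b (i + 1)).1, Sum.inl k, (b (i + 1)).2)) o := by
      intro i
      rw [hT1, hT1, ← RCLike.ofReal_sub, RCLike.norm_ofReal, abs_of_nonpos]
      · ring
      · have := hmono o i
        linarith
    rw [Finset.sum_congr rfl (fun i _ => e i)]
    rw [Finset.sum_range_sub' (fun i => val E (Sum.inr ((b i).1, Sum.inl k, (b i).2)) o) n]
    have h0 := (hT4 (Sum.inr ((b 0).1, Sum.inl k, (b 0).2)) o).2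
    have hn := (hT4 (Sum.inr ((b n).1, Sum.inl k, (b n).2)) o).1
    linarith
  exact wlim_exists _ 1 (fun n => hι _) hc

end WCGBd
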