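import Pool.Agent.WCGBd.Defs
import Pool.Agent.WCGBd.JD0
import Pool.Agent.WCGBd.JD2
import Pool.Agent.WCGBd.JD3
import Pool.Agent.WCGBd.JD4

set_option autoImplicit false

namespace WCGBd

open Filter Topology Set
open scoped ENNReal

private theorem iota_norm {𝕜 W X : Type} [RCLike 𝕜] [NormedAddCommGroup X] [NormedSpace 𝕜 X]
    {E : ℕ → W → ℕ → W → Prop} {len : W → ℕ → ℕ}
    {T : L1 𝕜 (Dd W) →L[𝕜] Li 𝕜 (Om W)} {ι : L1 𝕜 (Dd W) →L[𝕜] X} {S : X →L[𝕜] Li 𝕜 (Om W)}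
    (hs : Setting E len T ι S) (d : Dd W) : ‖ι (dl 𝕜 d)‖ ≤ 1 := by
  obtain ⟨-, h2, h3, -, -⟩ := T_basic hs.isT
  have h := hs.fac.upper 0 (dl 𝕜 d)
  rw [pow_zero, div_one, one_mul] at h
  exact h.trans (max_le (h2 d) ((h3 _).trans (h2 d)))

private theorem geo_aux {𝕜 Z : Type*} [RCLike 𝕜] [NormedAddCommGroup Z] [NormedSpace 𝕜 Z]
    [CompleteSpace Z] (s : ℕ → Z) (hs : ∀ i, ‖s i‖ ≤ 1) (x : Z) (hx : ‖x‖ ≤ 1) :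
    ∃ h : Z, ‖h‖ ≤ 3 ∧ HasSum (fun i : ℕ => (((1 / 2 : ℝ) ^ i : ℝ) : 𝕜) • s i) (x - h) := by
  have hterm : ∀ i : ℕ, ‖(((1 / 2 : ℝ) ^ i : ℝ) : 𝕜) • s i‖ ≤ (1 / 2 : ℝ) ^ i := by
    intro i
    rw [norm_smul, RCLike.norm_ofReal, abs_of_nonneg (by positivity)]
    exact (mul_le_mul_of_nonneg_left (hs i) (by positivity)).trans_eq (mul_one _)
  have hgeo : Summable fun i : ℕ => (1 / 2 : ℝ) ^ i := summable_geometric_two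
  have hsum : Summable fun i : ℕ => (((1 / 2 : ℝ) ^ i : ℝ) : 𝕜) • s i :=
    Summable.of_norm_bounded hgeo hterm
  have hnorm : ‖∑' i : ℕ, (((1 / 2 : ℝ) ^ i : ℝ) : 𝕜) • s i‖ ≤ 2 :=
    tsum_of_norm_bounded hasSum_geometric_two hterm
  refine ⟨x - ∑' i : ℕ, (((1 / 2 : ℝ) ^ i : ℝ) : 𝕜) • s i, ?_, ?_⟩
  · calc _ ≤ ‖x‖ + ‖∑' i : ℕ, (((1 / 2 : ℝ) ^ i : ℝ) : 𝕜) • s i‖ := norm_sub_le _ _
      _ ≤ 1 + 2 := add_le_add hx hnorm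
      _ = 3 := by norm_num
  · rw [sub_sub_cancel]
    exact hsum.hasSum

private theorem trc_top (n : ℕ) : trc ⊤ n = n := by
  simp [trc]

private theorem blk_norm_aux {𝕜 W X : Type} [RCLike 𝕜] [NormedAddCommGroup X] [NormedSpace 𝕜 X]
    {E : ℕ → W → ℕ → W → Prop} {len : W → ℕ → ℕ}
    {T : L1 𝕜 (Dd W) →L[𝕜] Li 𝕜 (Om W)} {ι : L1 𝕜 (Dd W) →L[𝕜] X} {S : X →L[𝕜] Li 𝕜 (Om W)}
    (hs : Setting E len T ι S) {v : Aa W → StrongDual 𝕜 (StrongDual 𝕜 X)}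
    (hv : ∀ a, WLim 𝕜 (fun n => ι (dl 𝕜 (apx a n))) (v a)) (σ : W) (i : ℕ) :
    ‖∑ k ∈ Iblk i, v (k, σ, ⊤)‖ ≤ 1 := by
  refine ContinuousLinearMap.opNorm_le_bound _ zero_le_one fun φ => ?_
  have h1 : Tendsto (fun n => ∑ k ∈ Iblk i, φ (ι (dl 𝕜 (apx ((k, σ, ⊤) : Aa W) n)))) atTop
      (𝓝 (∑ k ∈ Iblk i, v (k, σ, ⊤) φ)) :=
    tendsto_finsetSum _ fun k _ => hv (k, σ, ⊤) φ
  have h2 : (fun n => ∑ k ∈ Iblk i, φ (ι (dl 𝕜 (apx ((k, σ, ⊤) : Aa W) n)))) =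
      fun n => φ (ι (dl 𝕜 (Sum.inr (σ, Sum.inr i, n)))) := by
    funext n
    rw [blk_eq hs σ i n, map_sum]
    refine Finset.sum_congr rfl fun k _ => ?_
    simp only [apx, trc_top]
  rw [h2] at h1
  rw [sum_apply]
  refine le_of_tendsto h1.norm (Eventually.of_forall fun n => ?_)
  calc ‖φ (ι (dl 𝕜 (Sum.inr (σ, Sum.inr i, n))))‖ ≤ ‖φ‖ * ‖ι (dl 𝕜 (Sum.inr (σ, Sum.inr i, n)))‖ :=
        φ.le_opNorm _
    _ ≤ ‖φ‖ * 1 := mul_le_mul_of_nonneg_left (iota_norm hs _) (norm_nonneg _)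
    _ = 1 * ‖φ‖ := by ring

/-- Choose `v a` by `exists_v`, `br k b` by `exists_br` (`0` if `b` is not a branch). By `blk_eq` the sum `∑ k ∈ Iblk i, v (k, σ, ⊤)` is the weak-star limit of
`ι (dl (inr (σ, inr i, n)))` (`apx (k, σ, ⊤) n = inr (σ, inl k, n)`), so its norm is at most `1`. So the series `∑ i, (1/2)^i • ∑ k ∈ Iblk i, v (k, σ, ⊤)` converges
absolutely with norm at most `2`, and `hh σ` is defined as the difference. -/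
theorem exists_lims {𝕜 W X : Type} [RCLike 𝕜] [NormedAddCommGroup X] [NormedSpace 𝕜 X]
    {E : ℕ → W → ℕ → W → Prop} {len : W → ℕ → ℕ}
    {T : L1 𝕜 (Dd W) →L[𝕜] Li 𝕜 (Om W)} {ι : L1 𝕜 (Dd W) →L[𝕜] X} {S : X →L[𝕜] Li 𝕜 (Om W)}
    (hs : Setting E len T ι S) : ∃ v br hh, Lims (𝕜 := 𝕜) E len ι v br hh := by
  classical
  choose v hv hv1 using exists_v hs
  have hbr : ∀ k : ℕ, ∀ b : ℕ → W × ℕ, ∃ g : StrongDual 𝕜 (StrongDual 𝕜 X),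
      (IsBr E len k b →
        WLim 𝕜 (fun j => ι (dl 𝕜 (Sum.inr ((b j).1, Sum.inl k, (b j).2)))) g) ∧
      (IsBr E len k b → ‖g‖ ≤ 1) := by
    intro k b
    by_cases h : IsBr E len k b
    · obtain ⟨g, h1, h2⟩ := exists_br hs k b h
      exact ⟨g, fun _ => h1, fun _ => h2⟩
    · exact ⟨0, fun h' => absurd h' h, fun h' => absurd h' h⟩
  choose br hbr1 hbr2 using hbr
  have hblk := blk_norm_aux hs hv
  have hh : ∀ σ : W, ∃ h : StrongDual 𝕜 (StrongDual 𝕜 X), ‖h‖ ≤ 3 ∧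
      HasSum (fun i : ℕ => (((1 / 2 : ℝ) ^ i : ℝ) : 𝕜) • ∑ k ∈ Iblk i, v (k, σ, ⊤))
        (NormedSpace.inclusionInDoubleDual 𝕜 X (ι (dl 𝕜 (Sum.inl σ))) - h) := fun σ =>
    geo_aux (𝕜 := 𝕜) (fun i => ∑ k ∈ Iblk i, v (k, σ, ⊤)) (hblk σ)
      (NormedSpace.inclusionInDoubleDual 𝕜 X (ι (dl 𝕜 (Sum.inl σ))))
      ((NormedSpace.double_dual_bound 𝕜 X _).trans (iota_norm hs _))
  choose hh hh1 hh2 using hh
  exact ⟨v, br, hh, hv, hv1, hbr1, hbr2, hh1, hblk, hh2⟩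

end WCGBd
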