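import Pool.Agent.WCGBd.Defs
import Pool.Agent.WCGBd.JD0

set_option autoImplicit false

namespace WCGBd

open Filter Topology Set
open scoped ENNReal

private noncomputable def evB (𝕜 : Type) {A : Type} [RCLike 𝕜] (a : A) :
    StrongDual 𝕜 (Li 𝕜 A) :=
  LinearMap.mkContinuous
    { toFun := fun g => g a
      map_add' := by intro g g'; simp
      map_smul' := by intro c g; simp }
    1 (by
      intro g
      simpa using lp.norm_apply_le_norm ENNReal.top_ne_zero g a)

private theorem blk_zero : blk 0 = 0 := by
  simp [blk]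

private theorem val_diff {W : Type} {E : ℕ → W → ℕ → W → Prop} {len : W → ℕ → ℕ}
    (ht : TreeData E len) (d : Dd W) (σ : W) (k : ℕ) :
    val E d (σ, k, true) - val E d (σ, k, false) =
      (1 / 2 : ℝ) ^ (blk k) * (val E d (σ, 0, true) - val E d (σ, 0, false)) := by
  classical
  rcases d with τ | ⟨τ, h, M⟩
  · have key : ∀ k' : ℕ, val E (Sum.inl τ) (σ, k', true) - val E (Sum.inl τ) (σ, k', false) =
        if σ = τ then (1 / 2 : ℝ) ^ (blk k') else 0 := by
      intro k'
      by_cases hst : σ = τ
      · subst hst
        have hno : ¬ ∃ m, E k' σ m σ := by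
          rintro ⟨m, hm⟩
          exact absurd (ht.len_lt hm) (lt_irrefl _)
        have h1 : val E (Sum.inl σ) (σ, k', true) = (1 / 2 : ℝ) ^ (blk k') := by
          unfold val
          exact if_pos (Or.inr ⟨rfl, rfl⟩)
        have h2 : val E (Sum.inl σ) (σ, k', false) = 0 := by
          unfold val
          refine if_neg ?_
          rintro (hh | hh)
          · exact hno hh
          · exact absurd hh.1 (by simp)
        rw [h1, h2, if_pos rfl, sub_zero]
      · rw [if_neg hst]
        by_cases hE : ∃ m, E k' τ m σ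
        · have h1 : val E (Sum.inl τ) (σ, k', true) = (1 / 2 : ℝ) ^ (blk k') := by
            unfold val
            exact if_pos (Or.inl hE)
          have h2 : val E (Sum.inl τ) (σ, k', false) = (1 / 2 : ℝ) ^ (blk k') := by
            unfold val
            exact if_pos (Or.inl hE)
          rw [h1, h2, sub_self]
        · have h1 : val E (Sum.inl τ) (σ, k', true) = 0 := by
            unfold val
            refine if_neg ?_
            rintro (hh | hh)
            · exact hE hh
            · exact hst hh.2
          have h2 : val E (Sum.inl τ) (σ, k', false) = 0 := by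
            unfold val
            refine if_neg ?_
            rintro (hh | hh)
            · exact hE hh
            · exact hst hh.2
          rw [h1, h2, sub_self]
    rw [key k, key 0, blk_zero]
    split_ifs <;> simp
  · have key : ∀ k' : ℕ, val E (Sum.inr (τ, h, M)) (σ, k', true) =
        val E (Sum.inr (τ, h, M)) (σ, k', false) := fun k' => rfl
    rw [key k, key 0, sub_self, sub_self, mul_zero]

/-- Both sides are continuous linear in `z`, so by density of the range of `ι` and of the span of the `dl d` it is enough to take `z = ι (dl d)`, where `S z o = val E d o`. For `d = inl τ` the left side is `(1/2)^(blk k)` if `τ = σ` and `0` otherwise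
(`E k σ m σ` is impossible by `len_lt`), for `d = inr _` both sides are `0`. `blk 0 = 0`. -/
theorem xs_coord {𝕜 W X : Type} [RCLike 𝕜] [NormedAddCommGroup X] [NormedSpace 𝕜 X]
    {E : ℕ → W → ℕ → W → Prop} {len : W → ℕ → ℕ}
    {T : L1 𝕜 (Dd W) →L[𝕜] Li 𝕜 (Om W)} {ι : L1 𝕜 (Dd W) →L[𝕜] X} {S : X →L[𝕜] Li 𝕜 (Om W)}
    (hs : Setting E len T ι S) (z : X) (σ : W) (k : ℕ) :
    S z (σ, k, true) - S z (σ, k, false) =
      (((1 / 2 : ℝ) ^ (blk k) : ℝ) : 𝕜) * (S z (σ, 0, true) - S z (σ, 0, false)) := by
  have hcont : ∀ o : Om W, Continuous fun z : X => S z o := fun o =>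
    (evB 𝕜 o).continuous.comp S.continuous
  have hfun : (fun z : X => S z (σ, k, true) - S z (σ, k, false)) = fun z : X =>
      (((1 / 2 : ℝ) ^ (blk k) : ℝ) : 𝕜) * (S z (σ, 0, true) - S z (σ, 0, false)) := by
    refine hs.fac.dense.equalizer ((hcont _).sub (hcont _))
      (continuous_const.mul ((hcont _).sub (hcont _))) ?_
    funext u
    simp only [Function.comp_apply, hs.fac.comp]
    have e1 := (hs.isT u (σ, k, true)).sub (hs.isT u (σ, k, false))
    have e2 := ((hs.isT u (σ, 0, true)).sub (hs.isT u (σ, 0, false))).mul_left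
      ((((1 / 2 : ℝ) ^ (blk k) : ℝ) : 𝕜))
    have hfe : (fun d => u d * ((val E d (σ, k, true) : ℝ) : 𝕜) -
        u d * ((val E d (σ, k, false) : ℝ) : 𝕜)) = fun d =>
        (((1 / 2 : ℝ) ^ (blk k) : ℝ) : 𝕜) * (u d * ((val E d (σ, 0, true) : ℝ) : 𝕜) -
          u d * ((val E d (σ, 0, false) : ℝ) : 𝕜)) := by
      funext d
      have h := congrArg (fun t : ℝ => (t : 𝕜)) (val_diff hs.tree d σ k)
      simp only [RCLike.ofReal_sub, RCLike.ofReal_mul] at h
      rw [← mul_sub, ← mul_sub, mul_left_comm, h]
    rw [hfe] at e1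
    exact e1.unique e2
  exact congrFun hfun z

end WCGBd
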