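import Pool.Agent.WCGBd.Defs
import Pool.Agent.WCGBd.JC7
import Pool.Agent.WCGBd.JD0

set_option autoImplicit false

namespace WCGBd

open Filter Topology Set
open scoped ENNReal

/-- the node of an atom -/
private def nd {W : Type} (d : Dd W) : W :=
  match d with
  | .inl t => t
  | .inr (t, _, _) => t

private theorem val_bounds {W : Type} (E : ℕ → W → ℕ → W → Prop) (d : Dd W) (o : Om W) :
    0 ≤ val E d o ∧ val E d o ≤ 1 := by
  unfold val
  rcases d with t | ⟨t, h, M⟩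
  · dsimp only
    split_ifs
    · exact ⟨by positivity, pow_le_one₀ (by norm_num) (by norm_num)⟩
    · exact ⟨le_refl _, zero_le_one⟩
  · dsimp only
    split_ifs
    · exact ⟨zero_le_one, le_refl _⟩
    · exact ⟨le_refl _, zero_le_one⟩

private theorem val_ne {W : Type} {E : ℕ → W → ℕ → W → Prop} {d : Dd W} {s : W} {k : ℕ}
    (h : val E d (s, k, false) ≠ 0) : ∃ m, E k (nd d) m s := by
  unfold val at h
  rcases d with t | ⟨t, g, M⟩
  · dsimp only at h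
    split_ifs at h with h1
    · rcases h1 with h1 | h1
      · exact h1
      · exact absurd h1.1 (by simp)
    · exact absurd rfl h
  · dsimp only at h
    split_ifs at h with h1
    · obtain ⟨_, m, _, hm⟩ := h1
      exact ⟨m, hm⟩
    · exact absurd rfl h

private theorem sum_val_le {W : Type} {E : ℕ → W → ℕ → W → Prop} {len : W → ℕ → ℕ}
    (hT : TreeData E len) (σ : W) (τ : ℕ → W) (hτ : ∀ k, τ k = σ ∨ ∃ m, E k (τ k) m σ)
    (A : Finset ℕ) (d : Dd W) : ∑ k ∈ A, val E d (τ k, k, false) ≤ 1 := by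
  classical
  by_cases hz : ∃ k ∈ A, val E d (τ k, k, false) ≠ 0
  · obtain ⟨k, hk, hk0⟩ := hz
    have key : ∀ j, val E d (τ j, j, false) ≠ 0 → ∃ m, E j (nd d) m σ := by
      intro j hj
      obtain ⟨m, hm⟩ := val_ne hj
      rcases hτ j with h | ⟨m', h⟩
      · exact ⟨m, h ▸ hm⟩
      · exact ⟨m, hT.trans hm h⟩
    have hu : ∀ j ∈ A, j ≠ k → val E d (τ j, j, false) = 0 := by
      intro j _ hjk
      by_contra hj
      obtain ⟨m, hm⟩ := key j hj
      obtain ⟨m', hm'⟩ := key k hk0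
      exact hjk (hT.disj hm hm')
    rw [Finset.sum_eq_single_of_mem k hk hu]
    exact (val_bounds E d _).2
  · push Not at hz
    rw [Finset.sum_eq_zero hz]
    exact zero_le_one

private theorem sum_T_le {𝕜 W : Type} [RCLike 𝕜] {E : ℕ → W → ℕ → W → Prop} {len : W → ℕ → ℕ}
    (hT : TreeData E len) {T : L1 𝕜 (Dd W) →L[𝕜] Li 𝕜 (Om W)} (hI : IsT E T)
    (σ : W) (τ : ℕ → W) (hτ : ∀ k, τ k = σ ∨ ∃ m, E k (τ k) m σ)
    (A : Finset ℕ) (u : L1 𝕜 (Dd W)) : ∑ k ∈ A, ‖T u (τ k, k, false)‖ ≤ ‖u‖ := by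
  have hsu : Summable (fun d => ‖u d‖) := by
    have := (lp.memℓp u).summable (p := 1) (by norm_num)
    simpa using this
  have hnu : ‖u‖ = ∑' d, ‖u d‖ := by
    have := lp.norm_eq_tsum_rpow (p := 1) (by norm_num) u
    simpa using this
  have hs1 : ∀ k, Summable (fun d => ‖u d‖ * val E d (τ k, k, false)) := by
    intro k
    refine Summable.of_nonneg_of_le (fun d => mul_nonneg (norm_nonneg _) (val_bounds E d _).1)
      (fun d => ?_) hsu
    exact mul_le_of_le_one_right (norm_nonneg _) (val_bounds E d _).2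
  have h1 : ∀ k ∈ A, ‖T u (τ k, k, false)‖ ≤ ∑' d, ‖u d‖ * val E d (τ k, k, false) := by
    intro k _
    rw [← (hI u (τ k, k, false)).tsum_eq]
    have hn : ∀ d, ‖u d * ((val E d (τ k, k, false) : ℝ) : 𝕜)‖
        = ‖u d‖ * val E d (τ k, k, false) := by
      intro d
      rw [norm_mul, RCLike.norm_ofReal, abs_of_nonneg (val_bounds E d _).1]
    have := norm_tsum_le_tsum_norm (f := fun d => u d * ((val E d (τ k, k, false) : ℝ) : 𝕜))
      (by simpa only [hn] using hs1 k)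
    simpa only [hn] using this
  calc ∑ k ∈ A, ‖T u (τ k, k, false)‖ ≤ ∑ k ∈ A, ∑' d, ‖u d‖ * val E d (τ k, k, false) :=
        Finset.sum_le_sum h1
    _ = ∑' d, ∑ k ∈ A, ‖u d‖ * val E d (τ k, k, false) :=
        (Summable.tsum_finsetSum (fun k _ => hs1 k)).symm
    _ ≤ ∑' d, ‖u d‖ := by
        refine Summable.tsum_le_tsum (fun d => ?_) (summable_sum (fun k _ => hs1 k)) hsu
        rw [← Finset.mul_sum]
        exact mul_le_of_le_one_right (norm_nonneg _) (sum_val_le hT σ τ hτ A d)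
    _ = ‖u‖ := hnu.symm

private theorem card_Iblk (i : ℕ) : (Iblk i).card = 7 * 8 ^ i := by
  unfold Iblk
  rw [Nat.card_Ico, pow_succ]
  have : 0 < 8 ^ i := by positivity
  omega

/-- Let `z, σ, τ` be given with `‖S z (τ k, k, false)‖ > c * (1/2)^i` for all `k ∈ Iblk i`; `Iblk i` has `7 * 8^i` elements. Choose `q` with `2 / 2^q * C ≤ c * (1/2)^i / 2 < 4 / 2^q * C`-ish (so `2^q ≤ 8 * C * 2^i / c` or `q = 0`...) and split
`S z = T u + h`, `‖u‖ ≤ 2^(q+2) * C`, `‖h‖ ≤ 2/2^q * C`. Then `‖T u (τ k, k, false)‖ ≥ c * (1/2)^i / 2` for all `k ∈ Iblk i`. On the other hand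
`∑ k ∈ Iblk i, ‖T u (τ k, k, false)‖ ≤ ∑' d, ‖u d‖ * ∑ k ∈ Iblk i, val E d (τ k, k, false) ≤ ‖u‖`, because for each atom `d` at most one `k` has `val E d (τ k, k, false) ≠ 0`: it requires `E k (node of d) m (τ k)`, hence `E k (node) m σ` (by `hτ`, `trans`), and
`disj`. So `7 * 8^i * c * (1/2)^i / 2 ≤ 2^(q+2) * C ≤ const * 2^i`, i.e. `8^i ≤ const * 4^i`, which fails for `i ≥ i0`. -/
theorem count_bound {𝕜 W X : Type} [RCLike 𝕜] [NormedAddCommGroup X] [NormedSpace 𝕜 X]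
    {E : ℕ → W → ℕ → W → Prop} {len : W → ℕ → ℕ}
    {T : L1 𝕜 (Dd W) →L[𝕜] Li 𝕜 (Om W)} {ι : L1 𝕜 (Dd W) →L[𝕜] X} {S : X →L[𝕜] Li 𝕜 (Om W)}
    (hs : Setting E len T ι S) (C c : ℝ) (hC : 0 < C) (hc : 0 < c) :
    ∃ i0 : ℕ, ∀ i ≥ i0, ∀ z : X, ‖z‖ ≤ C → ∀ (σ : W) (τ : ℕ → W),
      (∀ k, τ k = σ ∨ ∃ m, E k (τ k) m σ) →
      ∃ k ∈ Iblk i, ‖S z (τ k, k, false)‖ ≤ c * (1 / 2) ^ i := by
  classical
  obtain ⟨N, hN⟩ := pow_unbounded_of_one_lt (4 * C / c) (one_lt_two)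
  obtain ⟨i0, hi0⟩ := pow_unbounded_of_one_lt (8 * 2 ^ N * C / (7 * c)) (one_lt_two)
  refine ⟨i0, fun i hi z hz σ τ hτ => ?_⟩
  by_contra hcon
  push Not at hcon
  have h2i : (0 : ℝ) < 2 ^ i := by positivity
  have h2N : (0 : ℝ) < 2 ^ N := by positivity
  have hhalf : ((1 : ℝ) / 2) ^ i = 1 / 2 ^ i := by rw [div_pow, one_pow]
  obtain ⟨u, h, hSz, hu, hh⟩ := hs.fac.split z (N + i)
  have hh' : ‖h‖ ≤ c * (1 / 2) ^ i / 2 := by
    refine hh.trans ?_
    have h1 : 2 / 2 ^ (N + i) * ‖z‖ ≤ 2 / 2 ^ (N + i) * C :=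
      mul_le_mul_of_nonneg_left hz (by positivity)
    refine h1.trans ?_
    rw [hhalf, pow_add]
    have h4 : 4 * C ≤ 2 ^ N * c := by
      have := hN.le
      rwa [div_le_iff₀ hc] at this
    rw [div_mul_eq_mul_div, div_le_iff₀ (by positivity)]
    have : c * (1 / 2 ^ i) / 2 * (2 ^ N * 2 ^ i) = 2 ^ N * c / 2 := by
      field_simp
    rw [this]
    linarith
  have hlow : ∀ k ∈ Iblk i, c * (1 / 2) ^ i / 2 ≤ ‖T u (τ k, k, false)‖ := by
    intro k hk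
    have h1 := hcon k hk
    have h2 : S z (τ k, k, false) = T u (τ k, k, false) + h (τ k, k, false) := by
      rw [hSz]; rfl
    have h3 : ‖h (τ k, k, false)‖ ≤ ‖h‖ := lp.norm_apply_le_norm ENNReal.top_ne_zero h _
    have h4 : ‖S z (τ k, k, false)‖ ≤ ‖T u (τ k, k, false)‖ + ‖h (τ k, k, false)‖ := by
      rw [h2]; exact norm_add_le _ _
    linarith
  have hsum := sum_T_le hs.tree hs.isT σ τ hτ (Iblk i) u
  have hcard : ((Iblk i).card : ℝ) * (c * (1 / 2) ^ i / 2) ≤ ∑ k ∈ Iblk i, ‖T u (τ k, k, false)‖ := by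
    have := Finset.card_nsmul_le_sum (Iblk i) (fun k => ‖T u (τ k, k, false)‖) _ hlow
    simpa [nsmul_eq_mul] using this
  have hu' : ‖u‖ ≤ 2 ^ (N + i + 2) * C :=
    hu.trans (mul_le_mul_of_nonneg_left hz (by positivity))
  have hfin := (hcard.trans hsum).trans hu'
  rw [card_Iblk, hhalf] at hfin
  push_cast at hfin
  have h8 : (8 : ℝ) ^ i = 2 ^ i * 2 ^ i * 2 ^ i := by
    rw [← mul_pow, ← mul_pow]; norm_num
  rw [h8, pow_add, pow_add] at hfin
  have e1 : 7 * (2 ^ i * 2 ^ i * 2 ^ i) * (c * (1 / 2 ^ i) / 2) = (7 * c * 2 ^ i) * 2 ^ i / 2 := by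
    field_simp
  rw [e1] at hfin
  have e2 : (2 : ℝ) ^ N * 2 ^ i * 2 ^ 2 * C = (8 * 2 ^ N * C) * 2 ^ i / 2 := by ring
  rw [e2] at hfin
  have e3 : 7 * c * 2 ^ i ≤ 8 * 2 ^ N * C := by
    have h5 : (7 * c * 2 ^ i) * 2 ^ i ≤ (8 * 2 ^ N * C) * 2 ^ i := by linarith
    exact le_of_mul_le_mul_right h5 h2i
  have e4 : 8 * 2 ^ N * C / (7 * c) < 2 ^ i :=
    hi0.trans_le (pow_le_pow_right₀ (by norm_num) hi)
  rw [div_lt_iff₀ (by positivity)] at e4
  linarith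

end WCGBd
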