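import Pool.Agent.WCGBd.Defs

set_option autoImplicit false

namespace WCGBd

open Filter Topology Set
open scoped ENNReal

/-- Suppose not: for every `n, k0, t0` there are `k ≥ k0` and `t` extending `t0` below `k0` with `Γ n ∩ Vc e k t` empty or finite. First note that if `Γ n ∩ Vc e k t ≠ ∅` for all `k ≥ k0` and `t` extending `t0 | k0`, then all these sets are infinite (the sets
`Vc e (k+1) (update t k L)`, `L : List (W × ℕ)`, are disjoint and infinitely many). So for every `n, k0, t0` there are `k ≥ k0` and `t` extending `t0 | k0` with `Γ n ∩ Vc e k t = ∅`. Recursively construct `k_0 < k_1 < ...` (at least nondecreasing and tending to infinity)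
and `t_n` with `t_{n+1} = t_n` below `k_n` and `Γ n ∩ Vc e k_n t_n = ∅`; the point `σ = e.symm (limit of the t_n)` lies in all `Vc e k_n t_n`, hence in no `Γ n`. (`W` is infinite or at least `List (W × ℕ)` is infinite and nonempty.) -/
theorem baire_code {W : Type} (e : W ≃ (ℕ → List (W × ℕ))) (Γ : ℕ → Set W)
    (hΓ : ∀ σ, ∃ n, σ ∈ Γ n) : ∃ (n k0 : ℕ) (t0 : ℕ → List (W × ℕ)), ∀ k ≥ k0,
    ∀ t : ℕ → List (W × ℕ), (∀ i < k0, t i = t0 i) → (Γ n ∩ Vc e k t).Infinite := by
  classical
  by_contra hcon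
  push Not at hcon
  have hcon' : ∀ (n k0 : ℕ) (t0 : ℕ → List (W × ℕ)), ∃ k, k0 ≤ k ∧ ∃ t : ℕ → List (W × ℕ),
      (∀ i < k0, t i = t0 i) ∧ Γ n ∩ Vc e k t = ∅ := by
    intro n k0 t0
    obtain ⟨k, hk, t, ht, hfin⟩ := hcon n k0 t0
    have hF : (Γ n ∩ Vc e k t).Finite := by simpa using hfin
    have hW : Nonempty W := ⟨e.symm (fun _ => [])⟩
    have hinf : Infinite (List (W × ℕ)) := inferInstance
    obtain ⟨L, hL⟩ := ((hF.image (fun σ => e σ k)).infinite_compl).nonempty
    refine ⟨k + 1, by omega, Function.update t k L, ?_, ?_⟩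
    · intro i hi
      rw [Function.update_of_ne (by omega)]
      exact ht i hi
    · rw [Set.eq_empty_iff_forall_notMem]
      rintro σ ⟨h1, h2⟩
      apply hL
      refine ⟨σ, ⟨h1, ?_⟩, ?_⟩
      · intro i hi
        have := h2 i (by omega)
        rwa [Function.update_of_ne (by omega)] at this
      · have := h2 k (by omega)
        rwa [Function.update_self] at this
  choose K hK T hT hE using hcon'
  let s : ℕ → ℕ × (ℕ → List (W × ℕ)) := fun n => Nat.rec (0, fun _ => [])
    (fun n p => (K n (p.1 + 1) p.2, T n (p.1 + 1) p.2)) n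
  have hs : ∀ n, s (n + 1) = (K n ((s n).1 + 1) (s n).2, T n ((s n).1 + 1) (s n).2) :=
    fun n => rfl
  have hmono : ∀ n, (s n).1 + 1 ≤ (s (n + 1)).1 := by
    intro n
    rw [hs n]
    exact hK n _ _
  have hge : ∀ n, n ≤ (s n).1 := by
    intro n
    induction n with
    | zero => exact Nat.zero_le _
    | succ n ih => have := hmono n; omega
  have hstep : ∀ n i, i < (s n).1 → (s (n + 1)).2 i = (s n).2 i := by
    intro n i hi
    rw [hs n]
    exact hT n _ _ i (by omega)
  have hmn : ∀ n d, (s n).1 ≤ (s (n + d)).1 := by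
    intro n d
    induction d with
    | zero => exact le_rfl
    | succ d ih =>
      have := hmono (n + d)
      rw [← Nat.add_assoc]
      omega
  have hlong : ∀ n d i, i < (s n).1 → (s (n + d)).2 i = (s n).2 i := by
    intro n d i hi
    induction d with
    | zero => rfl
    | succ d ih =>
      rw [← Nat.add_assoc, hstep (n + d) i (lt_of_lt_of_le hi (hmn n d)), ih]
  obtain ⟨n, hn⟩ := hΓ (e.symm (fun i => (s (i + 1)).2 i))
  have hmem : e.symm (fun i => (s (i + 1)).2 i) ∈ Vc e (s (n + 1)).1 (s (n + 1)).2 := by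
    intro i hi
    rw [Equiv.apply_symm_apply]
    rcases le_total (i + 1) (n + 1) with h | h
    · obtain ⟨d, hd⟩ := Nat.exists_eq_add_of_le h
      rw [hd]
      exact (hlong (i + 1) d i (by have := hge (i + 1); omega)).symm
    · obtain ⟨d, hd⟩ := Nat.exists_eq_add_of_le h
      show (s (i + 1)).2 i = _
      rw [hd]
      exact hlong (n + 1) d i hi
  have hempty := hE n ((s n).1 + 1) (s n).2
  have : e.symm (fun i => (s (i + 1)).2 i) ∈ Γ n ∩ Vc e (s (n + 1)).1 (s (n + 1)).2 := ⟨hn, hmem⟩
  rw [hs n] at this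
  rw [hempty] at this
  exact this

end WCGBd
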