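import Pool.Agent.WCGBd.Defs

set_option autoImplicit false

namespace WCGBd

open Filter Topology Set
open scoped ENNReal

/-- Suppose not: for every `k ∈ [k1, k2)` and every `t` extending `t0 | k0` there is `L` with `(Γ' ∩ G k ∩ Vc e (k+1) (update t k L))` finite. Starting from `t0`, by recursion for `k = k1, ..., k2 - 1` replace `t` by `update t k L`; we get `t` (extending `t0 | k0`) such that
`Γ' ∩ G k ∩ Vc e (k+1) t` is finite for all `k ∈ [k1, k2)`; since `Vc e k2 t ⊆ Vc e (k+1) t` and every `σ ∈ Γ'` is in some `G k`, the set `Γ' ∩ Vc e k2 t` is finite, contradicting `hinf`. -/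
theorem fusion {W : Type} (e : W ≃ (ℕ → List (W × ℕ))) (Γ' : Set W) (G : ℕ → Set W)
    (k0 k1 k2 : ℕ) (h01 : k0 ≤ k1) (h12 : k1 ≤ k2) (t0 : ℕ → List (W × ℕ))
    (hinf : ∀ k ≥ k0, ∀ t : ℕ → List (W × ℕ), (∀ i < k0, t i = t0 i) → (Γ' ∩ Vc e k t).Infinite)
    (hG : ∀ σ ∈ Γ', ∃ k, k1 ≤ k ∧ k < k2 ∧ σ ∈ G k) :
    ∃ k, k1 ≤ k ∧ k < k2 ∧ ∃ t : ℕ → List (W × ℕ), ∀ L : List (W × ℕ),
      (Γ' ∩ G k ∩ Vc e (k + 1) (Function.update t k L)).Infinite := by
  classical
  by_contra hcon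
  push Not at hcon
  have key : ∀ j, k1 + j ≤ k2 → ∃ t : ℕ → List (W × ℕ), (∀ i < k0, t i = t0 i) ∧
      ∀ k, k1 ≤ k → k < k1 + j → (Γ' ∩ G k ∩ Vc e (k + 1) t).Finite := by
    intro j
    induction j with
    | zero => intro _; exact ⟨t0, fun _ _ => rfl, fun k h1 h2 => by omega⟩
    | succ j ih =>
      intro hj
      obtain ⟨t, ht, hfin⟩ := ih (by omega)
      obtain ⟨L, hL⟩ := hcon (k1 + j) (by omega) (by omega) t
      have hL' : (Γ' ∩ G (k1 + j) ∩ Vc e (k1 + j + 1) (Function.update t (k1 + j) L)).Finite := by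
        simpa using hL
      refine ⟨Function.update t (k1 + j) L, ?_, ?_⟩
      · intro i hi
        rw [Function.update_of_ne (by omega)]
        exact ht i hi
      · intro k h1 h2
        rcases Nat.lt_or_ge k (k1 + j) with h3 | h3
        · refine (hfin k h1 h3).subset ?_
          rintro σ ⟨h4, h5⟩
          refine ⟨h4, ?_⟩
          intro i hi
          have := h5 i hi
          rwa [Function.update_of_ne (by omega)] at this
        · have h6 : k = k1 + j := by omega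
          rw [h6]
          exact hL'
  obtain ⟨j, hj⟩ := Nat.exists_eq_add_of_le h12
  obtain ⟨t, ht, hfin⟩ := key j (by omega)
  refine hinf k2 (by omega) t ht ?_
  have hU : (⋃ k ∈ Set.Ico k1 k2, (Γ' ∩ G k ∩ Vc e (k + 1) t)).Finite := by
    refine Set.Finite.biUnion (Set.finite_Ico k1 k2) ?_
    intro k hk
    exact hfin k hk.1 (by have := hk.2; omega)
  refine hU.subset ?_
  rintro σ ⟨h1, h2⟩
  obtain ⟨k, h3, h4, h5⟩ := hG σ h1
  refine Set.mem_biUnion (show k ∈ Set.Ico k1 k2 from ⟨h3, h4⟩) ?_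
  refine ⟨⟨h1, h5⟩, ?_⟩
  intro i hi
  exact h2 i (by omega)

end WCGBd
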