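import Pool.Agent.WCGBd.Defs

set_option autoImplicit false

namespace WCGBd

open Filter Topology Set
open scoped ENNReal

private theorem cb_list {W : Type} (step : List W → W) : ∃ (p : ℕ → W) (lst : ℕ → List W),
    (∀ j, p j = step (lst j)) ∧ (∀ j, (lst j).length = j) ∧
    (∀ i j, i < j → (lst j)[i]? = some (p i)) ∧ (∀ i j, i ≤ j → (lst j).take i = lst i) := by
  obtain ⟨lst, h0, hs⟩ : ∃ lst : ℕ → List W, lst 0 = [] ∧ ∀ j, lst (j + 1) = lst j ++ [step (lst j)] :=
    ⟨fun j => Nat.rec [] (fun _ l => l ++ [step l]) j, rfl, fun j => rfl⟩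
  have hlen : ∀ j, (lst j).length = j := by
    intro j
    induction j with
    | zero => rw [h0]; rfl
    | succ j ih => rw [hs, List.length_append, ih]; rfl
  refine ⟨fun j => step (lst j), lst, fun j => rfl, hlen, ?_, ?_⟩
  · intro i j hij
    induction j with
    | zero => omega
    | succ j ih =>
      rw [hs]
      rcases Nat.lt_or_ge i j with h | h
      · rw [List.getElem?_append_left (by rw [hlen]; exact h)]
        exact ih h
      · have h2 : i = j := by omega
        subst h2
        rw [List.getElem?_append_right (by rw [hlen]), hlen, Nat.sub_self]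
        rfl
  · intro i j hij
    induction j with
    | zero =>
      have h2 : i = 0 := by omega
      subst h2
      rw [h0]
      rfl
    | succ j ih =>
      rcases Nat.lt_or_ge i (j + 1) with h | h
      · rw [hs, List.take_append_of_le_length (by rw [hlen]; omega)]
        exact ih (by omega)
      · have h2 : i = j + 1 := by omega
        subst h2
        exact List.take_of_length_le (by rw [hlen])

/-- Build recursively lists: given `p 0, ..., p (j-1)`, let `L j = [(p 0, mm (p 0)), ..., (p (j-1), mm (p (j-1)))]` and choose `p j ∈ G ∩ Vc e (k+1) (update t k (L j))` outside the finite set `⋃ i < j, Af (p i)`. Then `e (p j) i = t i` for `i < k` and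
`e (p j) k = L j`. For `i < j`: `(e (p j) k)[i]? = some (p i, mm (p i))`, `e (p i) k = L i = (L j).take i`, so `Erel e k (p i) (mm (p i)) (p j)` (take `a = p i`). Conversely if `Erel e k τ m (p j)` with witnesses `i, a` then `i < j`, `a = p i` and `e τ = e (p i)`, so `τ = p i`. -/
theorem chain_build {W : Type} (e : W ≃ (ℕ → List (W × ℕ))) (G : Set W) (k : ℕ)
    (t : ℕ → List (W × ℕ)) (hG : ∀ L, (G ∩ Vc e (k + 1) (Function.update t k L)).Infinite)
    (mm : W → ℕ) (Af : W → Finset W) :
    ∃ p : ℕ → W, (∀ j, p j ∈ G) ∧ (∀ i j, i < j → Erel e k (p i) (mm (p i)) (p j)) ∧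
      (∀ i j, i < j → p j ∉ Af (p i)) ∧ (∀ j τ m, Erel e k τ m (p j) → ∃ i < j, τ = p i) := by
  classical
  obtain ⟨f, hf⟩ : ∃ f : W → W × ℕ, ∀ a, f a = (a, mm a) := ⟨fun a => (a, mm a), fun _ => rfl⟩
  have hstep : ∀ l : List W, ∃ w, (w ∈ G ∧ w ∈ Vc e (k + 1) (Function.update t k (l.map f))) ∧
      ∀ a ∈ l, w ∉ Af a := by
    intro l
    have hfin : (⋃ a ∈ l, (Af a : Set W)).Finite := by
      have h1 : (⋃ a ∈ l, (Af a : Set W)) = ⋃ a ∈ l.toFinset, (Af a : Set W) := by
        ext w
        simp
      rw [h1]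
      exact Set.Finite.biUnion l.toFinset.finite_toSet fun a _ => (Af a).finite_toSet
    obtain ⟨w, hw1, hw2⟩ := ((hG (l.map f)).sdiff hfin).nonempty
    refine ⟨w, hw1, fun a ha hwa => hw2 ?_⟩
    exact Set.mem_biUnion ha hwa
  choose step hs1 hs2 using hstep
  obtain ⟨p, lst, hp, hlen, hget, htake⟩ := cb_list step
  have hG' : ∀ j, p j ∈ G := fun j => by rw [hp]; exact (hs1 (lst j)).1
  have hlt : ∀ j i, i < k → e (p j) i = t i := by
    intro j i hi
    have h1 := (hs1 (lst j)).2 i (by omega)
    rw [← hp] at h1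
    rw [h1, Function.update_of_ne (by omega)]
  have hk : ∀ j, e (p j) k = (lst j).map f := by
    intro j
    have h1 := (hs1 (lst j)).2 k (by omega)
    rw [← hp] at h1
    rw [h1, Function.update_self]
  refine ⟨p, hG', ?_, ?_, ?_⟩
  · intro i j hij
    refine ⟨i, p i, ?_, ?_⟩
    · rw [hk, List.getElem?_map, hget i j hij]
      show some (f (p i)) = _
      rw [hf]
    · intro i'
      split_ifs with h1 h2
      · rw [hlt i i' h1, hlt j i' h1]
      · rw [h2, hk, hk, ← List.map_take, htake i j hij.le]
      · rfl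
  · intro i j hij
    rw [hp j]
    refine hs2 (lst j) (p i) ?_
    exact List.mem_of_getElem? (hget i j hij)
  · rintro j τ m ⟨j', a, h1, h2⟩
    rw [hk, List.getElem?_map] at h1
    have hj' : j' < j := by
      by_contra hcon
      rw [List.getElem?_eq_none (by rw [hlen]; omega)] at h1
      simp at h1
    rw [hget j' j hj'] at h1
    have h3 : f (p j') = (a, m) := Option.some.inj h1
    rw [hf] at h3
    have h4 : p j' = a := congrArg Prod.fst h3
    refine ⟨j', hj', ?_⟩
    apply e.injective
    funext i
    rw [h2 i]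
    split_ifs with h5 h6
    · rw [hlt j i h5, hlt j' i h5]
    · rw [h6, hk, hk, ← List.map_take, htake j' j hj'.le]
    · rw [h4]

end WCGBd
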