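import Pool.Agent.WCGBd.Defs

set_option autoImplicit false

namespace WCGBd

open Filter Topology Set
open scoped ENNReal

/-- Case distinction on `d`. For `d = inl τ`: both are `(1/2)^(blk k)` or `0` according to whether `E k τ _ σ'`, resp. `E k τ _ σ` or `σ = τ`; use `hav`, `hE`, `trans`. For `d = inr (τ, h, M)`: if `E k τ m1 σ'` with `m1 ≤ M`, then by `hav` `τ = σ` (then `m1 = m` by `uniq`, but
`m > M`) or `E k τ m'' σ` (then `m'' = m1` by `trans` and `uniq`); conversely `trans`. -/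
theorem val_eq {W : Type} {E : ℕ → W → ℕ → W → Prop} {len : W → ℕ → ℕ} (ht : TreeData E len)
    (d : Dd W) (k : ℕ) (σ σ' : W) (m : ℕ) (hE : E k σ m σ') (hm : idxD d < m)
    (hav : ∀ m', E k (nodeD d) m' σ' → nodeD d = σ ∨ ∃ m'', E k (nodeD d) m'' σ) :
    val E d (σ', k, false) = val E d (σ, k, true) := by
  classical
  rcases d with τ | ⟨τ, h, M⟩
  · have hav' : ∀ m', E k τ m' σ' → τ = σ ∨ ∃ m'', E k τ m'' σ := hav
    have key : ((∃ m1, E k τ m1 σ') ∨ (false = true ∧ σ' = τ)) ↔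
        ((∃ m1, E k τ m1 σ) ∨ (true = true ∧ σ = τ)) := by
      constructor
      · rintro (⟨m1, h1⟩ | ⟨h1, _⟩)
        · rcases hav' m1 h1 with h2 | h2
          · exact Or.inr ⟨rfl, h2.symm⟩
          · exact Or.inl h2
        · exact absurd h1 (by decide)
      · rintro (⟨m1, h1⟩ | ⟨_, h1⟩)
        · exact Or.inl ⟨m1, ht.trans h1 hE⟩
        · subst h1
          exact Or.inl ⟨m, hE⟩
    exact if_congr key rfl rfl
  · have hav' : ∀ m', E k τ m' σ' → τ = σ ∨ ∃ m'', E k τ m'' σ := hav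
    have hm' : M < m := hm
    have key : (Hm h k ∧ ∃ m1 ≤ M, E k τ m1 σ') ↔ (Hm h k ∧ ∃ m1 ≤ M, E k τ m1 σ) := by
      constructor
      · rintro ⟨hh, m1, hm1, h1⟩
        refine ⟨hh, ?_⟩
        rcases hav' m1 h1 with h2 | ⟨m2, h2⟩
        · subst h2
          have := ht.uniq h1 hE
          omega
        · have h3 := ht.uniq (ht.trans h2 hE) h1
          exact ⟨m1, hm1, h3 ▸ h2⟩
      · rintro ⟨hh, m1, hm1, h1⟩
        exact ⟨hh, m1, hm1, ht.trans h1 hE⟩
    exact if_congr key rfl rfl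

end WCGBd
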