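import Pool.Agent.WCGBd.Defs
import Pool.Agent.WCGBd.JA1
import Pool.Agent.WCGBd.JD0

set_option autoImplicit false

namespace WCGBd

open Filter Topology Set
open scoped ENNReal

/-- `C` from `wk_bdd`. `x* σ z = S z (σ, 0, true) - S z (σ, 0, false)` is a continuous linear functional of `z`, equal to `1` at `z = ι (dl (inl σ))` (`T_basic`, `Fac.comp`, `len_lt`; `blk 0 = 0`). If it vanished on `K` it would vanish on the closed span of `K`. -/
theorem choose_z {𝕜 W X : Type} [RCLike 𝕜] [NormedAddCommGroup X] [NormedSpace 𝕜 X]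
    {E : ℕ → W → ℕ → W → Prop} {len : W → ℕ → ℕ}
    {T : L1 𝕜 (Dd W) →L[𝕜] Li 𝕜 (Om W)} {ι : L1 𝕜 (Dd W) →L[𝕜] X} {S : X →L[𝕜] Li 𝕜 (Om W)}
    (hs : Setting E len T ι S) (K : Set X) (hK : IsCompact (toWeakSpace 𝕜 X '' K))
    (hd : (Submodule.span 𝕜 K).topologicalClosure = ⊤) :
    ∃ (C : ℝ) (z : W → X), 0 < C ∧ (∀ σ, z σ ∈ K ∧ ‖z σ‖ ≤ C ∧
      S (z σ) (σ, 0, true) - S (z σ) (σ, 0, false) ≠ 0) := by
  obtain ⟨C, hC, hK2⟩ := wk_bdd (𝕜 := 𝕜) hK
  have key : ∀ σ : W, ∃ z ∈ K, S z (σ, 0, true) - S z (σ, 0, false) ≠ 0 := by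
    intro σ
    by_contra hcon
    push Not at hcon
    have hlin : ∀ o : Om W, ∃ f : X →L[𝕜] 𝕜, ∀ x, f x = S x o := by
      intro o
      let g : X →ₗ[𝕜] 𝕜 :=
        { toFun := fun x => S x o
          map_add' := fun x y => by rw [map_add, lp.coeFn_add, Pi.add_apply]
          map_smul' := fun c x => by rw [map_smul, lp.coeFn_smul, Pi.smul_apply, RingHom.id_apply] }
      refine ⟨g.mkContinuous ‖S‖ fun x => ?_, fun x => rfl⟩
      exact (lp.norm_apply_le_norm ENNReal.top_ne_zero (S x) o).trans (S.le_opNorm x)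
    obtain ⟨f1, hf1⟩ := hlin (σ, 0, true)
    obtain ⟨f2, hf2⟩ := hlin (σ, 0, false)
    have hsub : Submodule.span 𝕜 K ≤ LinearMap.ker ((f1 - f2 : X →L[𝕜] 𝕜) : X →ₗ[𝕜] 𝕜) := by
      rw [Submodule.span_le]
      intro z hz
      change (f1 - f2) z = 0
      rw [ContinuousLinearMap.sub_apply, hf1, hf2]
      exact hcon z hz
    have hcl : (Submodule.span 𝕜 K).topologicalClosure ≤ LinearMap.ker ((f1 - f2 : X →L[𝕜] 𝕜) : X →ₗ[𝕜] 𝕜) :=
      Submodule.topologicalClosure_minimal _ hsub (ContinuousLinearMap.isClosed_ker _)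
    rw [hd] at hcl
    have h0 : (f1 - f2) (ι (dl 𝕜 (Sum.inl σ))) = 0 := hcl (Submodule.mem_top : ι (dl 𝕜 (Sum.inl σ)) ∈ _)
    rw [ContinuousLinearMap.sub_apply, hf1, hf2, hs.fac.comp] at h0
    have hb := (T_basic hs.isT).1
    rw [hb, hb] at h0
    have hno : ¬ ∃ m, E 0 σ m σ := fun ⟨m, hm⟩ => absurd (hs.tree.len_lt hm) (lt_irrefl _)
    have hb0 : blk 0 = 0 := by simp [blk]
    have v1 : val E (Sum.inl σ) (σ, 0, true) = 1 := by
      simp [val, hb0]
    have v2 : val E (Sum.inl σ) (σ, 0, false) = 0 := by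
      simp only [val]
      rw [if_neg]
      rintro (h | h)
      · exact hno h
      · exact absurd h.1 (by simp)
    rw [v1, v2] at h0
    simp at h0
  choose z hz using key
  exact ⟨C, z, hC, fun σ => ⟨(hz σ).1, hK2 _ (hz σ).1, (hz σ).2⟩⟩

end WCGBd
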