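import Pool.Agent.WCGBd.Defs
import Pool.Agent.WCGBd.JC7
import Pool.Agent.WCGBd.JE2
import Pool.Agent.WCGBd.JE3
import Pool.Agent.WCGBd.JE4

set_option autoImplicit false

namespace WCGBd

open Filter Topology Set
open scoped ENNReal

/-- `Γ n = {σ | 1/(n+1) ≤ ‖S (z σ) (σ, 0, true) - S (z σ) (σ, 0, false)‖}`; take `n, k0, t0` from `baire_code`. Put `c = 1/(4 (n+1))`, `i0` from `count_bound`; choose `i ≥ i0` with `8^i - 1 ≥ k0` and let `k1 = 8^i - 1`, `k2 = 8^(i+1) - 1` (so `Iblk i = Ico k1 k2`).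
`G' k = {σ | ∀ τ, (τ = σ ∨ ∃ m, E k τ m σ) → ‖S (z σ) (τ, k, false)‖ ≤ c * (1/2)^i}`. Every `σ` is in `G' k` for some `k ∈ Iblk i` (otherwise choose bad `τ k` for `k ∈ Iblk i`, and `τ k = σ` for the other `k`, contradicting `count_bound`). `fusion` gives `k, t`; `blk k = i` by `mem_Iblk`; `G = Γ n ∩ G' k`. -/
theorem select_G {𝕜 W X : Type} [RCLike 𝕜] [NormedAddCommGroup X] [NormedSpace 𝕜 X]
    (e : W ≃ (ℕ → List (W × ℕ))) {len : W → ℕ → ℕ}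
    {T : L1 𝕜 (Dd W) →L[𝕜] Li 𝕜 (Om W)} {ι : L1 𝕜 (Dd W) →L[𝕜] X} {S : X →L[𝕜] Li 𝕜 (Om W)}
    (hs : Setting (Erel e) len T ι S) (C : ℝ) (hC : 0 < C) (z : W → X) (hz : ∀ σ, ‖z σ‖ ≤ C)
    (hne : ∀ σ, S (z σ) (σ, 0, true) - S (z σ) (σ, 0, false) ≠ 0) :
    ∃ (n k : ℕ) (t : ℕ → List (W × ℕ)) (G : Set W),
      (∀ σ ∈ G, 1 / ((n : ℝ) + 1) ≤ ‖S (z σ) (σ, 0, true) - S (z σ) (σ, 0, false)‖) ∧
      (∀ σ ∈ G, ∀ τ, (τ = σ ∨ ∃ m, Erel e k τ m σ) →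
        ‖S (z σ) (τ, k, false)‖ ≤ 1 / (4 * ((n : ℝ) + 1)) * (1 / 2) ^ (blk k)) ∧
      (∀ L, (G ∩ Vc e (k + 1) (Function.update t k L)).Infinite) := by
  classical
  let Γ : ℕ → Set W := fun n =>
    {σ | 1 / ((n : ℝ) + 1) ≤ ‖S (z σ) (σ, 0, true) - S (z σ) (σ, 0, false)‖}
  have hΓ : ∀ σ, ∃ n, σ ∈ Γ n := by
    intro σ
    have hp : 0 < ‖S (z σ) (σ, 0, true) - S (z σ) (σ, 0, false)‖ := norm_pos_iff.mpr (hne σ)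
    obtain ⟨n, hn⟩ := exists_nat_one_div_lt hp
    exact ⟨n, hn.le⟩
  obtain ⟨n, k0, t0, hinf⟩ := baire_code e Γ hΓ
  obtain ⟨c, hc⟩ : ∃ c : ℝ, c = 1 / (4 * ((n : ℝ) + 1)) := ⟨_, rfl⟩
  have hc0 : 0 < c := by rw [hc]; positivity
  obtain ⟨i0, hi0⟩ := count_bound hs C c hC hc0
  obtain ⟨i, hi, hik⟩ : ∃ i, i0 ≤ i ∧ k0 ≤ 8 ^ i - 1 := by
    refine ⟨i0 + k0, Nat.le_add_right _ _, ?_⟩
    have h1 : i0 + k0 < 8 ^ (i0 + k0) := Nat.lt_pow_self (by norm_num)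
    omega
  let G' : ℕ → Set W := fun k =>
    {σ | ∀ τ, (τ = σ ∨ ∃ m, Erel e k τ m σ) → ‖S (z σ) (τ, k, false)‖ ≤ c * (1 / 2) ^ i}
  have hG : ∀ σ ∈ Γ n, ∃ k, 8 ^ i - 1 ≤ k ∧ k < 8 ^ (i + 1) - 1 ∧ σ ∈ G' k := by
    intro σ _
    by_contra hcon
    have hbad : ∀ k, ∃ τ, (τ = σ ∨ ∃ m, Erel e k τ m σ) ∧
        (k ∈ Iblk i → ¬ ‖S (z σ) (τ, k, false)‖ ≤ c * (1 / 2) ^ i) := by
      intro k
      by_cases hk : k ∈ Iblk i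
      · have hk' := hk
        simp only [Iblk, Finset.mem_Ico] at hk'
        by_contra hno
        refine hcon ⟨k, hk'.1, hk'.2, ?_⟩
        intro τ hτ
        by_contra h2
        exact hno ⟨τ, hτ, fun _ => h2⟩
      · exact ⟨σ, Or.inl rfl, fun h => absurd h hk⟩
    choose τ hτ1 hτ2 using hbad
    obtain ⟨k, hk, hk2⟩ := hi0 i hi (z σ) (hz σ) σ τ hτ1
    exact hτ2 k hk hk2
  have h12 : 8 ^ i - 1 ≤ 8 ^ (i + 1) - 1 :=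
    Nat.sub_le_sub_right (Nat.pow_le_pow_right (by norm_num) (Nat.le_succ i)) 1
  obtain ⟨k, hk1, hk2, t, ht⟩ :=
    fusion e (Γ n) G' k0 (8 ^ i - 1) (8 ^ (i + 1) - 1) hik h12 t0 hinf hG
  have hblk : blk k = i :=
    (mem_Iblk i k).1 (by simp only [Iblk, Finset.mem_Ico]; exact ⟨hk1, hk2⟩)
  refine ⟨n, k, t, Γ n ∩ G' k, fun σ hσ => hσ.1, fun σ hσ τ hτ => ?_, ht⟩
  rw [hblk, ← hc]
  exact hσ.2 τ hτ

end WCGBd
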