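import Pool.Agent.WCGBd.Defs

set_option autoImplicit false

namespace WCGBd

open Filter Topology Set
open scoped ENNReal

/-- The range of `ι` is dense, `ι` is continuous and the finitely supported vectors are dense in `ℓ¹` (`lp.hasSum_single`). -/
theorem fin_approx {𝕜 W X : Type} [RCLike 𝕜] [NormedAddCommGroup X] [NormedSpace 𝕜 X]
    {E : ℕ → W → ℕ → W → Prop} {len : W → ℕ → ℕ}
    {T : L1 𝕜 (Dd W) →L[𝕜] Li 𝕜 (Om W)} {ι : L1 𝕜 (Dd W) →L[𝕜] X} {S : X →L[𝕜] Li 𝕜 (Om W)}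
    (hs : Setting E len T ι S) (z : X) (η : ℝ) (hη : 0 < η) :
    ∃ (F : Finset (Dd W)) (c : Dd W → 𝕜), ‖z - ι (∑ d ∈ F, c d • dl 𝕜 d)‖ ≤ η := by
  classical
  obtain ⟨u, hu⟩ := Metric.denseRange_iff.1 hs.fac.dense z (η / 2) (half_pos hη)
  have h1 : HasSum (fun d => lp.single 1 d (u d)) u := lp.hasSum_single ENNReal.one_ne_top u
  have h2 : ∀ d, lp.single 1 d (u d) = u d • dl 𝕜 d := by
    intro d
    have h3 : dl 𝕜 d = lp.single 1 d (1 : 𝕜) := by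
      unfold dl
      congr
    rw [h3, ← lp.single_smul, smul_eq_mul, mul_one]
  simp only [h2] at h1
  have h4 : Tendsto (fun F : Finset (Dd W) => ι (∑ d ∈ F, u d • dl 𝕜 d)) atTop (𝓝 (ι u)) :=
    (ι.continuous.tendsto u).comp h1
  obtain ⟨F, hF⟩ := ((Metric.tendsto_nhds.1 h4) (η / 2) (half_pos hη)).exists
  refine ⟨F, fun d => u d, ?_⟩
  rw [← dist_eq_norm]
  have h5 := dist_triangle z (ι u) (ι (∑ d ∈ F, u d • dl 𝕜 d))
  rw [dist_comm] at hF
  linarith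

end WCGBd
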