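import Pool.Agent.WCGBd.Defs
import Pool.Agent.WCGBd.JD0
import Pool.Agent.WCGBd.JE1
import Pool.Agent.WCGBd.JE5
import Pool.Agent.WCGBd.JE6
import Pool.Agent.WCGBd.JE7c

set_option autoImplicit false

namespace WCGBd

open Filter Topology Set
open scoped ENNReal

private theorem ev_le {𝕜 W : Type} [RCLike 𝕜] (f : Li 𝕜 (Om W)) (o : Om W) : ‖f o‖ ≤ ‖f‖ :=
  lp.norm_apply_le_norm ENNReal.top_ne_zero f o

private noncomputable def evS {𝕜 W X : Type} [RCLike 𝕜] [NormedAddCommGroup X] [NormedSpace 𝕜 X]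
    (S : X →L[𝕜] Li 𝕜 (Om W)) (o : Om W) : StrongDual 𝕜 X :=
  LinearMap.mkContinuous
    { toFun := fun x => S x o
      map_add' := fun x y => by rw [map_add]; rfl
      map_smul' := fun c x => by rw [map_smul]; rfl } ‖S‖
    (fun x => (ev_le (S x) o).trans (S.le_opNorm x))

private theorem evS_apply {𝕜 W X : Type} [RCLike 𝕜] [NormedAddCommGroup X] [NormedSpace 𝕜 X]
    (S : X →L[𝕜] Li 𝕜 (Om W)) (o : Om W) (x : X) : evS S o x = S x o := rfl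

private theorem evS_norm {𝕜 W X : Type} [RCLike 𝕜] [NormedAddCommGroup X] [NormedSpace 𝕜 X]
    (S : X →L[𝕜] Li 𝕜 (Om W)) (o : Om W) : ‖evS S o‖ ≤ ‖S‖ :=
  LinearMap.mkContinuous_norm_le _ (norm_nonneg _) _

private theorem S_fin {𝕜 W X : Type} [RCLike 𝕜] [NormedAddCommGroup X] [NormedSpace 𝕜 X]
    {E : ℕ → W → ℕ → W → Prop} {len : W → ℕ → ℕ}
    {T : L1 𝕜 (Dd W) →L[𝕜] Li 𝕜 (Om W)} {ι : L1 𝕜 (Dd W) →L[𝕜] X} {S : X →L[𝕜] Li 𝕜 (Om W)}
    (hs : Setting E len T ι S) (F : Finset (Dd W)) (c : Dd W → 𝕜) (o : Om W) :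
    S (ι (∑ d ∈ F, c d • dl 𝕜 d)) o = ∑ d ∈ F, c d * ((val E d o : ℝ) : 𝕜) := by
  have h : evS S o (ι (∑ d ∈ F, c d • dl 𝕜 d)) = ∑ d ∈ F, c d * ((val E d o : ℝ) : 𝕜) := by
    rw [map_sum, map_sum]
    refine Finset.sum_congr rfl fun d _ => ?_
    rw [map_smul, map_smul, smul_eq_mul, evS_apply, hs.fac.comp, (T_basic hs.isT).1 d o]
  exact h

/-- Let `δ = (1/2)^(blk k)/(n+1)`. For `σ ∈ G`: `‖S (z σ) (σ, k, true)‖ ≥ δ - δ/4` by `xs_coord`. Choose `F σ, c σ` from `fin_approx` with `η = δ / (16 * (‖S‖ + 1))` and let `u σ = ∑ d ∈ F σ, c σ d • dl d`, so `‖S (z σ) o - S (ι (u σ)) o‖ ≤ δ/16` for all `o`. `mm σ = 1 + ` max of `idxD` over `F σ`, `Af σ` = the nodes of the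
elements of `F σ`. `chain_build` gives `p`. Let `φ j = (evaluation at (p j, k, false)) ∘ S` (`evA`), `‖φ j‖ ≤ ‖S‖`. If `j ≤ i` then `p j = p i` or `E k (p j) _ (p i)`, so `‖φ j (z (p i))‖ ≤ δ/4`. If `i < j` then by `val_eq` (for every `d ∈ F (p i)`, with `m = mm (p i)`;
`hav`: `E k (nodeD d) m' (p j)` gives `nodeD d = p l` for some `l < j`; if `l > i` this contradicts `p l ∉ Af (p i)`; if `l = i` fine; if `l < i` then `E k (p l) _ (p i)`) `S (ι (u (p i))) (p j, k, false) = S (ι (u (p i))) (p i, k, true)`, so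
`‖φ j (z (p i))‖ ≥ 3δ/4 - δ/8 ≥ δ/2`. Take `a = δ/4`, `b = δ/2`. -/
theorem build_seq {𝕜 W X : Type} [RCLike 𝕜] [NormedAddCommGroup X] [NormedSpace 𝕜 X]
    (e : W ≃ (ℕ → List (W × ℕ))) {len : W → ℕ → ℕ}
    {T : L1 𝕜 (Dd W) →L[𝕜] Li 𝕜 (Om W)} {ι : L1 𝕜 (Dd W) →L[𝕜] X} {S : X →L[𝕜] Li 𝕜 (Om W)}
    (hs : Setting (Erel e) len T ι S) (z : W → X) (n k : ℕ) (t : ℕ → List (W × ℕ)) (G : Set W)
    (h1 : ∀ σ ∈ G, 1 / ((n : ℝ) + 1) ≤ ‖S (z σ) (σ, 0, true) - S (z σ) (σ, 0, false)‖)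
    (h2 : ∀ σ ∈ G, ∀ τ, (τ = σ ∨ ∃ m, Erel e k τ m σ) →
        ‖S (z σ) (τ, k, false)‖ ≤ 1 / (4 * ((n : ℝ) + 1)) * (1 / 2) ^ (blk k))
    (h3 : ∀ L, (G ∩ Vc e (k + 1) (Function.update t k L)).Infinite) :
    ∃ (p : ℕ → W) (φ : ℕ → StrongDual 𝕜 X) (C' a b : ℝ), a < b ∧ (∀ j, ‖φ j‖ ≤ C') ∧
      (∀ i j, j ≤ i → ‖φ j (z (p i))‖ ≤ a) ∧ (∀ i j, i < j → b ≤ ‖φ j (z (p i))‖) := by
  classical
  set δ : ℝ := (1 / 2 : ℝ) ^ (blk k) / ((n : ℝ) + 1) with hδ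
  have hn : (0 : ℝ) < (n : ℝ) + 1 := by positivity
  have hpw : (0 : ℝ) < (1 / 2 : ℝ) ^ (blk k) := by positivity
  have hδ0 : 0 < δ := div_pos hpw hn
  have hδ4 : 1 / (4 * ((n : ℝ) + 1)) * (1 / 2 : ℝ) ^ (blk k) = δ / 4 := by
    rw [hδ]; field_simp
  -- step 1
  have hbig : ∀ σ ∈ G, 3 * δ / 4 ≤ ‖S (z σ) (σ, k, true)‖ := by
    intro σ hσ
    have e1 := xs_coord hs (z σ) σ k
    have e2 := h1 σ hσ
    have e3 := h2 σ hσ σ (Or.inl rfl)
    rw [hδ4] at e3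
    have e4 : δ ≤ ‖S (z σ) (σ, k, true) - S (z σ) (σ, k, false)‖ := by
      rw [e1, norm_mul]
      have : ‖(((1 / 2 : ℝ) ^ (blk k) : ℝ) : 𝕜)‖ = (1 / 2 : ℝ) ^ (blk k) := by
        rw [RCLike.norm_ofReal, abs_of_pos hpw]
      rw [this]
      calc δ = (1 / 2 : ℝ) ^ (blk k) * (1 / ((n : ℝ) + 1)) := by rw [hδ]; ring
        _ ≤ _ := mul_le_mul_of_nonneg_left e2 hpw.le
    have e5 := norm_sub_le (S (z σ) (σ, k, true)) (S (z σ) (σ, k, false))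
    linarith
  -- step 2
  have hη : 0 < δ / (16 * (‖S‖ + 1)) := by positivity
  choose F c hFc using fun σ => fin_approx hs (z σ) (δ / (16 * (‖S‖ + 1))) hη
  have happ : ∀ σ o, ‖S (z σ) o - S (ι (∑ d ∈ F σ, c σ d • dl 𝕜 d)) o‖ ≤ δ / 16 := by
    intro σ o
    have e1 : ‖evS S o (z σ - ι (∑ d ∈ F σ, c σ d • dl 𝕜 d))‖ ≤
        ‖S‖ * (δ / (16 * (‖S‖ + 1))) :=
      ((evS S o).le_opNorm _).trans
        (mul_le_mul (evS_norm S o) (hFc σ) (norm_nonneg _) (norm_nonneg _))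
    rw [map_sub, evS_apply, evS_apply] at e1
    refine e1.trans ?_
    have hS : 0 ≤ ‖S‖ := norm_nonneg _
    rw [mul_div_assoc', div_le_div_iff₀ (by positivity) (by norm_num)]
    nlinarith
  -- step 3
  obtain ⟨p, hpG, hpE, hpA, hpP⟩ := chain_build e G k t h3
    (fun σ => (F σ).sup idxD + 1) (fun σ => (F σ).image nodeD)
  -- step 4
  refine ⟨p, fun j => evS S (p j, k, false), ‖S‖, δ / 4, δ / 2, by linarith,
    fun j => evS_norm S _, ?_, ?_⟩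
  · intro i j hji
    have h := h2 (p i) (hpG i) (p j) (by
      rcases hji.eq_or_lt with h | h
      · left; rw [h]
      · right; exact ⟨_, hpE j i h⟩)
    rw [hδ4] at h
    exact h
  · intro i j hij
    have hval : S (ι (∑ d ∈ F (p i), c (p i) d • dl 𝕜 d)) (p j, k, false) =
        S (ι (∑ d ∈ F (p i), c (p i) d • dl 𝕜 d)) (p i, k, true) := by
      rw [S_fin hs, S_fin hs]
      refine Finset.sum_congr rfl fun d hd => ?_
      rw [val_eq hs.tree d k (p i) (p j) _ (hpE i j hij)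
        (Nat.lt_succ_of_le (Finset.le_sup (f := idxD) hd))]
      intro m' hm'
      obtain ⟨l, hl, hle⟩ := hpP j _ _ hm'
      rcases lt_trichotomy l i with h | h | h
      · right
        rw [hle]
        exact ⟨_, hpE l i h⟩
      · left; rw [hle, h]
      · exfalso
        apply hpA i l h
        rw [← hle]
        exact Finset.mem_image_of_mem _ hd
    have a1 := happ (p i) (p j, k, false)
    have a2 := happ (p i) (p i, k, true)
    rw [hval] at a1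
    have a3 := hbig (p i) (hpG i)
    have a4 := norm_sub_norm_le (S (z (p i)) (p i, k, true))
      (S (ι (∑ d ∈ F (p i), c (p i) d • dl 𝕜 d)) (p i, k, true))
    have a5 := norm_sub_norm_le (S (ι (∑ d ∈ F (p i), c (p i) d • dl 𝕜 d)) (p i, k, true))
      (S (z (p i)) (p j, k, false))
    rw [norm_sub_rev] at a5
    change δ / 2 ≤ ‖S (z (p i)) (p j, k, false)‖
    linarith

end WCGBd
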