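import Pool.Agent.WCGBd.Defs
import Pool.Agent.WCGBd.JA2
import Pool.Agent.WCGBd.JE7a
import Pool.Agent.WCGBd.JE7b
import Pool.Agent.WCGBd.JE7d

set_option autoImplicit false

namespace WCGBd

open Filter Topology Set
open scoped ENNReal

/-- `choose_z`, `select_G`, `build_seq`, `dbl_limit` (for `fun i => z (p i)`). -/
theorem not_wcg {𝕜 W X : Type} [RCLike 𝕜] [NormedAddCommGroup X] [NormedSpace 𝕜 X]
    (e : W ≃ (ℕ → List (W × ℕ))) {len : W → ℕ → ℕ}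
    {T : L1 𝕜 (Dd W) →L[𝕜] Li 𝕜 (Om W)} {ι : L1 𝕜 (Dd W) →L[𝕜] X} {S : X →L[𝕜] Li 𝕜 (Om W)}
    (hs : Setting (Erel e) len T ι S) : ¬ IsWCG 𝕜 X := by
  rintro ⟨K, hK, hd⟩
  obtain ⟨C, z, hC, hz⟩ := choose_z hs K hK hd
  obtain ⟨n, k, t, G, h1, h2, h3⟩ := select_G e hs C hC z (fun σ => (hz σ).2.1)
    (fun σ => (hz σ).2.2)
  obtain ⟨p, φ, C', a, b, hab, hφ, h4, h5⟩ := build_seq e hs z n k t G h1 h2 h3
  exact dbl_limit hK (fun i => z (p i)) (fun i => (hz _).1) φ C' hφ a b hab h4 h5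

end WCGBd
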