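import Pool.Agent.WCGBd.Defs
import Pool.Agent.WCGBd.JA9
import Pool.Agent.WCGBd.JC0
import Pool.Agent.WCGBd.JC1
import Pool.Agent.WCGBd.JD0
import Pool.Agent.WCGBd.JD19a
import Pool.Agent.WCGBd.JD19b
import Pool.Agent.WCGBd.JD5
import Pool.Agent.WCGBd.JE7

set_option autoImplicit false

namespace WCGBd

open Filter Topology Set
open scoped ENNReal

/-- Assembly: `exists_code`, `treeData_Erel`, `exists_T`, `fac_exists`, `exists_lims`, `Nsp_top`, `wcg_of_top`, `not_wcg`. -/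
theorem main_theorem (𝕜 : Type) [RCLike 𝕜] : ∃ (X : Type) (_ : NormedAddCommGroup X)
    (_ : NormedSpace 𝕜 X) (_ : CompleteSpace X),
    IsWCG 𝕜 (StrongDual 𝕜 (StrongDual 𝕜 X)) ∧ ¬ IsWCG 𝕜 X := by
  obtain ⟨W, ⟨e⟩⟩ := exists_code
  have htree := treeData_Erel e
  obtain ⟨T, hT⟩ := exists_T 𝕜 (Erel e)
  obtain ⟨X, _, _, hX, ι, S, hfac⟩ := fac_exists T
  have hs : Setting (Erel e) (fun σ k => (e σ k).length) T ι S := ⟨htree, hT, hfac⟩
  obtain ⟨v, br, hh, hl⟩ := exists_lims hs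
  exact ⟨X, _, _, hX, wcg_of_top hs hl (Nsp_top hs hl), not_wcg e hs⟩

end WCGBd
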